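import Mathlib

set_option autoImplicit false

/-!
# Clones, the Bergman property, and Fraisse limits of metric spaces: definitions
-/

namespace Pool.Agent.Helper59.Bergman
/-- `Oper A n` is the set `O_A^{(n+1)}` of all `(n+1)`-ary operations on `A`
(all arities are at least one). -/
abbrev Oper (A : Type) (n : ℕ) : Type := (Fin (n + 1) → A) → A

/-- A set of operations on `A`; `F n` is its set of `(n+1)`-ary members. -/
abbrev OpSet (A : Type) : Type := ∀ n : ℕ, Set (Oper A n)

/-- The projections `e_i`. -/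
def proj {A : Type} (n : ℕ) (i : Fin (n + 1)) : Oper A n := fun x => x i

/-- The composition `f ∘ ⟨g_0, …, g_n⟩`. -/
def comp {A : Type} {n m : ℕ} (f : Oper A n) (g : Fin (n + 1) → Oper A m) : Oper A m :=
  fun x => f (fun i => g i x)

/-- A clone: contains all projections and is closed under composition. -/
structure IsClone {A : Type} (F : OpSet A) : Prop where
  proj_mem : ∀ (n : ℕ) (i : Fin (n + 1)), proj n i ∈ F n
  comp_mem : ∀ (n m : ℕ) (f : Oper A n) (g : Fin (n + 1) → Oper A m),
    f ∈ F n → (∀ i, g i ∈ F m) → comp f g ∈ F m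

/-- `H` generates `F`: `F` is the smallest clone containing `H`. -/
def Generates {A : Type} (H F : OpSet A) : Prop :=
  IsClone F ∧ (∀ n, H n ⊆ F n) ∧
    ∀ G : OpSet A, IsClone G → (∀ n, H n ⊆ G n) → ∀ n, F n ⊆ G n

/-- `terms H k i` is `H^{[k+1,i]}`: the `(k+1)`-ary operations given by terms over `H` of depth
at most `i`. -/
def terms {A : Type} (H : OpSet A) (k : ℕ) : ℕ → Set (Oper A k)
  | 0 => {h | ∃ i, h = proj k i}
  | i + 1 => {h | ∃ (n : ℕ) (f : Oper A n) (g : Fin (n + 1) → Oper A k),
      f ∈ H n ∧ (∀ j, g j ∈ terms H k i) ∧ h = comp f g} ∪ terms H k i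

/-- The Bergman property of a clone. -/
def BergmanProperty {A : Type} (F : OpSet A) : Prop :=
  ∀ H : OpSet A, Generates H F → ∀ k : ℕ, ∃ n : ℕ, terms H k n = F k

/-- The polymorphisms of a structure with binary relations `R i`. -/
def Pol {A I : Type} (R : I → A → A → Prop) : OpSet A := fun n =>
  {f | ∀ (i : I) (x y : Fin (n + 1) → A), (∀ j, R i (x j) (y j)) → R i (f x) (f y)}

/-- The relations `R_q = {(x,y) : d(x,y) ≤ q}`, `q ≥ 0` rational, of a metric space. -/
def metricRel (X : Type) [MetricSpace X] : {q : ℚ // 0 ≤ q} → X → X → Prop :=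
  fun q x y => dist x y ≤ ((q : ℚ) : ℝ)

/-- `X` is the Fraisse limit of the class of finite metric spaces with all distances in `D`. -/
structure IsFraisseLimit (D : Set ℝ) (X : Type) [MetricSpace X] : Prop where
  countable : Countable X
  dist_mem : ∀ x y : X, dist x y ∈ D
  universal : ∀ (Y : Type) [MetricSpace Y] [Finite Y],
    (∀ y z : Y, dist y z ∈ D) → ∃ e : Y → X, Isometry e
  homogeneous : ∀ A : Set X, A.Finite → ∀ f : A → X, Isometry f →
    ∃ g : X ≃ᵢ X, ∀ a : A, g a = f a

/-- The rational numbers as a set of reals. -/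
def ratDist : Set ℝ := {r | ∃ q : ℚ, r = q}

/-- The rational numbers `≤ 1` as a set of reals. -/
def ratDistOne : Set ℝ := {r | (∃ q : ℚ, r = q) ∧ r ≤ 1}

end Pool.Agent.Helper59.Bergman
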