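import Pool.Agent.Helper59.BergmanDefs

set_option autoImplicit false

/-!
# The Bergman property for three polymorphism clones: proofs
-/

namespace Pool.Agent.Helper59.Bergman

section general

variable {A : Type}

theorem terms_succ_of_le (H : OpSet A) (k i : ℕ) : terms H k i ⊆ terms H k (i + 1) :=
  fun _ h => Or.inr h

theorem terms_mono (H : OpSet A) (k : ℕ) {i j : ℕ} (h : i ≤ j) : terms H k i ⊆ terms H k j := by
  induction h with
  | refl => exact fun _ h => h
  | step _ ih => exact fun x hx => terms_succ_of_le H k _ (ih hx)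

theorem proj_mem_terms (H : OpSet A) (k i : ℕ) (j : Fin (k + 1)) : proj k j ∈ terms H k i :=
  terms_mono H k (Nat.zero_le i) ⟨j, rfl⟩

theorem comp_mem_terms {H : OpSet A} {n k i : ℕ} {f : Oper A n} (hf : f ∈ H n)
    {g : Fin (n + 1) → Oper A k} (hg : ∀ j, g j ∈ terms H k i) :
    comp f g ∈ terms H k (i + 1) :=
  Or.inl ⟨n, f, g, hf, hg, rfl⟩

/-- Substitution of terms in terms. -/
theorem subst_mem_terms (H : OpSet A) {r k : ℕ} (m p : ℕ) :
    ∀ (t : Oper A r), t ∈ terms H r m → ∀ g : Fin (r + 1) → Oper A k,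
      (∀ j, g j ∈ terms H k p) → comp t g ∈ terms H k (m + p) := by
  induction m with
  | zero =>
    rintro t ⟨i, rfl⟩ g hg
    have : comp (proj r i) g = g i := rfl
    rw [this, Nat.zero_add]
    exact hg i
  | succ m ih =>
    rintro t (⟨n, f, u, hf, hu, rfl⟩ | ht) g hg
    · have h1 : comp (comp f u) g = comp f (fun j => comp (u j) g) := rfl
      rw [h1, Nat.succ_add]
      exact comp_mem_terms hf (fun j => ih (u j) (hu j) g hg)
    · rw [Nat.succ_add]
      exact terms_succ_of_le H k _ (ih t ht g hg)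

theorem isClone_iUnion_terms (H : OpSet A) : IsClone (fun k => {f | ∃ i, f ∈ terms H k i}) where
  proj_mem n i := ⟨0, i, rfl⟩
  comp_mem n m f g := by
    rintro ⟨i, hi⟩ hg
    choose p hp using hg
    refine ⟨i + Finset.univ.sup p, subst_mem_terms H i _ f hi g (fun j => ?_)⟩
    exact terms_mono H m (Finset.le_sup (Finset.mem_univ j)) (hp j)

theorem mem_terms_one {H : OpSet A} {n : ℕ} {f : Oper A n} (hf : f ∈ H n) :
    f ∈ terms H n 1 := by
  have : f = comp f (fun i => proj n i) := rfl
  rw [this]
  exact comp_mem_terms hf (fun j => ⟨j, rfl⟩)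

theorem terms_subset {F H : OpSet A} (hF : IsClone F) (hH : ∀ n, H n ⊆ F n) (k i : ℕ) :
    terms H k i ⊆ F k := by
  induction i with
  | zero => rintro _ ⟨i, rfl⟩; exact hF.proj_mem k i
  | succ i ih =>
    rintro _ (⟨n, f, g, hf, hg, rfl⟩ | h)
    · exact hF.comp_mem n k f g (hH n hf) (fun j => ih (hg j))
    · exact ih h

/-- If each member of `T` is a term of depth `≤ m` over `H`, then terms of depth `i` over `T` are
terms of depth `≤ m * i` over `H`. -/
theorem terms_trans {H T : OpSet A} {m : ℕ} (h : ∀ n, T n ⊆ terms H n m) (k i : ℕ) :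
    terms T k i ⊆ terms H k (m * i) := by
  induction i with
  | zero => rintro _ ⟨i, rfl⟩; exact proj_mem_terms H k _ i
  | succ i ih =>
    rintro _ (⟨n, f, g, hf, hg, rfl⟩ | hh)
    · have := subst_mem_terms H m (m * i) f (h n hf) g (fun j => ih (hg j))
      rwa [Nat.mul_succ, Nat.add_comm]
    · exact terms_mono H k (by nlinarith) (ih hh)

/-- The distortion criterion for the Bergman property. -/
theorem bergman_of_distorted {F : OpSet A}
    (hd : ∀ k : ℕ, ∃ l : ℕ → ℕ, ∀ f : ℕ → Oper A k, (∀ n, f n ∈ F k) →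
      ∃ T : Finset (Σ n, Oper A n), (∀ t ∈ T, t.2 ∈ F t.1) ∧
        ∀ n, f n ∈ terms (fun m => {t | (⟨m, t⟩ : Σ n, Oper A n) ∈ T}) k (l n)) :
    BergmanProperty F := by
  intro H hH k
  obtain ⟨hF, hHF, hmin⟩ := hH
  by_contra hcon
  push Not at hcon
  obtain ⟨l, hl⟩ := hd k
  have hex : ∀ n : ℕ, ∃ f ∈ F k, f ∉ terms H k (n * l n) := by
    intro n
    by_contra h
    push Not at h
    exact hcon (n * l n) (Set.Subset.antisymm (terms_subset hF hHF k _) h)
  choose f hfF hfn using hex
  obtain ⟨T, hT, hTf⟩ := hl f hfF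
  have hcov : ∀ t ∈ T, ∃ i, t.2 ∈ terms H t.1 i := fun t ht =>
    hmin _ (isClone_iUnion_terms H) (fun n g hg => ⟨1, mem_terms_one hg⟩) t.1 (hT t ht)
  choose! m hm using hcov
  set M := T.sup m with hM
  have hTM : ∀ n, (fun m => {t | (⟨m, t⟩ : Σ n, Oper A n) ∈ T}) n ⊆ terms H n M := by
    intro n t ht
    exact terms_mono H n (Finset.le_sup (f := m) ht) (hm ⟨n, t⟩ ht)
  exact hfn M (terms_trans hTM k (l M) (hTf M))

end general


section metric

variable {X : Type} [MetricSpace X]

theorem isClone_pol {A I : Type} (R : I → A → A → Prop) : IsClone (Pol R) where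
  proj_mem _ i := fun _ _ _ h => h i
  comp_mem _ _ _ _ hf hg := fun i x y h => hf i _ _ (fun j => hg j i x y h)

/-- One-point extension of a finite metric space. -/
@[reducible] noncomputable def optMetric (A : Finset X) (g : X → ℝ) (hpos : ∀ a ∈ A, 0 < g a)
    (h1 : ∀ a ∈ A, ∀ b ∈ A, g a ≤ g b + dist a b)
    (h2 : ∀ a ∈ A, ∀ b ∈ A, dist a b ≤ g a + g b) : MetricSpace (Option A) where
  dist x y := match x, y with
    | none, none => 0
    | none, some b => g b
    | some a, none => g a
    | some a, some b => dist (a : X) b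
  dist_self x := by
    cases x <;> simp
  dist_comm x y := by
    rcases x with _ | a <;> rcases y with _ | b <;> simp [dist_comm]
  dist_triangle x y z := by
    rcases x with _ | a <;> rcases y with _ | b <;> rcases z with _ | c
    · simp
    · simp
    · have := hpos b b.2
      simp only; linarith
    · have := h1 c c.2 b b.2
      simp only; rw [dist_comm (b : X) c]; linarith
    · simp
    · have := h2 a a.2 c c.2
      simp only; linarith
    · have := h1 a a.2 b b.2
      simp only; linarith
    · simp only; exact dist_triangle _ _ _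
  eq_of_dist_eq_zero {x y} h := by
    rcases x with _ | a <;> rcases y with _ | b
    · rfl
    · exact absurd h (hpos b b.2).ne'
    · exact absurd h (hpos a a.2).ne'
    · exact congrArg some (Subtype.ext (dist_eq_zero.1 h))

theorem exists_point_pos {D : Set ℝ} (hX : IsFraisseLimit D X) (h0 : (0 : ℝ) ∈ D)
    (A : Finset X) (g : X → ℝ) (hD : ∀ a ∈ A, g a ∈ D) (hpos : ∀ a ∈ A, 0 < g a)
    (h1 : ∀ a ∈ A, ∀ b ∈ A, g a ≤ g b + dist a b)
    (h2 : ∀ a ∈ A, ∀ b ∈ A, dist a b ≤ g a + g b) : ∃ x : X, ∀ a ∈ A, dist x a = g a := by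
  let _ : MetricSpace (Option A) := optMetric A g hpos h1 h2
  obtain ⟨e, he⟩ := hX.universal (Option A) (by
    intro x y
    rcases x with _ | a <;> rcases y with _ | b
    · exact h0
    · exact hD b b.2
    · exact hD a a.2
    · exact hX.dist_mem a b)
  obtain ⟨φ, hφ⟩ := hX.homogeneous (A : Set X) A.finite_toSet (fun a => e (some a)) (by
    refine Isometry.of_dist_eq fun a b => ?_
    rw [he.dist_eq]
    rfl)
  refine ⟨φ.symm (e none), fun a ha => ?_⟩
  have h3 := hφ ⟨a, ha⟩
  have h4 : dist (φ.symm (e none)) a = dist (φ (φ.symm (e none))) (φ a) := (φ.dist_eq _ _).symm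
  rw [h4, φ.apply_symm_apply, h3, he.dist_eq]
  rfl

theorem exists_point {D : Set ℝ} (hX : IsFraisseLimit D X) (h0 : (0 : ℝ) ∈ D)
    (A : Finset X) (g : X → ℝ) (hD : ∀ a ∈ A, g a ∈ D) (hnn : ∀ a ∈ A, 0 ≤ g a)
    (h1 : ∀ a ∈ A, ∀ b ∈ A, g a ≤ g b + dist a b)
    (h2 : ∀ a ∈ A, ∀ b ∈ A, dist a b ≤ g a + g b) : ∃ x : X, ∀ a ∈ A, dist x a = g a := by
  by_cases h : ∃ a ∈ A, g a = 0
  · obtain ⟨a, ha, h⟩ := h
    refine ⟨a, fun b hb => le_antisymm ?_ ?_⟩
    · have := h2 a ha b hb
      linarith
    · have := h1 b hb a ha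
      rw [dist_comm]
      linarith
  · push Not at h
    exact exists_point_pos hX h0 A g hD (fun a ha => lt_of_le_of_ne (hnn a ha) (h a ha).symm) h1 h2

end metric

section urysohn

variable {X : Type} [MetricSpace X]

theorem not_bergman_rationalUrysohn (hX : IsFraisseLimit ratDist X) :
    ¬ BergmanProperty (Pol (metricRel X)) := by
  classical
  have h0 : (0 : ℝ) ∈ ratDist := ⟨0, by simp⟩
  obtain ⟨e, -⟩ := hX.universal Unit (fun y z => by simpa using h0)
  set x0 : X := e ()
  -- transitivity of the isometry group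
  have htrans : ∀ x y : X, ∃ g : X ≃ᵢ X, g x = y := by
    intro x y
    obtain ⟨g, hg⟩ := hX.homogeneous {x} (Set.finite_singleton x) (fun _ => y) (by
      refine Isometry.of_dist_eq fun a b => ?_
      have ha : (a : X) = x := a.2
      have hb : (b : X) = x := b.2
      have : a = b := Subtype.ext (ha.trans hb.symm)
      simp [this])
    exact ⟨g, hg ⟨x, rfl⟩⟩
  set H : OpSet X := fun n => {f | f ∈ Pol (metricRel X) n ∧ dist x0 (f (fun _ => x0)) ≤ 1} with hH
  have hgen : Generates H (Pol (metricRel X)) := by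
    refine ⟨isClone_pol _, fun n f hf => hf.1, fun G hG hHG n f hf => ?_⟩
    have key : ∀ m : ℕ, ∀ f : Oper X n, f ∈ Pol (metricRel X) n →
        dist x0 (f (fun _ => x0)) ≤ m + 1 → f ∈ G n := by
      intro m
      induction m with
      | zero =>
        intro f hf h
        exact hHG n ⟨hf, by simpa using h⟩
      | succ m ih =>
        intro f hf h
        by_cases hle : dist x0 (f (fun _ => x0)) ≤ 1
        · exact hHG n ⟨hf, hle⟩
        push Not at hle
        set y : X := f (fun _ => x0) with hy
        obtain ⟨q, hq⟩ := hX.dist_mem x0 y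
        have hne : y ≠ x0 := by
          intro h
          rw [h] at hle
          simp at hle
          linarith
        obtain ⟨y1, hy1⟩ := exists_point hX h0 {x0, y}
          (fun z => if z = x0 then 1 else dist x0 y - 1)
          (by
            intro a _
            split_ifs
            · exact ⟨1, by simp⟩
            · exact ⟨q - 1, by rw [hq]; push_cast; ring⟩)
          (by
            intro a _
            split_ifs <;> linarith)
          (by
            intro a ha b hb
            simp only [Finset.mem_insert, Finset.mem_singleton] at ha hb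
            rcases ha with rfl | rfl <;> rcases hb with rfl | rfl
            · simp
            · simp only [if_true, if_neg hne]; linarith
            · simp only [if_true, if_neg hne]; rw [dist_comm]; linarith
            · simp)
          (by
            intro a ha b hb
            simp only [Finset.mem_insert, Finset.mem_singleton] at ha hb
            rcases ha with rfl | rfl <;> rcases hb with rfl | rfl
            · simp
            · simp only [if_true, if_neg hne]; linarith
            · simp only [if_true, if_neg hne]; rw [dist_comm]; linarith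
            · simp only [if_neg hne, dist_self]; linarith)
        have hy1x : dist y1 x0 = 1 := by
          have := hy1 x0 (by simp)
          simpa using this
        have hy1y : dist y1 y = dist x0 y - 1 := by
          have := hy1 y (by simp)
          simpa [hne] using this
        obtain ⟨g, hg⟩ := htrans x0 y1
        have hgm : (fun v : Fin (0 + 1) → X => g (v 0)) ∈ H 0 := by
          refine ⟨fun i x y h => ?_, ?_⟩
          · have := h 0
            simp only [metricRel] at this ⊢
            rwa [g.dist_eq]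
          · show dist x0 (g x0) ≤ 1
            rw [hg, dist_comm, hy1x]
        have hf' : (fun v => g.symm (f v)) ∈ G n := by
          apply ih
          · intro i x y h
            have := hf i x y h
            simp only [metricRel] at this ⊢
            rwa [g.symm.dist_eq]
          · have h5 : dist x0 (g.symm (f fun _ => x0)) = dist (g x0) (g (g.symm (f fun _ => x0))) :=
              (g.dist_eq _ _).symm
            rw [h5, g.apply_symm_apply, hg, hy1y]
            push_cast at h
            linarith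
        have h6 := hG.comp_mem 0 n _ (fun _ => fun v => g.symm (f v)) (hHG 0 hgm) (fun _ => hf')
        have h7 : comp (fun v : Fin (0 + 1) → X => g (v 0)) (fun _ => fun v => g.symm (f v)) = f := by
          funext v
          simp [comp]
        rwa [h7] at h6
    obtain ⟨m, hm⟩ := exists_nat_ge (dist x0 (f (fun _ => x0)))
    exact key m f hf (by linarith)
  intro hB
  obtain ⟨n, hn⟩ := hB H hgen 0
  have hbound : ∀ i : ℕ, ∀ f ∈ terms H 0 i, dist x0 (f (fun _ => x0)) ≤ i := by
    intro i
    induction i with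
    | zero =>
      rintro _ ⟨j, rfl⟩
      simp [proj]
    | succ i ih =>
      rintro _ (⟨m, f, g, hf, hg, rfl⟩ | h)
      · have h1 := hf.1 ⟨(i : ℚ), by positivity⟩ (fun _ => x0) (fun j => g j (fun _ => x0))
          (fun j => by
            have := ih (g j) (hg j)
            simpa [metricRel] using this)
        simp only [metricRel, Rat.cast_natCast] at h1
        have h2 := hf.2
        have h3 := dist_triangle x0 (f fun _ => x0) (f fun j => g j fun _ => x0)
        show dist x0 (f fun j => g j fun _ => x0) ≤ _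
        push_cast
        linarith
      · have := ih _ h
        push_cast
        linarith
  obtain ⟨y, hy⟩ := exists_point hX h0 {x0} (fun _ => (n : ℝ) + 1)
    (fun a _ => ⟨(n : ℚ) + 1, by push_cast; rfl⟩) (fun a _ => by positivity)
    (fun a ha b hb => by
      rw [Finset.mem_singleton] at ha hb
      subst ha; subst hb; simp)
    (fun a ha b hb => by
      rw [Finset.mem_singleton] at ha hb
      subst ha; subst hb; simp; positivity)
  have hc : (fun _ : Fin (0 + 1) → X => y) ∈ Pol (metricRel X) 0 := by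
    intro i _ _ _
    simp only [metricRel, dist_self]
    exact_mod_cast i.2
  rw [← hn] at hc
  have h8 := hbound n _ hc
  have h9 := hy x0 (by simp)
  rw [dist_comm, h9] at h8
  linarith

end urysohn

section recursion

/-- Recursive choice of a sequence. -/
noncomputable def buildSeq {α : Type} [Inhabited α] (P : ℕ → (ℕ → α) → α → Prop) (n : ℕ) : α :=
  open Classical in
  let g : ℕ → α := fun i => if _ : i < n then buildSeq P i else default
  if h : ∃ a, P n g a then h.choose else default
termination_by n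

theorem exists_seq_of_forall {α : Type} [Inhabited α] (P : ℕ → (ℕ → α) → α → Prop)
    (hP : ∀ n (f g : ℕ → α) (a : α), (∀ i < n, f i = g i) → P n f a → P n g a)
    (h : ∀ n (f : ℕ → α), (∀ i < n, P i f (f i)) → ∃ a, P n f a) :
    ∃ f : ℕ → α, ∀ n, P n f (f n) := by
  classical
  refine ⟨buildSeq P, fun n => ?_⟩
  induction n using Nat.strong_induction_on with
  | _ n ih =>
    set g : ℕ → α := fun i => if _ : i < n then buildSeq P i else default with hg
    have hgi : ∀ i < n, g i = buildSeq P i := fun i hi => by simp [hg, hi]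
    have hex : ∃ a, P n g a := by
      apply h
      intro i hi
      rw [hgi i hi]
      exact hP i (buildSeq P) g _ (fun j hj => (hgi j (hj.trans hi)).symm) (ih i hi)
    have h1 : P n g (buildSeq P n) := by
      rw [buildSeq, dif_pos hex]
      exact hex.choose_spec
    exact hP n g (buildSeq P) _ hgi h1

end recursion

section sphere

variable {X : Type} [MetricSpace X]

theorem zero_mem_ratDistOne : (0 : ℝ) ∈ ratDistOne := ⟨⟨0, by simp⟩, zero_le_one⟩

theorem ratDistOne_min_add {r d : ℝ} (hr : r ∈ ratDistOne) (hd : d ∈ ratDistOne) :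
    min 1 (r + d) ∈ ratDistOne := by
  obtain ⟨⟨a, rfl⟩, -⟩ := hr
  obtain ⟨⟨b, rfl⟩, -⟩ := hd
  exact ⟨⟨min 1 (a + b), by push_cast; rfl⟩, min_le_left _ _⟩

/-- Free extension over finitely many points. -/
theorem exists_free_point (hX : IsFraisseLimit ratDistOne X) {ι : Type} (s : Finset ι)
    (hs : s.Nonempty) (p : ι → X) (r : ι → ℝ) (hr : ∀ a ∈ s, r a ∈ ratDistOne)
    (hr0 : ∀ a ∈ s, 0 ≤ r a) (hpr : ∀ a ∈ s, ∀ b ∈ s, dist (p a) (p b) ≤ r a + r b)
    (B : Finset X) :
    ∃ z : X, (∀ w ∈ B, ∀ a ∈ s, dist z w ≤ r a + dist (p a) w) ∧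
      ∀ w ∈ B, 1 ≤ dist z w ∨ ∃ a ∈ s, r a + dist (p a) w ≤ dist z w := by
  set g : X → ℝ := fun w => s.inf' hs (fun a => min 1 (r a + dist (p a) w)) with hg
  have hle : ∀ w, ∀ a ∈ s, g w ≤ min 1 (r a + dist (p a) w) := fun w a ha =>
    Finset.inf'_le _ ha
  have hat : ∀ w, ∃ a ∈ s, g w = min 1 (r a + dist (p a) w) := fun w =>
    Finset.exists_mem_eq_inf' hs _
  have hone : ∀ x y : X, dist x y ≤ 1 := fun x y => (hX.dist_mem x y).2
  obtain ⟨z, hz⟩ := exists_point hX zero_mem_ratDistOne B g
    (by
      intro w _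
      obtain ⟨a, ha, h⟩ := hat w
      rw [h]
      exact ratDistOne_min_add (hr a ha) (hX.dist_mem _ _))
    (by
      intro w _
      obtain ⟨a, ha, h⟩ := hat w
      rw [h]
      exact le_min zero_le_one (add_nonneg (hr0 a ha) dist_nonneg))
    (by
      intro w _ v _
      obtain ⟨a, ha, h⟩ := hat v
      rw [h]
      refine (hle w a ha).trans ?_
      have h1 := dist_triangle (p a) v w
      rw [dist_comm v w] at h1
      rcases min_choice 1 (r a + dist (p a) v) with h2 | h2 <;> rw [h2]
      · exact (min_le_left _ _).trans (by linarith [dist_nonneg (x := w) (y := v)])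
      · exact (min_le_right _ _).trans (by linarith))
    (by
      intro w _ v _
      obtain ⟨a, ha, h⟩ := hat w
      obtain ⟨b, hb, h'⟩ := hat v
      rw [h, h']
      have h1 := hone w v
      have hra := hr0 a ha
      have hrb := hr0 b hb
      have hab := hpr a ha b hb
      have h2 := dist_triangle w (p a) v
      have h3 := dist_triangle (p a) (p b) v
      rw [dist_comm w (p a)] at h2
      have h4 : 0 ≤ dist (p a) w := dist_nonneg
      have h5 : 0 ≤ dist (p b) v := dist_nonneg
      rcases min_choice 1 (r a + dist (p a) w) with h6 | h6 <;>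
      rcases min_choice 1 (r b + dist (p b) v) with h7 | h7 <;> rw [h6, h7] <;> linarith)
  refine ⟨z, fun w hw a ha => ?_, fun w hw => ?_⟩
  · rw [hz w hw]
    exact (hle w a ha).trans (min_le_right _ _)
  · rw [hz w hw]
    obtain ⟨a, ha, h⟩ := hat w
    rcases min_choice 1 (r a + dist (p a) w) with h6 | h6
    · left; rw [h, h6]
    · right; exact ⟨a, ha, by rw [h, h6]⟩

/-- Every countable (pseudo-)metric space with rational distances `≤ 1` embeds in the rational
Urysohn sphere in such a way that nonexpansive maps extend. -/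
theorem exists_free_embedding (hX : IsFraisseLimit ratDistOne X) (Y : Type) [Countable Y]
    [Nonempty Y] (δ : Y → Y → ℝ) (hself : ∀ y, δ y y = 0) (hsymm : ∀ y z, δ y z = δ z y)
    (htri : ∀ x y z, δ x z ≤ δ x y + δ y z) (hD : ∀ y z, δ y z ∈ ratDistOne) :
    ∃ ι : Y → X, (∀ y z, dist (ι y) (ι z) = δ y z) ∧
      ∀ φ : Y → X, (∀ y z, dist (φ y) (φ z) ≤ δ y z) →
        ∃ e : X → X, (∀ x x', dist (e x) (e x') ≤ dist x x') ∧ ∀ y, e (ι y) = φ y := by
  classical
  have := hX.countable
  obtain ⟨e0, -⟩ := hX.universal Unit (fun y z => by simpa using zero_mem_ratDistOne)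
  have : Nonempty X := ⟨e0 ()⟩
  have : Inhabited X := ⟨e0 ()⟩
  have hone : ∀ x y : X, dist x y ≤ 1 := fun x y => (hX.dist_mem x y).2
  have hδ0 : ∀ y z, 0 ≤ δ y z := fun y z => by
    have h1 := htri y z y
    rw [hself, hsymm z y] at h1
    linarith
  obtain ⟨y, hy⟩ := exists_surjective_nat Y
  obtain ⟨x, hx⟩ := exists_surjective_nat X
  -- the sequence of images
  obtain ⟨u, hu⟩ := exists_seq_of_forall (α := X)
    (fun n f z => (∀ i < n, dist z (f i) = δ (y n) (y i)) ∧
      ∀ j < n, 1 ≤ dist z (x j) ∨ ∃ i < n, δ (y n) (y i) + dist (f i) (x j) ≤ dist z (x j))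
    (by
      rintro n f g a hfg ⟨h1, h2⟩
      refine ⟨fun i hi => by rw [← hfg i hi]; exact h1 i hi, fun j hj => ?_⟩
      rcases h2 j hj with h | ⟨i, hi, h⟩
      · exact Or.inl h
      · exact Or.inr ⟨i, hi, by rw [← hfg i hi]; exact h⟩)
    (by
      intro n f hf
      rcases Nat.eq_zero_or_pos n with rfl | hn
      · exact ⟨default, fun i hi => absurd hi (Nat.not_lt_zero i),
          fun i hi => absurd hi (Nat.not_lt_zero i)⟩
      have hff : ∀ i < n, ∀ k < n, dist (f i) (f k) = δ (y i) (y k) := by
        intro i hi k hk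
        rcases lt_trichotomy i k with h | h | h
        · rw [dist_comm, hsymm]; exact (hf k hk).1 i h
        · rw [h, dist_self, hself]
        · exact (hf i hi).1 k h
      obtain ⟨z, hz1, hz2⟩ := exists_free_point hX (Finset.range n)
        (Finset.nonempty_range_iff.2 hn.ne') f (fun i => δ (y n) (y i))
        (fun _ _ => hD _ _) (fun _ _ => hδ0 _ _)
        (by
          intro a ha b hb
          rw [hff a (Finset.mem_range.1 ha) b (Finset.mem_range.1 hb)]
          have := htri (y a) (y n) (y b)
          rwa [hsymm (y a) (y n)] at this)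
        ((Finset.range n).image f ∪ (Finset.range n).image x)
      refine ⟨z, fun i hi => le_antisymm ?_ ?_, fun j hj => ?_⟩
      · have := hz1 (f i) (Finset.mem_union_left _ (Finset.mem_image_of_mem _
          (Finset.mem_range.2 hi))) i (Finset.mem_range.2 hi)
        simpa using this
      · rcases hz2 (f i) (Finset.mem_union_left _ (Finset.mem_image_of_mem _
          (Finset.mem_range.2 hi))) with h | ⟨a, ha, h⟩
        · exact (hD _ _).2.trans h
        · rw [hff a (Finset.mem_range.1 ha) i hi] at h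
          exact (htri _ _ _).trans h
      · rcases hz2 (x j) (Finset.mem_union_right _ (Finset.mem_image_of_mem _
          (Finset.mem_range.2 hj))) with h | ⟨a, ha, h⟩
        · exact Or.inl h
        · exact Or.inr ⟨a, Finset.mem_range.1 ha, h⟩)
  have huu : ∀ i k, dist (u i) (u k) = δ (y i) (y k) := by
    intro i k
    rcases lt_trichotomy i k with h | h | h
    · rw [dist_comm, hsymm]; exact (hu k).1 i h
    · rw [h, dist_self, hself]
    · exact (hu i).1 k h
  -- supports are finite
  have hsupp : ∀ j n, 1 ≤ dist (u n) (x j) ∨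
      ∃ k ≤ j, δ (y n) (y k) + dist (u k) (x j) ≤ dist (u n) (x j) := by
    intro j n
    induction n using Nat.strong_induction_on with
    | _ n ih =>
      rcases le_or_gt n j with hnj | hnj
      · exact Or.inr ⟨n, hnj, by rw [hself, zero_add]⟩
      · rcases (hu n).2 j hnj with h | ⟨i, hi, h⟩
        · exact Or.inl h
        · rcases ih i hi with h' | ⟨k, hk, h'⟩
          · exact Or.inl (by linarith [hδ0 (y n) (y i)])
          · exact Or.inr ⟨k, hk, by linarith [htri (y n) (y i) (y k)]⟩
  choose idx hidx using hy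
  choose jdx hjdx using hx
  refine ⟨fun a => u (idx a), fun a b => ?_, fun φ hφ => ?_⟩
  · rw [huu, hidx, hidx]
  -- the extension
  obtain ⟨e, he⟩ := exists_seq_of_forall (α := X)
    (fun j f z => (∀ k ≤ j, dist z (φ (y k)) ≤ dist (x j) (u k)) ∧
      ∀ i < j, dist z (f i) ≤ dist (x j) (x i))
    (by
      rintro n f g a hfg ⟨h1, h2⟩
      exact ⟨h1, fun i hi => by rw [← hfg i hi]; exact h2 i hi⟩)
    (by
      intro n f hf
      have hall : ∀ i < n, ∀ k, dist (f i) (φ (y k)) ≤ dist (x i) (u k) := by
        intro i hi k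
        rcases hsupp i k with h | ⟨l, hl, h⟩
        · rw [dist_comm (x i)]; exact (hone _ _).trans h
        · have h1 := (hf i hi).1 l hl
          have h2 := hφ (y k) (y l)
          have h3 := dist_triangle (f i) (φ (y l)) (φ (y k))
          rw [dist_comm (x i)] at h1 ⊢
          rw [dist_comm (φ (y l))] at h3
          linarith
      have hff : ∀ i < n, ∀ k < n, dist (f i) (f k) ≤ dist (x i) (x k) := by
        intro i hi k hk
        rcases lt_trichotomy i k with h | h | h
        · rw [dist_comm, dist_comm (x i)]; exact (hf k hk).2 i h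
        · rw [h, dist_self, dist_self]
        · exact (hf i hi).2 k h
      obtain ⟨z, hz1, -⟩ := exists_free_point hX
        ((Finset.range (n + 1)).disjSum (Finset.range n))
        ⟨Sum.inl 0, Finset.inl_mem_disjSum.2 (by simp)⟩
        (Sum.elim (fun k => φ (y k)) f)
        (Sum.elim (fun k => dist (x n) (u k)) (fun i => dist (x n) (x i)))
        (by
          rintro (a | a) _
          · exact hX.dist_mem _ _
          · exact hX.dist_mem _ _)
        (by
          rintro (a | a) _
          · exact dist_nonneg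
          · exact dist_nonneg)
        (by
          rintro (a | a) ha (b | b) hb
          · simp only [Sum.elim_inl]
            refine (hφ _ _).trans ?_
            rw [← huu, dist_comm (x n) (u a)]
            exact dist_triangle _ _ _
          · simp only [Sum.elim_inl, Sum.elim_inr]
            have hb' := Finset.mem_range.1 (Finset.inr_mem_disjSum.1 hb)
            rw [dist_comm]
            refine (hall b hb' a).trans ?_
            rw [dist_comm (x n) (x b), add_comm]
            exact dist_triangle _ _ _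
          · simp only [Sum.elim_inl, Sum.elim_inr]
            have ha' := Finset.mem_range.1 (Finset.inr_mem_disjSum.1 ha)
            refine (hall a ha' b).trans ?_
            rw [dist_comm (x n) (x a)]
            exact dist_triangle _ _ _
          · simp only [Sum.elim_inr]
            have ha' := Finset.mem_range.1 (Finset.inr_mem_disjSum.1 ha)
            have hb' := Finset.mem_range.1 (Finset.inr_mem_disjSum.1 hb)
            refine (hff a ha' b hb').trans ?_
            rw [dist_comm (x n) (x a)]
            exact dist_triangle _ _ _)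
        ((Finset.range (n + 1)).image (fun k => φ (y k)) ∪ (Finset.range n).image f)
      refine ⟨z, fun k hk => ?_, fun i hi => ?_⟩
      · have h1 := hz1 (φ (y k)) (Finset.mem_union_left _ (Finset.mem_image_of_mem
          (fun k => φ (y k)) (Finset.mem_range.2 (Nat.lt_succ_of_le hk)))) (Sum.inl k)
          (Finset.inl_mem_disjSum.2 (Finset.mem_range.2 (Nat.lt_succ_of_le hk)))
        simpa using h1
      · have h1 := hz1 (f i) (Finset.mem_union_right _ (Finset.mem_image_of_mem f
          (Finset.mem_range.2 hi))) (Sum.inr i)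
          (Finset.inr_mem_disjSum.2 (Finset.mem_range.2 hi))
        simpa using h1)
  have hall : ∀ i k, dist (e i) (φ (y k)) ≤ dist (x i) (u k) := by
    intro i k
    rcases hsupp i k with h | ⟨l, hl, h⟩
    · rw [dist_comm (x i)]; exact (hone _ _).trans h
    · have h1 := (he i).1 l hl
      have h2 := hφ (y k) (y l)
      have h3 := dist_triangle (e i) (φ (y l)) (φ (y k))
      rw [dist_comm (x i)] at h1 ⊢
      rw [dist_comm (φ (y l))] at h3
      linarith
  have hee : ∀ i k, dist (e i) (e k) ≤ dist (x i) (x k) := by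
    intro i k
    rcases lt_trichotomy i k with h | h | h
    · rw [dist_comm, dist_comm (x i)]; exact (he k).2 i h
    · rw [h, dist_self, dist_self]
    · exact (he i).2 k h
  refine ⟨fun a => e (jdx a), fun a b => ?_, fun a => ?_⟩
  · have := hee (jdx a) (jdx b)
    rwa [hjdx, hjdx] at this
  · have h1 := hall (jdx (u (idx a))) (idx a)
    rw [hjdx, dist_self, hidx] at h1
    exact dist_le_zero.1 h1

/-- Two-place metric on `ℕ × X^{k+1}`: the copies are at distance one. -/
noncomputable def copyDist (k : ℕ) (a b : ℕ × (Fin (k + 1) → X)) : ℝ :=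
  if a.1 = b.1 then dist a.2 b.2 else 1

theorem exists_dist_eq (k : ℕ) (v w : Fin (k + 1) → X) : ∃ i, dist v w = dist (v i) (w i) := by
  obtain ⟨i, -, hi⟩ := Finset.exists_mem_eq_sup Finset.univ Finset.univ_nonempty
    (fun b => nndist (v b) (w b))
  exact ⟨i, by rw [dist_pi_def, hi]; rfl⟩

theorem dist_le_of_mem_pol (hX : IsFraisseLimit ratDistOne X) {k : ℕ} {f : Oper X k}
    (hf : f ∈ Pol (metricRel X) k) (v w : Fin (k + 1) → X) : dist (f v) (f w) ≤ dist v w := by
  obtain ⟨i, hi⟩ := exists_dist_eq k v w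
  obtain ⟨⟨q, hq⟩, -⟩ := hX.dist_mem (v i) (w i)
  have hq0 : 0 ≤ q := by
    have : (0 : ℝ) ≤ q := by rw [← hq]; exact dist_nonneg
    exact_mod_cast this
  have := hf ⟨q, hq0⟩ v w (fun j => by
    show dist (v j) (w j) ≤ (q : ℝ)
    rw [← hq, ← hi]
    exact dist_le_pi_dist v w j)
  rw [hi, hq]
  exact this

theorem mem_pol_of_dist_le {k : ℕ} {f : Oper X k}
    (hf : ∀ v w : Fin (k + 1) → X, dist (f v) (f w) ≤ dist v w) :
    f ∈ Pol (metricRel X) k := by
  intro q v w h
  refine (hf v w).trans ((dist_pi_le_iff ?_).2 h)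
  exact_mod_cast q.2

theorem bergman_rationalUrysohnSphere (hX : IsFraisseLimit ratDistOne X) :
    BergmanProperty (Pol (metricRel X)) := by
  classical
  have hone : ∀ x y : X, dist x y ≤ 1 := fun x y => (hX.dist_mem x y).2
  have hcount := hX.countable
  obtain ⟨e0, -⟩ := hX.universal Unit (fun y z => by simpa using zero_mem_ratDistOne)
  have : Nonempty X := ⟨e0 ()⟩
  apply bergman_of_distorted
  intro k
  refine ⟨fun n => n + 2, fun f hf => ?_⟩
  have hone' : ∀ v w : Fin (k + 1) → X, dist v w ≤ 1 := fun v w =>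
    (dist_pi_le_iff zero_le_one).2 (fun i => hone _ _)
  obtain ⟨ι, hι, hext⟩ := exists_free_embedding hX (ℕ × (Fin (k + 1) → X)) (copyDist k)
    (fun a => by simp [copyDist])
    (fun a b => by simp only [copyDist, eq_comm (a := a.1), dist_comm a.2])
    (fun a b c => by
      unfold copyDist
      have h1 := hone' a.2 c.2
      have h2 := dist_triangle a.2 b.2 c.2
      have h3 : 0 ≤ dist a.2 b.2 := dist_nonneg
      have h4 : 0 ≤ dist b.2 c.2 := dist_nonneg
      by_cases hab : a.1 = b.1
      · by_cases hbc : b.1 = c.1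
        · rw [if_pos (hab.trans hbc), if_pos hab, if_pos hbc]; exact h2
        · rw [if_neg (fun h => hbc (hab.symm.trans h)), if_pos hab, if_neg hbc]; linarith
      · by_cases hbc : b.1 = c.1
        · rw [if_neg (fun h => hab (h.trans hbc.symm)), if_neg hab, if_pos hbc]; linarith
        · rw [if_neg hab, if_neg hbc]
          split_ifs <;> linarith)
    (fun a b => by
      unfold copyDist
      split_ifs
      · obtain ⟨i, hi⟩ := exists_dist_eq k a.2 b.2
        rw [hi]
        exact hX.dist_mem _ _
      · exact ⟨⟨1, by simp⟩, le_refl _⟩)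
  obtain ⟨b, hb, hb'⟩ := hext (fun a => ι (a.1 + 1, a.2)) (fun a c => by
    rw [hι]; unfold copyDist; simp)
  obtain ⟨a, ha, ha'⟩ := hext (fun c => f c.1 c.2) (fun c d => by
    unfold copyDist
    split_ifs with h
    · rw [h]; exact dist_le_of_mem_pol hX (hf _) _ _
    · exact hone _ _)
  set aop : Oper X 0 := fun v => a (v 0) with haop
  set bop : Oper X 0 := fun v => b (v 0) with hbop
  set cop : Oper X k := fun v => ι (0, v) with hcop
  have hmem : ∀ g : X → X, (∀ x x', dist (g x) (g x') ≤ dist x x') →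
      (fun v => g (v 0) : Oper X 0) ∈ Pol (metricRel X) 0 := fun g hg =>
    mem_pol_of_dist_le (fun v w => (hg _ _).trans (dist_le_pi_dist v w 0))
  refine ⟨{⟨0, aop⟩, ⟨0, bop⟩, ⟨k, cop⟩}, ?_, fun n => ?_⟩
  · intro t ht
    simp only [Finset.mem_insert, Finset.mem_singleton] at ht
    rcases ht with rfl | rfl | rfl
    · exact hmem a ha
    · exact hmem b hb
    · refine mem_pol_of_dist_le (fun v w => ?_)
      show dist (ι (0, v)) (ι (0, w)) ≤ _
      rw [hι]
      simp [copyDist]
  · set T : OpSet X := fun m => {t | (⟨m, t⟩ : Σ n, Oper X n) ∈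
      ({⟨0, aop⟩, ⟨0, bop⟩, ⟨k, cop⟩} : Finset (Σ n, Oper X n))} with hT
    have haT : aop ∈ T 0 := by simp [hT]
    have hbT : bop ∈ T 0 := by simp [hT]
    have hcT : cop ∈ T k := by simp [hT]
    have h1 : ∀ n : ℕ, (fun v => ι (n, v)) ∈ terms T k (n + 1) := by
      intro n
      induction n with
      | zero => exact mem_terms_one hcT
      | succ n ih =>
        have h2 := comp_mem_terms hbT (g := fun _ => fun v => ι (n, v)) (fun _ => ih)
        have h3 : comp bop (fun _ => fun v => ι (n, v)) = fun v => ι (n + 1, v) := by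
          funext v
          exact hb' (n, v)
        rwa [h3] at h2
    have h2 := comp_mem_terms haT (g := fun _ => fun v => ι (n, v)) (fun _ => h1 n)
    have h3 : comp aop (fun _ => fun v => ι (n, v)) = f n := by
      funext v
      exact ha' (n, v)
    rwa [h3] at h2

end sphere

section rationals

/-- The order isomorphism from `ℚ` onto `(-1,1)`. -/
def phi (x : ℚ) : ℚ := x / (1 + |x|)

/-- Its inverse. -/
def psi (x : ℚ) : ℚ := x / (1 - |x|)

theorem phi_mono {a b : ℚ} (h : a ≤ b) : phi a ≤ phi b := by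
  unfold phi
  have ha : 0 < 1 + |a| := by positivity
  have hb : 0 < 1 + |b| := by positivity
  rw [div_le_div_iff₀ ha hb]
  rcases abs_cases a with ⟨h1, h2⟩ | ⟨h1, h2⟩ <;> rcases abs_cases b with ⟨h3, h4⟩ | ⟨h3, h4⟩ <;>
    rw [h1, h3] <;> nlinarith

theorem abs_phi_lt_one (x : ℚ) : |phi x| < 1 := by
  unfold phi
  have ha : 0 < 1 + |x| := by positivity
  rw [abs_div, abs_of_pos ha, div_lt_one ha]
  linarith

theorem psi_phi (x : ℚ) : psi (phi x) = x := by
  unfold psi phi
  have ha : 0 < 1 + |x| := by positivity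
  rw [abs_div, abs_of_pos ha]
  have h1 : 1 - |x| / (1 + |x|) = 1 / (1 + |x|) := by
    field_simp
    ring
  rw [h1]
  field_simp

theorem psi_mono {a b : ℚ} (ha : -1 < a) (hb : b < 1) (h : a ≤ b) : psi a ≤ psi b := by
  unfold psi
  have ha' : 0 < 1 - |a| := by
    have : |a| < 1 := abs_lt.2 ⟨ha, lt_of_le_of_lt h hb⟩
    linarith
  have hb' : 0 < 1 - |b| := by
    have : |b| < 1 := abs_lt.2 ⟨lt_of_lt_of_le ha h, hb⟩
    linarith
  rw [div_le_div_iff₀ ha' hb']
  rcases abs_cases a with ⟨h1, h2⟩ | ⟨h1, h2⟩ <;> rcases abs_cases b with ⟨h3, h4⟩ | ⟨h3, h4⟩ <;>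
    rw [h1, h3] at * <;> nlinarith

/-- The decoding function. -/
def decode : Oper ℚ 2 := fun v =>
  if 1 ≤ v 0 then max (v 1) (v 2)
  else if v 0 ≤ -1 then v 1 else max (v 1) (min (psi (v 0)) (v 2))

theorem decode_mono {v w : Fin (2 + 1) → ℚ} (h : ∀ j, v j ≤ w j) : decode v ≤ decode w := by
  unfold decode
  have h0 := h 0
  have h1 := h 1
  have h2 := h 2
  split_ifs with a b c d e f
  · exact max_le_max h1 h2
  · linarith
  · linarith
  · exact h1.trans (le_max_left _ _)
  · exact h1
  · exact h1.trans (le_max_left _ _)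
  · exact max_le (h1.trans (le_max_left _ _)) ((min_le_right _ _).trans (h2.trans (le_max_right _ _)))
  · linarith
  · refine max_le_max h1 (min_le_min (psi_mono ?_ ?_ h0) h2)
    · linarith
    · linarith

theorem decode_phi {x l m : ℚ} (hl : l ≤ x) (hm : x ≤ m) : decode ![phi x, l, m] = x := by
  unfold decode
  have h1 := abs_lt.1 (abs_phi_lt_one x)
  have h2 : ¬ (1 ≤ (![phi x, l, m] : Fin 3 → ℚ) 0) := by
    simp only [Matrix.cons_val_zero]; linarith
  have h3 : ¬ ((![phi x, l, m] : Fin 3 → ℚ) 0 ≤ -1) := by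
    simp only [Matrix.cons_val_zero]; linarith
  rw [if_neg h2, if_neg h3]
  simp [psi_phi, hl, hm]

variable {k : ℕ}

/-- One function containing all `phi ∘ f n`. -/
def codeFun (f : ℕ → Oper ℚ k) : Oper ℚ (k + 1) := fun v =>
  2 * (⌊v 0⌋ : ℚ) + phi (f ⌊v 0⌋.toNat (fun i => v i.succ))

/-- Pointwise maximum of initial segments. -/
def upFun (f : ℕ → Oper ℚ k) : Oper ℚ (k + 1) := fun v =>
  (Finset.range (⌊v 0⌋.toNat + 1)).sup' Finset.nonempty_range_add_one
    (fun j => f j (fun i => v i.succ))

/-- Pointwise minimum of initial segments. -/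
def downFun (f : ℕ → Oper ℚ k) : Oper ℚ (k + 1) := fun v =>
  (Finset.range ((-⌊v 0⌋).toNat + 1)).inf' Finset.nonempty_range_add_one
    (fun j => f j (fun i => v i.succ))

theorem codeFun_mono {f : ℕ → Oper ℚ k} (hf : ∀ n (v w : Fin (k + 1) → ℚ),
    (∀ j, v j ≤ w j) → f n v ≤ f n w) {v w : Fin (k + 1 + 1) → ℚ} (h : ∀ j, v j ≤ w j) :
    codeFun f v ≤ codeFun f w := by
  unfold codeFun
  have h0 : ⌊v 0⌋ ≤ ⌊w 0⌋ := Int.floor_mono (h 0)
  rcases h0.eq_or_lt with h1 | h1
  · rw [h1]
    have := phi_mono (hf ⌊w 0⌋.toNat (fun i => v i.succ) (fun i => w i.succ) (fun i => h _))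
    linarith
  · have h2 := (abs_lt.1 (abs_phi_lt_one (f ⌊v 0⌋.toNat (fun i => v i.succ)))).2
    have h3 := (abs_lt.1 (abs_phi_lt_one (f ⌊w 0⌋.toNat (fun i => w i.succ)))).1
    have h4 : (⌊v 0⌋ : ℚ) + 1 ≤ ⌊w 0⌋ := by exact_mod_cast h1
    linarith

theorem upFun_mono {f : ℕ → Oper ℚ k} (hf : ∀ n (v w : Fin (k + 1) → ℚ),
    (∀ j, v j ≤ w j) → f n v ≤ f n w) {v w : Fin (k + 1 + 1) → ℚ} (h : ∀ j, v j ≤ w j) :
    upFun f v ≤ upFun f w := by
  unfold upFun
  have h0 : ⌊v 0⌋.toNat ≤ ⌊w 0⌋.toNat := Int.toNat_le_toNat (Int.floor_mono (h 0))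
  refine Finset.sup'_le _ _ (fun j hj => ?_)
  refine (hf j _ (fun i => w i.succ) (fun i => h _)).trans ?_
  refine Finset.le_sup' (fun j => f j (fun i => w i.succ)) ?_
  rw [Finset.mem_range] at hj ⊢
  omega

theorem downFun_mono {f : ℕ → Oper ℚ k} (hf : ∀ n (v w : Fin (k + 1) → ℚ),
    (∀ j, v j ≤ w j) → f n v ≤ f n w) {v w : Fin (k + 1 + 1) → ℚ} (h : ∀ j, v j ≤ w j) :
    downFun f v ≤ downFun f w := by
  unfold downFun
  have h0 : (-⌊w 0⌋).toNat ≤ (-⌊v 0⌋).toNat :=
    Int.toNat_le_toNat (neg_le_neg (Int.floor_mono (h 0)))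
  refine Finset.le_inf' _ _ (fun j hj => ?_)
  refine le_trans ?_ (hf j (fun i => v i.succ) _ (fun i => h _))
  refine Finset.inf'_le (fun j => f j (fun i => v i.succ)) ?_
  rw [Finset.mem_range] at hj ⊢
  omega

theorem bergman_rationalOrder :
    BergmanProperty (Pol (fun _ : Unit => ((· ≤ ·) : ℚ → ℚ → Prop))) := by
  classical
  apply bergman_of_distorted
  intro k
  refine ⟨fun n => 3 * n + 3, fun f hf => ?_⟩
  have hf' : ∀ n (v w : Fin (k + 1) → ℚ), (∀ j, v j ≤ w j) → f n v ≤ f n w :=
    fun n v w h => hf n () v w h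
  set zop : Oper ℚ 0 := fun _ => 0 with hzop
  set sop : Oper ℚ 0 := fun v => v 0 + 1 with hsop
  set pop : Oper ℚ 0 := fun v => v 0 - 1 with hpop
  set T0 : Finset (Σ n, Oper ℚ n) := {⟨0, zop⟩, ⟨0, sop⟩, ⟨0, pop⟩, ⟨2, decode⟩,
    ⟨k + 1, codeFun f⟩, ⟨k + 1, upFun f⟩, ⟨k + 1, downFun f⟩} with hT0
  refine ⟨T0, ?_, fun n => ?_⟩
  · intro t ht
    simp only [hT0, Finset.mem_insert, Finset.mem_singleton] at ht
    rcases ht with rfl | rfl | rfl | rfl | rfl | rfl | rfl
    · exact fun _ v w h => le_refl _
    · exact fun _ v w h => by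
        have := h 0
        show v 0 + 1 ≤ w 0 + 1
        linarith
    · exact fun _ v w h => by
        have := h 0
        show v 0 - 1 ≤ w 0 - 1
        linarith
    · exact fun _ v w h => decode_mono h
    · exact fun _ v w h => codeFun_mono hf' h
    · exact fun _ v w h => upFun_mono hf' h
    · exact fun _ v w h => downFun_mono hf' h
  · set T : OpSet ℚ := fun m => {t | (⟨m, t⟩ : Σ n, Oper ℚ n) ∈ T0} with hT
    have hz : zop ∈ T 0 := by simp [hT, hT0]
    have hs : sop ∈ T 0 := by simp [hT, hT0]
    have hp : pop ∈ T 0 := by simp [hT, hT0]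
    have hE : decode ∈ T 2 := by simp [hT, hT0]
    have hG : codeFun f ∈ T (k + 1) := by simp [hT, hT0]
    have hU : upFun f ∈ T (k + 1) := by simp [hT, hT0]
    have hD : downFun f ∈ T (k + 1) := by simp [hT, hT0]
    have hc : ∀ n : ℕ, (fun _ => (n : ℚ)) ∈ terms T k (n + 1) := by
      intro n
      induction n with
      | zero =>
        have h1 := comp_mem_terms hz (g := fun _ => proj k 0) (fun _ => proj_mem_terms T k 0 0)
        have h2 : comp zop (fun _ => proj k 0) = (fun _ => ((0 : ℕ) : ℚ) : Oper ℚ k) := by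
          funext v; simp [comp, hzop]
        rwa [h2] at h1
      | succ n ih =>
        have h1 := comp_mem_terms hs (g := fun _ => fun _ => (n : ℚ)) (fun _ => ih)
        have h2 : comp sop (fun _ => (fun _ => (n : ℚ) : Oper ℚ k)) =
            fun _ => ((n + 1 : ℕ) : ℚ) := by
          funext v; simp [comp, hsop]
        rwa [h2] at h1
    have hc' : ∀ n : ℕ, (fun _ => -(n : ℚ)) ∈ terms T k (n + 1) := by
      intro n
      induction n with
      | zero =>
        have h1 := comp_mem_terms hz (g := fun _ => proj k 0) (fun _ => proj_mem_terms T k 0 0)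
        have h2 : comp zop (fun _ => proj k 0) = (fun _ => -((0 : ℕ) : ℚ) : Oper ℚ k) := by
          funext v; simp [comp, hzop]
        rwa [h2] at h1
      | succ n ih =>
        have h1 := comp_mem_terms hp (g := fun _ => fun _ => -(n : ℚ)) (fun _ => ih)
        have h2 : comp pop (fun _ => (fun _ => -(n : ℚ) : Oper ℚ k)) =
            fun _ => -((n + 1 : ℕ) : ℚ) := by
          funext v; simp [comp, hpop]; ring
        rwa [h2] at h1
    -- substituting the constant `c` and the variables in a `(k+2)`-ary function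
    have hsub : ∀ (F : Oper ℚ (k + 1)), F ∈ T (k + 1) → ∀ c : ℚ,
        (fun _ => c) ∈ terms T k (n + 1) → (fun v => F (Fin.cons c v)) ∈ terms T k (n + 2) := by
      intro F hF c hcc
      have h1 := comp_mem_terms hF (g := Fin.cons (fun _ => c) (fun i => proj k i))
        (fun j => by
          refine Fin.cases ?_ (fun i => ?_) j
          · simpa using hcc
          · simpa using proj_mem_terms T k (n + 1) i)
      have h2 : comp F (Fin.cons (fun _ => c) (fun i => proj k i)) = fun v => F (Fin.cons c v) := by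
        funext v
        unfold comp
        congr 1
        funext j
        refine Fin.cases ?_ (fun i => ?_) j
        · simp
        · simp [proj]
      rwa [h2] at h1
    have h1 := hsub _ hG n (hc n)
    have h2 := hsub _ hU n (hc n)
    have h3 := hsub _ hD (-n) (hc' n)
    have h1' : ∀ m : ℕ, (fun v => codeFun f (Fin.cons (n : ℚ) v) - m) ∈
        terms T k (n + 2 + m) := by
      intro m
      induction m with
      | zero => simpa using h1
      | succ m ih =>
        have h4 := comp_mem_terms hp
          (g := fun _ => fun v => codeFun f (Fin.cons (n : ℚ) v) - m) (fun _ => ih)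
        have h5 : comp pop (fun _ => fun v => codeFun f (Fin.cons (n : ℚ) v) - m) =
            fun v => codeFun f (Fin.cons (n : ℚ) v) - ((m + 1 : ℕ) : ℚ) := by
          funext v
          show codeFun f (Fin.cons (n : ℚ) v) - m - 1 = _
          push_cast
          ring
        rwa [h5] at h4
    have h6 := h1' (2 * n)
    have h7 : (fun v => codeFun f (Fin.cons (n : ℚ) v) - ((2 * n : ℕ) : ℚ)) =
        fun v => phi (f n v) := by
      funext v
      simp [codeFun]
    rw [h7] at h6
    have h8 := comp_mem_terms hE (g := ![fun v => phi (f n v),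
      fun v => downFun f (Fin.cons (-(n : ℚ)) v), fun v => upFun f (Fin.cons (n : ℚ) v)])
      (k := k) (i := 3 * n + 2) (by
        intro j
        fin_cases j
        · exact terms_mono T k (by omega) h6
        · exact terms_mono T k (by omega) h3
        · exact terms_mono T k (by omega) h2)
    have h9 : comp decode ![fun v => phi (f n v),
        fun v => downFun f (Fin.cons (-(n : ℚ)) v), fun v => upFun f (Fin.cons (n : ℚ) v)] =
        f n := by
      funext v
      have h10 : downFun f (Fin.cons (-(n : ℚ)) v) ≤ f n v := by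
        unfold downFun
        have : (Finset.range ((-⌊(Fin.cons (-(n : ℚ)) v : Fin (k + 1 + 1) → ℚ) 0⌋).toNat + 1)).inf'
            Finset.nonempty_range_add_one (fun j => f j (fun i =>
              (Fin.cons (-(n : ℚ)) v : Fin (k + 1 + 1) → ℚ) i.succ)) ≤ f n (fun i =>
              (Fin.cons (-(n : ℚ)) v : Fin (k + 1 + 1) → ℚ) i.succ) := by
          refine Finset.inf'_le (fun j => f j (fun i =>
              (Fin.cons (-(n : ℚ)) v : Fin (k + 1 + 1) → ℚ) i.succ)) ?_
          rw [Finset.mem_range, Fin.cons_zero]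
          have : ⌊(-(n : ℚ))⌋ = -(n : ℤ) := by
            rw [show (-(n : ℚ)) = ((-(n : ℤ) : ℤ) : ℚ) by push_cast; rfl, Int.floor_intCast]
          rw [this]
          simp
        simpa using this
      have h11 : f n v ≤ upFun f (Fin.cons (n : ℚ) v) := by
        unfold upFun
        have : f n (fun i => (Fin.cons (n : ℚ) v : Fin (k + 1 + 1) → ℚ) i.succ) ≤
            (Finset.range (⌊(Fin.cons (n : ℚ) v : Fin (k + 1 + 1) → ℚ) 0⌋.toNat + 1)).sup'
            Finset.nonempty_range_add_one (fun j => f j (fun i =>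
              (Fin.cons (n : ℚ) v : Fin (k + 1 + 1) → ℚ) i.succ)) := by
          refine Finset.le_sup' (fun j => f j (fun i =>
              (Fin.cons (n : ℚ) v : Fin (k + 1 + 1) → ℚ) i.succ)) ?_
          rw [Finset.mem_range, Fin.cons_zero]
          simp
        simpa using this
      have h12 : (comp decode ![fun v => phi (f n v),
          fun v => downFun f (Fin.cons (-(n : ℚ)) v), fun v => upFun f (Fin.cons (n : ℚ) v)]) v =
          decode ![phi (f n v), downFun f (Fin.cons (-(n : ℚ)) v),
            upFun f (Fin.cons (n : ℚ) v)] := by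
        unfold comp
        congr 1
        funext j
        fin_cases j <;> rfl
      rw [h12, decode_phi h10 h11]
    rwa [h9] at h8

end rationals

section existence

/-- The extension property over finite sets (Katetov functions are realised). -/
def ExtProp (D : Set ℝ) (X : Type) [MetricSpace X] : Prop :=
  ∀ (A : Finset X) (g : X → ℝ), (∀ a ∈ A, g a ∈ D) → (∀ a ∈ A, 0 < g a) →
    (∀ a ∈ A, ∀ b ∈ A, g a ≤ g b + dist a b) → (∀ a ∈ A, ∀ b ∈ A, dist a b ≤ g a + g b) →
    ∃ x : X, ∀ a ∈ A, dist x a = g a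

theorem ExtProp.exists_point {D : Set ℝ} {X : Type} [MetricSpace X] (hX : ExtProp D X)
    (A : Finset X) (g : X → ℝ) (hD : ∀ a ∈ A, g a ∈ D) (hnn : ∀ a ∈ A, 0 ≤ g a)
    (h1 : ∀ a ∈ A, ∀ b ∈ A, g a ≤ g b + dist a b)
    (h2 : ∀ a ∈ A, ∀ b ∈ A, dist a b ≤ g a + g b) : ∃ x : X, ∀ a ∈ A, dist x a = g a := by
  by_cases h : ∃ a ∈ A, g a = 0
  · obtain ⟨a, ha, h⟩ := h
    refine ⟨a, fun b hb => le_antisymm ?_ ?_⟩
    · have := h2 a ha b hb
      linarith
    · have := h1 b hb a ha
      rw [dist_comm]
      linarith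
  · push Not at h
    exact hX A g hD (fun a ha => lt_of_le_of_ne (hnn a ha) (h a ha).symm) h1 h2

/-- Finite partial isometries. -/
def PartIso {X : Type} [MetricSpace X] (P : Finset (X × X)) : Prop :=
  ∀ p ∈ P, ∀ q ∈ P, dist p.1 q.1 = dist p.2 q.2

theorem partIso_extend {D : Set ℝ} {X : Type} [MetricSpace X] [DecidableEq X]
    (hD : ∀ x y : X, dist x y ∈ D)
    (hX : ExtProp D X) {P : Finset (X × X)} (hP : PartIso P) (x : X) :
    ∃ y : X, PartIso (insert (x, y) P) := by
  classical
  -- choose for each point of the range its preimage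
  have hg : ∃ g : X → ℝ, ∀ p ∈ P, g p.2 = dist x p.1 := by
    refine ⟨fun z => if h : ∃ p ∈ P, p.2 = z then dist x h.choose.1 else 0, fun p hp => ?_⟩
    have h : ∃ q ∈ P, q.2 = p.2 := ⟨p, hp, rfl⟩
    simp only
    rw [dif_pos h]
    obtain ⟨h1, h2⟩ := h.choose_spec
    have h3 := hP _ h1 p hp
    rw [h2, dist_self] at h3
    rw [dist_eq_zero.1 h3]
  obtain ⟨g, hg⟩ := hg
  obtain ⟨y, hy⟩ := hX.exists_point (P.image Prod.snd) g
    (by
      intro a ha
      obtain ⟨p, hp, rfl⟩ := Finset.mem_image.1 ha
      rw [hg p hp]; exact hD _ _)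
    (by
      intro a ha
      obtain ⟨p, hp, rfl⟩ := Finset.mem_image.1 ha
      rw [hg p hp]; exact dist_nonneg)
    (by
      intro a ha b hb
      obtain ⟨p, hp, rfl⟩ := Finset.mem_image.1 ha
      obtain ⟨q, hq, rfl⟩ := Finset.mem_image.1 hb
      rw [hg p hp, hg q hq, ← hP p hp q hq, dist_comm p.1 q.1]
      exact dist_triangle _ _ _)
    (by
      intro a ha b hb
      obtain ⟨p, hp, rfl⟩ := Finset.mem_image.1 ha
      obtain ⟨q, hq, rfl⟩ := Finset.mem_image.1 hb
      rw [hg p hp, hg q hq, ← hP p hp q hq, dist_comm x p.1]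
      exact dist_triangle _ _ _)
  have hyp : ∀ p ∈ P, dist y p.2 = dist x p.1 := fun p hp => by
    rw [hy p.2 (Finset.mem_image_of_mem _ hp), hg p hp]
  refine ⟨y, fun p hp q hq => ?_⟩
  rw [Finset.mem_insert] at hp hq
  rcases hp with rfl | hp <;> rcases hq with rfl | hq
  · simp
  · exact (hyp q hq).symm
  · rw [dist_comm p.1, dist_comm p.2]
    exact (hyp p hp).symm
  · exact hP p hp q hq

theorem partIso_swap {X : Type} [MetricSpace X] [DecidableEq X] {P : Finset (X × X)}
    (hP : PartIso P) : PartIso (P.image Prod.swap) := by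
  intro p hp q hq
  obtain ⟨p', hp', rfl⟩ := Finset.mem_image.1 hp
  obtain ⟨q', hq', rfl⟩ := Finset.mem_image.1 hq
  exact (hP p' hp' q' hq').symm

theorem partIso_extend' {D : Set ℝ} {X : Type} [MetricSpace X] [DecidableEq X]
    (hD : ∀ x y : X, dist x y ∈ D)
    (hX : ExtProp D X) {P : Finset (X × X)} (hP : PartIso P) (y : X) :
    ∃ x : X, PartIso (insert (x, y) P) := by
  obtain ⟨x, hx⟩ := partIso_extend hD hX (partIso_swap hP) y
  refine ⟨x, ?_⟩
  have := partIso_swap hx
  rw [Finset.image_insert, Finset.image_image] at this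
  simpa using this

theorem partIso_step {D : Set ℝ} {X : Type} [MetricSpace X] (hD : ∀ x y : X, dist x y ∈ D)
    (hX : ExtProp D X) {P : Finset (X × X)} (hP : PartIso P) (z : X) :
    ∃ Q : Finset (X × X), PartIso Q ∧ P ⊆ Q ∧ (∃ y, (z, y) ∈ Q) ∧ ∃ x, (x, z) ∈ Q := by
  classical
  obtain ⟨y, hy⟩ := partIso_extend hD hX hP z
  obtain ⟨x, hx⟩ := partIso_extend' hD hX hy z
  refine ⟨_, hx, ?_, ⟨y, ?_⟩, ⟨x, ?_⟩⟩
  · exact (Finset.subset_insert _ _).trans (Finset.subset_insert _ _)
  · exact Finset.mem_insert_of_mem (Finset.mem_insert_self _ _)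
  · exact Finset.mem_insert_self _ _

theorem homogeneous_of_extProp {D : Set ℝ} {X : Type} [MetricSpace X] [Countable X]
    (hD : ∀ x y : X, dist x y ∈ D) (hX : ExtProp D X) (A : Set X) (hA : A.Finite) (f : A → X)
    (hf : Isometry f) : ∃ g : X ≃ᵢ X, ∀ a : A, g a = f a := by
  classical
  rcases isEmpty_or_nonempty X with hE | hN
  · exact ⟨IsometryEquiv.refl X, fun a => (hE.false a).elim⟩
  obtain ⟨x, hx⟩ := exists_surjective_nat X
  have : Fintype A := hA.fintype
  have hstep : ∀ (n : ℕ) (P : {P : Finset (X × X) // PartIso P}),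
      ∃ Q : {P : Finset (X × X) // PartIso P}, P.1 ⊆ Q.1 ∧ (∃ y, (x n, y) ∈ Q.1) ∧
        ∃ z, (z, x n) ∈ Q.1 := fun n P => by
    obtain ⟨Q, h1, h2, h3, h4⟩ := partIso_step hD hX P.2 (x n)
    exact ⟨⟨Q, h1⟩, h2, h3, h4⟩
  choose S hS using hstep
  have hP0 : PartIso ((Finset.univ : Finset A).image (fun a : A => ((a : X), f a))) := by
    intro p hp q hq
    obtain ⟨a, -, rfl⟩ := Finset.mem_image.1 hp
    obtain ⟨b, -, rfl⟩ := Finset.mem_image.1 hq
    exact (hf.dist_eq a b).symm
  let P : ℕ → {P : Finset (X × X) // PartIso P} := fun n =>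
    Nat.rec ⟨_, hP0⟩ (fun n Q => S n Q) n
  have hPs : ∀ n, P (n + 1) = S n (P n) := fun n => rfl
  have hmono : ∀ m n, m ≤ n → (P m).1 ⊆ (P n).1 := by
    intro m n h
    induction h with
    | refl => exact fun _ h => h
    | step _ ih => exact ih.trans (by rw [hPs]; exact (hS _ _).1)
  have hRiso : ∀ a b c d : X, (∃ n, (a, b) ∈ (P n).1) → (∃ n, (c, d) ∈ (P n).1) →
      dist a c = dist b d := by
    rintro a b c d ⟨m, hm⟩ ⟨n, hn⟩
    exact (P (max m n)).2 _ (hmono _ _ (le_max_left m n) hm) _ (hmono _ _ (le_max_right m n) hn)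
  have htot : ∀ a, ∃ b, ∃ n, (a, b) ∈ (P n).1 := by
    intro a
    obtain ⟨n, rfl⟩ := hx a
    obtain ⟨y, hy⟩ := (hS n (P n)).2.1
    exact ⟨y, n + 1, by rw [hPs]; exact hy⟩
  have hsurj : ∀ b, ∃ a, ∃ n, (a, b) ∈ (P n).1 := by
    intro a
    obtain ⟨n, rfl⟩ := hx a
    obtain ⟨y, hy⟩ := (hS n (P n)).2.2
    exact ⟨y, n + 1, by rw [hPs]; exact hy⟩
  choose g hg using htot
  have hgiso : Isometry g := Isometry.of_dist_eq fun a b => (hRiso _ _ _ _ (hg a) (hg b)).symm
  have hgsurj : Function.Surjective g := by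
    intro b
    obtain ⟨a, ha⟩ := hsurj b
    refine ⟨a, ?_⟩
    have := hRiso _ _ _ _ ha (hg a)
    rw [dist_self] at this
    exact (dist_eq_zero.1 this.symm).symm
  refine ⟨⟨Equiv.ofBijective g ⟨hgiso.injective, hgsurj⟩, hgiso⟩, fun a => ?_⟩
  have h0 : ((a : X), f a) ∈ (P 0).1 :=
    Finset.mem_image_of_mem (fun a : A => ((a : X), f a)) (Finset.mem_univ a)
  have := hRiso _ _ _ _ ⟨0, h0⟩ (hg a)
  rw [dist_self] at this
  exact (dist_eq_zero.1 this.symm).symm

theorem universal_of_extProp {D : Set ℝ} {X : Type} [MetricSpace X]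
    (hX : ExtProp D X) (Y : Type) [MetricSpace Y] [Finite Y]
    (hY : ∀ y z : Y, dist y z ∈ D) : ∃ e : Y → X, Isometry e := by
  classical
  rcases isEmpty_or_nonempty Y with hE | hN
  · exact ⟨fun y => hE.elim y, fun y => hE.elim y⟩
  obtain ⟨x0, -⟩ := hX ∅ (fun _ => 0) (by simp) (by simp) (by simp) (by simp)
  have : Inhabited X := ⟨x0⟩
  obtain ⟨y, hy⟩ := exists_surjective_nat Y
  obtain ⟨u, hu⟩ := exists_seq_of_forall (α := X)
    (fun n f z => ∀ i < n, dist z (f i) = dist (y n) (y i))
    (fun n f g a hfg h i hi => by rw [← hfg i hi]; exact h i hi)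
    (by
      intro n f hf
      have hff : ∀ i < n, ∀ k < n, dist (f i) (f k) = dist (y i) (y k) := by
        intro i hi k hk
        rcases lt_trichotomy i k with h | h | h
        · rw [dist_comm, dist_comm (y i)]; exact hf k hk i h
        · rw [h, dist_self, dist_self]
        · exact hf i hi k h
      have hg : ∃ g : X → ℝ, ∀ i < n, g (f i) = dist (y n) (y i) := by
        refine ⟨fun z => if h : ∃ i, i < n ∧ f i = z then dist (y n) (y h.choose) else 0,
          fun i hi => ?_⟩
        have h : ∃ j, j < n ∧ f j = f i := ⟨i, hi, rfl⟩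
        simp only
        rw [dif_pos h]
        obtain ⟨h1, h2⟩ := h.choose_spec
        have h3 := hff _ h1 i hi
        rw [h2, dist_self] at h3
        rw [dist_eq_zero.1 h3.symm]
      obtain ⟨g, hg⟩ := hg
      obtain ⟨z, hz⟩ := hX.exists_point ((Finset.range n).image f) g
        (by
          intro a ha
          obtain ⟨i, hi, rfl⟩ := Finset.mem_image.1 ha
          rw [hg i (Finset.mem_range.1 hi)]; exact hY _ _)
        (by
          intro a ha
          obtain ⟨i, hi, rfl⟩ := Finset.mem_image.1 ha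
          rw [hg i (Finset.mem_range.1 hi)]; exact dist_nonneg)
        (by
          intro a ha b hb
          obtain ⟨i, hi, rfl⟩ := Finset.mem_image.1 ha
          obtain ⟨j, hj, rfl⟩ := Finset.mem_image.1 hb
          rw [Finset.mem_range] at hi hj
          rw [hg i hi, hg j hj, hff i hi j hj, dist_comm (y i)]
          exact dist_triangle _ _ _)
        (by
          intro a ha b hb
          obtain ⟨i, hi, rfl⟩ := Finset.mem_image.1 ha
          obtain ⟨j, hj, rfl⟩ := Finset.mem_image.1 hb
          rw [Finset.mem_range] at hi hj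
          rw [hg i hi, hg j hj, hff i hi j hj, dist_comm (y n) (y i)]
          exact dist_triangle _ _ _)
      refine ⟨z, fun i hi => ?_⟩
      rw [hz (f i) (Finset.mem_image_of_mem f (Finset.mem_range.2 hi)), hg i hi])
  have huu : ∀ i k, dist (u i) (u k) = dist (y i) (y k) := by
    intro i k
    rcases lt_trichotomy i k with h | h | h
    · rw [dist_comm, dist_comm (y i)]; exact hu k i h
    · rw [h, dist_self, dist_self]
    · exact hu i k h
  choose idx hidx using hy
  refine ⟨fun a => u (idx a), Isometry.of_dist_eq fun a b => ?_⟩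
  rw [huu, hidx, hidx]

theorem isFraisseLimit_of_extProp {D : Set ℝ} {X : Type} [MetricSpace X] [Countable X]
    (hD : ∀ x y : X, dist x y ∈ D) (hX : ExtProp D X) : IsFraisseLimit D X where
  countable := inferInstance
  dist_mem := hD
  universal Y _ _ hY := universal_of_extProp hX Y hY
  homogeneous A hA f hf := homogeneous_of_extProp hD hX A hA f hf

/-- Distance function on `ℕ` given by rows. -/
noncomputable def rowDist (f : ℕ → ℕ → ℝ) (m n : ℕ) : ℝ :=
  if n < m then f m n else if m < n then f n m else 0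

/-- The points of the constructed space. -/
structure Pt : Type where
  idx : ℕ

theorem exists_extProp (D : Set ℝ) (tr : ℝ → ℝ) (hrat : ∀ r ∈ D, ∃ q : ℚ, r = q)
    (h0 : (0 : ℝ) ∈ D)
    (hmono : ∀ x y, x ≤ y → tr x ≤ tr y) (hsub : ∀ x y, 0 ≤ x → 0 ≤ y → tr (x + y) ≤ tr x + tr y)
    (hle : ∀ x, tr x ≤ x) (htr : ∀ x ∈ D, tr x = x)
    (hpos : ∀ x, 0 < x → 0 < tr x) (hmem : ∀ q : ℚ, tr q ∈ D) :
    ∃ _ : MetricSpace Pt, (∀ x y : Pt, dist x y ∈ D) ∧ ExtProp D Pt := by
  classical
  obtain ⟨task, htask⟩ := exists_surjective_nat (Finset (ℕ × ℚ))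
  -- validity of a task over the metric given by the rows
  let Valid : (ℕ → ℕ → ℝ) → Finset (ℕ × ℚ) → Prop := fun f t =>
    ∀ p ∈ t, ((p.2 : ℝ) ∈ D ∧ (0 : ℝ) < p.2) ∧ ∀ q ∈ t,
      (p.2 : ℝ) ≤ q.2 + rowDist f p.1 q.1 ∧ rowDist f p.1 q.1 ≤ (p.2 : ℝ) + q.2
  let Row : ℕ → (ℕ → ℕ → ℝ) → (ℕ → ℝ) → Prop := fun n f r =>
    ∀ m < n, (r m ∈ D ∧ 0 < r m) ∧ ∀ l < n, r m ≤ r l + rowDist f m l ∧
      rowDist f m l ≤ r m + r l
  have hself : ∀ f m, rowDist f m m = 0 := fun f m => by simp [rowDist]
  have hsymm : ∀ f m n, rowDist f m n = rowDist f n m := fun f m n => by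
    unfold rowDist
    rcases lt_trichotomy m n with h | h | h
    · simp [h, h.not_gt]
    · simp [h]
    · simp [h, h.not_gt]
  have hcongr : ∀ n (f g : ℕ → ℕ → ℝ), (∀ i < n, f i = g i) → ∀ a < n, ∀ b < n,
      rowDist f a b = rowDist g a b := by
    intro n f g h a ha b hb
    unfold rowDist
    rw [h a ha, h b hb]
  -- metric facts from rows
  have hfacts : ∀ n (f : ℕ → ℕ → ℝ), (∀ i < n, Row i f (f i)) →
      (∀ a < n, ∀ b < n, a ≠ b → rowDist f a b ∈ D ∧ 0 < rowDist f a b) ∧
      (∀ a < n, ∀ b < n, ∀ c < n, rowDist f a c ≤ rowDist f a b + rowDist f b c) := by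
    intro n f hf
    have hlt : ∀ a b, b < a → rowDist f a b = f a b := fun a b h => by
      unfold rowDist; rw [if_pos h]
    have hA : ∀ a < n, ∀ b < n, a ≠ b → rowDist f a b ∈ D ∧ 0 < rowDist f a b := by
      intro a ha b hb hab
      rcases lt_or_gt_of_ne hab with h | h
      · rw [hsymm, hlt b a h]; exact (hf b hb a h).1
      · rw [hlt a b h]; exact (hf a ha b h).1
    have hnn : ∀ a < n, ∀ b < n, 0 ≤ rowDist f a b := by
      intro a ha b hb
      by_cases hab : a = b
      · rw [hab, hself]
      · exact (hA a ha b hb hab).2.le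
    refine ⟨hA, ?_⟩
    intro a ha b hb c hc
    by_cases hab : a = b
    · rw [hab, hself, zero_add]
    by_cases hbc : b = c
    · rw [hbc, hself, add_zero]
    by_cases hac : a = c
    · rw [hac, hself]
      exact add_nonneg (hnn _ hc _ hb) (hnn _ hb _ hc)
    -- the largest index gives the inequality
    rcases lt_or_gt_of_ne hab with h1 | h1 <;> rcases lt_or_gt_of_ne hbc with h2 | h2 <;>
      rcases lt_or_gt_of_ne hac with h3 | h3
    · -- a < b < c
      have := ((hf c hc a h3).2 b h2).1
      rw [hsymm f a c, hlt c a h3, hsymm f b c, hlt c b h2]; linarith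
    · omega
    · -- a < b, c < b, a < c
      have := ((hf b hb a h1).2 c h2).2
      rw [hsymm f a b, hlt b a h1, hlt b c h2]; linarith
    · -- a < b, c < b, c < a
      have := ((hf b hb a h1).2 c h2).2
      rw [hsymm f a b, hlt b a h1, hlt b c h2]; linarith
    · -- b < a, b < c, a < c
      have := ((hf c hc a h3).2 b h2).1
      rw [hsymm f a c, hlt c a h3, hsymm f b c, hlt c b h2]; linarith
    · -- b < a, b < c, c < a
      have := ((hf a ha c h3).2 b h1).1
      rw [hlt a c h3, hlt a b h1, hsymm f b c]; linarith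
    · omega
    · -- c < b < a
      have := ((hf a ha c h3).2 b h1).1
      rw [hlt a c h3, hlt a b h1, hsymm f b c]; linarith
  obtain ⟨F, hF⟩ := exists_seq_of_forall (α := ℕ → ℝ)
    (fun n f r => Row n f r ∧ ((∀ p ∈ task (Nat.unpair n).1, p.1 < n) →
      Valid f (task (Nat.unpair n).1) → ∀ p ∈ task (Nat.unpair n).1, r p.1 = p.2))
    (by
      rintro n f g r hfg ⟨h1, h2⟩
      refine ⟨fun m hm => ⟨(h1 m hm).1, fun l hl => ?_⟩, fun h3 h4 => h2 h3 ?_⟩
      · rw [← hcongr n f g hfg m hm l hl]; exact (h1 m hm).2 l hl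
      · intro p hp
        refine ⟨(h4 p hp).1, fun q hq => ?_⟩
        rw [hcongr n f g hfg p.1 (h3 p hp) q.1 (h3 q hq)]; exact (h4 p hp).2 q hq)
    (by
      intro n f hf
      obtain ⟨hA, hT⟩ := hfacts n f (fun i hi => (hf i hi).1)
      have hnn : ∀ a < n, ∀ b < n, 0 ≤ rowDist f a b := by
        intro a ha b hb
        by_cases hab : a = b
        · rw [hab, hself]
        · exact (hA a ha b hb hab).2.le
      have hDD : ∀ a < n, ∀ b < n, rowDist f a b ∈ D := by
        intro a ha b hb
        by_cases hab : a = b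
        · rw [hab, hself]; exact h0
        · exact (hA a ha b hb hab).1
      -- solving a nonempty valid task
      have hsolve : ∀ t : Finset (ℕ × ℚ), t.Nonempty → (∀ p ∈ t, p.1 < n) → Valid f t →
          ∃ r, Row n f r ∧ ∀ p ∈ t, r p.1 = p.2 := by
        intro t ht htn htv
        set r : ℕ → ℝ := fun m => t.inf' ht (fun p => tr (p.2 + rowDist f p.1 m)) with hr
        have hrle : ∀ m, ∀ p ∈ t, r m ≤ tr (p.2 + rowDist f p.1 m) := fun m p hp =>
          Finset.inf'_le _ hp
        have hrat' : ∀ m, ∃ p ∈ t, r m = tr (p.2 + rowDist f p.1 m) := fun m =>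
          Finset.exists_mem_eq_inf' ht _
        refine ⟨r, fun m hm => ⟨⟨?_, ?_⟩, fun l hl => ⟨?_, ?_⟩⟩, fun p hp => le_antisymm ?_ ?_⟩
        · obtain ⟨p, hp, h⟩ := hrat' m
          rw [h]
          obtain ⟨q, hq⟩ := hrat _ (hDD p.1 (htn p hp) m hm)
          rw [hq]
          have := hmem (p.2 + q)
          push_cast at this
          exact this
        · obtain ⟨p, hp, h⟩ := hrat' m
          rw [h]
          apply hpos
          have h1 := (htv p hp).1.2
          have h2 := hnn p.1 (htn p hp) m hm
          linarith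
        · obtain ⟨p, hp, h⟩ := hrat' l
          rw [h]
          have h1 := (htv p hp).1.2
          have h2 := hnn p.1 (htn p hp) l hl
          have h3 := hnn l hl m hm
          calc r m ≤ tr (p.2 + rowDist f p.1 m) := hrle m p hp
            _ ≤ tr ((p.2 + rowDist f p.1 l) + rowDist f l m) :=
              hmono _ _ (by linarith [hT p.1 (htn p hp) l hl m hm])
            _ ≤ tr (p.2 + rowDist f p.1 l) + tr (rowDist f l m) := hsub _ _ (by linarith) h3
            _ ≤ tr (p.2 + rowDist f p.1 l) + rowDist f m l := by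
              rw [hsymm f m l]; linarith [hle (rowDist f l m)]
        · obtain ⟨p, hp, h⟩ := hrat' m
          obtain ⟨q, hq, h'⟩ := hrat' l
          rw [h, h']
          have hp1 := (htv p hp).1.2
          have hq1 := (htv q hq).1.2
          have h2 := hnn p.1 (htn p hp) m hm
          have h3 := hnn q.1 (htn q hq) l hl
          have h4 := hT m hm p.1 (htn p hp) l hl
          have h5 := hT p.1 (htn p hp) q.1 (htn q hq) l hl
          have h6 := ((htv p hp).2 q hq).2
          rw [hsymm f m p.1] at h4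
          calc rowDist f m l = tr (rowDist f m l) := (htr _ (hDD m hm l hl)).symm
            _ ≤ tr ((p.2 + rowDist f p.1 m) + (q.2 + rowDist f q.1 l)) :=
              hmono _ _ (by linarith)
            _ ≤ _ := hsub _ _ (by linarith) (by linarith)
        · refine (hrle p.1 p hp).trans ?_
          rw [hself, add_zero, htr _ (htv p hp).1.1]
        · obtain ⟨q, hq, h⟩ := hrat' p.1
          rw [h]
          calc (p.2 : ℝ) = tr p.2 := (htr _ (htv p hp).1.1).symm
            _ ≤ _ := hmono _ _ (by
              rw [hsymm f q.1 p.1]; exact ((htv p hp).2 q hq).1)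
      by_cases hc : (task (Nat.unpair n).1).Nonempty ∧
          (∀ p ∈ task (Nat.unpair n).1, p.1 < n) ∧ Valid f (task (Nat.unpair n).1)
      · obtain ⟨r, hr1, hr2⟩ := hsolve _ hc.1 hc.2.1 hc.2.2
        exact ⟨r, hr1, fun _ _ => hr2⟩
      · have hex : ∃ r, Row n f r := by
          rcases Nat.eq_zero_or_pos n with rfl | hn
          · exact ⟨fun _ => 0, fun m hm => absurd hm (Nat.not_lt_zero m)⟩
          obtain ⟨q, hq⟩ := hrat (tr 1) (by have := hmem 1; simpa using this)
          have hq0 : (0 : ℝ) < q := by rw [← hq]; exact hpos 1 one_pos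
          obtain ⟨r, hr, -⟩ := hsolve {(0, q)} (Finset.singleton_nonempty _)
            (by intro p hp; rw [Finset.mem_singleton] at hp; rw [hp]; exact hn)
            (by
              intro p hp
              rw [Finset.mem_singleton] at hp
              subst hp
              refine ⟨⟨?_, hq0⟩, fun p hp => ?_⟩
              · show (q : ℝ) ∈ D
                rw [← hq]; have := hmem 1; simpa using this
              · rw [Finset.mem_singleton] at hp
                subst hp
                rw [hself]
                exact ⟨by linarith, by simp only; linarith⟩)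
          exact ⟨r, hr⟩
        obtain ⟨r, hr⟩ := hex
        refine ⟨r, hr, fun h1 h2 p hp => ?_⟩
        exact absurd ⟨⟨p, hp⟩, h1, h2⟩ hc)
  have hrows : ∀ n, ∀ i < n, Row i F (F i) := fun n i _ => (hF i).1
  have hA : ∀ a b, a ≠ b → rowDist F a b ∈ D ∧ 0 < rowDist F a b := fun a b hab =>
    (hfacts (max a b + 1) F (hrows _)).1 a (by omega) b (by omega) hab
  have hT : ∀ a b c, rowDist F a c ≤ rowDist F a b + rowDist F b c := fun a b c =>
    (hfacts (max a (max b c) + 1) F (hrows _)).2 a (by omega) b (by omega) c (by omega)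
  let inst : MetricSpace Pt :=
    { dist := fun x y => rowDist F x.idx y.idx
      dist_self := fun x => hself F x.idx
      dist_comm := fun x y => hsymm F x.idx y.idx
      dist_triangle := fun x y z => hT x.idx y.idx z.idx
      eq_of_dist_eq_zero := by
        rintro ⟨x⟩ ⟨y⟩ h
        by_contra hne
        have hxy : x ≠ y := fun h => hne (by rw [h])
        exact (hA x y hxy).2.ne' h }
  have hdist : ∀ x y : Pt, dist x y = rowDist F x.idx y.idx := fun x y => rfl
  refine ⟨inst, fun x y => ?_, ?_⟩
  · rw [hdist]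
    by_cases h : x.idx = y.idx
    · rw [h, hself]; exact h0
    · exact (hA _ _ h).1
  · intro A g hgD hgpos h1 h2
    have hq : ∀ a : Pt, ∃ q : ℚ, a ∈ A → g a = q := by
      intro a
      by_cases ha : a ∈ A
      · obtain ⟨q, hq⟩ := hrat _ (hgD a ha)
        exact ⟨q, fun _ => hq⟩
      · exact ⟨0, fun h => absurd h ha⟩
    choose q hq using hq
    obtain ⟨k, hk⟩ := htask (A.image (fun a => (a.idx, q a)))
    set N : ℕ := A.sup Pt.idx + 1 with hN
    set n : ℕ := Nat.pair k N with hn
    have hnN : N ≤ n := Nat.right_le_pair k N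
    have hunp : (Nat.unpair n).1 = k := by rw [hn, Nat.unpair_pair]
    have h3 := (hF n).2
    rw [hunp, hk] at h3
    have h4 := h3
      (by
        intro p hp
        obtain ⟨a, ha, rfl⟩ := Finset.mem_image.1 hp
        have : a.idx ≤ A.sup Pt.idx := Finset.le_sup (f := Pt.idx) ha
        show a.idx < n
        omega)
      (by
        intro p hp
        obtain ⟨a, ha, rfl⟩ := Finset.mem_image.1 hp
        refine ⟨⟨?_, ?_⟩, fun p hp => ?_⟩
        · show (q a : ℝ) ∈ D
          rw [← hq a ha]; exact hgD a ha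
        · show (0 : ℝ) < (q a : ℝ)
          rw [← hq a ha]; exact hgpos a ha
        · obtain ⟨b, hb, rfl⟩ := Finset.mem_image.1 hp
          show (q a : ℝ) ≤ (q b : ℝ) + rowDist F a.idx b.idx ∧
            rowDist F a.idx b.idx ≤ (q a : ℝ) + (q b : ℝ)
          rw [← hq a ha, ← hq b hb, ← hdist]
          exact ⟨h1 a ha b hb, h2 a ha b hb⟩)
    refine ⟨⟨n⟩, fun a ha => ?_⟩
    have h5 := h4 (a.idx, q a) (Finset.mem_image_of_mem (fun a => (a.idx, q a)) ha)
    rw [hdist, hq a ha]
    have h6 : a.idx < n := by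
      have : a.idx ≤ A.sup Pt.idx := Finset.le_sup (f := Pt.idx) ha
      omega
    show rowDist F n a.idx = _
    unfold rowDist
    rw [if_pos h6]
    exact h5

instance : Countable Pt := by
  have : Function.Injective Pt.idx := fun a b h => by cases a; cases b; simp_all
  exact this.countable

theorem exists_rationalUrysohn : ∃ (X : Type) (_ : MetricSpace X), IsFraisseLimit ratDist X := by
  obtain ⟨inst, h1, h2⟩ := exists_extProp ratDist id (fun r h => h) ⟨0, by simp⟩
    (fun x y h => h) (fun x y _ _ => le_refl _) (fun x => le_refl _) (fun x _ => rfl)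
    (fun x h => h) (fun q => ⟨q, rfl⟩)
  exact ⟨Pt, inst, isFraisseLimit_of_extProp h1 h2⟩

theorem exists_rationalUrysohnSphere :
    ∃ (X : Type) (_ : MetricSpace X), IsFraisseLimit ratDistOne X := by
  obtain ⟨inst, h1, h2⟩ := exists_extProp ratDistOne (fun x => min 1 x) (fun r h => h.1)
    zero_mem_ratDistOne
    (fun x y h => min_le_min le_rfl h)
    (fun x y hx hy => by
      rcases min_choice 1 x with h | h <;> rcases min_choice 1 y with h' | h' <;> rw [h, h']
      · exact (min_le_left _ _).trans (by norm_num)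
      · exact (min_le_left _ _).trans (by linarith)
      · exact (min_le_left _ _).trans (by linarith)
      · exact min_le_right _ _)
    (fun x => min_le_right _ _) (fun x h => min_eq_right h.2)
    (fun x h => lt_min one_pos h)
    (fun q => ⟨⟨min 1 q, by push_cast; rfl⟩, min_le_left _ _⟩)
  exact ⟨Pt, inst, isFraisseLimit_of_extProp h1 h2⟩

end existence

end Pool.Agent.Helper59.Bergman
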