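import Pool.Agent.Helper59.BraidDefs

set_option autoImplicit false

/-!
# The Artin action of `B_∞` on the free group
-/

namespace Pool.Agent.Helper59.Braid

/-- The generators of the free group. -/
def X (j : ℕ) : FreeGroup ℕ := FreeGroup.of j

/-- `x_i ↦ x_i x_{i+1} x_i⁻¹`, `x_{i+1} ↦ x_i`. -/
def fwd (i : ℕ) : FreeGroup ℕ →* FreeGroup ℕ :=
  FreeGroup.lift (fun j => if j = i then X i * X (i + 1) * (X i)⁻¹ else
    if j = i + 1 then X i else X j)

/-- `x_i ↦ x_{i+1}`, `x_{i+1} ↦ x_{i+1}⁻¹ x_i x_{i+1}`. -/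
def bwd (i : ℕ) : FreeGroup ℕ →* FreeGroup ℕ :=
  FreeGroup.lift (fun j => if j = i then X (i + 1) else
    if j = i + 1 then (X (i + 1))⁻¹ * X i * X (i + 1) else X j)

theorem fwd_X (i j : ℕ) : fwd i (X j) = if j = i then X i * X (i + 1) * (X i)⁻¹ else
    if j = i + 1 then X i else X j := FreeGroup.lift_apply_of

theorem bwd_X (i j : ℕ) : bwd i (X j) = if j = i then X (i + 1) else
    if j = i + 1 then (X (i + 1))⁻¹ * X i * X (i + 1) else X j := FreeGroup.lift_apply_of

theorem hom_ext' {G : Type*} [Group G] {f g : FreeGroup ℕ →* G} (h : ∀ j, f (X j) = g (X j)) :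
    f = g := FreeGroup.ext_hom _ _ h

theorem bwd_fwd (i : ℕ) : (bwd i).comp (fwd i) = MonoidHom.id _ := by
  apply hom_ext'
  intro j
  rw [MonoidHom.comp_apply, fwd_X, MonoidHom.id_apply]
  split_ifs with h1 h2
  · subst h1
    simp only [map_mul, map_inv, bwd_X, if_true, if_neg (Nat.succ_ne_self j)]
    group
  · subst h2
    simp only [bwd_X, if_true]
  · simp only [bwd_X, if_neg h1, if_neg h2]

theorem fwd_bwd (i : ℕ) : (fwd i).comp (bwd i) = MonoidHom.id _ := by
  apply hom_ext'
  intro j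
  rw [MonoidHom.comp_apply, bwd_X, MonoidHom.id_apply]
  split_ifs with h1 h2
  · subst h1
    simp only [fwd_X, if_true, if_neg (Nat.succ_ne_self j)]
  · subst h2
    simp only [map_mul, map_inv, fwd_X, if_true, if_neg (Nat.succ_ne_self i)]
    group
  · simp only [fwd_X, if_neg h1, if_neg h2]

/-- The action of a generator. -/
def sAut (i : ℕ) : MulAut (FreeGroup ℕ) :=
  MonoidHom.toMulEquiv (fwd i) (bwd i) (bwd_fwd i) (fwd_bwd i)

@[simp] theorem sAut_apply (i : ℕ) (z : FreeGroup ℕ) : sAut i z = fwd i z := rfl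

theorem sAut_ext {f g : MulAut (FreeGroup ℕ)} (h : ∀ j, f (X j) = g (X j)) : f = g := by
  apply MulEquiv.toMonoidHom_injective
  exact hom_ext' h

theorem sAut_comm {i j : ℕ} (h : i + 2 ≤ j) : sAut i * sAut j = sAut j * sAut i := by
  apply sAut_ext
  intro k
  simp only [MulAut.mul_apply, sAut_apply]
  by_cases h1 : k = i
  · subst h1
    simp only [fwd_X, if_true, if_neg (show k ≠ j by omega), if_neg (show k ≠ j + 1 by omega),
      map_mul, map_inv, if_neg (show k + 1 ≠ j by omega), if_neg (show k + 1 ≠ j + 1 by omega)]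
  by_cases h2 : k = i + 1
  · subst h2
    simp only [fwd_X, if_true, if_neg (show i + 1 ≠ j by omega),
      if_neg (show i + 1 ≠ j + 1 by omega), if_neg (show i + 1 ≠ i by omega),
      if_neg (show i ≠ j by omega), if_neg (show i ≠ j + 1 by omega)]
  by_cases h3 : k = j
  · subst h3
    simp only [fwd_X, if_true, if_neg h1, if_neg h2, map_mul, map_inv,
      if_neg (show k + 1 ≠ i by omega), if_neg (show k + 1 ≠ i + 1 by omega)]
  by_cases h4 : k = j + 1
  · subst h4
    simp only [fwd_X, if_true, if_neg (show j + 1 ≠ j by omega), if_neg h1, if_neg h2,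
      if_neg (show j ≠ i by omega), if_neg (show j ≠ i + 1 by omega)]
  simp only [fwd_X, if_neg h1, if_neg h2, if_neg h3, if_neg h4]

theorem sAut_braid (i : ℕ) :
    sAut i * sAut (i + 1) * sAut i = sAut (i + 1) * sAut i * sAut (i + 1) := by
  apply sAut_ext
  intro k
  simp only [MulAut.mul_apply, sAut_apply]
  by_cases h1 : k = i
  · subst h1
    simp only [fwd_X, if_true, map_mul, map_inv, if_neg (show k ≠ k + 1 by omega),
      if_neg (show k ≠ k + 1 + 1 by omega), if_neg (show k + 1 ≠ k by omega),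
      if_neg (show k + 1 + 1 ≠ k by omega), if_neg (show k + 1 + 1 ≠ k + 1 by omega)]
    group
  by_cases h2 : k = i + 1
  · subst h2
    simp only [fwd_X, if_true, map_mul, map_inv, if_neg (show i ≠ i + 1 by omega),
      if_neg (show i ≠ i + 1 + 1 by omega), if_neg (show i + 1 ≠ i by omega),
      if_neg (show i + 1 + 1 ≠ i by omega), if_neg (show i + 1 + 1 ≠ i + 1 by omega)]
  by_cases h3 : k = i + 1 + 1
  · subst h3
    simp only [fwd_X, if_true, map_mul, map_inv, if_neg (show i ≠ i + 1 by omega),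
      if_neg (show i ≠ i + 1 + 1 by omega), if_neg (show i + 1 ≠ i by omega),
      if_neg (show i + 1 + 1 ≠ i by omega), if_neg (show i + 1 + 1 ≠ i + 1 by omega)]
  simp only [fwd_X, if_neg h1, if_neg h2, if_neg h3]

/-- The Artin action. -/
def Φ : Binf →* MulAut (FreeGroup ℕ) :=
  PresentedGroup.toGroup (f := sAut) (lift_rels _ (fun _ _ h => sAut_comm h) sAut_braid)

@[simp] theorem Φ_σ (i : ℕ) : Φ (σ i) = sAut i := PresentedGroup.toGroup.of _

/-- The shift of the free group. -/
def S : FreeGroup ℕ →* FreeGroup ℕ := FreeGroup.lift (fun j => X (j + 1))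

@[simp] theorem S_X (j : ℕ) : S (X j) = X (j + 1) := FreeGroup.lift_apply_of

theorem Binf_induction_left {p : Binf → Prop} (h1 : p 1) (hσ : ∀ i g, p g → p (σ i * g))
    (hσi : ∀ i g, p g → p ((σ i)⁻¹ * g)) (g : Binf) : p g := by
  have hg : g ∈ Subgroup.closure (Set.range (PresentedGroup.of (rels := rels))) := by
    rw [PresentedGroup.closure_range_of]; trivial
  refine Subgroup.closure_induction_left (p := fun g _ => p g) h1 ?_ ?_ hg
  · rintro _ ⟨i, rfl⟩ y _ hy
    exact hσ i y hy
  · rintro _ ⟨i, rfl⟩ y _ hy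
    exact hσi i y hy

theorem Binf_induction_right {p : Binf → Prop} (h1 : p 1) (hσ : ∀ i g, p g → p (g * σ i))
    (hσi : ∀ i g, p g → p (g * (σ i)⁻¹)) (g : Binf) : p g := by
  have hg : g ∈ Subgroup.closure (Set.range (PresentedGroup.of (rels := rels))) := by
    rw [PresentedGroup.closure_range_of]; trivial
  refine Subgroup.closure_induction_right (p := fun g _ => p g) h1 ?_ ?_ hg
  · rintro y _ _ ⟨i, rfl⟩ hy
    exact hσ i y hy
  · rintro y _ _ ⟨i, rfl⟩ hy
    exact hσi i y hy

theorem hom_ext_σ {G : Type*} [Group G] {f g : Binf →* G} (h : ∀ i, f (σ i) = g (σ i)) : f = g :=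
  PresentedGroup.ext h

/-- `sh β` acts on the shifted free group as `β`. -/
theorem Φ_sh_S (β : Binf) (z : FreeGroup ℕ) : Φ (sh β) (S z) = S (Φ β z) := by
  induction β using Binf_induction_left generalizing z with
  | h1 => simp
  | hσ i g ih =>
    rw [map_mul, map_mul, MulAut.mul_apply, ih, map_mul, MulAut.mul_apply]
    generalize Φ g z = w
    rw [sh_σ, Φ_σ, Φ_σ, sAut_apply, sAut_apply]
    have : (fwd (i + 1)).comp S = S.comp (fwd i) := by
      apply hom_ext'
      intro j
      simp only [MonoidHom.comp_apply, S_X, fwd_X]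
      split_ifs <;> simp_all
    exact DFunLike.congr_fun this w
  | hσi i g ih =>
    rw [map_mul, map_mul, MulAut.mul_apply, ih, map_mul, MulAut.mul_apply]
    generalize Φ g z = w
    rw [map_inv, sh_σ, map_inv, map_inv, Φ_σ, Φ_σ]
    have : (bwd (i + 1)).comp S = S.comp (bwd i) := by
      apply hom_ext'
      intro j
      simp only [MonoidHom.comp_apply, S_X, bwd_X]
      split_ifs <;> simp_all
    exact DFunLike.congr_fun this w

/-- `sh β` fixes the first generator. -/
theorem Φ_sh_X0 (β : Binf) : Φ (sh β) (X 0) = X 0 := by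
  induction β using Binf_induction_left with
  | h1 => simp
  | hσ i g ih =>
    rw [map_mul, map_mul, MulAut.mul_apply, ih, sh_σ, Φ_σ, sAut_apply, fwd_X]
    simp
  | hσi i g ih =>
    rw [map_mul, map_mul, MulAut.mul_apply, ih, map_inv, sh_σ, map_inv, Φ_σ]
    show bwd (i + 1) (X 0) = X 0
    rw [bwd_X]
    simp

end Pool.Agent.Helper59.Braid
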