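import Mathlib

set_option autoImplicit false

namespace Pool.Agent.Helper59.Braid

/-! ### Module C : normal form in the three-strand braid group (any group) -/

namespace ModC

section
variable {G : Type*} [Group G]

theorem inv_mem_swap (s t : G) {M : G}
    (hM : M ∈ Submonoid.closure ({s, t⁻¹} : Set G)) :
    M⁻¹ ∈ Submonoid.closure ({t, s⁻¹} : Set G) := by
  induction hM using Submonoid.closure_induction with
  | mem x hx =>
    rcases hx with rfl | hx
    · exact Submonoid.subset_closure (by simp)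
    · rw [Set.mem_singleton_iff] at hx
      subst hx
      rw [inv_inv]
      exact Submonoid.subset_closure (by simp)
  | one => simp
  | mul x y _ _ hx hy => rw [mul_inv_rev]; exact mul_mem hy hx

theorem D_s {s t : G} (h : s * t * s = t * s * t) : (s * t * s) * s = t * (s * t * s) := by
  calc (s * t * s) * s = (t * s * t) * s := by rw [h]
    _ = t * (s * t * s) := by group

theorem D_t {s t : G} (h : s * t * s = t * s * t) : (s * t * s) * t = s * (s * t * s) := by
  calc (s * t * s) * t = s * (t * s * t) := by group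
    _ = s * (s * t * s) := by rw [h]

/-- `M D = D M'` -/
theorem conj_D {s t : G} (h : s * t * s = t * s * t) {M : G}
    (hM : M ∈ Submonoid.closure ({s, t⁻¹} : Set G)) :
    ∃ M' ∈ Submonoid.closure ({t, s⁻¹} : Set G), M * (s * t * s) = (s * t * s) * M' := by
  induction hM using Submonoid.closure_induction with
  | mem x hx =>
    rcases hx with rfl | hx
    · exact ⟨t, Submonoid.subset_closure (by simp), (D_t h).symm⟩
    · rw [Set.mem_singleton_iff] at hx
      subst hx
      refine ⟨s⁻¹, Submonoid.subset_closure (by simp), ?_⟩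
      have := D_s h
      rw [inv_mul_eq_iff_eq_mul, ← mul_assoc, ← this]
      group
  | one => exact ⟨1, one_mem _, by simp⟩
  | mul x y _ _ hx hy =>
    obtain ⟨x', hx', ex⟩ := hx
    obtain ⟨y', hy', ey⟩ := hy
    exact ⟨x' * y', mul_mem hx' hy', by rw [mul_assoc, ey, ← mul_assoc, ex, mul_assoc]⟩

/-- `D M = M' D` -/
theorem conj_D' {s t : G} (h : s * t * s = t * s * t) {M : G}
    (hM : M ∈ Submonoid.closure ({s, t⁻¹} : Set G)) :
    ∃ M' ∈ Submonoid.closure ({t, s⁻¹} : Set G), (s * t * s) * M = M' * (s * t * s) := by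
  induction hM using Submonoid.closure_induction with
  | mem x hx =>
    rcases hx with rfl | hx
    · exact ⟨t, Submonoid.subset_closure (by simp), (D_s h)⟩
    · rw [Set.mem_singleton_iff] at hx
      subst hx
      refine ⟨s⁻¹, Submonoid.subset_closure (by simp), ?_⟩
      have := D_t h
      rw [eq_inv_mul_iff_mul_eq, ← mul_assoc, ← this]
      group
  | one => exact ⟨1, one_mem _, by simp⟩
  | mul x y _ _ hx hy =>
    obtain ⟨x', hx', ex⟩ := hx
    obtain ⟨y', hy', ey⟩ := hy
    exact ⟨x' * y', mul_mem hx' hy', by rw [← mul_assoc, ex, mul_assoc, ey, ← mul_assoc]⟩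

/-- `M D⁻¹ = D⁻¹ M'` -/
theorem conj_Dinv {s t : G} (h : s * t * s = t * s * t) {M : G}
    (hM : M ∈ Submonoid.closure ({s, t⁻¹} : Set G)) :
    ∃ M' ∈ Submonoid.closure ({t, s⁻¹} : Set G),
      M * (s * t * s)⁻¹ = (s * t * s)⁻¹ * M' := by
  obtain ⟨M', hM', e⟩ := conj_D' h hM
  exact ⟨M', hM', by rw [mul_inv_eq_iff_eq_mul, mul_assoc, eq_inv_mul_iff_mul_eq, e]⟩

/-- last letter -/
theorem last_letter {s t : G} {M : G} (hM : M ∈ Submonoid.closure ({s, t⁻¹} : Set G)) :
    M = 1 ∨ (∃ M' ∈ Submonoid.closure ({s, t⁻¹} : Set G), M = M' * s) ∨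
      (∃ M' ∈ Submonoid.closure ({s, t⁻¹} : Set G), M = M' * t⁻¹) := by
  induction hM using Submonoid.closure_induction_right with
  | one => exact Or.inl rfl
  | mul_right x hx y hy _ =>
    rcases hy with rfl | hy
    · exact Or.inr (Or.inl ⟨x, hx, rfl⟩)
    · rw [Set.mem_singleton_iff] at hy
      subst hy
      exact Or.inr (Or.inr ⟨x, hx, rfl⟩)

/-- first block of letters `b` -/
theorem first_block {a b : G} {M : G} (hM : M ∈ Submonoid.closure ({a, b} : Set G)) :
    (∃ n : ℕ, M = b ^ n) ∨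
      (∃ n : ℕ, ∃ M' ∈ Submonoid.closure ({a, b} : Set G), M = b ^ n * a * M') := by
  induction hM using Submonoid.closure_induction_left with
  | one => exact Or.inl ⟨0, by simp⟩
  | mul_left x hx y hy ih =>
    rcases hx with rfl | hx
    · exact Or.inr ⟨0, y, hy, by simp⟩
    · rw [Set.mem_singleton_iff] at hx
      subst hx
      rcases ih with ⟨n, rfl⟩ | ⟨n, M', hM', rfl⟩
      · exact Or.inl ⟨n + 1, by rw [pow_succ']⟩
      · exact Or.inr ⟨n + 1, M', hM', by rw [pow_succ']; simp only [mul_assoc]⟩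

/-- the normal form predicate -/
def Q (s t : G) (g : G) : Prop :=
  ∃ d : ℤ, ∃ M : G, (M ∈ Submonoid.closure ({s, t⁻¹} : Set G) ∨
    M ∈ Submonoid.closure ({t, s⁻¹} : Set G)) ∧ g = (s * t * s) ^ d * M

theorem Q_swap {s t : G} (h : s * t * s = t * s * t) {g : G} (hg : Q s t g) : Q t s g := by
  obtain ⟨d, M, hM, e⟩ := hg
  exact ⟨d, M, hM.symm, by rw [e, h]⟩

theorem Q_D {s t : G} {g : G} (hg : Q s t g) (d : ℤ) : Q s t ((s * t * s) ^ d * g) := by
  obtain ⟨e, M, hM, rfl⟩ := hg
  exact ⟨d + e, M, hM, by rw [zpow_add, mul_assoc ((s * t * s) ^ d)]⟩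

theorem Q_plus {s t : G} (h : s * t * s = t * s * t) {M : G}
    (hM : M ∈ Submonoid.closure ({s, t⁻¹} : Set G)) :
    Q s t (M * s) ∧ Q s t (M * s⁻¹) ∧ Q s t (M * t) ∧ Q s t (M * t⁻¹) := by
  refine ⟨⟨0, M * s, Or.inl (mul_mem hM (Submonoid.subset_closure (by simp))), by simp⟩, ?_, ?_,
    ⟨0, M * t⁻¹, Or.inl (mul_mem hM (Submonoid.subset_closure (by simp))), by simp⟩⟩
  · rcases last_letter hM with rfl | ⟨M', hM', rfl⟩ | ⟨M', hM', rfl⟩
    · exact ⟨0, s⁻¹, Or.inr (Submonoid.subset_closure (by simp)), by simp⟩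
    · exact ⟨0, M', Or.inl hM', by simp⟩
    · obtain ⟨K, hK, e⟩ := conj_Dinv h hM'
      refine ⟨-1, K * t, Or.inr (mul_mem hK (Submonoid.subset_closure (by simp))), ?_⟩
      rw [zpow_neg_one, ← mul_assoc, ← e, h]
      group
  · rcases last_letter hM with rfl | ⟨M', hM', rfl⟩ | ⟨M', hM', rfl⟩
    · exact ⟨0, t, Or.inr (Submonoid.subset_closure (by simp)), by simp⟩
    · obtain ⟨K, hK, e⟩ := conj_D h hM'
      refine ⟨1, K * s⁻¹, Or.inr (mul_mem hK (Submonoid.subset_closure (by simp))), ?_⟩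
      rw [zpow_one, ← mul_assoc, ← e]
      group
    · exact ⟨0, M', Or.inl hM', by simp⟩

theorem Q_mul {s t : G} (h : s * t * s = t * s * t) {g : G} (hg : Q s t g) :
    Q s t (g * s) ∧ Q s t (g * s⁻¹) ∧ Q s t (g * t) ∧ Q s t (g * t⁻¹) := by
  obtain ⟨d, M, hM, rfl⟩ := hg
  rcases hM with hM | hM
  · obtain ⟨h1, h2, h3, h4⟩ := Q_plus h hM
    simp only [mul_assoc]
    simp only [← mul_assoc s]
    exact ⟨Q_D h1 d, Q_D h2 d, Q_D h3 d, Q_D h4 d⟩
  · obtain ⟨h1, h2, h3, h4⟩ := Q_plus h.symm hM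
    have e1 := Q_D (Q_swap h.symm h1) d
    have e2 := Q_D (Q_swap h.symm h2) d
    have e3 := Q_D (Q_swap h.symm h3) d
    have e4 := Q_D (Q_swap h.symm h4) d
    rw [← mul_assoc] at e1 e2 e3 e4
    exact ⟨e3, e4, e1, e2⟩

theorem Q_all {s t : G} (h : s * t * s = t * s * t) {g : G}
    (hg : g ∈ Subgroup.closure ({s, t} : Set G)) : Q s t g := by
  induction hg using Subgroup.closure_induction_right with
  | one => exact ⟨0, 1, Or.inl (one_mem _), by simp⟩
  | mul_right x hx y hy ih =>
    rcases hy with rfl | hy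
    · exact (Q_mul h ih).1
    · rw [Set.mem_singleton_iff] at hy
      subst hy
      exact (Q_mul h ih).2.2.1
  | mul_inv_cancel x hx y hy ih =>
    rcases hy with rfl | hy
    · exact (Q_mul h ih).2.1
    · rw [Set.mem_singleton_iff] at hy
      subst hy
      exact (Q_mul h ih).2.2.2

theorem central {s t : G} (h : s * t * s = t * s * t) {M : G}
    (hM : M ∈ Submonoid.closure ({s, t⁻¹} : Set G)) :
    Commute M ((s * t * s) * (s * t * s)) := by
  have h1 : Commute s ((s * t * s) * (s * t * s)) := by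
    rw [commute_iff_eq]
    generalize hD : s * t * s = D at *
    have a1 : D * s = t * D := by rw [← hD]; exact D_s (by rw [hD]; exact h)
    have a2 : D * t = s * D := by rw [← hD]; exact D_t (by rw [hD]; exact h)
    calc s * (D * D) = (s * D) * D := by rw [mul_assoc]
      _ = D * (t * D) := by rw [← a2, mul_assoc]
      _ = D * D * s := by rw [← a1, mul_assoc]
  have h2 : Commute t ((s * t * s) * (s * t * s)) := by
    rw [commute_iff_eq]
    generalize hD : s * t * s = D at *
    have a1 : D * s = t * D := by rw [← hD]; exact D_s (by rw [hD]; exact h)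
    have a2 : D * t = s * D := by rw [← hD]; exact D_t (by rw [hD]; exact h)
    calc t * (D * D) = (t * D) * D := by rw [mul_assoc]
      _ = D * (s * D) := by rw [← a1, mul_assoc]
      _ = D * D * t := by rw [← a2, mul_assoc]
  induction hM using Submonoid.closure_induction with
  | mem x hx =>
    rcases hx with rfl | hx
    · exact h1
    · rw [Set.mem_singleton_iff] at hx
      subst hx
      exact h2.inv_left
  | one => exact Commute.one_left _
  | mul x y _ _ hx hy => exact hx.mul_left hy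

theorem pow_D {s t : G} (h : s * t * s = t * s * t) (m : ℕ) :
    (s * t * s) * s ^ m = t ^ m * (s * t * s) := by
  induction m with
  | zero => simp
  | succ m ih => rw [pow_succ, ← mul_assoc, ih, mul_assoc, D_s h, ← mul_assoc, ← pow_succ]

theorem pow_D_inv {s t : G} (h : s * t * s = t * s * t) (m : ℕ) :
    (t⁻¹) ^ m * (s * t * s) = (s * t * s) * (s⁻¹) ^ m := by
  rw [inv_pow, inv_pow, inv_mul_eq_iff_eq_mul, ← mul_assoc, ← pow_D h]
  group

end

end ModC

open ModC in
theorem b3_cases {G : Type*} [Group G] (s t : G) (h : s * t * s = t * s * t)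
    (g : G) (hg : g ∈ Subgroup.closure {s, t}) :
    let N : Submonoid G := Submonoid.closure {s, t⁻¹}
    let P : Submonoid G := Submonoid.closure {s, t, t⁻¹}
    (∃ k : ℤ, g = t ^ k) ∨
    (∃ j : ℤ, g = s * t * s ^ j) ∨
    (∃ k : ℤ, ∃ M ∈ N, g = t ^ k * s * M) ∨
    (∃ u ∈ P, ∃ v ∈ P, g⁻¹ = u * s * v) ∨
    (∃ u ∈ P, ∃ v ∈ P, ∃ j : ℤ, g = u * s * v * (s * t * s ^ j)) := by
  intro N P
  have hsP : s ∈ P := Submonoid.subset_closure (by simp)
  have htP : t ∈ P := Submonoid.subset_closure (by simp)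
  have htP' : t⁻¹ ∈ P := Submonoid.subset_closure (by simp)
  have hDP : s * t * s ∈ P := mul_mem (mul_mem hsP htP) hsP
  have hNP : ∀ M ∈ N, M ∈ P := by
    intro M hM
    refine Submonoid.closure_mono ?_ hM
    intro x hx
    rcases hx with rfl | hx
    · simp
    · rw [Set.mem_singleton_iff] at hx
      simp [hx]
  have hc : ∀ M : G, M ∈ Submonoid.closure ({t, s⁻¹} : Set G) →
      ∃ M' ∈ N, M * (s * t * s) = (s * t * s) * M' := by
    intro M hM
    obtain ⟨M', hM', e⟩ := conj_D h.symm hM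
    exact ⟨M', hM', by rw [h]; exact e⟩
  have hc' : ∀ M : G, M ∈ Submonoid.closure ({t, s⁻¹} : Set G) →
      ∃ M' ∈ N, (s * t * s) * M = M' * (s * t * s) := by
    intro M hM
    obtain ⟨M', hM', e⟩ := conj_D' h.symm hM
    exact ⟨M', hM', by rw [h]; exact e⟩
  obtain ⟨d, M, hM, rfl⟩ := Q_all h hg
  obtain ⟨e, rfl | rfl⟩ | rfl | rfl : (∃ e : ℕ, d = 2 + e ∨ d = -(1 + e : ℕ)) ∨ d = 0 ∨ d = 1 := by
    by_cases h2 : 2 ≤ d
    · exact Or.inl ⟨(d - 2).toNat, Or.inl (by omega)⟩
    · by_cases h0 : d ≤ -1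
      · exact Or.inl ⟨(-1 - d).toNat, Or.inr (by push_cast; omega)⟩
      · right; omega
  · -- d = 2 + e
    right; right; right; right
    rcases hM with hM | hM
    · refine ⟨(s * t * s) ^ e * M, mul_mem (pow_mem hDP e) (hNP M hM), t * s, mul_mem htP hsP, 1, ?_⟩
      calc (s * t * s) ^ (2 + (e : ℤ)) * M
          = (s * t * s) ^ e * (((s * t * s) * (s * t * s)) * M) := by
            rw [add_comm, zpow_add, zpow_natCast, mul_assoc]
            have : (s * t * s) ^ (2 : ℤ) = (s * t * s) * (s * t * s) := by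
              rw [zpow_ofNat, pow_two]
            rw [this]
        _ = (s * t * s) ^ e * (M * ((s * t * s) * (s * t * s))) := by
            rw [(central h hM).eq]
        _ = _ := by simp only [mul_assoc, zpow_one]
    · obtain ⟨M', hM', e1⟩ := hc' M hM
      refine ⟨(s * t * s) ^ e, pow_mem hDP e, t * s * M', mul_mem (mul_mem htP hsP) (hNP M' hM'),
        1, ?_⟩
      calc (s * t * s) ^ (2 + (e : ℤ)) * M
          = (s * t * s) ^ e * ((s * t * s) * ((s * t * s) * M)) := by
            rw [add_comm, zpow_add, zpow_natCast]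
            have : (s * t * s) ^ (2 : ℤ) = (s * t * s) * (s * t * s) := by
              rw [zpow_ofNat, pow_two]
            rw [this]; simp only [mul_assoc]
        _ = (s * t * s) ^ e * ((s * t * s) * (M' * (s * t * s))) := by rw [e1]
        _ = _ := by simp only [mul_assoc, zpow_one]
  · -- d = -(1+e)
    right; right; right; left
    rcases hM with hM | hM
    · obtain ⟨K, hK, e1⟩ := hc M⁻¹ (inv_mem_swap s t hM)
      refine ⟨1, one_mem _, t * s * K * (s * t * s) ^ e, mul_mem (mul_mem (mul_mem htP hsP)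
        (hNP K hK)) (pow_mem hDP e), ?_⟩
      rw [mul_inv_rev, zpow_neg, inv_inv, zpow_natCast, pow_add, pow_one, ← mul_assoc, e1]
      simp only [mul_assoc, one_mul]
    · have hM1 : M⁻¹ ∈ N := inv_mem_swap t s hM
      refine ⟨M⁻¹, hNP _ hM1, t * s * (s * t * s) ^ e, mul_mem (mul_mem htP hsP) (pow_mem hDP e), ?_⟩
      rw [mul_inv_rev, zpow_neg, inv_inv, zpow_natCast, pow_add, pow_one, ← mul_assoc]
      simp only [mul_assoc]
  · -- d = 0
    rcases hM with hM | hM
    · rcases first_block hM with ⟨n, rfl⟩ | ⟨n, M', hM', rfl⟩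
      · left; exact ⟨-(n : ℤ), by simp⟩
      · right; right; left
        exact ⟨-(n : ℤ), M', hM', by simp⟩
    · rw [Set.pair_comm] at hM
      rcases first_block hM with ⟨n, rfl⟩ | ⟨n, M', hM', rfl⟩
      · left; exact ⟨(n : ℤ), by simp⟩
      · right; right; right; left
        rw [Set.pair_comm] at hM'
        have hM1 : M'⁻¹ ∈ N := inv_mem_swap t s hM'
        refine ⟨M'⁻¹, hNP _ hM1, (t⁻¹) ^ n, pow_mem htP' n, ?_⟩
        simp [mul_assoc]
  · -- d = 1
    rcases hM with hM | hM
    · rw [Set.pair_comm] at hM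
      rcases first_block hM with ⟨m, rfl⟩ | ⟨m, M', hM', rfl⟩
      · right; left
        refine ⟨(m : ℤ) + 1, ?_⟩
        rw [zpow_one, add_comm, zpow_add, zpow_one, zpow_natCast]
        simp only [mul_assoc]
      · right; right; left
        rw [Set.pair_comm] at hM'
        refine ⟨(m : ℤ) + 1, M', hM', ?_⟩
        rw [zpow_one, ← mul_assoc, ← mul_assoc, pow_D h, h, zpow_add, zpow_natCast, zpow_one]
        simp only [mul_assoc, mul_inv_cancel_left]
    · obtain ⟨M', hM', e1⟩ := hc' M hM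
      rw [zpow_one, e1]
      rcases first_block hM' with ⟨n, rfl⟩ | ⟨n, K, hK, rfl⟩
      · right; left
        refine ⟨1 - (n : ℤ), ?_⟩
        rw [pow_D_inv h, sub_eq_add_neg, zpow_add, zpow_one, zpow_neg, zpow_natCast, inv_pow]
        simp only [mul_assoc]
      · right; right; right; right
        refine ⟨(t⁻¹) ^ n, pow_mem htP' n, K, hNP K hK, 1, ?_⟩
        rw [zpow_one]

end Pool.Agent.Helper59.Braid
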