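import Pool.Agent.Helper59.BraidArtin

set_option autoImplicit false

/-!
# Infinitely many special braids in `B_5`; ten distinct special braids in `B_4`

The braids are distinguished by the Burau action at `t = -1` on integer sequences.
-/

namespace Pool.Agent.Helper59.Braid

namespace ModI

/-- The `m`-th power of the Burau action of `σ i`. -/
def tw (i : ℕ) (m : ℤ) (v : ℕ → ℤ) : ℕ → ℤ := fun j =>
  if j = i then v i + m * (v i - v (i + 1)) else
    if j = i + 1 then v (i + 1) + m * (v i - v (i + 1)) else v j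

theorem tw_self (i : ℕ) (m : ℤ) (v : ℕ → ℤ) :
    tw i m v i = v i + m * (v i - v (i + 1)) := by simp [tw]

theorem tw_succ (i : ℕ) (m : ℤ) (v : ℕ → ℤ) :
    tw i m v (i + 1) = v (i + 1) + m * (v i - v (i + 1)) := by simp [tw]

theorem tw_of_ne (i : ℕ) (m : ℤ) (v : ℕ → ℤ) (j : ℕ) (h1 : j ≠ i) (h2 : j ≠ i + 1) :
    tw i m v j = v j := by simp [tw, h1, h2]

theorem tw_tw (i : ℕ) (m n : ℤ) (v : ℕ → ℤ) : tw i m (tw i n v) = tw i (m + n) v := by
  funext j
  by_cases h1 : j = i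
  · subst h1
    rw [tw_self, tw_self, tw_self, tw_succ]
    ring
  by_cases h2 : j = i + 1
  · subst h2
    rw [tw_succ, tw_succ, tw_self, tw_succ]
    ring
  rw [tw_of_ne _ _ _ _ h1 h2, tw_of_ne _ _ _ _ h1 h2, tw_of_ne _ _ _ _ h1 h2]

theorem tw_zero (i : ℕ) (v : ℕ → ℤ) : tw i 0 v = v := by
  funext j
  simp only [tw]
  split_ifs with h1 h2
  · subst h1; ring
  · subst h2; ring
  · rfl

/-- The Burau action of a generator. -/
def twE (i : ℕ) : Equiv.Perm (ℕ → ℤ) where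
  toFun := tw i 1
  invFun := tw i (-1)
  left_inv v := by rw [tw_tw]; exact tw_zero i v
  right_inv v := by rw [tw_tw]; exact tw_zero i v

theorem twE_apply (i : ℕ) (v : ℕ → ℤ) : twE i v = tw i 1 v := rfl

theorem twE_inv_apply (i : ℕ) (v : ℕ → ℤ) : (twE i)⁻¹ v = tw i (-1) v := rfl

theorem twE_comm {i j : ℕ} (h : i + 2 ≤ j) : twE i * twE j = twE j * twE i := by
  apply Equiv.ext
  intro v
  rw [Equiv.Perm.mul_apply, Equiv.Perm.mul_apply]
  simp only [twE_apply]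
  funext k
  by_cases h1 : k = i
  · subst h1
    rw [tw_self, tw_of_ne j 1 v k (by omega) (by omega), tw_of_ne j 1 v (k + 1) (by omega) (by omega),
      tw_of_ne j 1 _ k (by omega) (by omega), tw_self]
  by_cases h2 : k = i + 1
  · subst h2
    rw [tw_succ, tw_of_ne j 1 v i (by omega) (by omega), tw_of_ne j 1 v (i + 1) (by omega) (by omega),
      tw_of_ne j 1 _ (i + 1) (by omega) (by omega), tw_succ]
  rw [tw_of_ne i 1 _ k h1 h2]
  by_cases h3 : k = j
  · subst h3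
    rw [tw_self, tw_self, tw_of_ne i 1 v k (by omega) (by omega),
      tw_of_ne i 1 v (k + 1) (by omega) (by omega)]
  by_cases h4 : k = j + 1
  · subst h4
    rw [tw_succ, tw_succ, tw_of_ne i 1 v j (by omega) (by omega),
      tw_of_ne i 1 v (j + 1) (by omega) (by omega)]
  rw [tw_of_ne j 1 _ k h3 h4, tw_of_ne j 1 _ k h3 h4, tw_of_ne i 1 _ k h1 h2]

theorem twE_braid (i : ℕ) : twE i * twE (i + 1) * twE i = twE (i + 1) * twE i * twE (i + 1) := by
  apply Equiv.ext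
  intro v
  simp only [Equiv.Perm.mul_apply, twE_apply]
  funext k
  by_cases h1 : k = i
  · subst h1
    simp only [tw, if_true, if_neg (show k ≠ k + 1 by omega), if_neg (show k ≠ k + 1 + 1 by omega),
      if_neg (show k + 1 ≠ k by omega), if_neg (show k + 1 + 1 ≠ k by omega),
      if_neg (show k + 1 + 1 ≠ k + 1 by omega), if_neg (show k + 1 ≠ k + 1 + 1 by omega)]
    ring
  by_cases h2 : k = i + 1
  · subst h2
    simp only [tw, if_true, if_neg (show i ≠ i + 1 by omega), if_neg (show i ≠ i + 1 + 1 by omega),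
      if_neg (show i + 1 ≠ i by omega), if_neg (show i + 1 + 1 ≠ i by omega),
      if_neg (show i + 1 + 1 ≠ i + 1 by omega), if_neg (show i + 1 ≠ i + 1 + 1 by omega)]
    ring
  by_cases h3 : k = i + 1 + 1
  · subst h3
    simp only [tw, if_true, if_neg (show i ≠ i + 1 by omega), if_neg (show i ≠ i + 1 + 1 by omega),
      if_neg (show i + 1 ≠ i by omega), if_neg (show i + 1 + 1 ≠ i by omega),
      if_neg (show i + 1 + 1 ≠ i + 1 by omega), if_neg (show i + 1 ≠ i + 1 + 1 by omega)]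
    ring
  simp only [tw_of_ne i 1 _ k h1 h2, tw_of_ne (i + 1) 1 _ k h2 h3]

/-- The Burau action at `t = -1`. -/
def Ψ : Binf →* Equiv.Perm (ℕ → ℤ) :=
  PresentedGroup.toGroup (f := twE) (lift_rels _ (fun _ _ h => twE_comm h) twE_braid)

theorem Ψ_σ (i : ℕ) : Ψ (σ i) = twE i := PresentedGroup.toGroup.of _

theorem Ψ_σ_apply (i : ℕ) (v : ℕ → ℤ) : Ψ (σ i) v = tw i 1 v := by rw [Ψ_σ, twE_apply]

theorem Ψ_σ_inv_apply (i : ℕ) (v : ℕ → ℤ) : (Ψ (σ i))⁻¹ v = tw i (-1) v := by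
  rw [Ψ_σ, twE_inv_apply]

theorem Ψ_pow_apply (i m : ℕ) (v : ℕ → ℤ) : Ψ (σ i ^ m) v = tw i m v := by
  induction m generalizing v with
  | zero =>
    rw [pow_zero, map_one, Equiv.Perm.one_apply, Nat.cast_zero, tw_zero]
  | succ m ih =>
    rw [pow_succ, map_mul, Equiv.Perm.mul_apply, Ψ_σ_apply, ih, tw_tw]
    push_cast
    rfl

theorem Ψ_pow_inv_apply (i m : ℕ) (v : ℕ → ℤ) : (Ψ (σ i ^ m))⁻¹ v = tw i (-m) v := by
  rw [Equiv.Perm.inv_eq_iff_eq, Ψ_pow_apply, tw_tw, add_neg_cancel, tw_zero]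

/-- A sequence with five nonzero entries. -/
def vec (a b c d e : ℤ) : ℕ → ℤ := fun j =>
  match j with
  | 0 => a
  | 1 => b
  | 2 => c
  | 3 => d
  | 4 => e
  | _ => 0

theorem tw_vec0 (m a b c d e : ℤ) :
    tw 0 m (vec a b c d e) = vec (a + m * (a - b)) (b + m * (a - b)) c d e := by
  funext j
  match j with
  | 0 => rfl
  | 1 => rfl
  | 2 => rfl
  | 3 => rfl
  | 4 => rfl
  | j + 5 => rfl

theorem tw_vec1 (m a b c d e : ℤ) :
    tw 1 m (vec a b c d e) = vec a (b + m * (b - c)) (c + m * (b - c)) d e := by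
  funext j
  match j with
  | 0 => rfl
  | 1 => rfl
  | 2 => rfl
  | 3 => rfl
  | 4 => rfl
  | j + 5 => rfl

theorem tw_vec2 (m a b c d e : ℤ) :
    tw 2 m (vec a b c d e) = vec a b (c + m * (c - d)) (d + m * (c - d)) e := by
  funext j
  match j with
  | 0 => rfl
  | 1 => rfl
  | 2 => rfl
  | 3 => rfl
  | 4 => rfl
  | j + 5 => rfl

theorem tw_vec3 (m a b c d e : ℤ) :
    tw 3 m (vec a b c d e) = vec a b c (d + m * (d - e)) (e + m * (d - e)) := by
  funext j
  match j with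
  | 0 => rfl
  | 1 => rfl
  | 2 => rfl
  | 3 => rfl
  | 4 => rfl
  | j + 5 => rfl

/-! ### Membership -/

theorem σ_mem {i n : ℕ} (h : i + 1 < n) : σ i ∈ B n := Subgroup.subset_closure ⟨i, h, rfl⟩

theorem sh_mem {n : ℕ} {g : Binf} (h : g ∈ B n) : sh g ∈ B (n + 1) := by
  have h1 : B n ≤ (B (n + 1)).comap sh := by
    unfold B
    rw [Subgroup.closure_le]
    rintro _ ⟨i, hi, rfl⟩
    show sh (σ i) ∈ B (n + 1)
    rw [sh_σ]
    exact σ_mem (by omega)
  exact h1 h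

theorem B_mono {m n : ℕ} (h : m ≤ n) : B m ≤ B n := by
  unfold B
  apply Subgroup.closure_mono
  rintro _ ⟨i, hi, rfl⟩
  exact ⟨i, by omega, rfl⟩

theorem wedge_mem {n : ℕ} (hn : 1 ≤ n) {a b : Binf} (ha : a ∈ B n) (hb : b ∈ B n) :
    wedge a b ∈ B (n + 1) := by
  unfold wedge
  exact mul_mem (mul_mem (mul_mem (B_mono (by omega) ha) (sh_mem hb)) (σ_mem (by omega)))
    (inv_mem (sh_mem ha))

/-! ### The infinite family -/

theorem sh_sh_comm (b : Binf) : sh (sh b) * σ 0 = σ 0 * sh (sh b) := by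
  induction b using Binf_induction_left with
  | h1 => simp
  | hσ i g ih =>
    rw [map_mul, map_mul, mul_assoc, ih, ← mul_assoc, ← mul_assoc, sh_σ, sh_σ]
    rw [σ_comm (i := 0) (j := i + 1 + 1) (by omega)]
  | hσi i g ih =>
    rw [map_mul, map_mul, mul_assoc, ih, ← mul_assoc, ← mul_assoc, map_inv, map_inv, sh_σ, sh_σ]
    congr 1
    rw [inv_mul_eq_iff_eq_mul, ← mul_assoc, ← σ_comm (i := 0) (j := i + 1 + 1) (by omega),
      mul_assoc, mul_inv_cancel, mul_one]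

/-- The sequence `f 0 = f 1 = 1`, `f (n + 2) = wedge (f (n + 1)) (f n)`. -/
def fseq : ℕ → Binf
  | 0 => 1
  | 1 => 1
  | n + 2 => wedge (fseq (n + 1)) (fseq n)

theorem fseq_special : ∀ n, Special (fseq n)
  | 0 => Special.one
  | 1 => Special.one
  | n + 2 => Special.wedge _ _ (fseq_special (n + 1)) (fseq_special n)

theorem fseq_mul (n : ℕ) : fseq (n + 1) * sh (fseq n) = σ 0 ^ n := by
  induction n with
  | zero => simp [fseq]
  | succ n ih =>
    show wedge (fseq (n + 1)) (fseq n) * sh (fseq (n + 1)) = σ 0 ^ (n + 1)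
    unfold wedge
    rw [inv_mul_cancel_right, ih, pow_succ]

theorem wedge_one_left (b : Binf) : wedge 1 b = sh b * σ 0 := by
  unfold wedge
  rw [map_one, inv_one, mul_one, one_mul]

theorem wedge_one_right (b : Binf) : wedge b 1 = b * σ 0 * (sh b)⁻¹ := by
  unfold wedge
  rw [map_one, mul_one]

/-- The special braids of the infinite family. -/
def cseq (k : ℕ) : Binf := wedge (fseq (k + 4)) (wedge (wedge 1 (wedge 1 (fseq (k + 1)))) 1)

theorem cseq_special (k : ℕ) : Special (cseq k) :=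
  Special.wedge _ _ (fseq_special _) (Special.wedge _ _ (Special.wedge _ _ Special.one
    (Special.wedge _ _ Special.one (fseq_special _))) Special.one)

/-- The conjugating braids. -/
def gseq (k : ℕ) : Binf := σ 0 ^ (k + 3) * σ 2 ^ (k + 1) * (σ 1 ^ (k + 2))⁻¹ * σ 2 * σ 1

theorem gseq_eq (k : ℕ) :
    gseq k = fseq (k + 4) * sh (wedge 1 (wedge 1 (fseq (k + 1)))) := by
  have h0 : σ 0 ^ (k + 3) = fseq (k + 4) * sh (fseq (k + 3)) := (fseq_mul (k + 3)).symm
  have h1 : σ 1 ^ (k + 2) = sh (fseq (k + 3)) * sh (sh (fseq (k + 2))) := by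
    rw [← map_mul, fseq_mul (k + 2), map_pow, sh_σ]
  have h2 : σ 2 ^ (k + 1) = sh (sh (fseq (k + 2))) * sh (sh (sh (fseq (k + 1)))) := by
    rw [← map_mul, ← map_mul, fseq_mul (k + 1), map_pow, map_pow, sh_σ, sh_σ]
  have h3 : sh (sh (sh (fseq (k + 1)))) * σ 1 = σ 1 * sh (sh (sh (fseq (k + 1)))) := by
    have := congrArg sh (sh_sh_comm (fseq (k + 1)))
    rw [map_mul, map_mul, sh_σ] at this
    exact this
  have h4 : sh (sh (sh (fseq (k + 1)))) * (σ 1 ^ (k + 2))⁻¹ =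
      (σ 1 ^ (k + 2))⁻¹ * sh (sh (sh (fseq (k + 1)))) := by
    have h5 : Commute (sh (sh (sh (fseq (k + 1))))) (σ 1) := h3
    exact (h5.pow_right (k + 2)).inv_right
  unfold gseq
  rw [wedge_one_left, wedge_one_left, map_mul, map_mul, map_mul, sh_σ, sh_σ, h0, h2]
  have h6 : fseq (k + 4) * sh (fseq (k + 3)) *
      (sh (sh (fseq (k + 2))) * sh (sh (sh (fseq (k + 1))))) * (σ 1 ^ (k + 2))⁻¹ =
      fseq (k + 4) * ((sh (fseq (k + 3)) * sh (sh (fseq (k + 2)))) *
        (sh (sh (sh (fseq (k + 1)))) * (σ 1 ^ (k + 2))⁻¹)) := by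
    simp only [mul_assoc]
  rw [h6, h4, ← h1, mul_inv_cancel_left]
  simp only [mul_assoc]

theorem cseq_eq (k : ℕ) : cseq k = gseq k * σ 1 * σ 0 * (sh (gseq k))⁻¹ := by
  rw [gseq_eq]
  unfold cseq
  generalize fseq (k + 4) = a
  generalize wedge 1 (wedge 1 (fseq (k + 1))) = D
  have h1 : (sh (sh D))⁻¹ * σ 0 = σ 0 * (sh (sh D))⁻¹ := by
    have h5 : Commute (sh (sh D)) (σ 0) := sh_sh_comm D
    exact h5.inv_left
  have h2 : wedge a (wedge D 1) = a * sh D * σ 1 * ((sh (sh D))⁻¹ * σ 0) * (sh a)⁻¹ := by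
    rw [wedge_one_right]
    unfold wedge
    rw [map_mul, map_mul, map_inv, sh_σ]
    simp only [mul_assoc]
  rw [h2, h1, map_mul, mul_inv_rev]
  simp only [mul_assoc]

theorem gseq_mem (k : ℕ) : gseq k ∈ B 4 := by
  unfold gseq
  exact mul_mem (mul_mem (mul_mem (mul_mem (pow_mem (σ_mem (by omega)) _)
    (pow_mem (σ_mem (by omega)) _)) (inv_mem (pow_mem (σ_mem (by omega)) _)))
    (σ_mem (by omega))) (σ_mem (by omega))

theorem cseq_mem (k : ℕ) : cseq k ∈ B 5 := by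
  rw [cseq_eq]
  exact mul_mem (mul_mem (mul_mem (B_mono (by omega) (gseq_mem k)) (σ_mem (by omega)))
    (σ_mem (by omega))) (inv_mem (sh_mem (gseq_mem k)))

theorem Ψ_cseq (k : ℕ) : Ψ (cseq k) (vec 1 0 0 0 0) 0 = 2 - ((k : ℤ) + 3) ^ 2 := by
  have hs : sh (gseq k) = σ 1 ^ (k + 3) * σ 3 ^ (k + 1) * (σ 2 ^ (k + 2))⁻¹ * σ 3 * σ 2 := by
    unfold gseq
    simp only [map_mul, map_inv, map_pow, sh_σ]
  rw [cseq_eq, hs]
  unfold gseq
  simp only [map_mul, map_inv, mul_inv_rev, inv_inv, Equiv.Perm.mul_apply, Ψ_pow_apply,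
    Ψ_pow_inv_apply, Ψ_σ_apply, Ψ_σ_inv_apply, tw_vec0, tw_vec1, tw_vec2, tw_vec3]
  simp only [vec]
  push_cast
  ring

end ModI

open ModI

theorem infinite_five : (E 5).Infinite := by
  refine Set.infinite_of_injective_forall_mem (f := cseq) ?_ fun k => ⟨cseq_special k, cseq_mem k⟩
  intro k l h
  have h1 := Ψ_cseq k
  rw [h, Ψ_cseq l] at h1
  have h2 : ((k : ℤ) + 3) ^ 2 = ((l : ℤ) + 3) ^ 2 := by linarith
  have h3 : ((k : ℤ) + 3) = ((l : ℤ) + 3) := by
    rcases sq_eq_sq_iff_eq_or_eq_neg.1 h2 with h | h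
    · exact h
    · omega
  omega

/-- the ten special braids in `B_4` are distinct -/
def one' : Binf := 1
def tenList : List Binf :=
  let w := wedge
  let x : Binf := 1
  [x, w x x, w (w x x) x, w (w (w x x) x) x, w (w (w x x) x) (w x x), w x (w x x),
   w (w x (w x x)) x, w x (w (w x x) x), w (w x x) (w (w x x) x), w x (w x (w x x))]

theorem tenList_nodup : tenList.Nodup := by
  apply List.Nodup.of_map (fun c => (Ψ c (vec 1 0 0 0 0) 0, Ψ c (vec 1 0 0 0 0) 1,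
    Ψ c (vec 1 0 0 0 0) 2, Ψ c (vec 1 0 0 0 0) 3))
  simp only [tenList, List.map_cons, List.map_nil, wedge, map_mul, map_inv, map_one, sh_σ,
    mul_inv_rev, inv_inv, Equiv.Perm.mul_apply, Equiv.Perm.one_apply, Ψ_σ_apply, Ψ_σ_inv_apply,
    tw_vec0, tw_vec1, tw_vec2, tw_vec3, inv_one, one_mul, mul_one]
  simp only [vec]
  decide

theorem tenList_mem : ∀ c ∈ tenList, c ∈ E 4 := by
  have s1 : Special 1 := Special.one
  have m1 : (1 : Binf) ∈ B 1 := one_mem _
  have s2 : Special (wedge 1 1) := Special.wedge _ _ s1 s1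
  have m2 : wedge 1 1 ∈ B 2 := wedge_mem (by omega) m1 m1
  have s3 : Special (wedge (wedge 1 1) 1) := Special.wedge _ _ s2 s1
  have m3 : wedge (wedge 1 1) 1 ∈ B 3 := wedge_mem (by omega) m2 (one_mem _)
  have s3' : Special (wedge 1 (wedge 1 1)) := Special.wedge _ _ s1 s2
  have m3' : wedge 1 (wedge 1 1) ∈ B 3 := wedge_mem (by omega) (one_mem _) m2
  have m2' : wedge 1 1 ∈ B 3 := B_mono (by omega) m2
  have o3 : (1 : Binf) ∈ B 3 := one_mem _
  intro c hc
  simp only [tenList, List.mem_cons, List.mem_nil_iff, or_false] at hc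
  rcases hc with rfl | rfl | rfl | rfl | rfl | rfl | rfl | rfl | rfl | rfl
  · exact ⟨s1, one_mem _⟩
  · exact ⟨s2, B_mono (by omega) m2⟩
  · exact ⟨s3, B_mono (by omega) m3⟩
  · exact ⟨Special.wedge _ _ s3 s1, wedge_mem (by omega) m3 o3⟩
  · exact ⟨Special.wedge _ _ s3 s2, wedge_mem (by omega) m3 m2'⟩
  · exact ⟨s3', B_mono (by omega) m3'⟩
  · exact ⟨Special.wedge _ _ s3' s1, wedge_mem (by omega) m3' o3⟩
  · exact ⟨Special.wedge _ _ s1 s3, wedge_mem (by omega) o3 m3⟩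
  · exact ⟨Special.wedge _ _ s2 s3, wedge_mem (by omega) m2' m3⟩
  · exact ⟨Special.wedge _ _ s1 s3', wedge_mem (by omega) o3 m3'⟩

end Pool.Agent.Helper59.Braid
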