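import Pool.Agent.Helper59.BraidE
import Pool.Agent.Helper59.BraidI

set_option autoImplicit false

/-!
# The number of special braids in `B_n`
-/

namespace Pool.Agent.Helper59.Braid

/-- `a₁ sh(a₂) sh²(a₃) ⋯` -/
def prodL : List Binf → Binf
  | [] => 1
  | a :: L => a * sh (prodL L)

theorem special_conj {c : Binf} (hc : Special c) :
    ∃ L : List Binf, (∀ a ∈ L, Special a) ∧ c = prodL L * δ L.length * (sh (prodL L))⁻¹ := by
  induction hc with
  | one => exact ⟨[], by simp, by simp [prodL, δ]⟩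
  | wedge a b ha _ _ ihb =>
    obtain ⟨L, h1, h2⟩ := ihb
    refine ⟨a :: L, ?_, ?_⟩
    · intro x hx
      rcases List.mem_cons.1 hx with rfl | hx
      · exact ha
      · exact h1 x hx
    · have h3 := sh2_comm_σ0 (prodL L)
      have h4 : (sh (sh (prodL L)))⁻¹ * σ 0 = σ 0 * (sh (sh (prodL L)))⁻¹ := by
        rw [inv_mul_eq_iff_eq_mul, ← mul_assoc, h3, mul_inv_cancel_right]
      have h5 : sh b = sh (prodL L) * sh (δ L.length) * (sh (sh (prodL L)))⁻¹ := by
        conv_lhs => rw [h2]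
        rw [map_mul, map_mul, map_inv]
      show a * sh b * σ 0 * (sh a)⁻¹ =
        a * sh (prodL L) * (sh (δ L.length) * σ 0) * (sh (a * sh (prodL L)))⁻¹
      rw [h5, map_mul, mul_inv_rev]
      calc a * (sh (prodL L) * sh (δ L.length) * (sh (sh (prodL L)))⁻¹) * σ 0 * (sh a)⁻¹
          = a * sh (prodL L) * sh (δ L.length) * ((sh (sh (prodL L)))⁻¹ * σ 0) * (sh a)⁻¹ := by
            simp only [mul_assoc]
        _ = _ := by rw [h4]; simp only [mul_assoc]

theorem mem_E {c : Binf} {n : ℕ} (hc : c ∈ E n) :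
    ∃ L : List Binf, (∀ a ∈ L, Special a) ∧ c = prodL L * δ L.length * (sh (prodL L))⁻¹ ∧
      (L.length = 0 ∨ L.length + 1 ≤ n) ∧ prodL L ∈ B (n - 1) := by
  obtain ⟨L, h1, h2⟩ := special_conj hc.1
  have h3 := hc.2
  rw [h2] at h3
  obtain ⟨h4, h5⟩ := mem_B_of_conj h3
  exact ⟨L, h1, h2, h4, h5⟩

theorem eq_δ {c g : Binf} {r : ℕ} (h : c = g * δ r * (sh g)⁻¹) (hg : g ∈ B r) : c = δ r := by
  rw [h, ← Fgt.δ_sh hg, mul_inv_cancel_right]

theorem δ_zero : δ 0 = 1 := rfl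
theorem δ_one : δ 1 = wedge 1 1 := by
  show sh 1 * σ 0 = wedge 1 1
  simp [wedge]
theorem δ_succ (r : ℕ) : δ (r + 1) = wedge 1 (δ r) := by
  show sh (δ r) * σ 0 = wedge 1 (δ r)
  simp [wedge]

theorem wedge_one_right {c a : Binf} (h : c = prodL [a] * δ 1 * (sh (prodL [a]))⁻¹) :
    c = wedge a 1 := by
  rw [h]
  show a * sh 1 * (sh 1 * σ 0) * (sh (a * sh 1))⁻¹ = a * sh 1 * σ 0 * (sh a)⁻¹
  simp

theorem E1_sub {c : Binf} (hc : c ∈ E 1) : c = 1 := by
  obtain ⟨L, -, h2, h3, -⟩ := mem_E hc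
  have h4 : L.length = 0 := by omega
  rw [List.length_eq_zero_iff] at h4
  subst h4
  rw [h2]
  simp [prodL, δ]

theorem prodL_singleton (a : Binf) : prodL [a] = a := by simp [prodL]

theorem E2_sub {c : Binf} (hc : c ∈ E 2) : c = 1 ∨ c = wedge 1 1 := by
  obtain ⟨L, h1, h2, h3, h4⟩ := mem_E hc
  match L with
  | [] => left; rw [h2]; simp [prodL, δ]
  | [a] =>
    right
    rw [← δ_one]
    exact eq_δ h2 h4
  | a :: b :: L => exfalso; simp only [List.length_cons] at h3; omega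

theorem E3_sub {c : Binf} (hc : c ∈ E 3) :
    c = 1 ∨ c = wedge 1 1 ∨ c = wedge (wedge 1 1) 1 ∨ c = wedge 1 (wedge 1 1) := by
  obtain ⟨L, h1, h2, h3, h4⟩ := mem_E hc
  match L with
  | [] => left; rw [h2]; simp [prodL, δ]
  | [a] =>
    rw [wedge_one_right h2]
    rw [prodL_singleton] at h4
    rcases E2_sub (c := a) ⟨h1 a (by simp), h4⟩ with rfl | rfl
    · exact Or.inr (Or.inl rfl)
    · exact Or.inr (Or.inr (Or.inl rfl))
  | [a, b] =>
    right; right; right
    have := eq_δ h2 h4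
    rw [this, List.length_cons, List.length_singleton, δ_succ, δ_one]
  | a :: b :: d :: L => exfalso; simp only [List.length_cons] at h3; omega

theorem good_conj {g c : Binf} (hg : Good g) (h : c = g * δ 2 * (sh g)⁻¹) :
    c = wedge 1 (wedge 1 1) ∨ c = wedge 1 (wedge (wedge 1 1) 1) ∨
    c = wedge (wedge 1 1) (wedge (wedge 1 1) 1) ∨
    c = wedge (wedge (wedge 1 1) 1) (wedge 1 1) := by
  have hd : δ 2 = σ 1 * σ 0 := by
    show sh (sh 1 * σ 0) * σ 0 = _
    simp
  have hb : σ 0 * σ 1 * σ 0 = σ 1 * σ 0 * σ 1 := σ_braid 0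
  have hc : σ 0 * σ 2 = σ 2 * σ 0 := σ_comm (by omega)
  have key : ∀ j : ℤ, σ 0 ^ j * (σ 1 * σ 0) * (σ 1 ^ j)⁻¹ = σ 1 * σ 0 := by
    have h0 : SemiconjBy (σ 1 * σ 0) (σ 1) (σ 0) := by
      show σ 1 * σ 0 * σ 1 = σ 0 * (σ 1 * σ 0)
      rw [← hb, mul_assoc]
    intro j
    have h1 := (h0.zpow_right j).eq
    rw [← h1, mul_inv_cancel_right]
  have key2 : ∀ (e : Binf) (j : ℤ), g = e * σ 0 ^ j → c = e * (σ 1 * σ 0) * (sh e)⁻¹ := by
    intro e j hg
    rw [h, hg, hd, map_mul, map_zpow, sh_σ, zero_add, mul_inv_rev]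
    calc e * σ 0 ^ j * (σ 1 * σ 0) * ((σ 1 ^ j)⁻¹ * (sh e)⁻¹)
        = e * (σ 0 ^ j * (σ 1 * σ 0) * (σ 1 ^ j)⁻¹) * (sh e)⁻¹ := by simp only [mul_assoc]
      _ = _ := by rw [key]
  obtain ⟨j, hj | hj | hj | hj⟩ := hg
  · left
    rw [key2 1 j (by rw [hj, one_mul])]
    simp [wedge]
  · right; left
    rw [key2 _ j hj]
    simp only [wedge, map_mul, map_one, map_inv, sh_σ, one_mul, mul_one, inv_one, zero_add]
    show σ 1 * (σ 1 * σ 0) * (σ 2)⁻¹ = σ 1 * σ 1 * (σ 2)⁻¹ * σ 0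
    have : (σ 2)⁻¹ * σ 0 = σ 0 * (σ 2)⁻¹ := by
      rw [inv_mul_eq_iff_eq_mul, ← mul_assoc, ← hc, mul_inv_cancel_right]
    rw [mul_assoc (σ 1 * σ 1), this]
    simp only [mul_assoc]
  · right; right; left
    rw [key2 _ j hj]
    simp only [wedge, map_mul, map_one, map_inv, sh_σ, one_mul, mul_one, inv_one, zero_add]
    show σ 0 * σ 1 * (σ 1 * σ 0) * (σ 1 * σ 2)⁻¹ =
      σ 0 * (σ 1 * σ 1 * (σ 2)⁻¹) * σ 0 * (σ 1)⁻¹
    have : (σ 2)⁻¹ * σ 0 = σ 0 * (σ 2)⁻¹ := by
      rw [inv_mul_eq_iff_eq_mul, ← mul_assoc, ← hc, mul_inv_cancel_right]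
    calc σ 0 * σ 1 * (σ 1 * σ 0) * (σ 1 * σ 2)⁻¹
        = σ 0 * (σ 1 * σ 1) * (σ 0 * (σ 2)⁻¹) * (σ 1)⁻¹ := by
          rw [mul_inv_rev]; simp only [mul_assoc]
      _ = _ := by rw [← this]; simp only [mul_assoc]
  · right; right; right
    rw [key2 _ j hj]
    simp only [wedge, map_mul, map_one, map_inv, sh_σ, one_mul, mul_one, inv_one, zero_add]
    simp only [pow_two, map_mul, sh_σ, mul_assoc]

theorem E4_sub {c : Binf} (hc : c ∈ E 4) : c ∈ tenList := by
  obtain ⟨L, h1, h2, h3, h4⟩ := mem_E hc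
  match L with
  | [] =>
    have : c = 1 := by rw [h2]; simp [prodL, δ]
    rw [this]; simp [tenList]
  | [a] =>
    rw [wedge_one_right h2]
    rw [prodL_singleton] at h4
    rcases E3_sub (c := a) ⟨h1 a (by simp), h4⟩ with rfl | rfl | rfl | rfl <;> simp [tenList]
  | [a, b] =>
    have e : prodL [a, b] = a * sh b := by simp [prodL]
    rw [e] at h4
    have h5 := theoremD (h1 a (by simp)) (h1 b (by simp)) h4
    rw [← e] at h5
    rcases good_conj h5 h2 with rfl | rfl | rfl | rfl <;> simp [tenList]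
  | [a, b, d] =>
    have := eq_δ h2 h4
    rw [this, List.length_cons, List.length_cons, List.length_singleton, δ_succ, δ_succ, δ_one]
    simp [tenList]
  | a :: b :: d :: f :: L => exfalso; simp only [List.length_cons] at h3; omega

theorem E_mono {m n : ℕ} (h : m ≤ n) : E m ⊆ E n :=
  fun _ hc => ⟨hc.1, Fgt.B_mono h hc.2⟩

theorem E4_eq : E 4 = {c | c ∈ tenList} :=
  Set.Subset.antisymm (fun _ hc => E4_sub hc) (fun c hc => tenList_mem c hc)

theorem E1_eq : E 1 = {1} := by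
  apply Set.Subset.antisymm
  · intro c hc
    exact E1_sub hc
  · rintro c rfl
    exact ⟨Special.one, one_mem _⟩

theorem mem_E2 : wedge 1 1 ∈ E 2 :=
  ⟨Special.wedge _ _ Special.one Special.one, ModI.wedge_mem (by omega) (one_mem _) (one_mem _)⟩

theorem E2_eq : E 2 = {1, wedge 1 1} := by
  apply Set.Subset.antisymm
  · intro c hc
    exact E2_sub hc
  · rintro c (rfl | rfl)
    · exact ⟨Special.one, one_mem _⟩
    · exact mem_E2

theorem E3_eq : E 3 = {1, wedge 1 1, wedge (wedge 1 1) 1, wedge 1 (wedge 1 1)} := by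
  have s2 : Special (wedge 1 1) := Special.wedge _ _ Special.one Special.one
  apply Set.Subset.antisymm
  · intro c hc
    exact E3_sub hc
  · rintro c (rfl | rfl | rfl | rfl)
    · exact ⟨Special.one, one_mem _⟩
    · exact E_mono (by omega) mem_E2
    · exact ⟨Special.wedge _ _ s2 Special.one, ModI.wedge_mem (by omega) mem_E2.2 (one_mem _)⟩
    · exact ⟨Special.wedge _ _ Special.one s2, ModI.wedge_mem (by omega) (one_mem _) mem_E2.2⟩

theorem ncard_of_nodup {α : Type*} [DecidableEq α] {L : List α} (h : L.Nodup) :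
    ({c | c ∈ L} : Set α).ncard = L.length := by
  have : ({c | c ∈ L} : Set α) = (L.toFinset : Set α) := by ext; simp
  rw [this, Set.ncard_coe_finset, List.toFinset_card_of_nodup h]

open Classical in
theorem count_main : (E 1).ncard = 1 ∧ (E 2).ncard = 2 ∧ (E 3).ncard = 4 ∧ (E 4).ncard = 10 ∧
    ∀ n, 5 ≤ n → (E n).Infinite := by
  refine ⟨?_, ?_, ?_, ?_, ?_⟩
  · rw [E1_eq, Set.ncard_singleton]
  · have h : [(1 : Binf), wedge 1 1].Nodup := tenList_nodup.sublist (by simp [tenList])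
    have e : E 2 = {c | c ∈ [(1 : Binf), wedge 1 1]} := by rw [E2_eq]; ext; simp
    rw [e, ncard_of_nodup h]; rfl
  · have h : [(1 : Binf), wedge 1 1, wedge (wedge 1 1) 1, wedge 1 (wedge 1 1)].Nodup := by
      refine tenList_nodup.sublist ?_
      unfold tenList
      refine List.Sublist.cons_cons _ (List.Sublist.cons_cons _ (List.Sublist.cons_cons _ ?_))
      refine List.Sublist.cons _ (List.Sublist.cons _ (List.Sublist.cons_cons _ ?_))
      exact List.nil_sublist _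
    have e : E 3 = {c | c ∈ [(1 : Binf), wedge 1 1, wedge (wedge 1 1) 1, wedge 1 (wedge 1 1)]} := by
      rw [E3_eq]; ext; simp
    rw [e, ncard_of_nodup h]; rfl
  · rw [E4_eq, ncard_of_nodup tenList_nodup]; rfl
  · intro n hn
    exact infinite_five.mono (E_mono hn)

end Pool.Agent.Helper59.Braid
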