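import Pool.Agent.Helper59.BraidArtin

set_option autoImplicit false

/-!
# Forgetting a strand in the (presented) braid group `B_∞`
-/

namespace Pool.Agent.Helper59.Braid

/-- `δ r = σ_{r-1} ⋯ σ_1 σ_0` -/
def δ : ℕ → Binf
  | 0 => 1
  | r + 1 => sh (δ r) * σ 0

namespace Fgt

/-- What remains of `σ i` when the strand at position `j` is removed. -/
def fg (i j : ℕ) : Binf := if i + 1 < j then σ i else if i ≤ j then 1 else σ (i - 1)

theorem fg_gt {i j : ℕ} (h : i + 1 < j) : fg i j = σ i := if_pos h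

theorem fg_lt {i j : ℕ} (h : j < i) : fg i j = σ (i - 1) := by
  rw [fg, if_neg (by omega), if_neg (by omega)]

theorem fg_self (i : ℕ) : fg i i = 1 := by
  rw [fg, if_neg (by omega), if_pos (by omega)]

theorem fg_succ (i : ℕ) : fg i (i + 1) = 1 := by
  rw [fg, if_neg (by omega), if_pos (by omega)]

/-- The transposition of `i` and `i + 1`. -/
def tr (i j : ℕ) : ℕ := if j = i then i + 1 else if j = i + 1 then i else j

theorem tr_self (i : ℕ) : tr i i = i + 1 := if_pos rfl
theorem tr_succ (i : ℕ) : tr i (i + 1) = i := by rw [tr, if_neg (by omega), if_pos rfl]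
theorem tr_of {i j : ℕ} (h1 : j ≠ i) (h2 : j ≠ i + 1) : tr i j = j := by
  rw [tr, if_neg h1, if_neg h2]

theorem tr_tr (i j : ℕ) : tr i (tr i j) = j := by
  by_cases h1 : j = i
  · subst h1; rw [tr_self, tr_succ]
  by_cases h2 : j = i + 1
  · subst h2; rw [tr_succ, tr_self]
  rw [tr_of h1 h2, tr_of h1 h2]

/-- The permutation of `Binf × ℕ` given by a generator. -/
def τ (i : ℕ) : Equiv.Perm (Binf × ℕ) where
  toFun x := (fg i x.2 * x.1, tr i x.2)
  invFun x := ((fg i (tr i x.2))⁻¹ * x.1, tr i x.2)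
  left_inv x := by
    rcases x with ⟨b, j⟩
    simp only [tr_tr, inv_mul_cancel_left]
  right_inv x := by
    rcases x with ⟨b, j⟩
    simp only [tr_tr, mul_inv_cancel_left]

theorem τ_apply (i : ℕ) (b : Binf) (j : ℕ) : τ i (b, j) = (fg i j * b, tr i j) := rfl

theorem τ_comm {i j : ℕ} (h : i + 2 ≤ j) : τ i * τ j = τ j * τ i := by
  ext1 ⟨b, k⟩
  simp only [Equiv.Perm.mul_apply, τ_apply, Prod.mk.injEq, ← mul_assoc]
  have key : fg i (tr j k) * fg j k = fg j (tr i k) * fg i k ∧ tr i (tr j k) = tr j (tr i k) := by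
    rcases lt_trichotomy k i with h1 | h1 | h1
    · rw [tr_of (i := j) (j := k) (by omega) (by omega),
        tr_of (i := i) (j := k) (by omega) (by omega),
        tr_of (i := j) (j := k) (by omega) (by omega), fg_lt h1, fg_lt (show k < j by omega)]
      exact ⟨σ_comm (by omega), rfl⟩
    · subst h1
      rw [tr_of (i := j) (j := k) (by omega) (by omega), tr_self,
        tr_of (i := j) (j := k + 1) (by omega) (by omega), fg_self,
        fg_lt (show k < j by omega), fg_lt (show k + 1 < j by omega)]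
      simp
    by_cases h2 : k = i + 1
    · subst h2
      rw [tr_of (i := j) (j := i + 1) (by omega) (by omega), tr_succ,
        tr_of (i := j) (j := i) (by omega) (by omega), fg_succ,
        fg_lt (show i < j by omega), fg_lt (show i + 1 < j by omega)]
      simp
    rcases lt_trichotomy k j with h3 | h3 | h3
    · rw [tr_of (i := j) (j := k) (by omega) (by omega),
        tr_of (i := i) (j := k) (by omega) (by omega),
        tr_of (i := j) (j := k) (by omega) (by omega), fg_lt h3,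
        fg_gt (show i + 1 < k by omega)]
      exact ⟨σ_comm (by omega), rfl⟩
    · subst h3
      rw [tr_self, tr_of (i := i) (j := k) (by omega) (by omega),
        tr_of (i := i) (j := k + 1) (by omega) (by omega), fg_self, tr_self,
        fg_gt (show i + 1 < k + 1 by omega), fg_gt (show i + 1 < k by omega)]
      simp
    by_cases h4 : k = j + 1
    · subst h4
      rw [tr_succ, tr_of (i := i) (j := j) (by omega) (by omega),
        tr_of (i := i) (j := j + 1) (by omega) (by omega), fg_succ, tr_succ,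
        fg_gt (show i + 1 < j by omega), fg_gt (show i + 1 < j + 1 by omega)]
      simp
    · rw [tr_of (i := j) (j := k) (by omega) (by omega),
        tr_of (i := i) (j := k) (by omega) (by omega),
        tr_of (i := j) (j := k) (by omega) (by omega), fg_gt (show j + 1 < k by omega),
        fg_gt (show i + 1 < k by omega)]
      exact ⟨σ_comm (by omega), rfl⟩
  exact ⟨by rw [key.1], key.2⟩

theorem τ_braid (i : ℕ) : τ i * τ (i + 1) * τ i = τ (i + 1) * τ i * τ (i + 1) := by
  ext1 ⟨b, k⟩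
  simp only [Equiv.Perm.mul_apply, τ_apply, Prod.mk.injEq, ← mul_assoc]
  have key : fg i (tr (i + 1) (tr i k)) * fg (i + 1) (tr i k) * fg i k =
      fg (i + 1) (tr i (tr (i + 1) k)) * fg i (tr (i + 1) k) * fg (i + 1) k ∧
      tr i (tr (i + 1) (tr i k)) = tr (i + 1) (tr i (tr (i + 1) k)) := by
    by_cases h0 : k < i
    · obtain ⟨i, rfl⟩ : ∃ i', i = i' + 1 := ⟨i - 1, by omega⟩
      rw [tr_of (i := i + 1) (j := k) (by omega) (by omega),
        tr_of (i := i + 1 + 1) (j := k) (by omega) (by omega),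
        tr_of (i := i + 1) (j := k) (by omega) (by omega),
        tr_of (i := i + 1 + 1) (j := k) (by omega) (by omega), fg_lt h0,
        fg_lt (show k < i + 1 + 1 by omega)]
      exact ⟨σ_braid i, rfl⟩
    by_cases h1 : k = i
    · subst h1
      rw [tr_self, tr_self, tr_of (i := k + 1) (j := k) (by omega) (by omega), tr_self, fg_self,
        fg_self, tr_self, fg_gt (show k + 1 < k + 1 + 1 by omega),
        fg_lt (show k < k + 1 by omega), tr_of (i := k) (j := k + 1 + 1) (by omega) (by omega)]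
      simp
    by_cases h2 : k = i + 1
    · subst h2
      rw [tr_succ, tr_self, tr_of (i := i + 1) (j := i) (by omega) (by omega), tr_self,
        tr_of (i := i) (j := i + 1 + 1) (by omega) (by omega), tr_succ, fg_self,
        fg_self, fg_succ, fg_succ, fg_gt (show i + 1 < i + 1 + 1 by omega),
        fg_lt (show i < i + 1 by omega)]
      simp
    by_cases h3 : k = i + 1 + 1
    · subst h3
      rw [tr_of (i := i) (j := i + 1 + 1) (by omega) (by omega), tr_succ, tr_succ,
        tr_of (i := i + 1) (j := i) (by omega) (by omega), fg_succ, fg_succ,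
        fg_gt (show i + 1 < i + 1 + 1 by omega), fg_lt (show i < i + 1 by omega)]
      simp
    · rw [tr_of (i := i) (j := k) (by omega) (by omega),
        tr_of (i := i + 1) (j := k) (by omega) (by omega),
        tr_of (i := i) (j := k) (by omega) (by omega),
        tr_of (i := i + 1) (j := k) (by omega) (by omega), fg_gt (show i + 1 < k by omega),
        fg_gt (show i + 1 + 1 < k by omega)]
      exact ⟨σ_braid i, rfl⟩
  exact ⟨by rw [key.1], key.2⟩

/-- The action of `Binf` on `Binf × ℕ` that records what is left after one strand is removed. -/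
def ψ : Binf →* Equiv.Perm (Binf × ℕ) :=
  PresentedGroup.toGroup (f := τ) (lift_rels _ (fun _ _ h => τ_comm h) τ_braid)

@[simp] theorem ψ_σ (i : ℕ) : ψ (σ i) = τ i := PresentedGroup.toGroup.of _

/-- What remains of `g` when the strand starting at position `j` is removed. -/
def F (g : Binf) (j : ℕ) : Binf := (ψ g (1, j)).1

/-- The final position of the strand starting at position `j`. -/
def π' (g : Binf) (j : ℕ) : ℕ := (ψ g (1, j)).2

theorem ψ_eq (g b : Binf) (j : ℕ) : ψ g (b, j) = (F g j * b, π' g j) := by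
  unfold F π'
  induction g using Binf_induction_left generalizing b j with
  | h1 => simp
  | hσ i g ih =>
    rw [map_mul, Equiv.Perm.mul_apply, Equiv.Perm.mul_apply, ih b j, ih 1 j, ψ_σ, τ_apply, τ_apply]
    simp [mul_assoc]
  | hσi i g ih =>
    rw [map_mul, Equiv.Perm.mul_apply, Equiv.Perm.mul_apply, ih b j, ih 1 j, map_inv, ψ_σ]
    show ((fg i (tr i _))⁻¹ * _, tr i _) = ((fg i (tr i _))⁻¹ * _ * b, tr i _)
    simp [mul_assoc]

theorem F_mul (g h : Binf) (j : ℕ) : F (g * h) j = F g (π' h j) * F h j := by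
  have h1 : ψ (g * h) (1, j) = ψ g (ψ h (1, j)) := by rw [map_mul, Equiv.Perm.mul_apply]
  rw [ψ_eq h 1 j, ψ_eq g, ψ_eq (g * h)] at h1
  simpa using congrArg Prod.fst h1

theorem π'_mul (g h : Binf) (j : ℕ) : π' (g * h) j = π' g (π' h j) := by
  have h1 : ψ (g * h) (1, j) = ψ g (ψ h (1, j)) := by rw [map_mul, Equiv.Perm.mul_apply]
  rw [ψ_eq h 1 j, ψ_eq g, ψ_eq (g * h)] at h1
  simpa using congrArg Prod.snd h1

@[simp] theorem F_one (j : ℕ) : F 1 j = 1 := by simp [F]
@[simp] theorem π'_one (j : ℕ) : π' 1 j = j := by simp [π']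

theorem F_σ (i j : ℕ) : F (σ i) j = fg i j := by simp [F, τ_apply]
theorem π'_σ (i j : ℕ) : π' (σ i) j = tr i j := by simp [π', τ_apply]

theorem π'_σ_inv (i j : ℕ) : π' (σ i)⁻¹ j = tr i j := by
  unfold π'
  rw [map_inv, ψ_σ]
  rfl

theorem F_σ_inv (i j : ℕ) : F (σ i)⁻¹ j = (fg i (tr i j))⁻¹ := by
  unfold F
  rw [map_inv, ψ_σ]
  show (fg i (tr i j))⁻¹ * 1 = _
  rw [mul_one]

theorem π'_inv (g : Binf) (j : ℕ) : π' g⁻¹ (π' g j) = j := by
  rw [← π'_mul, inv_mul_cancel, π'_one]

theorem π'_sh (g : Binf) (j : ℕ) : π' (sh g) (j + 1) = π' g j + 1 := by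
  induction g using Binf_induction_left generalizing j with
  | h1 => simp
  | hσ i g ih =>
    rw [map_mul, π'_mul, π'_mul, ih, sh_σ, π'_σ, π'_σ]
    unfold tr; split_ifs <;> omega
  | hσi i g ih =>
    rw [map_mul, π'_mul, π'_mul, ih, map_inv, sh_σ, π'_σ_inv, π'_σ_inv]
    unfold tr; split_ifs <;> omega

theorem sh_zero (g : Binf) : F (sh g) 0 = g ∧ π' (sh g) 0 = 0 := by
  induction g using Binf_induction_left with
  | h1 => simp
  | hσ i g ih =>
    rw [map_mul, F_mul, π'_mul, ih.1, ih.2, sh_σ, F_σ, π'_σ, fg_lt (by omega),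
      tr_of (by omega) (by omega)]
    exact ⟨rfl, rfl⟩
  | hσi i g ih =>
    rw [map_mul, F_mul, π'_mul, ih.1, ih.2, map_inv, sh_σ, F_σ_inv, π'_σ_inv,
      tr_of (by omega) (by omega), fg_lt (by omega)]
    exact ⟨rfl, rfl⟩

end Fgt

theorem sh_injective : Function.Injective sh := by
  intro g h hgh
  rw [← (Fgt.sh_zero g).1, ← (Fgt.sh_zero h).1, hgh]

namespace Fgt

theorem B_mono {m n : ℕ} (h : m ≤ n) : B m ≤ B n := by
  apply Subgroup.closure_mono
  rintro _ ⟨i, hi, rfl⟩
  exact ⟨i, by omega, rfl⟩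

theorem σ_mem_B {i n : ℕ} (h : i + 1 < n) : σ i ∈ B n := Subgroup.subset_closure ⟨i, h, rfl⟩

theorem exists_mem_B (g : Binf) : ∃ m, g ∈ B m := by
  induction g using Binf_induction_left with
  | h1 => exact ⟨0, one_mem _⟩
  | hσ i g ih =>
    obtain ⟨m, hm⟩ := ih
    exact ⟨max m (i + 2), mul_mem (σ_mem_B (by omega)) (B_mono (le_max_left _ _) hm)⟩
  | hσi i g ih =>
    obtain ⟨m, hm⟩ := ih
    exact ⟨max m (i + 2), mul_mem (inv_mem (σ_mem_B (by omega))) (B_mono (le_max_left _ _) hm)⟩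

theorem B_induction {n : ℕ} {p : Binf → Prop} (h1 : p 1)
    (hσ : ∀ i, i + 1 < n → ∀ g, g ∈ B n → p g → p (σ i * g))
    (hσi : ∀ i, i + 1 < n → ∀ g, g ∈ B n → p g → p ((σ i)⁻¹ * g)) {g : Binf} (hg : g ∈ B n) :
    p g := by
  refine Subgroup.closure_induction_left (p := fun g _ => p g) h1 ?_ ?_ hg
  · rintro _ ⟨i, hi, rfl⟩ y hy hp
    exact hσ i hi y hy hp
  · rintro _ ⟨i, hi, rfl⟩ y hy hp
    exact hσi i hi y hy hp

/-- The elements of `B n` do not involve the strand `j ≥ n`. -/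
theorem B_fix {n : ℕ} {g : Binf} (hg : g ∈ B n) {j : ℕ} (hj : n ≤ j) :
    F g j = g ∧ π' g j = j := by
  refine B_induction (p := fun g => F g j = g ∧ π' g j = j) (by simp)
    (fun i hi g hg ih => ?_) (fun i hi g hg ih => ?_) hg
  · rw [F_mul, π'_mul, ih.1, ih.2, F_σ, π'_σ, tr_of (by omega) (by omega), fg_gt (by omega)]
    exact ⟨rfl, rfl⟩
  · rw [F_mul, π'_mul, ih.1, ih.2, F_σ_inv, π'_σ_inv, tr_of (by omega) (by omega),
      fg_gt (by omega)]
    exact ⟨rfl, rfl⟩

theorem fg_mem {i m j : ℕ} (hi : i + 1 < m) (h1 : 1 ≤ j) (h2 : j ≤ m) :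
    fg (i + 1) j ∈ (B (m - 1)).map sh := by
  rcases Nat.lt_or_ge (i + 1 + 1) j with h | h
  · rw [fg_gt h]
    exact ⟨σ i, σ_mem_B (by omega), sh_σ i⟩
  rcases Nat.lt_or_ge j (i + 1) with h' | h'
  · rw [fg_lt h']
    obtain ⟨i, rfl⟩ : ∃ i', i = i' + 1 := ⟨i - 1, by omega⟩
    exact ⟨σ i, σ_mem_B (by omega), sh_σ i⟩
  · rw [fg, if_neg (by omega), if_pos h']
    exact one_mem _

theorem tr_mem {i m j : ℕ} (hi : i + 1 < m) (h1 : 1 ≤ j) (h2 : j ≤ m) :
    1 ≤ tr (i + 1) j ∧ tr (i + 1) j ≤ m := by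
  unfold tr; split_ifs <;> omega

/-- Removing a strand from `sh (B m)`. -/
theorem F_sh_mem {m : ℕ} {h : Binf} (hh : h ∈ B m) {j : ℕ} (h1 : 1 ≤ j) (h2 : j ≤ m) :
    F (sh h) j ∈ (B (m - 1)).map sh ∧ 1 ≤ π' (sh h) j ∧ π' (sh h) j ≤ m := by
  refine B_induction (p := fun h => F (sh h) j ∈ (B (m - 1)).map sh ∧ 1 ≤ π' (sh h) j ∧
    π' (sh h) j ≤ m) (by simpa using ⟨h1, h2⟩)
    (fun i hi g hg ih => ?_) (fun i hi g hg ih => ?_) hh
  · obtain ⟨ih1, ih2, ih3⟩ := ih
    rw [map_mul, F_mul, π'_mul, sh_σ, F_σ, π'_σ]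
    exact ⟨mul_mem (fg_mem hi ih2 ih3) ih1, tr_mem hi ih2 ih3⟩
  · obtain ⟨ih1, ih2, ih3⟩ := ih
    rw [map_mul, F_mul, π'_mul, map_inv, sh_σ, F_σ_inv, π'_σ_inv]
    have h3 := tr_mem hi ih2 ih3
    exact ⟨mul_mem (inv_mem (fg_mem hi h3.1 h3.2)) ih1, h3⟩

/-- `sh h ∈ B n` implies `h ∈ B (n - 1)`. -/
theorem mem_B_of_sh {n : ℕ} {h : Binf} (hn : sh h ∈ B n) : h ∈ B (n - 1) := by
  obtain ⟨m, hm⟩ := exists_mem_B h
  induction m with
  | zero => exact B_mono (Nat.zero_le _) hm
  | succ m ih =>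
    by_cases hmn : m + 1 ≤ n - 1
    · exact B_mono hmn hm
    · apply ih
      have h1 := (F_sh_mem hm (j := m + 1) (by omega) (by omega)).1
      rw [(B_fix hn (j := m + 1) (by omega)).1] at h1
      obtain ⟨k, hk, hkh⟩ := h1
      have : k = h := sh_injective hkh
      subst this
      simpa using hk

theorem δ_mem (r : ℕ) : δ r ∈ B (r + 1) := by
  induction r with
  | zero => exact one_mem _
  | succ r ih =>
    have h1 : ∀ {h : Binf} {m : ℕ}, h ∈ B m → sh h ∈ B (m + 1) := by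
      intro h m hh
      refine B_induction (p := fun h => sh h ∈ B (m + 1)) (by simp)
        (fun i hi g hg ih => ?_) (fun i hi g hg ih => ?_) hh
      · rw [map_mul, sh_σ]; exact mul_mem (σ_mem_B (by omega)) ih
      · rw [map_mul, map_inv, sh_σ]; exact mul_mem (inv_mem (σ_mem_B (by omega))) ih
    exact mul_mem (h1 ih) (σ_mem_B (by omega))

theorem sh_sh_comm (g : Binf) : sh (sh g) * σ 0 = σ 0 * sh (sh g) := by
  induction g using Binf_induction_left with
  | h1 => simp
  | hσ i g ih =>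
    rw [map_mul, map_mul, mul_assoc, ih, sh_σ, sh_σ, ← mul_assoc,
      ← σ_comm (show 0 + 2 ≤ i + 1 + 1 by omega), mul_assoc]
  | hσi i g ih =>
    rw [map_mul, map_mul, mul_assoc, ih, map_inv, map_inv, sh_σ, sh_σ, ← mul_assoc,
      ← mul_assoc]
    congr 1
    rw [inv_mul_eq_iff_eq_mul, ← mul_assoc, ← σ_comm (show 0 + 2 ≤ i + 1 + 1 by omega),
      mul_assoc, mul_inv_cancel, mul_one]

theorem δ_σ {r i : ℕ} (h : i + 1 < r) : δ r * σ (i + 1) = σ i * δ r := by
  induction r generalizing i with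
  | zero => omega
  | succ r ih =>
    rcases i with _ | i
    · obtain ⟨r, rfl⟩ : ∃ r', r = r' + 1 := ⟨r - 1, by omega⟩
      show sh (sh (δ r) * σ 0) * σ 0 * σ 1 = σ 0 * (sh (sh (δ r) * σ 0) * σ 0)
      rw [map_mul, sh_σ, mul_assoc, mul_assoc]
      have := σ_braid 0
      rw [show σ (0 + 1) * (σ 0 * σ 1) = σ 0 * σ 1 * σ 0 by rw [← mul_assoc]; exact this.symm]
      rw [← mul_assoc, ← mul_assoc, sh_sh_comm]
      simp [mul_assoc]
    · show sh (δ r) * σ 0 * σ (i + 1 + 1) = σ (i + 1) * (sh (δ r) * σ 0)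
      rw [mul_assoc, σ_comm (show 0 + 2 ≤ i + 1 + 1 by omega), ← mul_assoc, ← mul_assoc]
      congr 1
      have := ih (i := i) (by omega)
      have h2 := congrArg sh this
      rw [map_mul, map_mul, sh_σ, sh_σ] at h2
      exact h2

theorem δ_sh {r : ℕ} {g : Binf} (hg : g ∈ B r) : δ r * sh g = g * δ r := by
  refine B_induction (p := fun g => δ r * sh g = g * δ r) (by simp)
    (fun i hi g hg ih => ?_) (fun i hi g hg ih => ?_) hg
  · rw [map_mul, sh_σ, ← mul_assoc, δ_σ hi, mul_assoc, ih, mul_assoc]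
  · have h2 : δ r * (σ (i + 1))⁻¹ = (σ i)⁻¹ * δ r := by
      rw [eq_inv_mul_iff_mul_eq, ← mul_assoc, ← δ_σ hi, mul_assoc, mul_inv_cancel, mul_one]
    rw [map_mul, map_inv, sh_σ, ← mul_assoc, h2, mul_assoc, ih, mul_assoc]

theorem π'_δ (r : ℕ) : π' (δ r) 0 = r := by
  induction r with
  | zero => simp [δ]
  | succ r ih =>
    show π' (sh (δ r) * σ 0) 0 = r + 1
    rw [π'_mul, π'_σ, tr_self, π'_sh, ih]

end Fgt

open Fgt in
theorem mem_B_of_conj {g : Binf} {r n : ℕ} (h : g * δ r * (sh g)⁻¹ ∈ B n) :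
    (r = 0 ∨ r + 1 ≤ n) ∧ g ∈ B (n - 1) := by
  -- reduction step
  have step : ∀ m, n ≤ m → (r = 0 ∨ r + 1 ≤ m) → g ∈ B m → g ∈ B (m - 1) := by
    intro m hm hr hg
    apply mem_B_of_sh
    have hδ : δ r ∈ B m := by
      rcases hr with rfl | hr
      · exact one_mem _
      · exact B_mono hr (δ_mem r)
    have : sh g = (g * δ r * (sh g)⁻¹)⁻¹ * (g * δ r) := by group
    rw [this]
    exact mul_mem (inv_mem (B_mono hm h)) (mul_mem hg hδ)
  obtain ⟨m, hm⟩ := exists_mem_B g
  have main : g ∈ B (max (n - 1) r) := by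
    induction m with
    | zero => exact B_mono (Nat.zero_le _) hm
    | succ m ih =>
      by_cases hmn : m + 1 ≤ max (n - 1) r
      · exact B_mono hmn hm
      · exact ih (by simpa using step (m + 1) (by omega) (by omega) hm)
  rcases Nat.eq_zero_or_pos r with hr | hr
  · subst hr
    exact ⟨Or.inl rfl, by simpa using main⟩
  by_cases hrn : r + 1 ≤ n
  · exact ⟨Or.inr hrn, by rwa [max_eq_left (by omega)] at main⟩
  · exfalso
    have hgr : g ∈ B r := by rwa [max_eq_right (by omega)] at main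
    have h2 : g * δ r * (sh g)⁻¹ = δ r := by rw [← δ_sh hgr, mul_inv_cancel_right]
    rw [h2] at h
    have h3 := (B_fix h (j := r) (by omega)).2
    have h4 := π'_inv (δ r) 0
    rw [π'_δ] at h4
    have h5 := π'_inv (δ r) r
    rw [h3] at h5
    omega

end Pool.Agent.Helper59.Braid
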