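import Pool.Agent.Helper59.BraidWord
import Pool.Agent.Helper59.BraidF
import Pool.Agent.Helper59.BraidC

set_option autoImplicit false

/-!
# Products `a · sh b` of special braids that belong to `B_3`
-/

namespace Pool.Agent.Helper59.Braid

theorem Le.of_act' {y z : FreeGroup ℕ} (β : Binf) (h : Le (Φ β y) (Φ β z)) : Le y z := h.of_act β

/-! ### contradiction lemmas -/

theorem LTB_of_word {q a h M : Binf} (hq : Special q) (ha : Special a) (hM : M ∈ Np)
    (e : Φ a (X 0) = Φ (q * (sh h * (σ 0 * M))) (X 0)) : LTB q a := by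
  have hlt := word_lt_X0 h hM
  have h2 := hlt.act q
  rw [← Φ_mul, ← e] at h2
  rcases total_B hq ha with h1 | h1 | h1
  · subst h1
    exact h2.irrefl'.elim
  · exact h1
  · exact (h1.lt.trans h2).irrefl'.elim

theorem gcl1 {q a h M : Binf} (hq : Special q) (ha : Special a) (hM : M ∈ Np)
    (hh : PS (Φ h (X 0)))
    (e : Φ a (X 0) = Φ (q * (sh h * (σ 0 * M))) (X 0)) : False := by
  have h1 := (LTB_of_word hq ha hM e).succ
  rw [e, Φ_mul q (sh h * (σ 0 * M)), Φ_mul q (σ 0)] at h1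
  exact ((syl hh hM).lt).false_of_le (h1.of_act q)

theorem gcl2 {q a h M : Binf} (hq : Special q) (ha : Special a) (hM : M ∈ Np)
    (h1 : Qp (Φ h (X 0))) (h2 : FB (Φ h (X 0)) (X 0))
    (e : Φ a (X 0) = Φ (q * (sh h * (σ 0 * M))) (X 0)) : False := by
  rcases gap_B ha hq with ⟨j, h3⟩ | h3
  · have h4 : Le (Φ (it q 1 (j + 1)) (X 0)) (Φ a (X 0)) := by
      rcases h3 with rfl | h3
      · exact Le.refl _
      · exact h3.lt.le
    have h5 : Φ (it q 1 (j + 1)) (X 0) = Φ q (Φ (σ 0 ^ j) (X 0)) := by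
      rw [← Φ_mul]
      have := it_mul q 1 j
      rw [map_one, mul_one] at this
      rw [← this, Φ_mul_sh_X0]
    rw [h5, e, Φ_mul] at h4
    exact (word_lt_pow h2 hM j).false_of_le (h4.of_act q)
  · have h4 : Le (Φ a (X 0)) (Φ (wedge q (wedge 1 1)) (X 0)) := by
      rcases h3 with rfl | h3
      · exact Le.refl _
      · exact h3.lt.le
    have h5 : Φ (wedge q (wedge 1 1)) (X 0) = Φ q (Φ (σ 1 * σ 0) (X 0)) := by
      rw [Φ_wedge_X0, ← Φ_mul, ← mul_assoc]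
      simp [wedge]
    rw [h5, e, Φ_mul] at h4
    exact (sylA h1 hM).false_of_le (h4.of_act q)

theorem eq_of_mul_sh {q a h b : Binf} (hq : Special q) (ha : Special a)
    (e : a * sh b = q * sh h) : a = q ∧ b = h := by
  have h1 : a = q := by
    apply separation ha hq
    rw [← Φ_mul_sh_X0 a b, e, Φ_mul_sh_X0]
  subst h1
  exact ⟨rfl, sh_injective (mul_left_cancel e)⟩

theorem gcl1' {b : Binf} (hb : Special b) (h : PS (Φ b (X 0))) : False :=
  h.false_of_le hb.le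

theorem gcl2' {b : Binf} (hb : Special b) (h1 : Qp (Φ b (X 0))) (h2 : FB (Φ b (X 0)) (X 0)) :
    False := by
  rcases hb.one_or_LTB with rfl | h3
  · have := h2.lt
    rw [map_one, MulAut.one_apply] at this
    exact this.irrefl'
  · have := h3.succ
    rw [one_mul] at this
    exact h1.lt.false_of_le this

/-! ### the Fibonacci-like sequence -/

/-- `Fib k = F_{k-1}` -/
def Fib (k : ℕ) : Binf := it 1 1 k

theorem Fib_special (k : ℕ) : Special (Fib k) := it_special Special.one Special.one k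

theorem Fib_mul (k : ℕ) : Fib (k + 1) * sh (Fib k) = σ 0 ^ k := by
  have := it_mul 1 1 k
  simpa [Fib] using this

theorem Fib_zero : Fib 0 = 1 := rfl
theorem Fib_one : Fib 1 = 1 := rfl
theorem Fib_two : Fib 2 = σ 0 := by
  show wedge 1 1 = σ 0
  simp [wedge]

theorem Fib_succ_succ (k : ℕ) : Fib (k + 2) = wedge (Fib (k + 1)) (Fib k) := rfl

theorem Fib_X0 (k : ℕ) : Φ (Fib (k + 1)) (X 0) = Φ (σ 0 ^ k) (X 0) := by
  rw [← Fib_mul, Φ_mul_sh_X0]

theorem lt_one_Fib (k : ℕ) : LTB 1 (Fib (k + 2)) := by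
  induction k with
  | zero => exact LTB.wedge' 1 Special.one
  | succ k ih => exact ih.trans (LTB.wedge' _ (Fib_special _))

theorem LTB.ne_one {a : Binf} (h : LTB 1 a) : a ≠ 1 := by
  rintro rfl
  exact h.lt.irrefl'

theorem Fib_ne_one {k : ℕ} (h : Fib k = 1) : k ≤ 1 := by
  by_contra hk
  obtain ⟨j, rfl⟩ : ∃ j, k = j + 2 := ⟨k - 2, by omega⟩
  exact (lt_one_Fib j).ne_one h

theorem wedge_one_mono {r s : Binf} (h : LTB r s) : LTB (wedge 1 r) (wedge 1 s) := by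
  refine LTB.induction (p := fun s => LTB (wedge 1 r) (wedge 1 s)) ?_ ?_ h
  · intro t ht
    rw [wedge_ld]
    exact LTB.wedge' _ (Special.wedge _ _ Special.one ht)
  · intro b t ht ih
    rw [wedge_ld]
    exact ih.trans (LTB.wedge' _ (Special.wedge _ _ Special.one ht))

theorem xxx_eq (j : ℕ) : wedge 1 (wedge 1 1) = wedge (Fib (j + 2)) (wedge (Fib (j + 1)) 1) := by
  induction j with
  | zero => rw [wedge_ld]; rfl
  | succ j ih => rw [ih, wedge_ld]; rfl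

theorem Fib_lt_xxx (j : ℕ) : LTB (Fib (j + 1)) (wedge 1 (wedge 1 1)) := by
  cases j with
  | zero => exact LTB.wedge' _ (Special.wedge _ _ Special.one Special.one)
  | succ j =>
    rw [xxx_eq j]
    exact LTB.wedge' _ (Special.wedge _ _ (Fib_special _) Special.one)

theorem xxx_le (k : ℕ) : wedge 1 (wedge 1 1) = wedge 1 (Fib (k + 2)) ∨
    LTB (wedge 1 (wedge 1 1)) (wedge 1 (Fib (k + 2))) := by
  induction k with
  | zero => left; rfl
  | succ k ih =>
    right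
    have h1 : LTB (wedge 1 (Fib (k + 2))) (wedge 1 (Fib (k + 1 + 2))) :=
      wedge_one_mono (LTB.wedge' _ (Fib_special _))
    rcases ih with ih | ih
    · rw [ih]; exact h1
    · exact ih.trans h1

theorem Fib_lt (k : ℕ) : LTB (Fib k) (wedge 1 (Fib (k + 1))) := by
  match k with
  | 0 => exact LTB.wedge' _ Special.one
  | k + 1 =>
    rcases xxx_le k with h | h
    · rw [← h]; exact Fib_lt_xxx k
    · exact (Fib_lt_xxx k).trans h

theorem Fib_lt' (k : ℕ) : LTB (Fib (k + 1)) (wedge 1 (Fib (k + 1))) := by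
  match k with
  | 0 => exact LTB.wedge' _ Special.one
  | k + 1 =>
    rcases xxx_le k with h | h
    · rw [← h]; exact Fib_lt_xxx (k + 1)
    · exact (Fib_lt_xxx (k + 1)).trans h

/-- the sequence `X_i` is `Xs k (i+1)` -/
def Xs (k i : ℕ) : Binf := it 1 (Fib (k + 1)) i

theorem Xs_special (k i : ℕ) : Special (Xs k i) := it_special Special.one (Fib_special _) i

theorem Xs_mul (k i : ℕ) : Xs k (i + 1) * sh (Xs k i) = sh (Fib (k + 1)) * σ 0 ^ i := by
  have := it_mul 1 (Fib (k + 1)) i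
  simpa [Xs] using this

theorem Xs_one (k : ℕ) : Xs k 1 = 1 := rfl
theorem Xs_two (k : ℕ) : Xs k 2 = wedge 1 (Fib (k + 1)) := rfl
theorem Xs_two' (k : ℕ) : Xs k 2 = sh (Fib (k + 1)) * σ 0 := by
  rw [Xs_two]; simp [wedge]
theorem Xs_succ (k i : ℕ) : Xs k (i + 2) = wedge (Xs k (i + 1)) (Xs k i) := rfl

theorem sh2_comm_pow (a : Binf) (i : ℕ) : sh (sh a) * σ 0 ^ i = σ 0 ^ i * sh (sh a) := by
  have h : Commute (sh (sh a)) (σ 0) := sh2_comm_σ0 a
  exact (h.pow_right i).eq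

theorem prod_eq (k i : ℕ) :
    σ 1 ^ k * σ 0 ^ i = Xs k (i + 1) * sh (Xs k i * sh (Fib k)) := by
  have h1 : σ 1 ^ k = sh (σ 0 ^ k) := by rw [map_pow, sh_σ]
  rw [map_mul, ← mul_assoc, Xs_mul, mul_assoc, ← sh2_comm_pow, ← mul_assoc, ← map_mul,
    Fib_mul, h1]

theorem Fib_lt_Xs (k i : ℕ) : LTB (Fib k) (Xs k (i + 2)) := by
  induction i with
  | zero => exact Fib_lt k
  | succ i ih => exact ih.trans (LTB.wedge' _ (Xs_special _ _))

/-! ### the element `σ_0^{-n} x_0` -/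

theorem inv_pow_mono (n : ℕ) :
    Le (Φ (σ 0 ^ (0 + 1))⁻¹ (X 0)) (Φ (σ 0 ^ (n + 1))⁻¹ (X 0)) := by
  induction n with
  | zero => exact Le.refl _
  | succ n ih =>
    refine ih.trans ?_
    have h1 : (σ 0 ^ (n + 1 + 1))⁻¹ = (σ 0 ^ (n + 1))⁻¹ * (σ 0)⁻¹ := by
      rw [pow_succ' _ (n + 1), mul_inv_rev]
    rw [h1, Φ_mul]
    apply Le.act
    have := lt_σ0.act (σ 0)⁻¹
    rw [Φ_inv_apply] at this
    exact this.le

theorem h_mono (h : Binf) (n : ℕ) :
    Le (Φ (h * (σ 0)⁻¹) (X 0)) (Φ (h * (σ 0 ^ (n + 1))⁻¹) (X 0)) := by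
  rw [Φ_mul h, Φ_mul h]
  have := (inv_pow_mono n).act h
  rwa [zero_add, pow_one] at this

theorem ps_case1 (k n : ℕ) :
    PS (Φ (Xs k 1 * sh (Fib k) * (σ 0 ^ (n + 1))⁻¹) (X 0)) := by
  refine PS.mono ?_ (h_mono _ n)
  rw [Xs_one, one_mul, Φ_mul, Φ_σ0_inv_X0]
  exact ps_X1.act_sh _

/-- general computation for `it`-sequences -/
theorem ps_it {c d e : Binf} (i : ℕ) (h : LTB e (it c d i))
    (hc : ∀ y, PSS y → PS (Φ (c * sh d) (Φ (σ 0 ^ i) y))) (n : ℕ) :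
    PS (Φ (it c d (i + 1) * sh e * (σ 0 ^ (n + 1))⁻¹) (X 0)) := by
  refine PS.mono ?_ (h_mono _ n)
  have h1 : it c d (i + 1) * sh e = c * sh d * (σ 0 ^ i * sh ((it c d i)⁻¹ * e)) := by
    rw [map_mul, map_inv, ← mul_assoc, ← mul_assoc, ← it_mul]
    group
  rw [h1, Φ_mul, Φ_σ0_inv_X0, Φ_mul (c * sh d), Φ_mul (σ 0 ^ i), ← S_X, Φ_sh_S]
  exact hc _ h.ps.shift

theorem ps_case3 (k i n : ℕ) :
    PS (Φ (Xs k (i + 3) * sh (Fib k) * (σ 0 ^ (n + 1))⁻¹) (X 0)) := by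
  refine ps_it (c := 1) (d := Fib (k + 1)) (i + 2) (Fib_lt_Xs k i) ?_ n
  intro y hy
  rw [one_mul]
  exact (hy.act_σ_pow _).ps.act_sh _

theorem case2_fb (k n : ℕ) :
    FB (Φ (Xs (k + 2) 2 * sh (Fib (k + 2)) * (σ 0 ^ (n + 1))⁻¹) (X 0)) (X 0) := by
  have h1 : PSS (S (Φ ((Fib (k + 2))⁻¹ * 1) (X 0))) := (lt_one_Fib k).ps.shift
  have h2 := (h1.fb n).act (Xs (k + 2) 2 * sh (Fib (k + 2)))
  rw [← Φ_mul] at h2
  have h3 : Φ (Xs (k + 2) 2 * sh (Fib (k + 2))) (S (Φ ((Fib (k + 2))⁻¹ * 1) (X 0))) = X 0 := by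
    rw [← Φ_sh_S, ← Φ_mul, mul_one, map_inv, mul_assoc, mul_inv_cancel, mul_one, Xs_two',
      S_X, Φ_mul, Φ_σ0_X1, Φ_sh_X0]
  rwa [h3] at h2

theorem pos_θ1 {g : ℕ → T} {l p r : ℕ → ℝ} (hg : Valid g l p r) {y : FreeGroup ℕ}
    (hy : Sec1 y) : ∃ k : ℤ, l 0 + k ≤ pos g (θ 1 y) ∧ pos g (θ 1 y) ≤ r 0 + k := by
  set f : ℕ → ℕ := fun j => if j < 1 then j else j + 1 with hf
  have f0 : f 0 = 0 := rfl
  have fS : ∀ j, f (j + 1) = j + 2 := fun j => by simp [hf]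
  have h1 : pos g (θ 1 y) = pos (fun j => g (f j)) y := by
    have : (ρ g).comp (θ 1) = ρ (fun j => g (f j)) := by
      apply hom_ext'
      intro j
      rw [MonoidHom.comp_apply, θ_X, ρ_X]
      cases j with
      | zero => rw [if_pos (by omega), ρ_X, f0]
      | succ j => rw [if_neg (by omega), ρ_X, fS]
    unfold pos
    rw [← this]
    rfl
  have hv : Valid (fun j => g (f j)) (fun j => l (f j)) (fun j => p (f j)) (fun j => r (f j)) :=
    { l_pos := fun i => hg.l_pos _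
      l_lt_p := fun i => hg.l_lt_p _
      p_lt_r := fun i => hg.p_lt_r _
      r_lt_one := fun i => hg.r_lt_one _
      r_lt_l := fun i => by
        cases i with
        | zero =>
          show r (f 0) < l (f (0 + 1))
          rw [f0, fS]
          have h1 := hg.r_lt_l 0
          have h2 := hg.l_lt_p (0 + 1)
          have h3 := hg.p_lt_r (0 + 1)
          have h4 := hg.r_lt_l (0 + 1)
          norm_num at *
          linarith
        | succ i =>
          show r (f (i + 1)) < l (f (i + 1 + 1))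
          rw [fS, fS]
          exact hg.r_lt_l (i + 2)
      per := fun i => hg.per _
      fix := fun i => hg.fix _
      push := fun i => hg.push _ }
  obtain ⟨k, h2, h3⟩ := hy _ _ _ _ hv
  rw [h1]
  exact ⟨k, h2, h3⟩

theorem θ1_X0 : θ 1 (X 0) = X 0 := by rw [θ_X]; rfl
theorem θ1_X1 : θ 1 (X 1) = X 2 := by rw [θ_X]; rfl

theorem case2_w1 (k : ℕ) :
    ∃ v, Φ (Xs (k + 2) 2 * sh (Fib (k + 2)) * (σ 0)⁻¹) (X 0) = X 0 * v ∧ SecSS v := by
  obtain ⟨y, hy, hs⟩ := UU_of_mem (pow_mem_Np k)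
  rw [← pow_succ'] at hy
  have h1 : Φ (Fib (k + 2)) (X 0) = X 0 * (X 1 * y) := by rw [Fib_X0, hy]
  have h2 : Φ (Xs (k + 2) 2 * sh (Fib (k + 2)) * (σ 0)⁻¹) (X 0) =
      X 0 * Φ (sh (Fib (k + 3))) (X 2 * θ 1 y) := by
    rw [Φ_mul, Φ_σ0_inv_X0, Φ_mul, ← S_X, Φ_sh_S, Xs_two', Φ_mul, Φ_σ0_S, h1, map_mul, map_mul,
      map_mul, θ1_X0, θ1_X1, Φ_sh_X0]
  refine ⟨_, h2, ?_⟩
  intro g l p r hg
  obtain ⟨l', p', r', h', e1, e2, e3⟩ := valid_act_sh hg (Fib (k + 3))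
  obtain ⟨m, h3, h4⟩ := pos_θ1 h' hs
  refine ⟨m, ?_⟩
  rw [← pos_act, pos_X_mul]
  -- the position of `F_k x_1`
  have h5 : PS (Φ (Fib (k + 3)) (X 1)) := by
    have e : Fib (k + 3) = σ 0 ^ (k + 2) * sh ((Fib (k + 2))⁻¹ * 1) := by
      rw [← Fib_mul, mul_one, map_inv, mul_inv_cancel_right]
    rw [e, Φ_mul, ← S_X, Φ_sh_S]
    exact ((lt_one_Fib k).ps.shift.act_σ_pow _).ps
  have h6 := h5.shift g l p r hg
  have h7 : act g (sh (Fib (k + 3))) 2 0 = pos g (S (Φ (Fib (k + 3)) (X 1))) := by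
    rw [← Φ_sh_S, S_X, ← pos_act, pos_X]
  have h8 := h'.l_pos 0
  have h9 : act g (sh (Fib (k + 3))) 2 (0 + m) ≤ act g (sh (Fib (k + 3))) 2
      (pos (act g (sh (Fib (k + 3)))) (θ 1 y)) :=
    (act g (sh (Fib (k + 3))) 2).monotone (by linarith)
  rw [h'.per_int, h7] at h9
  have h10 : act g (sh (Fib (k + 3))) 2 (pos (act g (sh (Fib (k + 3)))) (θ 1 y)) <
      act g (sh (Fib (k + 3))) 2 (p' 2 + m) := by
    apply (act g (sh (Fib (k + 3))) 2).strictMono
    have h1 := h'.r_lt_l 0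
    have h2 := h'.l_lt_p (0 + 1)
    have h3 := h'.p_lt_r (0 + 1)
    have h4 := h'.r_lt_l (0 + 1)
    have h5 := h'.l_lt_p (0 + 1 + 1)
    norm_num at *
    linarith
  rw [h'.per_int, h'.fix] at h10
  have h11 := h'.p_lt_one 2
  constructor <;> linarith

theorem case2_q (k n : ℕ) :
    Qp (Φ (Xs (k + 2) 2 * sh (Fib (k + 2)) * (σ 0 ^ (n + 1))⁻¹) (X 0)) := by
  refine Qp.mono ?_ (h_mono _ n)
  obtain ⟨v, h1, h2⟩ := case2_w1 k
  intro g l p r hg
  have hl := pos_loop hg (Xs (k + 2) 2 * sh (Fib (k + 2)) * (σ 0)⁻¹) 0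
  obtain ⟨m, h3, h4⟩ := h2 g l p r hg
  rw [h1, pos_X_mul] at hl ⊢
  rw [T_lt_iff]
  have h5 : g 0 (r 0 + m) < g 0 (pos g v) :=
    (g 0).strictMono (by have := hg.r_lt_r 0; norm_num at this; linarith)
  have h6 : g 0 (pos g v) < g 0 (0 + ((1 + m : ℤ) : ℝ)) :=
    (g 0).strictMono (by push_cast; linarith)
  rw [hg.per_int] at h5 h6
  have h7 := hg.push 0
  have h8 : g 0 0 < p 0 := by
    have := hg.push_of (i := 0) (t := 0) (k := 0)
      (by have := hg.r_lt_one 0; push_cast; linarith)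
      (by have := hg.p_pos 0; push_cast; linarith)
    have h := this.2
    push_cast at h
    linarith
  have h9 := hg.p_lt_one 0
  have h10 := hg.l_pos 0
  push_cast at h6
  have hk1 : (m : ℝ) < 0 := by linarith [hl.2]
  have hk2 : (-2 : ℝ) < m := by linarith [hl.1]
  have hk1' : m < 0 := by exact_mod_cast hk1
  have hk2' : -2 < m := by exact_mod_cast hk2
  have hk : m = -1 := by omega
  subst hk
  push_cast at h3
  linarith

end Pool.Agent.Helper59.Braid
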