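import Pool.Agent.Helper59.BraidDynDefs

set_option autoImplicit false

/-!
# Tuples of order automorphisms of the line: existence and Hurwitz moves
(module D1, written by helper53)
-/

namespace Pool.Agent.Helper59.Braid

namespace D1

/-! ### A periodic order automorphism -/

/-- Möbius map of `[0,1)` -/
noncomputable def mob (a s : ℝ) : ℝ := a * s / (1 + (a - 1) * s)

lemma den_pos {a s : ℝ} (ha : 0 < a) (h0 : 0 ≤ s) (h1 : s < 1) : 0 < 1 + (a - 1) * s := by
  nlinarith

lemma mob_nonneg {a s : ℝ} (ha : 0 < a) (h0 : 0 ≤ s) (h1 : s < 1) : 0 ≤ mob a s :=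
  div_nonneg (by positivity) (den_pos ha h0 h1).le

lemma mob_lt_one {a s : ℝ} (ha : 0 < a) (h0 : 0 ≤ s) (h1 : s < 1) : mob a s < 1 := by
  unfold mob
  rw [div_lt_one (den_pos ha h0 h1)]
  linarith

lemma mob_lt {a s t : ℝ} (ha : 0 < a) (h0 : 0 ≤ s) (hst : s < t) (h1 : t < 1) :
    mob a s < mob a t := by
  unfold mob
  rw [div_lt_div_iff₀ (den_pos ha h0 (by linarith)) (den_pos ha (by linarith) h1)]
  nlinarith

lemma mob_mob {a s : ℝ} (ha : 0 < a) (h0 : 0 ≤ s) (h1 : s < 1) : mob a (mob a⁻¹ s) = s := by
  have h2 := den_pos (inv_pos.2 ha) h0 h1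
  have h3 := den_pos ha (mob_nonneg (inv_pos.2 ha) h0 h1) (mob_lt_one (inv_pos.2 ha) h0 h1)
  have h4 : mob a⁻¹ s = s / (a * (1 - s) + s) := by
    unfold mob
    have h5 : 0 < a * (1 - s) + s := by
      have : 0 < a * (1 - s) := mul_pos ha (by linarith)
      linarith
    rw [div_eq_div_iff h2.ne' h5.ne']
    field_simp
    ring
  have h5 : 0 < a * (1 - s) + s := by
    have : 0 < a * (1 - s) := mul_pos ha (by linarith)
    linarith
  rw [h4] at h3 ⊢
  unfold mob
  rw [div_eq_iff h3.ne']
  field_simp
  ring

/-- the periodic extension -/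
noncomputable def per (a t : ℝ) : ℝ := ⌊t⌋ + mob a (Int.fract t)

lemma floor_per {a : ℝ} (ha : 0 < a) (t : ℝ) : ⌊per a t⌋ = ⌊t⌋ := by
  unfold per
  rw [Int.floor_intCast_add]
  have : ⌊mob a (Int.fract t)⌋ = 0 := by
    rw [Int.floor_eq_zero_iff]
    exact ⟨mob_nonneg ha (Int.fract_nonneg t) (Int.fract_lt_one t),
      mob_lt_one ha (Int.fract_nonneg t) (Int.fract_lt_one t)⟩
  rw [this, add_zero]

lemma fract_per {a : ℝ} (ha : 0 < a) (t : ℝ) : Int.fract (per a t) = mob a (Int.fract t) := by
  have h1 := Int.floor_add_fract (per a t)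
  rw [floor_per ha] at h1
  have h2 : per a t = ⌊t⌋ + mob a (Int.fract t) := rfl
  linarith

lemma per_per {a : ℝ} (ha : 0 < a) (t : ℝ) : per a (per a⁻¹ t) = t := by
  unfold per
  have h1 := floor_per (inv_pos.2 ha) t
  have h2 := fract_per (inv_pos.2 ha) t
  unfold per at h1 h2
  rw [h1, h2, mob_mob ha (Int.fract_nonneg t) (Int.fract_lt_one t), Int.floor_add_fract]

lemma per_strictMono {a : ℝ} (ha : 0 < a) : StrictMono (per a) := by
  intro s t hst
  have hf : ⌊s⌋ ≤ ⌊t⌋ := Int.floor_le_floor hst.le
  unfold per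
  rcases hf.lt_or_eq with h | h
  · have h1 := mob_lt_one ha (Int.fract_nonneg s) (Int.fract_lt_one s)
    have h2 := mob_nonneg ha (Int.fract_nonneg t) (Int.fract_lt_one t)
    have h3 : ((⌊s⌋ : ℤ) : ℝ) + 1 ≤ ⌊t⌋ := by exact_mod_cast h
    linarith
  · have h1 : Int.fract s < Int.fract t := by
      have e1 := Int.floor_add_fract s
      have e2 := Int.floor_add_fract t
      rw [h] at e1
      linarith
    have h2 := mob_lt ha (Int.fract_nonneg s) h1 (Int.fract_lt_one t)
    rw [h]
    linarith

lemma per_add_one (a t : ℝ) : per a (t + 1) = per a t + 1 := by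
  unfold per
  rw [Int.floor_add_one, Int.fract_add_one]
  push_cast
  ring

lemma per_zero (a : ℝ) : per a 0 = 0 := by
  unfold per mob
  simp

lemma per_of_mem {a t : ℝ} (h0 : 0 ≤ t) (h1 : t < 1) : per a t = mob a t := by
  unfold per
  have : ⌊t⌋ = 0 := Int.floor_eq_zero_iff.2 ⟨h0, h1⟩
  rw [this, Int.fract_eq_self.2 ⟨h0, h1⟩]
  simp

/-- the order automorphism -/
noncomputable def perIso (a : ℝ) (ha : 0 < a) : ℝ ≃o ℝ :=
  StrictMono.orderIsoOfRightInverse (per a) (per_strictMono ha) (per a⁻¹) (per_per ha)

lemma perIso_apply (a : ℝ) (ha : 0 < a) (t : ℝ) : perIso a ha t = per a t := rfl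

/-- conjugated by a translation -/
noncomputable def gen (a : ℝ) (ha : 0 < a) (q : ℝ) : ℝ ≃o ℝ :=
  (OrderIso.addRight (-q)).trans ((perIso a ha).trans (OrderIso.addRight q))

lemma gen_apply (a : ℝ) (ha : 0 < a) (q t : ℝ) : gen a ha q t = per a (t - q) + q := by
  show per a (t + -q) + q = _
  rw [sub_eq_add_neg]

lemma mob_swap {e : ℝ} (h0 : 0 < e) (h1 : e < 1) : mob (((1 - e) / e) ^ 2) e = 1 - e := by
  have h2 : 0 < ((1 - e) / e) ^ 2 := by
    have : 0 < (1 - e) / e := div_pos (by linarith) h0
    positivity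
  have h3 := den_pos h2 h0.le h1
  unfold mob
  rw [div_eq_iff h3.ne']
  field_simp
  ring

/-- the numbers `1/(i+2)` -/
noncomputable def u (i : ℕ) : ℝ := 1 / ((i : ℝ) + 2)

lemma u_pos (i : ℕ) : 0 < u i := by unfold u; positivity

lemma u_le (i : ℕ) : u i ≤ 1 / 2 := by
  unfold u
  have : (0 : ℝ) ≤ i := Nat.cast_nonneg i
  rw [div_le_div_iff₀ (by positivity) (by norm_num)]
  linarith

lemma u_sub (i : ℕ) : u i - u (i + 1) = u i * u (i + 1) := by
  unfold u
  push_cast
  have h1 : ((i : ℝ) + 2) ≠ 0 := by positivity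
  have h2 : ((i : ℝ) + 1 + 2) ≠ 0 := by positivity
  field_simp
  ring

lemma u_lt (i : ℕ) : u (i + 1) < u i := by
  have h1 := u_sub i
  have h2 := mul_pos (u_pos i) (u_pos (i + 1))
  linarith

end D1

open D1

theorem exists_valid : ∃ g l p r, Valid g l p r := by
  have he0 : ∀ i, 0 < u i * u (i + 1) / 3 := fun i => by
    have := mul_pos (u_pos i) (u_pos (i + 1))
    linarith
  have he1 : ∀ i, u i * u (i + 1) / 3 < 1 := fun i => by
    have h1 := u_le i
    have h2 := u_le (i + 1)
    have h3 := u_pos i
    have h4 := u_pos (i + 1)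
    nlinarith
  have ha : ∀ i, 0 < ((1 - u i * u (i + 1) / 3) / (u i * u (i + 1) / 3)) ^ 2 := fun i => by
    have : 0 < (1 - u i * u (i + 1) / 3) / (u i * u (i + 1) / 3) :=
      div_pos (by linarith [he1 i]) (he0 i)
    positivity
  refine ⟨fun i => gen _ (ha i) (1 - u i), fun i => 1 - u i - u i * u (i + 1) / 3,
    fun i => 1 - u i, fun i => 1 - u i + u i * u (i + 1) / 3, ?_⟩
  constructor
  · intro i
    have h1 := u_le i
    have h2 := u_le (i + 1)
    have h3 := u_pos i
    have h4 := u_pos (i + 1)
    nlinarith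
  · intro i
    have := he0 i
    linarith
  · intro i
    have := he0 i
    linarith
  · intro i
    have h1 := u_le (i + 1)
    have h3 := u_pos i
    nlinarith
  · intro i
    have h1 := u_sub i
    have h2 := u_lt i
    have h3 := u_lt (i + 1)
    have h4 := u_pos (i + 1)
    have h5 := u_pos (i + 2)
    have h6 : u (i + 1) * u (i + 1 + 1) < u (i + 1) * u i :=
      mul_lt_mul_of_pos_left (h3.trans h2) h4
    have h7 := mul_pos (u_pos i) h4
    linarith
  · intro i t
    rw [gen_apply, gen_apply, show t + 1 - (1 - u i) = (t - (1 - u i)) + 1 by ring, per_add_one]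
    ring
  · intro i
    rw [gen_apply, sub_self, per_zero, zero_add]
  · intro i
    rw [gen_apply, show 1 - u i + u i * u (i + 1) / 3 - (1 - u i) = u i * u (i + 1) / 3 by ring,
      per_of_mem (he0 i).le (he1 i), mob_swap (he0 i) (he1 i)]
    linarith

/-! ### The Hurwitz moves -/

lemma act_σ (g : ℕ → T) (i j : ℕ) : act g (σ i) j =
    if j = i then g i * g (i + 1) * (g i)⁻¹ else if j = i + 1 then g i else g j := by
  unfold act
  rw [Φ_σ, sAut_apply, fwd_X]
  split_ifs with h1 h2
  · rw [map_mul, map_mul, map_inv, ρ_X, ρ_X]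
  · rw [ρ_X]
  · rw [ρ_X]

lemma act_σ_inv (g : ℕ → T) (i j : ℕ) : act g (σ i)⁻¹ j =
    if j = i then g (i + 1) else if j = i + 1 then (g (i + 1))⁻¹ * g i * g (i + 1) else g j := by
  unfold act
  have h : Φ (σ i)⁻¹ (X j) = bwd i (X j) := by
    rw [map_inv, Φ_σ]
    rfl
  rw [h, bwd_X]
  split_ifs with h1 h2
  · rw [ρ_X]
  · rw [map_mul, map_mul, map_inv, ρ_X, ρ_X]
  · rw [ρ_X]

lemma T_inv_apply (g : T) (t : ℝ) : g (g⁻¹ t) = t := RelIso.apply_inv_self g t
lemma T_apply_inv (g : T) (t : ℝ) : g⁻¹ (g t) = t := RelIso.inv_apply_self g t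

lemma inv_per {g : T} (h : ∀ t, g (t + 1) = g t + 1) (t : ℝ) : g⁻¹ (t + 1) = g⁻¹ t + 1 := by
  apply g.injective
  rw [T_inv_apply, h, T_inv_apply]

lemma sub_per {g : T} (h : ∀ t, g (t + 1) = g t + 1) (t : ℝ) : g (t - 1) = g t - 1 := by
  have := h (t - 1)
  rw [sub_add_cancel] at this
  linarith

theorem valid_σ {g : ℕ → T} {l p r : ℕ → ℝ} (h : Valid g l p r) (i : ℕ) :
    ∃ l' p' r', Valid (act g (σ i)) l' p' r' ∧
      (∀ j, j < i → l' j = l j ∧ p' j = p j ∧ r' j = r j) ∧
      (∀ j, i + 1 < j → l' j = l j ∧ p' j = p j ∧ r' j = r j) ∧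
      l i ≤ l' i ∧ r' i < p i ∧ p' (i + 1) = p i ∧ r (i + 1) < r' (i + 1) ∧
      r' (i + 1) < l (i + 2) := by
  set G := g i with hG
  have hper : ∀ t, G (t + 1) = G t + 1 := h.per i
  have hmono : ∀ s t, s < t → G s < G t := fun s t hst => G.strictMono hst
  set m := (r (i + 1) + l (i + 2)) / 2 with hm
  have hrl := h.r_lt_l (i + 1)
  have hm1 : r (i + 1) < m := by rw [hm]; linarith
  have hm2 : m < l (i + 2) := by rw [hm]; linarith
  have e1 : G (p i + 1) = p i + 1 := by rw [hper, h.fix i]
  have hm3 : m < 1 := hm2.trans ((h.l_lt_p _).trans ((h.p_lt_r _).trans (h.r_lt_one _)))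
  have hp0 : 0 < p i := (h.l_pos i).trans (h.l_lt_p i)
  have e2 : G m < p i + 1 := by rw [← e1]; exact hmono _ _ (by linarith)
  have e3 : G (r (i + 1)) < G m := hmono _ _ hm1
  have e4 : G (p (i + 1)) < G (r (i + 1)) := hmono _ _ (h.p_lt_r _)
  have e5 : G (l (i + 1)) < G (p (i + 1)) := hmono _ _ (h.l_lt_p _)
  have e6 : l i + 1 < G (l (i + 1)) := lt_of_le_of_lt (h.push i) (hmono _ _ (h.r_lt_l i))
  have e7 : p i < m := (h.p_lt_r i).trans ((h.r_lt_l i).trans ((h.l_lt_p _).trans
    ((h.p_lt_r _).trans hm1)))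
  refine ⟨fun j => if j = i then G (l (i + 1)) - 1 else if j = i + 1 then G m - 1 else l j,
    fun j => if j = i then G (p (i + 1)) - 1 else if j = i + 1 then p i else p j,
    fun j => if j = i then G (r (i + 1)) - 1 else if j = i + 1 then m else r j, ?_, ?_, ?_,
    ?_, ?_, ?_, ?_, ?_⟩
  · constructor
    · intro j
      by_cases h1 : j = i
      · subst h1
        simp only [if_true]
        have := h.l_pos j
        linarith
      by_cases h2 : j = i + 1
      · subst h2
        simp only [if_neg h1, if_true]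
        have := h.l_pos i
        linarith
      simp only [if_neg h1, if_neg h2]
      exact h.l_pos j
    · intro j
      by_cases h1 : j = i
      · simp only [if_pos h1]; linarith
      by_cases h2 : j = i + 1
      · simp only [if_neg h1, if_pos h2]; linarith
      simp only [if_neg h1, if_neg h2]
      exact h.l_lt_p j
    · intro j
      by_cases h1 : j = i
      · simp only [if_pos h1]; linarith
      by_cases h2 : j = i + 1
      · simp only [if_neg h1, if_pos h2]; linarith
      simp only [if_neg h1, if_neg h2]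
      exact h.p_lt_r j
    · intro j
      by_cases h1 : j = i
      · simp only [if_pos h1]
        have := (h.p_lt_r i).trans (h.r_lt_one i)
        linarith
      by_cases h2 : j = i + 1
      · simp only [if_neg h1, if_pos h2]; linarith
      simp only [if_neg h1, if_neg h2]
      exact h.r_lt_one j
    · intro j
      by_cases h1 : j = i
      · subst h1
        simp only [if_true, if_neg (show j + 1 ≠ j by omega)]
        linarith
      by_cases h2 : j = i + 1
      · subst h2
        simp only [if_neg h1, if_true, if_neg (show i + 1 + 1 ≠ i by omega),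
          if_neg (show i + 1 + 1 ≠ i + 1 by omega)]
        exact hm2
      by_cases h3 : j + 1 = i
      · simp only [if_neg h1, if_neg h2, if_pos h3]
        have := h.r_lt_l j
        rw [h3] at this
        linarith
      simp only [if_neg h1, if_neg h2, if_neg h3, if_neg (show j + 1 ≠ i + 1 by omega)]
      exact h.r_lt_l j
    · intro j t
      rw [act_σ]
      by_cases h1 : j = i
      · simp only [if_pos h1, RelIso.mul_apply]
        rw [← hG, inv_per hper, h.per, hper]
      by_cases h2 : j = i + 1
      · simp only [if_neg h1, if_pos h2]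
        exact hper t
      simp only [if_neg h1, if_neg h2]
      exact h.per j t
    · intro j
      rw [act_σ]
      by_cases h1 : j = i
      · simp only [if_pos h1, RelIso.mul_apply]
        rw [← hG, ← sub_per hper (p (i + 1)), T_apply_inv, sub_per (h.per (i + 1)), h.fix]
      by_cases h2 : j = i + 1
      · simp only [if_neg h1, if_pos h2]
        exact h.fix i
      simp only [if_neg h1, if_neg h2]
      exact h.fix j
    · intro j
      rw [act_σ]
      by_cases h1 : j = i
      · simp only [if_pos h1, RelIso.mul_apply]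
        rw [← hG, ← sub_per hper (r (i + 1)), T_apply_inv, sub_per (h.per (i + 1))]
        have := h.push (i + 1)
        have h3 : G (l (i + 1)) ≤ G (g (i + 1) (r (i + 1)) - 1) :=
          G.monotone (by linarith)
        linarith
      by_cases h2 : j = i + 1
      · simp only [if_neg h1, if_pos h2]
        rw [← hG]
        linarith
      simp only [if_neg h1, if_neg h2]
      exact h.push j
  · intro j hj
    simp only [if_neg (show j ≠ i by omega), if_neg (show j ≠ i + 1 by omega), and_self]
  · intro j hj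
    simp only [if_neg (show j ≠ i by omega), if_neg (show j ≠ i + 1 by omega), and_self]
  · simp only [if_true]; linarith
  · simp only [if_true]; linarith
  · simp only [if_neg (show i + 1 ≠ i by omega), if_true]
  · simp only [if_neg (show i + 1 ≠ i by omega), if_true]; exact hm1
  · simp only [if_neg (show i + 1 ≠ i by omega), if_true]; exact hm2

theorem valid_σ_inv {g : ℕ → T} {l p r : ℕ → ℝ} (h : Valid g l p r) (i : ℕ) :
    ∃ l' p' r', Valid (act g (σ i)⁻¹) l' p' r' ∧
      (∀ j, j < i → l' j = l j ∧ p' j = p j ∧ r' j = r j) ∧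
      (∀ j, i + 1 < j → l' j = l j ∧ p' j = p j ∧ r' j = r j) ∧
      p' i = p (i + 1) ∧ r' (i + 1) = r (i + 1) := by
  set G := g (i + 1) with hG
  have hper : ∀ t, G (t + 1) = G t + 1 := h.per (i + 1)
  have hiper : ∀ t, G⁻¹ (t + 1) = G⁻¹ t + 1 := inv_per hper
  have himono : ∀ s t, s < t → G⁻¹ s < G⁻¹ t := fun s t hst => (G⁻¹).strictMono hst
  have himono' : ∀ s t, s < G t → G⁻¹ s < t := fun s t hst => by
    have := himono _ _ hst
    rwa [T_apply_inv] at this
  have himono'' : ∀ s t, G s < t → s < G⁻¹ t := fun s t hst => by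
    have := himono _ _ hst
    rwa [T_apply_inv] at this
  -- the new left end
  obtain ⟨m, hm0, hm1, hm2⟩ : ∃ m : ℝ, 0 < m ∧ m < l i ∧ ∀ j, j + 1 = i → r j < m := by
    cases i with
    | zero =>
      refine ⟨l 0 / 2, by have := h.l_pos 0; linarith, by have := h.l_pos 0; linarith, ?_⟩
      intro j hj
      omega
    | succ k =>
      have h1 := h.r_lt_l k
      have h2 : 0 < r k := (h.l_pos k).trans ((h.l_lt_p k).trans (h.p_lt_r k))
      refine ⟨(r k + l (k + 1)) / 2, by linarith, by linarith, ?_⟩
      intro j hj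
      have : j = k := by omega
      subst this
      linarith
  have f1 : m < p (i + 1) := hm1.trans ((h.l_lt_p i).trans ((h.p_lt_r i).trans
    ((h.r_lt_l i).trans (h.l_lt_p _))))
  have f2 : p (i + 1) < 1 := (h.p_lt_r _).trans (h.r_lt_one _)
  have f3 : p (i + 1) < G⁻¹ (m + 1) := himono'' _ _ (by rw [hG, h.fix]; linarith)
  have f4 : G⁻¹ (m + 1) < G⁻¹ (l i + 1) := himono _ _ (by linarith)
  have f5 : G⁻¹ (l i + 1) < G⁻¹ (p i + 1) := himono _ _ (by linarith [h.l_lt_p i])
  have f6 : G⁻¹ (p i + 1) < r (i + 1) := himono' _ _ (by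
    have e1 := h.push (i + 1)
    have e2 := h.p_lt_r i
    have e3 := h.r_lt_l i
    rw [hG]
    linarith)
  have f7 : 0 < p (i + 1) := (h.l_pos _).trans (h.l_lt_p _)
  refine ⟨fun j => if j = i then m else if j = i + 1 then G⁻¹ (l i + 1) else l j,
    fun j => if j = i then p (i + 1) else if j = i + 1 then G⁻¹ (p i + 1) else p j,
    fun j => if j = i then G⁻¹ (m + 1) else if j = i + 1 then r (i + 1) else r j, ?_, ?_, ?_,
    ?_, ?_⟩
  · constructor
    · intro j
      by_cases h1 : j = i
      · simp only [if_pos h1]; exact hm0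
      by_cases h2 : j = i + 1
      · simp only [if_neg h1, if_pos h2]
        linarith
      simp only [if_neg h1, if_neg h2]
      exact h.l_pos j
    · intro j
      by_cases h1 : j = i
      · simp only [if_pos h1]; exact f1
      by_cases h2 : j = i + 1
      · simp only [if_neg h1, if_pos h2]; exact f5
      simp only [if_neg h1, if_neg h2]
      exact h.l_lt_p j
    · intro j
      by_cases h1 : j = i
      · simp only [if_pos h1]; exact f3
      by_cases h2 : j = i + 1
      · simp only [if_neg h1, if_pos h2]; exact f6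
      simp only [if_neg h1, if_neg h2]
      exact h.p_lt_r j
    · intro j
      by_cases h1 : j = i
      · simp only [if_pos h1]
        have := h.r_lt_one (i + 1)
        linarith
      by_cases h2 : j = i + 1
      · simp only [if_neg h1, if_pos h2]; exact h.r_lt_one _
      simp only [if_neg h1, if_neg h2]
      exact h.r_lt_one j
    · intro j
      by_cases h1 : j = i
      · subst h1
        simp only [if_true, if_neg (show j + 1 ≠ j by omega)]
        exact f4
      by_cases h2 : j = i + 1
      · subst h2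
        simp only [if_neg h1, if_true, if_neg (show i + 1 + 1 ≠ i by omega),
          if_neg (show i + 1 + 1 ≠ i + 1 by omega)]
        exact h.r_lt_l _
      by_cases h3 : j + 1 = i
      · simp only [if_neg h1, if_neg h2, if_pos h3]
        exact hm2 j h3
      simp only [if_neg h1, if_neg h2, if_neg h3, if_neg (show j + 1 ≠ i + 1 by omega)]
      exact h.r_lt_l j
    · intro j t
      rw [act_σ_inv]
      by_cases h1 : j = i
      · simp only [if_pos h1]
        exact hper t
      by_cases h2 : j = i + 1
      · simp only [if_neg h1, if_pos h2, RelIso.mul_apply]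
        rw [← hG, hper, h.per, hiper]
      simp only [if_neg h1, if_neg h2]
      exact h.per j t
    · intro j
      rw [act_σ_inv]
      by_cases h1 : j = i
      · simp only [if_pos h1]
        exact h.fix _
      by_cases h2 : j = i + 1
      · simp only [if_neg h1, if_pos h2, RelIso.mul_apply]
        rw [← hG, T_inv_apply, h.per, h.fix]
      simp only [if_neg h1, if_neg h2]
      exact h.fix j
    · intro j
      rw [act_σ_inv]
      by_cases h1 : j = i
      · simp only [if_pos h1]
        rw [← hG, T_inv_apply]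
      by_cases h2 : j = i + 1
      · simp only [if_neg h1, if_pos h2, RelIso.mul_apply]
        rw [← hG, ← hiper]
        have e1 := h.push (i + 1)
        have e2 := h.r_lt_l i
        have e3 : g i (r i + 1) ≤ g i (G (r (i + 1))) := (g i).monotone (by rw [hG]; linarith)
        rw [h.per] at e3
        have e4 := h.push i
        exact (G⁻¹).monotone (by linarith)
      simp only [if_neg h1, if_neg h2]
      exact h.push j
  · intro j hj
    simp only [if_neg (show j ≠ i by omega), if_neg (show j ≠ i + 1 by omega), and_self]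
  · intro j hj
    simp only [if_neg (show j ≠ i by omega), if_neg (show j ≠ i + 1 by omega), and_self]
  · simp only [if_true]
  · simp only [if_neg (show i + 1 ≠ i by omega), if_true]

end Pool.Agent.Helper59.Braid
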