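import Pool.Agent.Helper59.BraidDynDefs

set_option autoImplicit false

/-!
# Inflation of reduced words (module D2)
-/

namespace Pool.Agent.Helper59.Braid

/-- the position of a word -/
def val (g : ℕ → T) : List (ℕ × Bool) → ℝ
  | [] => 0
  | (i, true) :: L => g i (val g L)
  | (i, false) :: L => (g i).symm (val g L)

theorem ρ_mk_cons (g : ℕ → T) (i : ℕ) (b : Bool) (L : List (ℕ × Bool)) :
    ρ g (FreeGroup.mk ((i, b) :: L)) = (cond b (g i) (g i)⁻¹) * ρ g (FreeGroup.mk L) := by
  unfold ρ
  rw [FreeGroup.lift_mk, FreeGroup.lift_mk, List.map_cons, List.prod_cons]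

theorem pos_mk (g : ℕ → T) (L : List (ℕ × Bool)) : pos g (FreeGroup.mk L) = val g L := by
  unfold pos
  induction L with
  | nil =>
    rw [← FreeGroup.one_eq_mk, map_one]
    rfl
  | cons a L ih =>
    obtain ⟨i, b⟩ := a
    rw [ρ_mk_cons]
    cases b with
    | true =>
      show g i (ρ g (FreeGroup.mk L) 0) = g i (val g L)
      rw [ih]
    | false =>
      show (g i).symm (ρ g (FreeGroup.mk L) 0) = (g i).symm (val g L)
      rw [ih]

/-- the number of turns of a reduced word -/
def turn : List (ℕ × Bool) → ℤ
  | [] => 0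
  | [(_, true)] => 0
  | [(_, false)] => -1
  | (i, true) :: (j, b) :: L => turn ((j, b) :: L) + (if i < j then 1 else 0)
  | (i, false) :: (j, b) :: L => turn ((j, b) :: L) - (if j < i then 1 else 0)

theorem per_nat {g : ℕ → T} {l p r : ℕ → ℝ} (h : Valid g l p r) (i : ℕ) (t : ℝ) (n : ℕ) :
    g i (t + n) = g i t + n := by
  induction n with
  | zero => simp
  | succ n ih =>
    push_cast
    rw [← add_assoc, h.per, ih, add_assoc]

theorem per_int {g : ℕ → T} {l p r : ℕ → ℝ} (h : Valid g l p r) (i : ℕ) (t : ℝ) (n : ℤ) :
    g i (t + n) = g i t + n := by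
  obtain ⟨m, rfl | rfl⟩ := n.eq_nat_or_neg
  · exact per_nat h i t m
  · have := per_nat h i (t + ((-(m : ℤ) : ℤ) : ℝ)) m
    push_cast at this ⊢
    rw [neg_add_cancel_right] at this
    linarith

theorem step_up {g : ℕ → T} {l p r : ℕ → ℝ} (h : Valid g l p r) (i : ℕ) (t : ℝ) (k : ℤ)
    (h1 : k + (r i - 1) ≤ t) (h2 : t < k + p i) : k + l i ≤ g i t ∧ g i t < k + p i := by
  constructor
  · have e1 : g i (k + (r i - 1)) ≤ g i t := (g i).monotone h1
    have e2 : (k : ℝ) + (r i - 1) = r i + ((k - 1 : ℤ) : ℝ) := by push_cast; ring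
    rw [e2, per_int h] at e1
    have := h.push i
    push_cast at e1
    linarith
  · have e1 : g i t < g i (k + p i) := (g i).strictMono h2
    rw [add_comm, per_int h, h.fix] at e1
    linarith

theorem step_down {g : ℕ → T} {l p r : ℕ → ℝ} (h : Valid g l p r) (i : ℕ) (t : ℝ) (k : ℤ)
    (h1 : k + p i < t) (h2 : t ≤ k + (l i + 1)) :
    k + p i < (g i).symm t ∧ (g i).symm t ≤ k + r i := by
  constructor
  · rw [OrderIso.lt_symm_apply, add_comm, per_int h, h.fix]
    linarith
  · rw [OrderIso.symm_apply_le, add_comm, per_int h]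
    have := h.push i
    linarith

theorem Valid.r_lt_l_of_lt {g : ℕ → T} {l p r : ℕ → ℝ} (h : Valid g l p r) {i j : ℕ}
    (hij : i < j) : r i < l j := by
  induction j, hij using Nat.le_induction with
  | base => exact h.r_lt_l i
  | succ n _ ih =>
    have h1 := h.l_lt_p n
    have h2 := h.p_lt_r n
    have h3 := h.r_lt_l n
    linarith

theorem val_sector {g : ℕ → T} {l p r : ℕ → ℝ} (h : Valid g l p r) (L : List (ℕ × Bool)) :
    ∀ (i : ℕ) (b : Bool), FreeGroup.IsReduced ((i, b) :: L) →
      (b = true → turn ((i, b) :: L) + l i ≤ val g ((i, b) :: L) ∧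
        val g ((i, b) :: L) < turn ((i, b) :: L) + p i) ∧
      (b = false → turn ((i, b) :: L) + p i < val g ((i, b) :: L) ∧
        val g ((i, b) :: L) ≤ turn ((i, b) :: L) + r i) := by
  induction L with
  | nil =>
    intro i b _
    have h0 := h.l_pos i
    have h1 := h.l_lt_p i
    have h2 := h.p_lt_r i
    have h3 := h.r_lt_one i
    constructor
    · rintro rfl
      exact step_up h i 0 0 (by push_cast; linarith) (by push_cast; linarith)
    · rintro rfl
      exact step_down h i 0 (-1) (by push_cast; linarith) (by push_cast; linarith)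
  | cons a L ih =>
    obtain ⟨j, c⟩ := a
    intro i b hred
    rw [FreeGroup.isReduced_cons_cons] at hred
    obtain ⟨hij, hred⟩ := hred
    obtain ⟨ih1, ih2⟩ := ih j c hred
    have h0 := h.l_pos i
    have h1 := h.l_lt_p i
    have h2 := h.p_lt_r i
    have h3 := h.r_lt_one i
    have k0 := h.l_pos j
    have k1 := h.l_lt_p j
    have k2 := h.p_lt_r j
    have k3 := h.r_lt_one j
    have hv : turn ((j, c) :: L) + l j ≤ val g ((j, c) :: L) ∧
        val g ((j, c) :: L) ≤ turn ((j, c) :: L) + r j := by
      cases c with
      | true => obtain ⟨e1, e2⟩ := ih1 rfl; exact ⟨e1, by linarith⟩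
      | false => obtain ⟨e1, e2⟩ := ih2 rfl; exact ⟨by linarith, e2⟩
    obtain ⟨v1, v2⟩ := hv
    constructor
    · rintro rfl
      show (((turn ((j, c) :: L) + (if i < j then 1 else 0) : ℤ)) : ℝ) + l i ≤
        g i (val g ((j, c) :: L)) ∧ g i (val g ((j, c) :: L)) <
        (((turn ((j, c) :: L) + (if i < j then 1 else 0) : ℤ)) : ℝ) + p i
      rcases lt_trichotomy i j with hlt | heq | hgt
      · rw [if_pos hlt]
        have := h.r_lt_l_of_lt hlt
        exact step_up h i _ _ (by push_cast; linarith) (by push_cast; linarith)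
      · subst heq
        have hc : c = true := (hij rfl).symm
        subst hc
        obtain ⟨e1, e2⟩ := ih1 rfl
        rw [if_neg (lt_irrefl _)]
        exact step_up h i _ _ (by push_cast; linarith) (by push_cast; linarith)
      · rw [if_neg (by omega)]
        have := h.r_lt_l_of_lt hgt
        exact step_up h i _ _ (by push_cast; linarith) (by push_cast; linarith)
    · rintro rfl
      show (((turn ((j, c) :: L) - (if j < i then 1 else 0) : ℤ)) : ℝ) + p i <
        (g i).symm (val g ((j, c) :: L)) ∧ (g i).symm (val g ((j, c) :: L)) ≤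
        (((turn ((j, c) :: L) - (if j < i then 1 else 0) : ℤ)) : ℝ) + r i
      rcases lt_trichotomy i j with hlt | heq | hgt
      · rw [if_neg (by omega)]
        have := h.r_lt_l_of_lt hlt
        exact step_down h i _ _ (by push_cast; linarith) (by push_cast; linarith)
      · subst heq
        have hc : c = false := (hij rfl).symm
        subst hc
        obtain ⟨e1, e2⟩ := ih2 rfl
        rw [if_neg (lt_irrefl _)]
        exact step_down h i _ _ (by push_cast; linarith) (by push_cast; linarith)
      · rw [if_pos hgt]
        have := h.r_lt_l_of_lt hgt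
        exact step_down h i _ _ (by push_cast; linarith) (by push_cast; linarith)

/-- the index shift of `θ k` -/
def up (k j : ℕ) : ℕ := if j < k then j else j + 1

theorem up_lt_up {k i j : ℕ} : up k i < up k j ↔ i < j := by
  unfold up
  split_ifs <;> omega

theorem up_inj {k i j : ℕ} (h : up k i = up k j) : i = j := by
  unfold up at h
  split_ifs at h <;> omega

/-- the effect of `θ k` on words -/
def upList (k : ℕ) (L : List (ℕ × Bool)) : List (ℕ × Bool) := L.map (fun a => (up k a.1, a.2))

@[simp] theorem upList_nil (k : ℕ) : upList k [] = [] := rfl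

@[simp] theorem upList_cons (k i : ℕ) (b : Bool) (L : List (ℕ × Bool)) :
    upList k ((i, b) :: L) = (up k i, b) :: upList k L := rfl

theorem θ_mk (k : ℕ) (L : List (ℕ × Bool)) :
    θ k (FreeGroup.mk L) = FreeGroup.mk (upList k L) := by
  have : θ k = FreeGroup.map (up k) := by
    apply hom_ext'
    intro j
    rw [θ_X]
    show _ = FreeGroup.map (up k) (FreeGroup.of j)
    rw [FreeGroup.map.of]
    unfold up X
    split_ifs <;> rfl
  rw [this, FreeGroup.map.mk]
  rfl

theorem isReduced_upList (k : ℕ) (L : List (ℕ × Bool)) (h : FreeGroup.IsReduced L) :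
    FreeGroup.IsReduced (upList k L) := by
  induction L with
  | nil => exact h
  | cons a L ih =>
    obtain ⟨i, b⟩ := a
    cases L with
    | nil => exact FreeGroup.IsReduced.singleton
    | cons c L =>
      obtain ⟨j, c⟩ := c
      rw [FreeGroup.isReduced_cons_cons] at h
      simp only [upList_cons] at ih ⊢
      rw [FreeGroup.isReduced_cons_cons]
      exact ⟨fun e => h.1 (up_inj e), ih h.2⟩

theorem turn_upList (k : ℕ) (L : List (ℕ × Bool)) : turn (upList k L) = turn L := by
  induction L with
  | nil => rfl
  | cons a L ih =>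
    obtain ⟨i, b⟩ := a
    cases L with
    | nil => cases b <;> rfl
    | cons c L =>
      obtain ⟨j, c⟩ := c
      simp only [upList_cons] at ih ⊢
      cases b with
      | true =>
        simp only [turn, ih, up_lt_up]
      | false =>
        simp only [turn, ih, up_lt_up]

theorem inflation_val {g : ℕ → T} {l p r : ℕ → ℝ} (h : Valid g l p r) (k : ℕ)
    (L : List (ℕ × Bool)) (hL : FreeGroup.IsReduced L) : val g L ≤ val g (upList k L) := by
  induction L with
  | nil => exact le_rfl
  | cons a L ih =>
    obtain ⟨i, b⟩ := a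
    have hred : FreeGroup.IsReduced L := by
      cases L with
      | nil => exact FreeGroup.IsReduced.nil
      | cons c L => exact (FreeGroup.isReduced_cons_cons.1 hL).2
    by_cases hik : i < k
    · rw [upList_cons, show up k i = i from if_pos hik]
      cases b with
      | true => exact (g i).monotone (ih hred)
      | false => exact (g i).symm.monotone (ih hred)
    · have h1 := val_sector h L i b hL
      have hL' := isReduced_upList k _ hL
      have ht := turn_upList k ((i, b) :: L)
      rw [upList_cons] at hL' ht ⊢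
      have hup : up k i = i + 1 := if_neg hik
      rw [hup] at hL' ht ⊢
      have h2 := val_sector h (upList k L) (i + 1) b hL'
      rw [ht] at h2
      have e1 := h.l_lt_p i
      have e2 := h.p_lt_r i
      have e3 := h.r_lt_l i
      have e4 := h.l_lt_p (i + 1)
      have e5 := h.p_lt_r (i + 1)
      cases b with
      | true =>
        have := (h1.1 rfl).2
        have := (h2.1 rfl).1
        linarith
      | false =>
        have := (h1.2 rfl).2
        have := (h2.2 rfl).1
        linarith

theorem inflation {g : ℕ → T} {l p r : ℕ → ℝ} (h : Valid g l p r) (k : ℕ)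
    (z : FreeGroup ℕ) : pos g z ≤ pos g (θ k z) := by
  have hz : z = FreeGroup.mk z.toWord := FreeGroup.mk_toWord.symm
  rw [hz, θ_mk, pos_mk, pos_mk]
  exact inflation_val h k _ FreeGroup.isReduced_toWord

end Pool.Agent.Helper59.Braid
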