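import Mathlib

set_option autoImplicit false

/-!
# The infinite braid group, the shift, the self-distributive operation, special braids

The generator `σ i` (`i = 0, 1, 2, …`) is the generator `σ_{i+1}` of the text.
-/

namespace Pool.Agent.Helper59.Braid

/-- The braid relations `σ_i σ_j = σ_j σ_i` (`j ≥ i + 2`) and
`σ_i σ_{i+1} σ_i = σ_{i+1} σ_i σ_{i+1}`. -/
def rels : Set (FreeGroup ℕ) :=
  {w | ∃ i j : ℕ, i + 2 ≤ j ∧
      w = FreeGroup.of i * FreeGroup.of j * (FreeGroup.of j * FreeGroup.of i)⁻¹} ∪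
    {w | ∃ i : ℕ, w = FreeGroup.of i * FreeGroup.of (i + 1) * FreeGroup.of i *
      (FreeGroup.of (i + 1) * FreeGroup.of i * FreeGroup.of (i + 1))⁻¹}

/-- The braid group `B_∞`. -/
abbrev Binf : Type := PresentedGroup rels

/-- The generators of `B_∞`. -/
def σ (i : ℕ) : Binf := PresentedGroup.of i

theorem σ_comm {i j : ℕ} (h : i + 2 ≤ j) : σ i * σ j = σ j * σ i := by
  have : (QuotientGroup.mk (FreeGroup.of i * FreeGroup.of j *
      (FreeGroup.of j * FreeGroup.of i)⁻¹) : Binf) = 1 :=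
    (QuotientGroup.eq_one_iff _).2 (Subgroup.subset_normalClosure (Or.inl ⟨i, j, h, rfl⟩))
  exact mul_inv_eq_one.1 this

theorem σ_braid (i : ℕ) : σ i * σ (i + 1) * σ i = σ (i + 1) * σ i * σ (i + 1) := by
  have : (QuotientGroup.mk (FreeGroup.of i * FreeGroup.of (i + 1) * FreeGroup.of i *
      (FreeGroup.of (i + 1) * FreeGroup.of i * FreeGroup.of (i + 1))⁻¹) : Binf) = 1 :=
    (QuotientGroup.eq_one_iff _).2 (Subgroup.subset_normalClosure (Or.inr ⟨i, rfl⟩))
  exact mul_inv_eq_one.1 this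

theorem lift_rels {G : Type*} [Group G] (f : ℕ → G)
    (h1 : ∀ i j, i + 2 ≤ j → f i * f j = f j * f i)
    (h2 : ∀ i, f i * f (i + 1) * f i = f (i + 1) * f i * f (i + 1)) :
    ∀ w ∈ rels, FreeGroup.lift f w = 1 := by
  rintro w (⟨i, j, h, rfl⟩ | ⟨i, rfl⟩)
  · simp only [map_mul, map_inv, FreeGroup.lift_apply_of, h1 i j h, mul_inv_cancel]
  · simp only [map_mul, map_inv, FreeGroup.lift_apply_of, h2 i, mul_inv_cancel]

/-- The shift endomorphism, `sh (σ i) = σ (i + 1)`. -/
def sh : Binf →* Binf :=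
  PresentedGroup.toGroup (f := fun i => σ (i + 1))
    (lift_rels _ (fun _ _ h => σ_comm (by omega)) (fun i => σ_braid (i + 1)))

/-- The self-distributive operation `a ∧ b = a sh(b) σ₁ sh(a)⁻¹`. -/
def wedge (a b : Binf) : Binf := a * sh b * σ 0 * (sh a)⁻¹

/-- Special braids: the smallest set containing `1` and closed under `∧`. -/
inductive Special : Binf → Prop
  | one : Special 1
  | wedge (a b : Binf) : Special a → Special b → Special (wedge a b)

/-- The subgroup `B_n` of `B_∞`, generated by the first `n - 1` generators. -/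
def B (n : ℕ) : Subgroup Binf := Subgroup.closure {g | ∃ i, i + 1 < n ∧ g = σ i}

/-- The special braids that belong to `B_n`. -/
def E (n : ℕ) : Set Binf := {c | Special c ∧ c ∈ B n}

@[simp] theorem sh_σ (i : ℕ) : sh (σ i) = σ (i + 1) := PresentedGroup.toGroup.of _

end Pool.Agent.Helper59.Braid
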