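import Pool.Agent.Helper59.BraidArtin

set_option autoImplicit false

/-!
# Tuples of order automorphisms of the line: definitions and first properties
-/

namespace Pool.Agent.Helper59.Braid

/-- order automorphisms of the line (a group under composition) -/
abbrev T : Type := ℝ ≃o ℝ

structure Valid (g : ℕ → T) (l p r : ℕ → ℝ) : Prop where
  l_pos : ∀ i, 0 < l i
  l_lt_p : ∀ i, l i < p i
  p_lt_r : ∀ i, p i < r i
  r_lt_one : ∀ i, r i < 1
  r_lt_l : ∀ i, r i < l (i + 1)
  per : ∀ i t, g i (t + 1) = g i t + 1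
  fix : ∀ i, g i (p i) = p i
  push : ∀ i, l i + 1 ≤ g i (r i)

/-- the action of the free group given by a tuple -/
def ρ (g : ℕ → T) : FreeGroup ℕ →* T := FreeGroup.lift g

/-- the Hurwitz action on tuples -/
def act (g : ℕ → T) (β : Binf) : ℕ → T := fun i => ρ g (Φ β (X i))

/-- the position of a free group element -/
def pos (g : ℕ → T) (z : FreeGroup ℕ) : ℝ := ρ g z 0

/-- `x_j ↦ x_j` for `j < k`, `x_j ↦ x_{j+1}` for `j ≥ k` -/
def θ (k : ℕ) : FreeGroup ℕ →* FreeGroup ℕ :=
  FreeGroup.lift (fun j => if j < k then X j else X (j + 1))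

@[simp] theorem ρ_X (g : ℕ → T) (j : ℕ) : ρ g (X j) = g j := FreeGroup.lift_apply_of

@[simp] theorem θ_X (k j : ℕ) : θ k (X j) = if j < k then X j else X (j + 1) :=
  FreeGroup.lift_apply_of

theorem ρ_act (g : ℕ → T) (β : Binf) (z : FreeGroup ℕ) : ρ (act g β) z = ρ g (Φ β z) := by
  have : ρ (act g β) = (ρ g).comp (Φ β).toMonoidHom := by
    apply hom_ext'
    intro j
    rw [ρ_X]
    rfl
  rw [this]
  rfl

theorem pos_act (g : ℕ → T) (β : Binf) (z : FreeGroup ℕ) : pos (act g β) z = pos g (Φ β z) := by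
  unfold pos
  rw [ρ_act]

theorem act_one (g : ℕ → T) : act g 1 = g := by
  funext i
  simp [act]

theorem act_mul (g : ℕ → T) (β γ : Binf) : act g (β * γ) = act (act g β) γ := by
  funext i
  show ρ g (Φ (β * γ) (X i)) = ρ (act g β) (Φ γ (X i))
  rw [ρ_act, map_mul, MulAut.mul_apply]

theorem ρ_S (g : ℕ → T) (z : FreeGroup ℕ) : ρ g (S z) = ρ (fun i => g (i + 1)) z := by
  have : (ρ g).comp S = ρ (fun i => g (i + 1)) := by
    apply hom_ext'
    intro j
    simp
  exact DFunLike.congr_fun this z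

theorem pos_S (g : ℕ → T) (z : FreeGroup ℕ) : pos g (S z) = pos (fun i => g (i + 1)) z := by
  unfold pos
  rw [ρ_S]

theorem Valid.shift {g : ℕ → T} {l p r : ℕ → ℝ} (h : Valid g l p r) :
    Valid (fun i => g (i + 1)) (fun i => l (i + 1)) (fun i => p (i + 1)) (fun i => r (i + 1)) where
  l_pos i := h.l_pos _
  l_lt_p i := h.l_lt_p _
  p_lt_r i := h.p_lt_r _
  r_lt_one i := h.r_lt_one _
  r_lt_l i := h.r_lt_l _
  per i := h.per _
  fix i := h.fix _
  push i := h.push _

end Pool.Agent.Helper59.Braid
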