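import Pool.Agent.Helper59.BraidD

set_option autoImplicit false

/-!
# The products `a · sh b` of special braids in `B_3`
-/

namespace Pool.Agent.Helper59.Braid

theorem Np_decomp {M : Binf} (hM : M ∈ Np) : ∃ i : ℕ, M = σ 0 ^ i ∨
    (∃ n : ℕ, M = σ 0 ^ i * (σ 1 ^ (n + 1))⁻¹) ∨
    ∃ n : ℕ, ∃ M' ∈ Np, M = σ 0 ^ i * ((σ 1 ^ (n + 1))⁻¹ * (σ 0 * M')) := by
  have hmem : ∀ n : ℕ, (σ 1 ^ n)⁻¹ ∈ Np := fun n => by
    rw [← inv_pow]; exact pow_mem σ1_inv_mem n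
  refine Np_induction (P := fun M => ∃ i : ℕ, M = σ 0 ^ i ∨
    (∃ n : ℕ, M = σ 0 ^ i * (σ 1 ^ (n + 1))⁻¹) ∨
    ∃ n : ℕ, ∃ M' ∈ Np, M = σ 0 ^ i * ((σ 1 ^ (n + 1))⁻¹ * (σ 0 * M'))) ?_ ?_ ?_ hM
  · exact ⟨0, Or.inl (pow_zero _).symm⟩
  · rintro M _ ⟨i, h⟩
    refine ⟨i + 1, ?_⟩
    rcases h with rfl | ⟨n, rfl⟩ | ⟨n, M', hM', rfl⟩
    · left; rw [pow_succ' (σ 0) i]
    · right; left; exact ⟨n, by rw [pow_succ' (σ 0) i, mul_assoc (σ 0)]⟩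
    · right; right; exact ⟨n, M', hM', by rw [pow_succ' (σ 0) i, mul_assoc (σ 0)]⟩
  · rintro M _ ⟨i, h⟩
    refine ⟨0, ?_⟩
    have e : ∀ n : ℕ, (σ 1)⁻¹ * (σ 1 ^ (n + 1))⁻¹ = (σ 1 ^ (n + 1 + 1))⁻¹ := fun n => by
      rw [pow_succ _ (n + 1), mul_inv_rev]
    cases i with
    | zero =>
      rcases h with rfl | ⟨n, rfl⟩ | ⟨n, M', hM', rfl⟩
      · right; left; exact ⟨0, by simp⟩
      · right; left; exact ⟨n + 1, by rw [pow_zero, one_mul, one_mul, e]⟩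
      · right; right
        exact ⟨n + 1, M', hM', by rw [pow_zero, one_mul, one_mul, ← mul_assoc, e]⟩
    | succ i =>
      right; right
      rcases h with rfl | ⟨n, rfl⟩ | ⟨n, M', hM', rfl⟩
      · exact ⟨0, σ 0 ^ i, pow_mem_Np i, by rw [pow_succ']; simp⟩
      · exact ⟨0, σ 0 ^ i * (σ 1 ^ (n + 1))⁻¹, mul_mem (pow_mem_Np i) (hmem _), by
          rw [pow_succ']; simp [mul_assoc]⟩
      · exact ⟨0, σ 0 ^ i * ((σ 1 ^ (n + 1))⁻¹ * (σ 0 * M')),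
          mul_mem (pow_mem_Np i) (mul_mem (hmem _) (mul_mem σ0_mem hM')), by
          rw [pow_succ']; simp [mul_assoc]⟩

/-- the possible products -/
def Good (G : Binf) : Prop := ∃ j : ℤ, G = σ 0 ^ j ∨ G = σ 1 * σ 0 ^ j ∨
  G = σ 0 * σ 1 * σ 0 ^ j ∨ G = σ 0 ^ 2 * (σ 1)⁻¹ * σ 0 ^ j

def Ends (q h G : Binf) : Prop := G = q * sh h ∨ ∃ M ∈ Np, G = q * (sh h * (σ 0 * M))

theorem Ends.mk' {q g G : Binf} (n : ℕ) (h : G = q * sh g * (σ 1 ^ n)⁻¹ ∨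
    ∃ M ∈ Np, G = q * sh g * ((σ 1 ^ n)⁻¹ * (σ 0 * M))) :
    Ends q (g * (σ 0 ^ n)⁻¹) G := by
  have e : (σ 1 ^ n)⁻¹ = sh (σ 0 ^ n)⁻¹ := by rw [map_inv, map_pow, sh_σ]
  rw [e] at h
  rcases h with h | ⟨M, hM, h⟩
  · left; rw [h, map_mul, mul_assoc]
  · right; exact ⟨M, hM, by rw [h, map_mul, mul_assoc, mul_assoc]⟩

theorem Ends.false_ps {q h a b : Binf} (hq : Special q) (ha : Special a) (hb : Special b)
    (hE : Ends q h (a * sh b)) (hh : PS (Φ h (X 0))) : False := by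
  rcases hE with e | ⟨M, hM, e⟩
  · obtain ⟨-, rfl⟩ := eq_of_mul_sh hq ha e
    exact gcl1' hb hh
  · refine gcl1 hq ha hM hh ?_
    rw [← e, Φ_mul_sh_X0]

theorem Ends.false_q {q h a b : Binf} (hq : Special q) (ha : Special a) (hb : Special b)
    (hE : Ends q h (a * sh b)) (h1 : Qp (Φ h (X 0))) (h2 : FB (Φ h (X 0)) (X 0)) : False := by
  rcases hE with e | ⟨M, hM, e⟩
  · obtain ⟨-, rfl⟩ := eq_of_mul_sh hq ha e
    exact gcl2' hb h1 h2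
  · refine gcl2 hq ha hM h1 h2 ?_
    rw [← e, Φ_mul_sh_X0]

/-- `a sh b = q sh (q' sh c)` with specials `a, b, q, q'` forces `sh c = 1` -/
theorem eq_of_mul_sh' {q q' c a b : Binf} (hq : Special q) (hq' : Special q') (ha : Special a)
    (hb : Special b) (e : a * sh b = q * sh (q' * sh c)) : sh c = 1 := by
  obtain ⟨-, e2⟩ := eq_of_mul_sh hq ha e
  have h1 : b = q' := by
    apply separation hb hq'
    rw [e2, Φ_mul_sh_X0]
  rw [h1] at e2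
  exact mul_left_cancel (a := q') (by rw [← e2, mul_one])

theorem sh_pow (k : ℕ) : sh (σ 0 ^ k) = σ 1 ^ k := by rw [map_pow, sh_σ]

theorem Fib_le_one {k : ℕ} (hk : k ≤ 1) : Fib k = 1 := by
  interval_cases k <;> rfl

theorem Fib_succ_le_one {k : ℕ} (hk : k ≤ 1) : Fib (k + 1) = σ 0 ^ k := by
  have := Fib_mul k
  rwa [Fib_le_one hk, map_one, mul_one] at this

theorem g0_eq {k : ℕ} (hk : k ≤ 1) :
    σ 1 ^ k * σ 0 ^ 2 * (σ 1)⁻¹ = Xs k 3 * sh (sh (σ 0 ^ k)) := by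
  rw [prod_eq, Fib_le_one hk, map_one, mul_one, Xs_two', Fib_succ_le_one hk, map_mul, sh_σ,
    zero_add, ← mul_assoc, mul_inv_cancel_right]

theorem Xs3_eq {k : ℕ} (hk : k ≤ 1) :
    Xs k 3 = σ 1 ^ k * (σ 0 ^ 2 * ((σ 1)⁻¹ * sh (sh (σ 0 ^ k)⁻¹))) := by
  rw [map_inv, map_inv, ← mul_assoc, ← mul_assoc, g0_eq hk, mul_inv_cancel_right]

theorem Xs3_pss {k : ℕ} (hk : k ≤ 1) {y : FreeGroup ℕ} (hy : PSS y) : PS (Φ (Xs k 3) y) := by
  rw [Xs3_eq hk, Φ_mul, Φ_mul, Φ_mul, ← sh_pow]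
  exact ((hy.act_sh2 _).act_σ1_inv.act_σ_pow 2).ps.act_sh _

theorem ps_Y0 {k : ℕ} (hk : k ≤ 1) (n : ℕ) :
    PS (Φ (Xs k 3 * sh (σ 0 ^ k) * (σ 0 ^ (n + 1))⁻¹) (X 0)) := by
  refine PS.mono ?_ (h_mono _ n)
  rw [Φ_mul, Φ_σ0_inv_X0, Xs3_eq hk]
  have hk' : k = 0 ∨ k = 1 := by omega
  rcases hk' with rfl | rfl
  · simp only [pow_zero, map_one, inv_one, mul_one, one_mul]
    rw [Φ_mul, Φ_σ1_inv_X1]
    have : PSS (X 2) := by rw [← S_X]; exact ps_X1.shift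
    exact (this.act_σ_pow 2).ps
  · have e0 : σ 1 * σ 2 * σ 1 = σ 2 * σ 1 * σ 2 := σ_braid 1
    have e1 : (σ 1)⁻¹ * ((σ 2)⁻¹ * σ 1) = σ 2 * ((σ 1)⁻¹ * (σ 2)⁻¹) := by
      rw [inv_mul_eq_iff_eq_mul, inv_mul_eq_iff_eq_mul, ← mul_assoc, ← mul_assoc, ← mul_assoc,
        ← e0]
      group
    simp only [pow_one, map_inv, sh_σ, zero_add]
    have e2 : σ 1 * (σ 0 ^ 2 * ((σ 1)⁻¹ * (σ 2)⁻¹)) * σ 1 =
        sh (σ 0) * (σ 0 ^ 2 * (σ 2 * ((σ 1)⁻¹ * (σ 2)⁻¹))) := by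
      rw [← e1, sh_σ]; simp [mul_assoc]
    have e3 : Φ (σ 2)⁻¹ (X 1) = X 1 := Φ_inv_eq (Φ_σ_X_of_lt (by omega))
    have e4 : Φ (σ 2) (X 2) = S (Φ (sh (σ 0)) (X 1)) := by
      rw [← Φ_sh_S, sh_σ, sh_σ, S_X]
    show PS (Φ (σ 1 * (σ 0 ^ 2 * ((σ 1)⁻¹ * (σ (1 + 1))⁻¹)) * σ 1) (X 1))
    rw [e2, Φ_mul, Φ_mul, Φ_mul, Φ_mul, e3, Φ_σ1_inv_X1, e4]
    exact (((ps_X1.act_sh _).shift).act_σ_pow 2).ps.act_sh _

theorem ps_Y {k : ℕ} (hk : k ≤ 1) (i n : ℕ) :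
    PS (Φ (it (Xs k 3) 1 (i + 1) * sh (σ 0 ^ k) * (σ 0 ^ (n + 1))⁻¹) (X 0)) := by
  cases i with
  | zero => exact ps_Y0 hk n
  | succ i =>
    refine ps_it (c := Xs k 3) (d := 1) (i + 1) ?_ ?_ n
    · have h1 : LTB (σ 0 ^ k) (Xs k 3) := by
        rw [← Fib_succ_le_one hk]
        exact (Fib_lt' k).trans (LTB.wedge' _ (Xs_special _ _))
      induction i with
      | zero => exact h1
      | succ i ih =>
        exact ih.trans (LTB.wedge' _ (it_special (Xs_special _ _) Special.one _))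
    · intro y hy
      rw [map_one, mul_one]
      exact Xs3_pss hk (hy.act_σ_pow _)

theorem Ys_prod (k i : ℕ) : Xs k 3 * sh (sh (σ 0 ^ k)) * σ 0 ^ i =
    it (Xs k 3) 1 (i + 1) * sh (it (Xs k 3) 1 i * sh (σ 0 ^ k)) := by
  rw [map_mul, ← mul_assoc, it_mul, map_one, mul_one, mul_assoc, sh2_comm_pow, ← mul_assoc]

theorem step4 {a b : Binf} (ha : Special a) (hb : Special b) {k : ℕ} (hk : k ≤ 1)
    (hG : a * sh b = σ 1 ^ k * σ 0 ^ 2 * (σ 1)⁻¹ ∨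
      ∃ M ∈ Np, a * sh b = σ 1 ^ k * σ 0 ^ 2 * (σ 1)⁻¹ * (σ 0 * M)) : Good (a * sh b) := by
  have hk1 : sh (σ 0 ^ k) = 1 → ∀ i : ℕ, Good (σ 1 ^ k * σ 0 ^ 2 * (σ 1)⁻¹ * σ 0 ^ i) := by
    intro h i
    refine ⟨(i : ℤ), Or.inr (Or.inr (Or.inr ?_))⟩
    rw [← sh_pow, h, one_mul, zpow_natCast]
  rcases hG with e | ⟨M, hM, e⟩
  · rw [g0_eq hk] at e
    have h1 := eq_of_mul_sh' (q := Xs k 3) (q' := 1) (c := σ 0 ^ k) (Xs_special _ _) Special.one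
      ha hb (by rw [e, one_mul])
    rw [e, ← g0_eq hk]
    have := hk1 h1 0
    rwa [pow_zero, mul_one] at this
  · obtain ⟨i, h | h⟩ := Np_decomp hM
    · subst h
      rw [← pow_succ', g0_eq hk, Ys_prod] at e
      have h1 := eq_of_mul_sh' (it_special (Xs_special _ _) Special.one _)
        (it_special (Xs_special _ _) Special.one _) ha hb e
      rw [e, ← Ys_prod, ← g0_eq hk]
      exact hk1 h1 _
    · exfalso
      have h2 : ∃ n : ℕ, Ends (it (Xs k 3) 1 (i + 1 + 1))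
          (it (Xs k 3) 1 (i + 1) * sh (σ 0 ^ k) * (σ 0 ^ (n + 1))⁻¹) (a * sh b) := by
        rcases h with ⟨n, h⟩ | ⟨n, M', hM', h⟩
        · refine ⟨n, Ends.mk' (n + 1) (Or.inl ?_)⟩
          rw [e, h, g0_eq hk, ← mul_assoc, ← mul_assoc, ← Ys_prod, pow_succ' (σ 0) i]
          simp only [mul_assoc]
        · refine ⟨n, Ends.mk' (n + 1) (Or.inr ⟨M', hM', ?_⟩)⟩
          rw [e, h, g0_eq hk, ← Ys_prod, pow_succ' (σ 0) i]
          simp only [mul_assoc]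
      obtain ⟨n, h2⟩ := h2
      exact h2.false_ps (it_special (Xs_special _ _) Special.one _) ha hb (ps_Y hk i n)

theorem ps_case2 {k : ℕ} (hk : k ≤ 1) (n : ℕ) :
    PS (Φ (Xs k 2 * sh (Fib k) * (σ 0 ^ (n + 1 + 1))⁻¹) (X 0)) := by
  have e : Xs k 2 * sh (Fib k) * (σ 0 ^ (n + 1 + 1))⁻¹ = sh (Fib (k + 1)) * (σ 0 ^ (n + 1))⁻¹ := by
    rw [Fib_le_one hk, map_one, mul_one, Xs_two', pow_succ (σ 0) (n + 1), mul_inv_rev]
    group
  rw [e, Φ_mul]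
  refine PS.act_sh (PS.mono ?_ (inv_pow_mono n)) _
  rw [zero_add, pow_one, Φ_σ0_inv_X0]
  exact ps_X1

theorem t3_nat {a b : Binf} (ha : Special a) (hb : Special b) {k : ℕ} {M : Binf} (hM : M ∈ Np)
    (e : a * sh b = σ 1 ^ k * (σ 0 * M)) : Good (a * sh b) := by
  obtain ⟨i, h | h⟩ := Np_decomp hM
  · subst h
    rw [← pow_succ', prod_eq] at e
    have h1 := eq_of_mul_sh' (Xs_special _ _) (Xs_special _ _) ha hb e
    have h2 : Fib k = 1 := sh_injective (by rw [h1, map_one])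
    have h3 := Fib_ne_one h2
    rw [e, ← prod_eq]
    have hk' : k = 0 ∨ k = 1 := by omega
    rcases hk' with rfl | rfl
    · exact ⟨((i + 1 : ℕ) : ℤ), Or.inl (by rw [pow_zero, one_mul, zpow_natCast])⟩
    · exact ⟨((i + 1 : ℕ) : ℤ), Or.inr (Or.inl (by rw [pow_one, zpow_natCast]))⟩
  · have h2 : ∃ n : ℕ, (a * sh b = σ 1 ^ k * σ 0 ^ (i + 1) * (σ 1 ^ (n + 1))⁻¹ ∨
        ∃ M ∈ Np, a * sh b = σ 1 ^ k * σ 0 ^ (i + 1) * ((σ 1 ^ (n + 1))⁻¹ * (σ 0 * M))) := by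
      rcases h with ⟨n, h⟩ | ⟨n, M', hM', h⟩
      · refine ⟨n, Or.inl ?_⟩
        rw [e, h, pow_succ' (σ 0) i]
        simp only [mul_assoc]
      · refine ⟨n, Or.inr ⟨M', hM', ?_⟩⟩
        rw [e, h, pow_succ' (σ 0) i]
        simp only [mul_assoc]
    obtain ⟨n, h2⟩ := h2
    have h3 : Ends (Xs k (i + 1 + 1)) (Xs k (i + 1) * sh (Fib k) * (σ 0 ^ (n + 1))⁻¹)
        (a * sh b) := by
      apply Ends.mk'
      rw [← prod_eq]
      exact h2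
    match i with
    | 0 => exact (h3.false_ps (Xs_special _ _) ha hb (ps_case1 k n)).elim
    | i + 2 => exact (h3.false_ps (Xs_special _ _) ha hb (ps_case3 k i n)).elim
    | 1 =>
      by_cases hk : k ≤ 1
      · match n with
        | n + 1 => exact (h3.false_ps (Xs_special _ _) ha hb (ps_case2 hk n)).elim
        | 0 =>
          apply step4 ha hb hk
          rcases h2 with h2 | ⟨M', hM', h2⟩
          · left
            rw [h2]; simp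
          · right
            exact ⟨M', hM', by rw [h2]; simp [mul_assoc]⟩
      · obtain ⟨k, rfl⟩ : ∃ j, k = j + 2 := ⟨k - 2, by omega⟩
        exact (h3.false_q (Xs_special _ _) ha hb (case2_q k n) (case2_fb k n)).elim

theorem t3_neg {a b : Binf} (ha : Special a) {m : ℕ} {M : Binf} (hM : M ∈ Np)
    (e : a * sh b = (σ 1 ^ (m + 1))⁻¹ * (σ 0 * M)) : False := by
  refine gcl1 (q := 1) (h := (σ 0 ^ (m + 1))⁻¹) Special.one ha hM ?_ ?_
  · refine PS.mono ?_ (inv_pow_mono m)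
    rw [zero_add, pow_one, Φ_σ0_inv_X0]
    exact ps_X1
  · rw [← Φ_mul_sh_X0 a b, e, one_mul, map_inv, sh_pow]

theorem t1 {a b : Binf} (ha : Special a) (hb : Special b) {k : ℤ}
    (e : a * sh b = σ 1 ^ k) : Good (a * sh b) := by
  have e1 : σ 1 ^ k = sh (σ 0 ^ k) := by rw [map_zpow, sh_σ]
  have e2 : a * sh b = 1 * sh (σ 0 ^ k) := by rw [e, e1, one_mul]
  obtain ⟨-, h1⟩ := eq_of_mul_sh Special.one ha e2
  rw [e]
  rcases lt_or_ge k 0 with hk | hk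
  · exfalso
    obtain ⟨m, rfl⟩ : ∃ m : ℕ, k = -((m + 1 : ℕ) : ℤ) := ⟨(-k - 1).toNat, by omega⟩
    rw [zpow_neg, zpow_natCast] at h1
    rw [h1] at hb
    refine gcl1' hb ?_
    refine PS.mono ?_ (inv_pow_mono m)
    rw [zero_add, pow_one, Φ_σ0_inv_X0]
    exact ps_X1
  · obtain ⟨m, rfl⟩ := Int.eq_ofNat_of_zero_le hk
    rw [zpow_natCast] at h1
    have h2 : b = Fib (m + 1) := by
      apply separation hb (Fib_special _)
      rw [Fib_X0, h1]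
    have h3 : sh (Fib m) = 1 := by
      have := Fib_mul m
      rw [← h2, ← h1] at this
      exact mul_left_cancel (a := b) (by rw [this, mul_one])
    have h4 : Fib m = 1 := sh_injective (by rw [h3, map_one])
    have h5 := Fib_ne_one h4
    have hk' : m = 0 ∨ m = 1 := by omega
    rcases hk' with rfl | rfl
    · exact ⟨0, Or.inl (by simp)⟩
    · exact ⟨0, Or.inr (Or.inl (by simp))⟩

theorem P_le {u : Binf} (hu : u ∈ Submonoid.closure ({σ 0, σ 1, (σ 1)⁻¹} : Set Binf)) :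
    Le (Φ u (X 0)) (X 0) := by
  refine Submonoid.closure_induction_left (motive := fun u _ => Le (Φ u (X 0)) (X 0)) ?_ ?_ hu
  · rw [map_one, MulAut.one_apply]; exact Le.refl _
  · intro x hx y _ ih
    rw [Φ_mul]
    refine (ih.act x).trans ?_
    simp only [Set.mem_insert_iff, Set.mem_singleton_iff] at hx
    rcases hx with rfl | rfl | rfl
    · exact lt_σ0.le
    · rw [Φ_σ_X_of_lt (by omega)]; exact Le.refl _
    · rw [Φ_σ1_inv_X0]; exact Le.refl _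

theorem P_lt {u v : Binf} (hu : u ∈ Submonoid.closure ({σ 0, σ 1, (σ 1)⁻¹} : Set Binf))
    (hv : v ∈ Submonoid.closure ({σ 0, σ 1, (σ 1)⁻¹} : Set Binf)) :
    Lt (Φ (u * σ 0 * v) (X 0)) (X 0) := by
  rw [Φ_mul, Φ_mul]
  refine Le.trans_lt ((P_le hv).act (σ 0) |>.act u) ?_
  exact (lt_σ0.act u).trans_le (P_le hu)

theorem B3_eq : B 3 = Subgroup.closure {σ 0, σ 1} := by
  unfold B
  congr 1
  ext g
  simp only [Set.mem_setOf_eq, Set.mem_insert_iff, Set.mem_singleton_iff]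
  constructor
  · rintro ⟨i, hi, rfl⟩
    have : i = 0 ∨ i = 1 := by omega
    rcases this with rfl | rfl
    · exact Or.inl rfl
    · exact Or.inr rfl
  · rintro (rfl | rfl)
    · exact ⟨0, by omega, rfl⟩
    · exact ⟨1, by omega, rfl⟩

theorem theoremD {a b : Binf} (ha : Special a) (hb : Special b) (h : a * sh b ∈ B 3) :
    Good (a * sh b) := by
  rw [B3_eq] at h
  rcases b3_cases (σ 0) (σ 1) (σ_braid 0) _ h with ⟨k, e⟩ | ⟨j, e⟩ | ⟨k, M, hM, e⟩ |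
    ⟨u, hu, v, hv, e⟩ | ⟨u, hu, v, hv, j, e⟩
  · exact t1 ha hb e
  · exact ⟨j, Or.inr (Or.inr (Or.inl e))⟩
  · rw [mul_assoc] at e
    rcases lt_or_ge k 0 with hk | hk
    · exfalso
      obtain ⟨m, rfl⟩ : ∃ m : ℕ, k = -((m + 1 : ℕ) : ℤ) := ⟨(-k - 1).toNat, by omega⟩
      rw [zpow_neg, zpow_natCast] at e
      exact t3_neg ha hM e
    · obtain ⟨m, rfl⟩ := Int.eq_ofNat_of_zero_le hk
      rw [zpow_natCast] at e
      exact t3_nat ha hb hM e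
  · exfalso
    have h1 : Lt (Φ (a * sh b)⁻¹ (X 0)) (X 0) := by rw [e]; exact P_lt hu hv
    have h2 := h1.act (a * sh b)
    rw [Φ_apply_inv, Φ_mul_sh_X0] at h2
    exact h2.false_of_le ha.le
  · exfalso
    have e1 : Φ (σ 0 * σ 1 * σ 0 ^ j) (X 2) = X 0 := by
      have h1 : Φ (σ 0 ^ j) (X 2) = X 2 := by
        have h0 : Φ (σ 0) (X 2) = X 2 := Φ_σ_X_of_gt (by omega)
        have h0' : Φ (σ 0)⁻¹ (X 2) = X 2 := Φ_inv_eq h0
        clear e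
        induction j using Int.induction_on with
        | zero => simp
        | succ n ih => rw [zpow_add_one, Φ_mul, h0, ih]
        | pred n ih => rw [zpow_sub_one, Φ_mul, h0', ih]
      rw [Φ_mul, h1, Φ_mul, Φ_σ1_X2, Φ_σ0_X1]
    have h1 := P_lt hu hv
    have h2 := le_X2 ha hb
    rw [e, Φ_mul, e1] at h2
    exact h1.false_of_le h2

end Pool.Agent.Helper59.Braid
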