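import Pool.Agent.Helper59.BraidD1
import Pool.Agent.Helper59.BraidD2

set_option autoImplicit false

/-!
# Order relations on free group elements, invariance, and special braids
-/

namespace Pool.Agent.Helper59.Braid

theorem mul_apply_T (f g : T) (t : ℝ) : (f * g) t = f (g t) := rfl

theorem inv_apply_T (f : T) (t : ℝ) : f⁻¹ t = f.symm t := rfl

theorem T_lt_iff (f : T) {s t : ℝ} : f s < f t ↔ s < t := f.lt_iff_lt

theorem T_inv_lt {f : T} {s t : ℝ} : f⁻¹ s < t ↔ s < f t := by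
  rw [inv_apply_T]
  exact f.symm_apply_lt

theorem T_lt_inv {f : T} {s t : ℝ} : s < f⁻¹ t ↔ f s < t := by
  rw [inv_apply_T]
  exact f.lt_symm_apply

namespace Valid

variable {g : ℕ → T} {l p r : ℕ → ℝ}

theorem per_sub (h : Valid g l p r) (i : ℕ) (t : ℝ) : g i (t - 1) = g i t - 1 := by
  have := h.per i (t - 1)
  rw [sub_add_cancel] at this
  linarith

theorem per_inv (h : Valid g l p r) (i : ℕ) (t : ℝ) : (g i)⁻¹ (t + 1) = (g i)⁻¹ t + 1 := by
  apply (g i).injective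
  rw [h.per]
  show g i ((g i).symm _) = g i ((g i).symm _) + 1
  simp

theorem per_int (h : Valid g l p r) (i : ℕ) (k : ℤ) (t : ℝ) : g i (t + k) = g i t + k := by
  induction k using Int.induction_on with
  | zero => simp
  | succ n ih =>
    push_cast at ih ⊢
    rw [← add_assoc, h.per, ih]
    ring
  | pred n ih =>
    push_cast at ih ⊢
    have : t + (-(n : ℝ) - 1) = (t + -(n : ℝ)) - 1 := by ring
    rw [this, h.per_sub, ih]
    ring

theorem per_inv_int (h : Valid g l p r) (i : ℕ) (k : ℤ) (t : ℝ) :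
    (g i)⁻¹ (t + k) = (g i)⁻¹ t + k := by
  apply (g i).injective
  rw [h.per_int]
  show g i ((g i).symm _) = g i ((g i).symm _) + k
  simp

theorem p_lt_one (h : Valid g l p r) (i : ℕ) : p i < 1 := (h.p_lt_r i).trans (h.r_lt_one i)

theorem l_lt_one (h : Valid g l p r) (i : ℕ) : l i < 1 := (h.l_lt_p i).trans (h.p_lt_one i)

theorem p_pos (h : Valid g l p r) (i : ℕ) : 0 < p i := (h.l_pos i).trans (h.l_lt_p i)

theorem r_pos (h : Valid g l p r) (i : ℕ) : 0 < r i := (h.p_pos i).trans (h.p_lt_r i)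

theorem r_lt_r (h : Valid g l p r) (i : ℕ) : r i < r (i + 1) :=
  (h.r_lt_l i).trans ((h.l_lt_p _).trans (h.p_lt_r _))

/-- the basic push estimate -/
theorem push_of (h : Valid g l p r) {i : ℕ} {t : ℝ} {k : ℤ} (h1 : r i - 1 + k ≤ t)
    (h2 : t < p i + k) : l i + k ≤ g i t ∧ g i t < p i + k := by
  constructor
  · have h3 : g i (r i - 1 + k) ≤ g i t := (g i).monotone h1
    rw [h.per_int, h.per_sub] at h3
    have := h.push i
    linarith
  · have h3 : g i t < g i (p i + k) := (g i).strictMono h2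
    rwa [h.per_int, h.fix] at h3

theorem pull_of (h : Valid g l p r) {i : ℕ} {t : ℝ} {k : ℤ} (h1 : p i + k < t)
    (h2 : t ≤ l i + 1 + k) : p i + k < (g i)⁻¹ t ∧ (g i)⁻¹ t ≤ r i + k := by
  constructor
  · rw [T_lt_inv, h.per_int, h.fix]; exact h1
  · rw [inv_apply_T, OrderIso.symm_apply_le, h.per_int]
    have := h.push i
    linarith

end Valid

/-- `y ⪯ z` -/
def Le (y z : FreeGroup ℕ) : Prop := ∀ g l p r, Valid g l p r → pos g y ≤ pos g z

/-- `y ≺ z` -/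
def Lt (y z : FreeGroup ℕ) : Prop := ∀ g l p r, Valid g l p r → pos g y < pos g z

theorem Lt.le {y z : FreeGroup ℕ} (h : Lt y z) : Le y z := fun g l p r hg => (h g l p r hg).le
theorem Le.refl (y : FreeGroup ℕ) : Le y y := fun _ _ _ _ _ => le_rfl
theorem Le.trans {x y z : FreeGroup ℕ} (h1 : Le x y) (h2 : Le y z) : Le x z :=
  fun g l p r hg => (h1 g l p r hg).trans (h2 g l p r hg)
theorem Lt.trans_le {x y z : FreeGroup ℕ} (h1 : Lt x y) (h2 : Le y z) : Lt x z :=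
  fun g l p r hg => (h1 g l p r hg).trans_le (h2 g l p r hg)
theorem Le.trans_lt {x y z : FreeGroup ℕ} (h1 : Le x y) (h2 : Lt y z) : Lt x z :=
  fun g l p r hg => (h1 g l p r hg).trans_lt (h2 g l p r hg)
theorem Lt.trans {x y z : FreeGroup ℕ} (h1 : Lt x y) (h2 : Lt y z) : Lt x z :=
  h1.trans_le h2.le

theorem Lt.false_of_le {y z : FreeGroup ℕ} (h1 : Lt y z) (h2 : Le z y) : False := by
  obtain ⟨g, l, p, r, hg⟩ := exists_valid
  exact absurd (h1 g l p r hg) (not_lt.2 (h2 g l p r hg))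

theorem Lt.irrefl' {y : FreeGroup ℕ} (h : Lt y y) : False := h.false_of_le (Le.refl y)

theorem valid_act {g : ℕ → T} {l p r : ℕ → ℝ} (h : Valid g l p r) (β : Binf) :
    ∃ l' p' r', Valid (act g β) l' p' r' := by
  induction β using Binf_induction_right with
  | h1 => exact ⟨l, p, r, by rw [act_one]; exact h⟩
  | hσ i β ih =>
    obtain ⟨l', p', r', h'⟩ := ih
    obtain ⟨l2, p2, r2, h2, -⟩ := valid_σ h' i
    exact ⟨l2, p2, r2, by rw [act_mul]; exact h2⟩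
  | hσi i β ih =>
    obtain ⟨l', p', r', h'⟩ := ih
    obtain ⟨l2, p2, r2, h2, -⟩ := valid_σ_inv h' i
    exact ⟨l2, p2, r2, by rw [act_mul]; exact h2⟩

theorem valid_act_sh {g : ℕ → T} {l p r : ℕ → ℝ} (h : Valid g l p r) (β : Binf) :
    ∃ l' p' r', Valid (act g (sh β)) l' p' r' ∧ l' 0 = l 0 ∧ p' 0 = p 0 ∧ r' 0 = r 0 := by
  induction β using Binf_induction_right with
  | h1 => exact ⟨l, p, r, by rw [map_one, act_one]; exact h, rfl, rfl, rfl⟩
  | hσ i β ih =>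
    obtain ⟨l', p', r', h', e1, e2, e3⟩ := ih
    obtain ⟨l2, p2, r2, h2, h3, -⟩ := valid_σ h' (i + 1)
    obtain ⟨f1, f2, f3⟩ := h3 0 (Nat.succ_pos i)
    exact ⟨l2, p2, r2, by rw [map_mul, sh_σ, act_mul]; exact h2, f1.trans e1, f2.trans e2,
      f3.trans e3⟩
  | hσi i β ih =>
    obtain ⟨l', p', r', h', e1, e2, e3⟩ := ih
    obtain ⟨l2, p2, r2, h2, h3, -⟩ := valid_σ_inv h' (i + 1)
    obtain ⟨f1, f2, f3⟩ := h3 0 (Nat.succ_pos i)
    exact ⟨l2, p2, r2, by rw [map_mul, map_inv, sh_σ, act_mul]; exact h2, f1.trans e1, f2.trans e2,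
      f3.trans e3⟩

theorem valid_act_sh2 {g : ℕ → T} {l p r : ℕ → ℝ} (h : Valid g l p r) (β : Binf) :
    ∃ l' p' r', Valid (act g (sh (sh β))) l' p' r' ∧
      (l' 0 = l 0 ∧ p' 0 = p 0 ∧ r' 0 = r 0) ∧ (l' 1 = l 1 ∧ p' 1 = p 1 ∧ r' 1 = r 1) := by
  induction β using Binf_induction_right with
  | h1 => exact ⟨l, p, r, by rw [map_one, map_one, act_one]; exact h, ⟨rfl, rfl, rfl⟩, rfl, rfl, rfl⟩
  | hσ i β ih =>
    obtain ⟨l', p', r', h', ⟨e1, e2, e3⟩, e4, e5, e6⟩ := ih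
    obtain ⟨l2, p2, r2, h2, h3, -⟩ := valid_σ h' (i + 2)
    obtain ⟨f1, f2, f3⟩ := h3 0 (by omega)
    obtain ⟨f4, f5, f6⟩ := h3 1 (by omega)
    exact ⟨l2, p2, r2, by rw [map_mul, map_mul, sh_σ, sh_σ, act_mul]; exact h2,
      ⟨f1.trans e1, f2.trans e2, f3.trans e3⟩, f4.trans e4, f5.trans e5, f6.trans e6⟩
  | hσi i β ih =>
    obtain ⟨l', p', r', h', ⟨e1, e2, e3⟩, e4, e5, e6⟩ := ih
    obtain ⟨l2, p2, r2, h2, h3, -⟩ := valid_σ_inv h' (i + 2)
    obtain ⟨f1, f2, f3⟩ := h3 0 (by omega)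
    obtain ⟨f4, f5, f6⟩ := h3 1 (by omega)
    exact ⟨l2, p2, r2, by
        rw [map_mul, map_mul, map_inv, map_inv, sh_σ, sh_σ, act_mul]; exact h2,
      ⟨f1.trans e1, f2.trans e2, f3.trans e3⟩, f4.trans e4, f5.trans e5, f6.trans e6⟩

theorem act_sh_zero (g : ℕ → T) (β : Binf) : act g (sh β) 0 = g 0 := by
  simp [act, Φ_sh_X0]

theorem act_sh_succ (g : ℕ → T) (β : Binf) (i : ℕ) :
    act g (sh β) (i + 1) = act (fun i => g (i + 1)) β i := by
  show ρ g (Φ (sh β) (X (i + 1))) = _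
  rw [← S_X, Φ_sh_S, ρ_S]
  rfl

theorem Le.act {y z : FreeGroup ℕ} (h : Le y z) (β : Binf) : Le (Φ β y) (Φ β z) := by
  intro g l p r hg
  obtain ⟨l', p', r', h'⟩ := valid_act hg β
  rw [← pos_act, ← pos_act]
  exact h _ _ _ _ h'

theorem Lt.act {y z : FreeGroup ℕ} (h : Lt y z) (β : Binf) : Lt (Φ β y) (Φ β z) := by
  intro g l p r hg
  obtain ⟨l', p', r', h'⟩ := valid_act hg β
  rw [← pos_act, ← pos_act]
  exact h _ _ _ _ h'

theorem Le.of_act {y z : FreeGroup ℕ} (β : Binf) (h : Le (Φ β y) (Φ β z)) : Le y z := by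
  have := h.act β⁻¹
  rwa [← MulAut.mul_apply, ← MulAut.mul_apply, ← map_mul, inv_mul_cancel, map_one,
    MulAut.one_apply, MulAut.one_apply] at this

/-- positions of the images of generators -/
theorem pos_loop {g : ℕ → T} {l p r : ℕ → ℝ} (h : Valid g l p r) (β : Binf) (j : ℕ) :
    0 < pos g (Φ β (X j)) ∧ pos g (Φ β (X j)) < 1 := by
  obtain ⟨l', p', r', h'⟩ := valid_act h β
  rw [← pos_act]
  have h1 : pos (act g β) (X j) = act g β j 0 := by simp [pos]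
  rw [h1]
  have h2 := h'.push_of (i := j) (t := 0) (k := 0)
    (by have := h'.r_lt_one j; push_cast; linarith)
    (by have := h'.p_pos j; push_cast; linarith)
  have h3 := h'.l_pos j
  have h4 := h'.p_lt_one j
  push_cast at h2
  constructor <;> linarith

/-! ### elements starting on the right of `x_0` -/

/-- right of the first sector -/
def PS (y : FreeGroup ℕ) : Prop := ∀ g l p r, Valid g l p r → r 0 < pos g y

/-- right of the second sector -/
def PSS (y : FreeGroup ℕ) : Prop := ∀ g l p r, Valid g l p r → r 1 < pos g y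

theorem PSS.ps {y : FreeGroup ℕ} (h : PSS y) : PS y :=
  fun g l p r hg => (hg.r_lt_r 0).trans (h g l p r hg)

theorem PS.mono {y z : FreeGroup ℕ} (h : PS y) (h2 : Le y z) : PS z :=
  fun g l p r hg => (h g l p r hg).trans_le (h2 g l p r hg)

theorem ps_X1 : PS (X 1) := by
  intro g l p r hg
  have h1 : pos g (X 1) = g 1 0 := by simp [pos]
  rw [h1]
  have h2 := hg.push_of (i := 1) (t := 0) (k := 0)
    (by have := hg.r_lt_one 1; push_cast; linarith)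
    (by have := hg.p_pos 1; push_cast; linarith)
  have := hg.r_lt_l 0
  push_cast at h2
  rw [zero_add] at this
  linarith [h2.1]

theorem PS.act_sh {y : FreeGroup ℕ} (h : PS y) (β : Binf) : PS (Φ (sh β) y) := by
  intro g l p r hg
  obtain ⟨l', p', r', h', -, -, e3⟩ := valid_act_sh hg β
  rw [← pos_act, ← e3]
  exact h _ _ _ _ h'

theorem PS.act_σ_inv {y : FreeGroup ℕ} (h : PS y) : PS (Φ (σ 0)⁻¹ y) := by
  intro g l p r hg
  obtain ⟨l', p', r', h', -, -, e2, -⟩ := valid_σ_inv hg 0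
  rw [← pos_act]
  have h1 := h _ _ _ _ h'
  have h2 := h'.p_lt_r 0
  have h3 := hg.r_lt_l 0
  have h4 := hg.l_lt_p (0 + 1)
  linarith

theorem PSS.act_σ {y : FreeGroup ℕ} (h : PSS y) : PSS (Φ (σ 0) y) := by
  intro g l p r hg
  obtain ⟨l', p', r', h', -, -, -, -, -, e4, -⟩ := valid_σ hg 0
  rw [← pos_act]
  have h1 := h _ _ _ _ h'
  have e4' : r 1 < r' 1 := e4
  linarith

theorem PSS.act_σ_pow {y : FreeGroup ℕ} (h : PSS y) (n : ℕ) : PSS (Φ (σ 0 ^ n) y) := by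
  induction n with
  | zero => simpa using h
  | succ n ih =>
    rw [pow_succ', map_mul, MulAut.mul_apply]
    exact ih.act_σ

theorem PSS.act_σ1_inv {y : FreeGroup ℕ} (h : PSS y) : PSS (Φ (σ 1)⁻¹ y) := by
  intro g l p r hg
  obtain ⟨l', p', r', h', -, -, e2, -⟩ := valid_σ_inv hg 1
  rw [← pos_act]
  have h1 := h _ _ _ _ h'
  have h2 := h'.p_lt_r 1
  have h3 := hg.r_lt_l 1
  have h4 := hg.l_lt_p (1 + 1)
  linarith

theorem PSS.act_sh2 {y : FreeGroup ℕ} (h : PSS y) (β : Binf) : PSS (Φ (sh (sh β)) y) := by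
  intro g l p r hg
  obtain ⟨l', p', r', h', -, -, -, e3⟩ := valid_act_sh2 hg β
  rw [← pos_act, ← e3]
  exact h _ _ _ _ h'

theorem PS.shift {y : FreeGroup ℕ} (h : PS y) : PSS (S y) := by
  intro g l p r hg
  rw [pos_S]
  exact h _ _ _ _ hg.shift

theorem PS.false_of_le {y : FreeGroup ℕ} (h : PS y) (h2 : Le y (X 0)) : False := by
  obtain ⟨g, l, p, r, hg⟩ := exists_valid
  have h3 := h g l p r hg
  have h4 := h2 g l p r hg
  have h1 : pos g (X 0) = g 0 0 := by simp [pos]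
  rw [h1] at h4
  have h5 := hg.push_of (i := 0) (t := 0) (k := 0)
    (by have := hg.r_lt_one 0; push_cast; linarith)
    (by have := hg.p_pos 0; push_cast; linarith)
  have := hg.p_lt_r 0
  push_cast at h5
  linarith [h5.2]

/-! ### basic inequalities -/

theorem Φ_σ0_X0 : Φ (σ 0) (X 0) = X 0 * X 1 * (X 0)⁻¹ := by
  rw [Φ_σ, sAut_apply, fwd_X, if_pos rfl]

theorem Φ_σ0_X1 : Φ (σ 0) (X 1) = X 0 := by
  rw [Φ_σ, sAut_apply, fwd_X]; rfl

theorem Φ_σ_X_of_gt {i j : ℕ} (h : i + 1 < j) : Φ (σ i) (X j) = X j := by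
  rw [Φ_σ, sAut_apply, fwd_X, if_neg (by omega), if_neg (by omega)]

theorem Φ_σ_X_of_lt {i j : ℕ} (h : j < i) : Φ (σ i) (X j) = X j := by
  rw [Φ_σ, sAut_apply, fwd_X, if_neg (by omega), if_neg (by omega)]

theorem Φ_σ1_X1 : Φ (σ 1) (X 1) = X 1 * X 2 * (X 1)⁻¹ := by
  rw [Φ_σ, sAut_apply, fwd_X, if_pos rfl]

theorem Φ_σ1_X2 : Φ (σ 1) (X 2) = X 1 := by
  rw [Φ_σ, sAut_apply, fwd_X]; rfl

theorem Φ_inv_eq {β : Binf} {y z : FreeGroup ℕ} (h : Φ β y = z) : Φ β⁻¹ z = y := by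
  rw [← h, ← MulAut.mul_apply, ← map_mul, inv_mul_cancel, map_one, MulAut.one_apply]

theorem Φ_σ0_inv_X0 : Φ (σ 0)⁻¹ (X 0) = X 1 := Φ_inv_eq Φ_σ0_X1

theorem lt_σ0 : Lt (Φ (σ 0) (X 0)) (X 0) := by
  intro g l p r hg
  rw [Φ_σ0_X0]
  have h1 : pos g (X 0 * X 1 * (X 0)⁻¹) = g 0 (g 1 ((g 0)⁻¹ 0)) := by simp [pos, mul_apply_T]
  have h2 : pos g (X 0) = g 0 0 := by simp [pos]
  rw [h1, h2, T_lt_iff]
  have h3 : (g 0)⁻¹ 0 < r 0 - 1 := by
    rw [T_inv_lt, hg.per_sub]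
    have := hg.push 0
    have := hg.l_pos 0
    linarith
  have h4 : g 1 ((g 0)⁻¹ 0) < g 1 (p 1 - 1) := by
    rw [T_lt_iff]
    have := hg.r_lt_l 0
    have := hg.l_lt_p (0 + 1)
    linarith
  rw [hg.per_sub, hg.fix] at h4
  have := hg.p_lt_one 1
  linarith

theorem lt_σ1σ0 : Lt (Φ (σ 1 * σ 0) (X 0)) (Φ (σ 0) (X 0)) := by
  intro g l p r hg
  rw [map_mul, MulAut.mul_apply, Φ_σ0_X0]
  have e : Φ (σ 1) (X 0 * X 1 * (X 0)⁻¹) = X 0 * (X 1 * X 2 * (X 1)⁻¹) * (X 0)⁻¹ := by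
    rw [map_mul, map_mul, map_inv, Φ_σ_X_of_lt (by omega), Φ_σ1_X1]
  rw [e]
  have h1 : pos g (X 0 * X 1 * (X 0)⁻¹) = g 0 (g 1 ((g 0)⁻¹ 0)) := by simp [pos, mul_apply_T]
  have h2 : pos g (X 0 * (X 1 * X 2 * (X 1)⁻¹) * (X 0)⁻¹) =
    g 0 (g 1 (g 2 ((g 1)⁻¹ ((g 0)⁻¹ 0)))) := by simp [pos, mul_apply_T]
  rw [h1, h2, T_lt_iff, T_lt_iff]
  set u := (g 0)⁻¹ 0 with hu
  have h3 : u < r 0 - 1 := by
    rw [hu, T_inv_lt, hg.per_sub]
    have := hg.push 0
    have := hg.l_pos 0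
    linarith
  have h4 : p 0 - 1 < u := by
    rw [hu, T_lt_inv, hg.per_sub, hg.fix]
    have := hg.p_lt_one 0
    linarith
  have h5 : (g 1)⁻¹ u < r 1 - 1 - 1 := by
    rw [T_inv_lt, hg.per_sub, hg.per_sub]
    have := hg.push 1
    have := hg.r_lt_l 0
    rw [zero_add] at this
    linarith
  have h6 : g 2 ((g 1)⁻¹ u) < g 2 (p 2 - 1 - 1) := by
    rw [T_lt_iff]
    have := hg.r_lt_l 1
    have := hg.l_lt_p (1 + 1)
    norm_num at *
    linarith
  rw [hg.per_sub, hg.per_sub, hg.fix] at h6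
  have := hg.p_lt_one 2
  have := hg.p_pos 0
  linarith

end Pool.Agent.Helper59.Braid
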