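import Mathlib

set_option autoImplicit false

/-!
# Terms and left distributivity: comparison property (module T)
-/

namespace Pool.Agent.Helper59.Braid
namespace Terms

open Relation

/-- one-variable terms -/
inductive Tm : Type
  | x : Tm
  | node : Tm → Tm → Tm

/-- evaluation in a magma -/
def ev {M : Type*} (op : M → M → M) (e : M) : Tm → M
  | .x => e
  | .node s t => op (ev op e s) (ev op e t)

/-- `a < b`: `b = a r₁ r₂ ⋯ r_l`, `l ≥ 1`, all `r_i` values of terms. -/
def LT {M : Type*} (op : M → M → M) (e : M) : M → M → Prop :=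
  Relation.TransGen (fun a b => ∃ r : Tm, b = op a (ev op e r))

/-- the sequence `Z 0 = q, Z 1 = q·e, Z (j+2) = Z (j+1) · Z j` -/
def Z {M : Type*} (op : M → M → M) (e q : M) : ℕ → M
  | 0 => q
  | 1 => op q e
  | j + 2 => op (Z op e q (j + 1)) (Z op e q j)

/-- one-step expansion -/
inductive Exp : Tm → Tm → Prop
  | root (a b c : Tm) : Exp (.node a (.node b c)) (.node (.node a b) (.node a c))
  | left (s s' t : Tm) : Exp s s' → Exp (.node s t) (.node s' t)
  | right (s t t' : Tm) : Exp t t' → Exp (.node s t) (.node s t')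

/-- expansion -/
def Exps : Tm → Tm → Prop := ReflTransGen Exp

theorem Exps.refl (s : Tm) : Exps s s := ReflTransGen.refl

theorem Exps.trans {a b c : Tm} (h1 : Exps a b) (h2 : Exps b c) : Exps a c :=
  ReflTransGen.trans h1 h2

theorem Exps.single {a b : Tm} (h : Exp a b) : Exps a b := ReflTransGen.single h

theorem Exps.left {s s' : Tm} (h : Exps s s') (t : Tm) : Exps (.node s t) (.node s' t) :=
  ReflTransGen.lift (fun a => Tm.node a t) (fun _ _ h => Exp.left _ _ _ h) _ _ h

theorem Exps.right {t t' : Tm} (s : Tm) (h : Exps t t') : Exps (.node s t) (.node s t') :=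
  ReflTransGen.lift (fun a => Tm.node s a) (fun _ _ h => Exp.right _ _ _ h) _ _ h

theorem Exps.node {s s' t t' : Tm} (h1 : Exps s s') (h2 : Exps t t') :
    Exps (.node s t) (.node s' t') := (h1.left t).trans (h2.right s')

/-- uniform distribution -/
def D (a : Tm) : Tm → Tm
  | .x => .node a .x
  | .node b c => .node (D a b) (D a c)

/-- the uniform expansion -/
def d : Tm → Tm
  | .x => .x
  | .node s t => D (d s) (d t)

theorem node_exps_D (a b : Tm) : Exps (.node a b) (D a b) := by
  induction b with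
  | x => exact Exps.refl _
  | node b c ihb ihc => exact (Exps.single (Exp.root a b c)).trans (ihb.node ihc)

theorem exps_d (s : Tm) : Exps s (d s) := by
  induction s with
  | x => exact Exps.refl _
  | node s t ihs iht => exact (ihs.node iht).trans (node_exps_D _ _)

theorem D_mono_left {a a' : Tm} (h : Exps a a') (b : Tm) : Exps (D a b) (D a' b) := by
  induction b with
  | x => exact h.left _
  | node b c ihb ihc => exact ihb.node ihc

theorem D_mono_exp (a : Tm) {b b' : Tm} (h : Exp b b') : Exps (D a b) (D a b') := by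
  induction h with
  | root b c e => exact Exps.single (Exp.root _ _ _)
  | left s s' t _ ih => exact ih.left _
  | right s t t' _ ih => exact ih.right _

theorem D_mono_right (a : Tm) {b b' : Tm} (h : Exps b b') : Exps (D a b) (D a b') := by
  induction h with
  | refl => exact Exps.refl _
  | tail _ h ih => exact Exps.trans ih (D_mono_exp a h)

theorem D_mono {a a' b b' : Tm} (h1 : Exps a a') (h2 : Exps b b') : Exps (D a b) (D a' b') :=
  (D_mono_left h1 b).trans (D_mono_right a' h2)

theorem D_D (a b c : Tm) : Exps (D a (D b c)) (D (D a b) (D a c)) := by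
  induction c with
  | x =>
    show Exps (.node (D a b) (.node a .x)) (.node (D (D a b) a) (.node (D a b) .x))
    exact (Exps.single (Exp.root _ _ _)).trans ((node_exps_D _ _).left _)
  | node c1 c2 ih1 ih2 => exact ih1.node ih2

theorem exps_d_of_exp {s t : Tm} (h : Exp s t) : Exps t (d s) := by
  induction h with
  | root a b c =>
    have h1 : Exps (.node (.node a b) (.node a c)) (.node (D (d a) (d b)) (D (d a) (d c))) :=
      (((exps_d a).node (exps_d b)).trans (node_exps_D _ _)).node
        (((exps_d a).node (exps_d c)).trans (node_exps_D _ _))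
    exact h1.trans (D_mono_right (d a) (node_exps_D (d b) (d c)))
  | left s s' t _ ih => exact (ih.node (exps_d t)).trans (node_exps_D _ _)
  | right s t t' _ ih => exact ((exps_d s).node ih).trans (node_exps_D _ _)

theorem d_mono_exp {s t : Tm} (h : Exp s t) : Exps (d s) (d t) := by
  induction h with
  | root a b c => exact D_D (d a) (d b) (d c)
  | left s s' t _ ih => exact D_mono_left ih _
  | right s t t' _ ih => exact D_mono_right _ ih

theorem d_mono {s t : Tm} (h : Exps s t) : Exps (d s) (d t) := by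
  induction h with
  | refl => exact Exps.refl _
  | tail _ h ih => exact Exps.trans ih (d_mono_exp h)

theorem exps_iter {s t : Tm} (h : Exps s t) : ∃ n : ℕ, Exps t (d^[n] s) := by
  induction h with
  | refl => exact ⟨0, Exps.refl _⟩
  | tail _ h ih =>
    obtain ⟨n, hn⟩ := ih
    refine ⟨n + 1, ?_⟩
    rw [Function.iterate_succ_apply']
    exact (exps_d_of_exp h).trans (d_mono hn)

theorem iter_mono (s : Tm) {m n : ℕ} (h : m ≤ n) : Exps (d^[m] s) (d^[n] s) := by
  induction n, h using Nat.le_induction with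
  | base => exact Exps.refl _
  | succ n _ ih =>
    rw [Function.iterate_succ_apply']
    exact ih.trans (exps_d _)

theorem confluence {s t1 t2 : Tm} (h1 : Exps s t1) (h2 : Exps s t2) :
    ∃ u, Exps t1 u ∧ Exps t2 u := by
  obtain ⟨m, hm⟩ := exps_iter h1
  obtain ⟨n, hn⟩ := exps_iter h2
  exact ⟨d^[max m n] s, hm.trans (iter_mono s (le_max_left _ _)),
    hn.trans (iter_mono s (le_max_right _ _))⟩

/-- LD-equality: existence of a common expansion -/
def Eqv (s t : Tm) : Prop := ∃ u, Exps s u ∧ Exps t u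

theorem Eqv.refl (s : Tm) : Eqv s s := ⟨s, Exps.refl _, Exps.refl _⟩

theorem Eqv.symm {s t : Tm} (h : Eqv s t) : Eqv t s := by
  obtain ⟨u, h1, h2⟩ := h
  exact ⟨u, h2, h1⟩

theorem Eqv.trans {a b c : Tm} (h1 : Eqv a b) (h2 : Eqv b c) : Eqv a c := by
  obtain ⟨u, a1, a2⟩ := h1
  obtain ⟨v, b1, b2⟩ := h2
  obtain ⟨w, c1, c2⟩ := confluence a2 b1
  exact ⟨w, a1.trans c1, b2.trans c2⟩

theorem Eqv.node {s s' t t' : Tm} (h1 : Eqv s s') (h2 : Eqv t t') :
    Eqv (.node s t) (.node s' t') := by
  obtain ⟨u, a1, a2⟩ := h1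
  obtain ⟨v, b1, b2⟩ := h2
  exact ⟨.node u v, a1.node b1, a2.node b2⟩

theorem Eqv.ld (a b c : Tm) : Eqv (.node a (.node b c)) (.node (.node a b) (.node a c)) :=
  ⟨_, Exps.single (Exp.root a b c), Exps.refl _⟩

/-- right powers -/
def P : ℕ → Tm
  | 0 => .x
  | n + 1 => .node .x (P n)

theorem absorb (t : Tm) : ∃ n0, ∀ n, n0 ≤ n → Eqv (.node t (P n)) (P (n + 1)) := by
  induction t with
  | x => exact ⟨0, fun n _ => Eqv.refl _⟩
  | node t1 t2 ih1 ih2 =>
    obtain ⟨n1, h1⟩ := ih1
    obtain ⟨n2, h2⟩ := ih2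
    refine ⟨max n1 n2 + 1, fun n hn => ?_⟩
    obtain ⟨m, rfl⟩ : ∃ m, n = m + 1 := ⟨n - 1, by omega⟩
    have hm : max n1 n2 ≤ m := by omega
    have hm1 : n1 ≤ m := (le_max_left _ _).trans hm
    have hm2 : n2 ≤ m := (le_max_right _ _).trans hm
    have a1 : Eqv (.node (.node t1 t2) (P (m + 1))) (.node (.node t1 t2) (.node t1 (P m))) :=
      (Eqv.refl _).node (h1 m hm1).symm
    have a2 : Eqv (.node t1 (.node t2 (P m))) (.node t1 (P (m + 1))) :=
      (Eqv.refl _).node (h2 m hm2)
    exact (a1.trans (Eqv.ld t1 t2 (P m)).symm).trans (a2.trans (h1 (m + 1) (by omega)))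

/-- `Ch b a`: `a` is the left child of `b` -/
def Ch (b a : Tm) : Prop := ∃ r, b = .node a r

/-- `Sub s t`: `s` is an iterated left child of `t` -/
def Sub (s t : Tm) : Prop := ReflTransGen Ch t s

theorem Sub.refl (s : Tm) : Sub s s := ReflTransGen.refl

theorem Sub.left {s t : Tm} (h : Sub s t) (r : Tm) : Sub s (.node t r) :=
  ReflTransGen.head ⟨r, rfl⟩ h

theorem Sub.cases {s t : Tm} (h : Sub s t) : s = t ∨ ∃ a b, t = .node a b ∧ Sub s a := by
  rcases ReflTransGen.cases_head h with h | ⟨c, ⟨r, hr⟩, hc⟩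
  · exact Or.inl h.symm
  · exact Or.inr ⟨c, r, hr, hc⟩

theorem Sub.comparable {s t u : Tm} (h1 : Sub s u) (h2 : Sub t u) : Sub s t ∨ Sub t s := by
  have hU : Relator.RightUnique Ch := by
    rintro a b c ⟨r, hr⟩ ⟨r', hr'⟩
    rw [hr] at hr'
    injection hr'
  exact (ReflTransGen.total_of_right_unique hU h1 h2).symm

theorem Sub.exp {s t t' : Tm} (h : Sub s t) (he : Exp t t') : ∃ s', Sub s' t' ∧ Exps s s' := by
  induction he with
  | root a b c =>
    rcases h.cases with rfl | ⟨a', b', heq, hs⟩
    · exact ⟨_, Sub.refl _, Exps.single (Exp.root a b c)⟩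
    · injection heq with h1 h2
      subst h1
      exact ⟨s, (hs.left _).left _, Exps.refl _⟩
  | left a a' t he ih =>
    rcases h.cases with rfl | ⟨a1, b1, heq, hs⟩
    · exact ⟨_, Sub.refl _, Exps.single (Exp.left _ _ _ he)⟩
    · injection heq with h1 h2
      subst h1
      obtain ⟨s', hs', hss⟩ := ih hs
      exact ⟨s', hs'.left _, hss⟩
  | right a t t' he ih =>
    rcases h.cases with rfl | ⟨a1, b1, heq, hs⟩
    · exact ⟨_, Sub.refl _, Exps.single (Exp.right _ _ _ he)⟩
    · injection heq with h1 h2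
      subst h1
      exact ⟨s, hs.left _, Exps.refl _⟩

theorem Sub.exps {s t t' : Tm} (h : Sub s t) (he : Exps t t') :
    ∃ s', Sub s' t' ∧ Exps s s' := by
  induction he with
  | refl => exact ⟨s, h, Exps.refl _⟩
  | tail _ he ih =>
    obtain ⟨s1, h1, h2⟩ := ih
    obtain ⟨s2, h3, h4⟩ := h1.exp he
    exact ⟨s2, h3, h2.trans h4⟩

/-- the term-level comparison -/
theorem compare (s t : Tm) : ∃ s' t', Exps s s' ∧ Exps t t' ∧ (Sub s' t' ∨ Sub t' s') := by
  obtain ⟨n1, h1⟩ := absorb s
  obtain ⟨n2, h2⟩ := absorb t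
  obtain ⟨u, hu1, hu2⟩ := (h1 (max n1 n2) (le_max_left _ _)).trans
    (h2 (max n1 n2) (le_max_right _ _)).symm
  obtain ⟨s', a1, a2⟩ := ((Sub.refl s).left (P (max n1 n2))).exps hu1
  obtain ⟨t', b1, b2⟩ := ((Sub.refl t).left (P (max n1 n2))).exps hu2
  exact ⟨s', t', a2, b2, a1.comparable b1⟩

section Magma

variable {M : Type*} (op : M → M → M) (e : M)

theorem ev_exp (ld : ∀ a b c, op a (op b c) = op (op a b) (op a c)) {s t : Tm} (h : Exp s t) :
    ev op e s = ev op e t := by
  induction h with
  | root a b c => exact ld _ _ _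
  | left s s' t _ ih => simp only [ev, ih]
  | right s t t' _ ih => simp only [ev, ih]

theorem ev_exps (ld : ∀ a b c, op a (op b c) = op (op a b) (op a c)) {s t : Tm}
    (h : Exps s t) : ev op e s = ev op e t := by
  induction h with
  | refl => rfl
  | tail _ h ih => rw [ih, ev_exp op e ld h]

theorem ev_sub {s t : Tm} (h : Sub s t) : ev op e s = ev op e t ∨
    LT op e (ev op e s) (ev op e t) := by
  induction h using ReflTransGen.head_induction_on with
  | refl => exact Or.inl rfl
  | head h1 _ ih =>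
    rename_i a c _
    obtain ⟨r, hr⟩ := h1
    subst hr
    have hstep : (fun a b => ∃ r : Tm, b = op a (ev op e r)) (ev op e c)
        (ev op e (.node c r)) := ⟨r, rfl⟩
    right
    rcases ih with ih | ih
    · rw [ih]
      exact TransGen.single hstep
    · exact TransGen.tail ih hstep

theorem total (ld : ∀ a b c, op a (op b c) = op (op a b) (op a c)) (s t : Tm) :
    ev op e s = ev op e t ∨ LT op e (ev op e s) (ev op e t) ∨
      LT op e (ev op e t) (ev op e s) := by
  obtain ⟨s', t', hs, ht, h⟩ := compare s t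
  rw [ev_exps op e ld hs, ev_exps op e ld ht]
  rcases h with h | h
  · rcases ev_sub op e h with h | h
    · exact Or.inl h
    · exact Or.inr (Or.inl h)
  · rcases ev_sub op e h with h | h
    · exact Or.inl h.symm
    · exact Or.inr (Or.inr h)

/-- the shape of the expansions of `q (x x)` -/
theorem shape (ld : ∀ a b c, op a (op b c) = op (op a b) (op a c)) (q u : Tm)
    (h : Exps (.node q (.node .x .x)) u) :
    ∃ u1 c, u = .node u1 (.node c .x) ∧ ((ev op e u1 = ev op e q ∧ c = .x) ∨
      ∃ j, ev op e u1 = Z op e (ev op e q) (j + 1) ∧ ev op e c = Z op e (ev op e q) j) := by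
  induction h with
  | refl => exact ⟨q, .x, rfl, Or.inl ⟨rfl, rfl⟩⟩
  | tail _ h ih =>
    obtain ⟨u1, c, rfl, ih⟩ := ih
    cases h with
    | root =>
      refine ⟨.node u1 c, u1, rfl, Or.inr ?_⟩
      rcases ih with ⟨h1, h2⟩ | ⟨j, h1, h2⟩
      · refine ⟨0, ?_, h1⟩
        subst h2
        simp only [ev, Z, h1]
      · refine ⟨j + 1, ?_, h1⟩
        simp only [ev, h1, h2]
        rfl
    | left _ s' _ he =>
      refine ⟨s', c, rfl, ?_⟩
      rw [← ev_exp op e ld he]
      exact ih
    | right _ _ t' he =>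
      cases he with
      | left _ c' _ he' =>
        refine ⟨u1, c', rfl, ?_⟩
        rcases ih with ⟨h1, h2⟩ | ⟨j, h1, h2⟩
        · subst h2
          cases he'
        · exact Or.inr ⟨j, h1, by rw [← ev_exp op e ld he', h2]⟩
      | right _ _ _ he' => cases he'

theorem gap (ld : ∀ a b c, op a (op b c) = op (op a b) (op a c)) (s q : Tm) :
    (∃ j, ev op e s = Z op e (ev op e q) j ∨ LT op e (ev op e s) (Z op e (ev op e q) j)) ∨
    ev op e s = op (ev op e q) (op e e) ∨
    LT op e (op (ev op e q) (op e e)) (ev op e s) := by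
  obtain ⟨s', w', hs, hw, h⟩ := compare s (.node q (.node .x .x))
  have hwv : op (ev op e q) (op e e) = ev op e w' := ev_exps op e ld hw
  rw [hwv, ev_exps op e ld hs]
  rcases h with h | h
  · obtain ⟨u1, c, rfl, hsh⟩ := shape op e ld q w' hw
    rcases h.cases with rfl | ⟨a, b, heq, hsa⟩
    · exact Or.inr (Or.inl rfl)
    · injection heq with h1 h2
      subst h1
      left
      have hj : ∃ j, ev op e u1 = Z op e (ev op e q) j := by
        rcases hsh with ⟨h1, _⟩ | ⟨j, h1, _⟩
        · exact ⟨0, h1⟩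
        · exact ⟨j + 1, h1⟩
      obtain ⟨j, hj⟩ := hj
      exact ⟨j, by rw [← hj]; exact ev_sub op e hsa⟩
  · rcases ev_sub op e h with h | h
    · exact Or.inr (Or.inl h.symm)
    · exact Or.inr (Or.inr h)

end Magma

end Terms
end Pool.Agent.Helper59.Braid
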