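import Pool.Agent.Helper59.BraidOrder
import Pool.Agent.Helper59.BraidT

set_option autoImplicit false

/-!
# Order properties of special braids
-/

namespace Pool.Agent.Helper59.Braid

theorem wedge_mul_sh (a b : Binf) : wedge a b * sh a = a * sh b * σ 0 := by
  unfold wedge
  group

theorem sh2_comm_σ0 (a : Binf) : sh (sh a) * σ 0 = σ 0 * sh (sh a) := by
  induction a using Binf_induction_left with
  | h1 => simp
  | hσ i g ih =>
    rw [map_mul, map_mul, sh_σ, sh_σ, mul_assoc, ih, ← mul_assoc, ← mul_assoc,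
      σ_comm (show 0 + 2 ≤ i + 1 + 1 by omega)]
  | hσi i g ih =>
    rw [map_mul, map_mul, map_inv, map_inv, sh_σ, sh_σ, mul_assoc, ih, ← mul_assoc, ← mul_assoc]
    congr 1
    have := σ_comm (show 0 + 2 ≤ i + 1 + 1 by omega)
    rw [inv_mul_eq_iff_eq_mul, ← mul_assoc, ← this, mul_inv_cancel_right]

theorem wedge_ld (a b c : Binf) : wedge a (wedge b c) = wedge (wedge a b) (wedge a c) := by
  have h2 := sh2_comm_σ0 b
  have h3 := sh2_comm_σ0 c
  have h4 := sh2_comm_σ0 a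
  have h5 : σ 0 * σ 1 * σ 0 = σ 1 * σ 0 * σ 1 := σ_braid 0
  have e1 : wedge a (wedge b c) * (sh a * sh (sh b) * σ 1) =
      a * sh b * sh (sh c) * σ 1 * σ 0 * σ 1 := by
    unfold wedge
    simp only [map_mul, map_inv, sh_σ, zero_add]
    calc a * (sh b * sh (sh c) * σ 1 * (sh (sh b))⁻¹) * σ 0 * (sh a)⁻¹ *
            (sh a * sh (sh b) * σ 1)
          = a * sh b * sh (sh c) * σ 1 * ((sh (sh b))⁻¹ * (σ 0 * sh (sh b))) * σ 1 := by group
        _ = _ := by rw [← h2]; group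
  have e2 : wedge (wedge a b) (wedge a c) * (sh a * sh (sh b) * σ 1) =
      a * sh b * sh (sh c) * σ 0 * σ 1 * σ 0 := by
    have h6 : sh (wedge a b) * sh (sh a) = sh a * sh (sh b) * σ 1 := by
      rw [← map_mul, wedge_mul_sh]; simp
    have h7 : wedge (wedge a b) (wedge a c) * sh (wedge a b) =
        wedge a b * sh (wedge a c) * σ 0 := wedge_mul_sh _ _
    have h8 : sh (wedge a c) * sh (sh a) = sh a * sh (sh c) * σ 1 := by
      rw [← map_mul, wedge_mul_sh]; simp
    rw [← h6, ← mul_assoc, h7, mul_assoc, mul_assoc, ← h4, ← mul_assoc, ← mul_assoc,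
      mul_assoc (wedge a b), h8, ← mul_assoc, ← mul_assoc, wedge_mul_sh,
      mul_assoc (a * sh b), ← h3]
    group
  have h1 : wedge a (wedge b c) * (sh a * sh (sh b) * σ 1) =
      wedge (wedge a b) (wedge a c) * (sh a * sh (sh b) * σ 1) := by
    rw [e1, e2, mul_assoc (a * sh b * sh (sh c)), mul_assoc (a * sh b * sh (sh c)), ← h5]
    group
  exact mul_right_cancel h1

open Terms in
theorem special_iff (r : Binf) : Special r ↔ ∃ t : Tm, r = ev wedge 1 t := by
  constructor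
  · intro h
    induction h with
    | one => exact ⟨.x, rfl⟩
    | wedge a b _ _ iha ihb =>
      obtain ⟨s, rfl⟩ := iha
      obtain ⟨t, rfl⟩ := ihb
      exact ⟨.node s t, rfl⟩
  · rintro ⟨t, rfl⟩
    induction t with
    | x => exact Special.one
    | node s t ihs iht => exact Special.wedge _ _ ihs iht

/-- the left order of special braids -/
def LTB : Binf → Binf → Prop := Terms.LT wedge 1

theorem LTB.wedge' (a : Binf) {r : Binf} (hr : Special r) : LTB a (wedge a r) := by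
  obtain ⟨t, rfl⟩ := (special_iff _).1 hr
  exact Relation.TransGen.single ⟨t, rfl⟩

theorem LTB.trans {a b c : Binf} (h1 : LTB a b) (h2 : LTB b c) : LTB a c :=
  Relation.TransGen.trans h1 h2

theorem LTB.induction {p : Binf → Prop} {a : Binf}
    (h1 : ∀ r, Special r → p (wedge a r)) (h2 : ∀ b r, Special r → p b → p (wedge b r))
    {b : Binf} (h : LTB a b) : p b := by
  induction h with
  | single h =>
    obtain ⟨r, rfl⟩ := h
    exact h1 _ ((special_iff _).2 ⟨r, rfl⟩)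
  | tail _ h ih =>
    obtain ⟨r, rfl⟩ := h
    exact h2 _ _ ((special_iff _).2 ⟨r, rfl⟩) ih

theorem total_B {a b : Binf} (ha : Special a) (hb : Special b) :
    a = b ∨ LTB a b ∨ LTB b a := by
  obtain ⟨s, rfl⟩ := (special_iff _).1 ha
  obtain ⟨t, rfl⟩ := (special_iff _).1 hb
  exact Terms.total wedge 1 wedge_ld s t

/-- `it c d 0 = d`, `it c d 1 = c`, `it c d (n+2) = it c d (n+1) ∧ it c d n` -/
def it (c d : Binf) : ℕ → Binf
  | 0 => d
  | 1 => c
  | n + 2 => wedge (it c d (n + 1)) (it c d n)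

theorem it_zero (c d : Binf) : it c d 0 = d := rfl
theorem it_one (c d : Binf) : it c d 1 = c := rfl
theorem it_succ_succ (c d : Binf) (n : ℕ) :
    it c d (n + 2) = wedge (it c d (n + 1)) (it c d n) := rfl

theorem it_mul (c d : Binf) (n : ℕ) : it c d (n + 1) * sh (it c d n) = c * sh d * σ 0 ^ n := by
  induction n with
  | zero => simp [it_zero, it_one]
  | succ n ih => rw [it_succ_succ, wedge_mul_sh, ih, pow_succ, mul_assoc]

theorem it_special {c d : Binf} (hc : Special c) (hd : Special d) :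
    ∀ n, Special (it c d n)
  | 0 => hd
  | 1 => hc
  | n + 2 => Special.wedge _ _ (it_special hc hd (n + 1)) (it_special hc hd n)

theorem it_Z (q : Binf) (j : ℕ) : Terms.Z wedge 1 q j = it q 1 (j + 1) := by
  induction j using Nat.strong_induction_on with
  | _ j ih =>
    match j with
    | 0 => rfl
    | 1 => rfl
    | j + 2 =>
      rw [it_succ_succ, ← ih (j + 1) (by omega), ← ih j (by omega)]
      rfl

theorem gap_B {s q : Binf} (hs : Special s) (hq : Special q) :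
    (∃ j, s = it q 1 (j + 1) ∨ LTB s (it q 1 (j + 1))) ∨ s = wedge q (wedge 1 1) ∨
      LTB (wedge q (wedge 1 1)) s := by
  obtain ⟨s, rfl⟩ := (special_iff _).1 hs
  obtain ⟨q, rfl⟩ := (special_iff _).1 hq
  rcases Terms.gap wedge 1 wedge_ld s q with ⟨j, h⟩ | h | h
  · left
    refine ⟨j, ?_⟩
    rw [it_Z] at h
    exact h
  · exact Or.inr (Or.inl h)
  · exact Or.inr (Or.inr h)

/-! ### positions of special braids -/

theorem Φ_mul (a b : Binf) (z : FreeGroup ℕ) : Φ (a * b) z = Φ a (Φ b z) := by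
  rw [map_mul, MulAut.mul_apply]

theorem Φ_mul_sh_X0 (a b : Binf) : Φ (a * sh b) (X 0) = Φ a (X 0) := by
  rw [Φ_mul, Φ_sh_X0]

theorem Φ_sh_inv_X0 (b : Binf) : Φ (sh b)⁻¹ (X 0) = X 0 := Φ_inv_eq (Φ_sh_X0 b)

theorem Φ_inv_apply (a : Binf) (z : FreeGroup ℕ) : Φ a⁻¹ (Φ a z) = z := Φ_inv_eq rfl

theorem Φ_apply_inv (a : Binf) (z : FreeGroup ℕ) : Φ a (Φ a⁻¹ z) = z := by
  have := Φ_inv_apply a⁻¹ z
  rwa [inv_inv] at this

theorem Φ_wedge_X0 (a b : Binf) : Φ (wedge a b) (X 0) = Φ (a * sh b * σ 0) (X 0) := by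
  unfold wedge
  rw [Φ_mul (a * sh b * σ 0), Φ_sh_inv_X0]

theorem lt_wedge (a b : Binf) : Lt (Φ (wedge a b) (X 0)) (Φ a (X 0)) := by
  rw [Φ_wedge_X0, mul_assoc, Φ_mul]
  apply Lt.act
  have := lt_σ0.act (sh b)
  rwa [← Φ_mul, Φ_sh_X0] at this

theorem LTB.lt {a b : Binf} (h : LTB a b) : Lt (Φ b (X 0)) (Φ a (X 0)) := by
  refine LTB.induction (p := fun b => Lt (Φ b (X 0)) (Φ a (X 0))) ?_ ?_ h
  · intro r _
    exact lt_wedge a r
  · intro b r _ ih
    exact (lt_wedge b r).trans ih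

theorem separation {a b : Binf} (ha : Special a) (hb : Special b)
    (h : Φ a (X 0) = Φ b (X 0)) : a = b := by
  rcases total_B ha hb with h1 | h1 | h1
  · exact h1
  · have := h1.lt
    rw [h] at this
    exact this.irrefl'.elim
  · have := h1.lt
    rw [h] at this
    exact this.irrefl'.elim

theorem Special.one_or_LTB {a : Binf} (ha : Special a) : a = 1 ∨ LTB 1 a := by
  induction ha with
  | one => exact Or.inl rfl
  | wedge a b _ hb iha _ =>
    right
    rcases iha with rfl | h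
    · exact LTB.wedge' _ hb
    · exact h.trans (LTB.wedge' _ hb)

theorem Special.le {a : Binf} (ha : Special a) : Le (Φ a (X 0)) (X 0) := by
  rcases ha.one_or_LTB with rfl | h
  · rw [map_one, MulAut.one_apply]; exact Le.refl _
  · have := h.lt
    rw [map_one, MulAut.one_apply] at this
    exact this.le

theorem Special.lt {a : Binf} (ha : Special a) (h1 : a ≠ 1) : Lt (Φ a (X 0)) (X 0) := by
  have := (ha.one_or_LTB.resolve_left h1).lt
  rwa [map_one, MulAut.one_apply] at this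

theorem sh_σ0_le {r : Binf} (hr : Special r) :
    Le (Φ (sh r * σ 0) (X 0)) (Φ (σ 0) (X 0)) := by
  induction hr with
  | one => rw [map_one, one_mul]; exact Le.refl _
  | wedge a b _ _ iha _ =>
    refine Le.trans ?_ iha
    have e1 : sh (wedge a b) * σ 0 = sh a * sh (sh b) * (σ 1 * σ 0) * (sh (sh a))⁻¹ := by
      have h := sh2_comm_σ0 a
      unfold wedge
      simp only [map_mul, map_inv, sh_σ, zero_add]
      have h' : (sh (sh a))⁻¹ * σ 0 = σ 0 * (sh (sh a))⁻¹ := by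
        rw [inv_mul_eq_iff_eq_mul, ← mul_assoc, h, mul_inv_cancel_right]
      rw [mul_assoc _ (sh (sh a))⁻¹, h']
      group
    have e2 : sh a * σ 0 * sh (sh b) = sh a * sh (sh b) * σ 0 := by
      rw [mul_assoc, ← sh2_comm_σ0 b, mul_assoc]
    have e3 : Φ (sh a * σ 0) (X 0) = Φ (sh a * sh (sh b)) (Φ (σ 0) (X 0)) := by
      rw [← Φ_mul, ← e2, Φ_mul_sh_X0]
    rw [e1, Φ_mul (sh a * sh (sh b) * (σ 1 * σ 0)), Φ_sh_inv_X0, Φ_mul, e3]
    exact (lt_σ1σ0.act _).le

theorem LTB.succ {q a : Binf} (h : LTB q a) : Le (Φ a (X 0)) (Φ (q * σ 0) (X 0)) := by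
  refine LTB.induction (p := fun a => Le (Φ a (X 0)) (Φ (q * σ 0) (X 0))) ?_ ?_ h
  · intro r hr
    rw [Φ_wedge_X0, mul_assoc, Φ_mul q (sh r * σ 0), Φ_mul q (σ 0)]
    exact (sh_σ0_le hr).act q
  · intro b r _ ih
    exact (lt_wedge b r).le.trans ih

theorem LTB.ps {b a : Binf} (h : LTB b a) : PS (Φ (a⁻¹ * b) (X 0)) := by
  refine LTB.induction (p := fun a => PS (Φ (a⁻¹ * b) (X 0))) ?_ ?_ h
  · intro r _
    have e : (wedge b r)⁻¹ * b = sh b * (σ 0)⁻¹ * (sh r)⁻¹ := by
      unfold wedge; group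
    rw [e, Φ_mul, Φ_sh_inv_X0, Φ_mul, Φ_σ0_inv_X0]
    exact ps_X1.act_sh b
  · intro a r _ ih
    have e : (wedge a r)⁻¹ * b = sh a * ((σ 0)⁻¹ * (sh r⁻¹ * (a⁻¹ * b))) := by
      unfold wedge; simp only [map_inv]; group
    rw [e, Φ_mul, Φ_mul, Φ_mul]
    exact ((ih.act_sh _).act_σ_inv).act_sh _

/-! ### the inflation inequality for special braids -/

theorem θ_zero (z : FreeGroup ℕ) : θ 0 z = S z := by
  have : θ 0 = S := by
    apply hom_ext'
    intro j
    simp
  rw [this]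

theorem Φ_σ0_S (z : FreeGroup ℕ) : Φ (σ 0) (S z) = θ 1 z := by
  have : ((Φ (σ 0)).toMonoidHom).comp S = θ 1 := by
    apply hom_ext'
    intro j
    show Φ (σ 0) (S (X j)) = θ 1 (X j)
    rw [S_X, θ_X]
    rcases Nat.eq_zero_or_pos j with rfl | h
    · rw [if_pos (by omega)]; exact Φ_σ0_X1
    · rw [if_neg (by omega)]; exact Φ_σ_X_of_gt (by omega)
  exact DFunLike.congr_fun this z

theorem θ_succ_S (k : ℕ) (z : FreeGroup ℕ) : θ (k + 1) (S z) = S (θ k z) := by
  have : (θ (k + 1)).comp S = S.comp (θ k) := by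
    apply hom_ext'
    intro j
    simp only [MonoidHom.comp_apply, S_X, θ_X]
    split_ifs with h1 h2 h2
    · rw [S_X]
    · omega
    · omega
    · rw [S_X]
  exact DFunLike.congr_fun this z

theorem special_θ {a : Binf} (ha : Special a) :
    ∃ (H : Binf) (k : ℕ), ∀ z, Φ a (S z) = Φ H (θ k (Φ H⁻¹ z)) := by
  induction ha with
  | one => exact ⟨1, 0, fun z => by simp [θ_zero]⟩
  | wedge a b _ _ _ ihb =>
    obtain ⟨K, k, hK⟩ := ihb
    refine ⟨a * sh K, k + 1, fun z => ?_⟩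
    have key : ((Φ (sh b)).toMonoidHom).comp (θ 1) =
        ((Φ (sh K)).toMonoidHom).comp ((θ (k + 1)).comp (Φ (sh K)⁻¹).toMonoidHom) := by
      apply hom_ext'
      intro j
      show Φ (sh b) (θ 1 (X j)) = Φ (sh K) (θ (k + 1) (Φ (sh K)⁻¹ (X j)))
      cases j with
      | zero =>
        rw [θ_X, if_pos (by omega), Φ_sh_X0, Φ_sh_inv_X0, θ_X, if_pos (by omega), Φ_sh_X0]
      | succ j =>
        have e1 : θ 1 (X (j + 1)) = S (S (X j)) := by
          rw [θ_X, if_neg (by omega), S_X, S_X]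
        rw [e1, Φ_sh_S, hK, ← Φ_sh_S, ← θ_succ_S, ← Φ_sh_S, map_inv, S_X]
    have key' : ∀ y, Φ (sh b) (θ 1 y) = Φ (sh K) (θ (k + 1) (Φ (sh K)⁻¹ y)) :=
      fun y => DFunLike.congr_fun key y
    have e : Φ (wedge a b) (S z) = Φ a (Φ (sh b) (Φ (σ 0) (Φ (sh a)⁻¹ (S z)))) := by
      unfold wedge
      rw [Φ_mul, Φ_mul, Φ_mul]
    rw [e, ← map_inv, Φ_sh_S, Φ_σ0_S, key', mul_inv_rev, Φ_mul, Φ_mul]

theorem le_special_S {a : Binf} (ha : Special a) (z : FreeGroup ℕ) : Le z (Φ a (S z)) := by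
  obtain ⟨H, k, h⟩ := special_θ ha
  intro g l p r hg
  obtain ⟨l', p', r', h'⟩ := valid_act hg H
  rw [h, ← pos_act]
  have := inflation h' k (Φ H⁻¹ z)
  rwa [pos_act g H (Φ H⁻¹ z), Φ_apply_inv] at this

theorem le_X2 {a b : Binf} (ha : Special a) (hb : Special b) :
    Le (X 0) (Φ (a * sh b) (X 2)) := by
  have e : Φ (a * sh b) (X 2) = Φ a (S (Φ b (S (X 0)))) := by
    rw [Φ_mul, ← Φ_sh_S, S_X, S_X]
  rw [e]
  exact (le_special_S hb _).trans (le_special_S ha _)

end Pool.Agent.Helper59.Braid
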