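import Pool.Agent.Helper59.BraidSpecial

set_option autoImplicit false

/-!
# Words in `σ_0` and `σ_1⁻¹` and positions
-/

namespace Pool.Agent.Helper59.Braid

theorem pos_X_mul (g : ℕ → T) (i : ℕ) (y : FreeGroup ℕ) : pos g (X i * y) = g i (pos g y) := by
  simp [pos, mul_apply_T]

theorem pos_X_inv_mul (g : ℕ → T) (i : ℕ) (y : FreeGroup ℕ) :
    pos g ((X i)⁻¹ * y) = (g i)⁻¹ (pos g y) := by
  simp [pos, mul_apply_T]

theorem pos_X (g : ℕ → T) (i : ℕ) : pos g (X i) = g i 0 := by simp [pos]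

/-- position in a translate of the first sector -/
def Sec1 (y : FreeGroup ℕ) : Prop :=
  ∀ g l p r, Valid g l p r → ∃ k : ℤ, l 0 + k ≤ pos g y ∧ pos g y ≤ r 0 + k

/-- position in a translate of the region right of the second sector -/
def SecSS (y : FreeGroup ℕ) : Prop :=
  ∀ g l p r, Valid g l p r → ∃ k : ℤ, r 1 + k < pos g y ∧ pos g y < 1 + k

def UU (z : FreeGroup ℕ) : Prop := ∃ y, z = X 0 * (X 1 * y) ∧ Sec1 y

def VV (z : FreeGroup ℕ) : Prop := z = X 0 ∨ UU z ∨ ∃ v, z = X 0 * v ∧ SecSS v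

theorem inv0_zero {g : ℕ → T} {l p r : ℕ → ℝ} (hg : Valid g l p r) :
    p 0 - 1 < (g 0)⁻¹ 0 ∧ (g 0)⁻¹ 0 ≤ r 0 - 1 := by
  have h := hg.pull_of (i := 0) (t := 0) (k := -1)
    (by have := hg.p_lt_one 0; push_cast; linarith)
    (by have := hg.l_pos 0; push_cast; linarith)
  push_cast at h
  constructor <;> linarith [h.1, h.2]

theorem Sec1_X0_inv : Sec1 (X 0)⁻¹ := by
  intro g l p r hg
  refine ⟨-1, ?_⟩
  have h1 : pos g (X 0)⁻¹ = (g 0)⁻¹ 0 := by simp [pos]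
  rw [h1]
  have h2 := inv0_zero hg
  have := hg.l_lt_p 0
  push_cast
  constructor <;> linarith [h2.1, h2.2]

theorem Sec1.act_σ {y : FreeGroup ℕ} (h : Sec1 y) : Sec1 (Φ (σ 0) y) := by
  intro g l p r hg
  obtain ⟨l', p', r', h', -, -, e1, e2, -⟩ := valid_σ hg 0
  obtain ⟨k, h1, h2⟩ := h _ _ _ _ h'
  refine ⟨k, ?_⟩
  rw [← pos_act]
  have := hg.p_lt_r 0
  constructor <;> linarith

theorem Sec1.act_sh {y : FreeGroup ℕ} (h : Sec1 y) (β : Binf) : Sec1 (Φ (sh β) y) := by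
  intro g l p r hg
  obtain ⟨l', p', r', h', e1, -, e3⟩ := valid_act_sh hg β
  obtain ⟨k, h1, h2⟩ := h _ _ _ _ h'
  refine ⟨k, ?_⟩
  rw [← pos_act, ← e1, ← e3]
  exact ⟨h1, h2⟩

theorem Sec1.act_σ1_inv {y : FreeGroup ℕ} (h : Sec1 y) : Sec1 (Φ (σ 1)⁻¹ y) := by
  have e : (σ 1)⁻¹ = sh (σ 0)⁻¹ := by rw [map_inv, sh_σ]
  rw [e]
  exact h.act_sh _

theorem SecSS.act_σ1_inv {y : FreeGroup ℕ} (h : SecSS y) : SecSS (Φ (σ 1)⁻¹ y) := by
  intro g l p r hg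
  obtain ⟨l', p', r', h', -, -, e1, -⟩ := valid_σ_inv hg 1
  obtain ⟨k, h1, h2⟩ := h _ _ _ _ h'
  refine ⟨k, ?_⟩
  rw [← pos_act]
  have h3 := h'.p_lt_r 1
  have h4 := hg.r_lt_l 1
  have h5 := hg.l_lt_p (1 + 1)
  constructor <;> linarith

theorem Sec1.X_mul {y : FreeGroup ℕ} (h : Sec1 y) : SecSS (X 2 * y) := by
  intro g l p r hg
  obtain ⟨k, h1, h2⟩ := h _ _ _ _ hg
  refine ⟨k, ?_⟩
  rw [pos_X_mul]
  have h3 := hg.r_lt_l 0
  have h4 := hg.l_lt_p (0 + 1)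
  have h5 := hg.p_lt_r (0 + 1)
  have h6 := hg.r_lt_l (0 + 1)
  have h7 := hg.l_lt_p (0 + 1 + 1)
  have h8 := hg.r_lt_one 2
  have h9 := hg.l_pos 0
  have h10 := hg.p_lt_one 2
  norm_num at h3 h4 h5 h6 h7
  have := hg.push_of (i := 2) (t := pos g y) (k := k) (by linarith) (by linarith)
  constructor <;> linarith [this.1, this.2]

theorem SecSS.X_inv_mul {y : FreeGroup ℕ} (h : SecSS y) : Sec1 ((X 0)⁻¹ * Φ (σ 0) y) := by
  intro g l p r hg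
  obtain ⟨l', p', r', h', -, -, e1, e2, e3, e4, e5⟩ := valid_σ hg 0
  obtain ⟨k, h1, h2⟩ := h _ _ _ _ h'
  refine ⟨k, ?_⟩
  rw [pos_X_inv_mul, ← pos_act]
  have h3 := hg.r_lt_l 0
  have h4 := hg.l_lt_p (0 + 1)
  have h5 := hg.p_lt_r (0 + 1)
  have h6 := hg.l_lt_p 0
  have h7 := hg.p_lt_r 0
  have h8 := hg.l_pos 0
  norm_num at *
  have := hg.pull_of (i := 0) (t := pos (act g (σ 0)) y) (k := k) (by linarith) (by linarith)
  constructor <;> linarith [this.1, this.2]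

theorem VV.σ0 {z : FreeGroup ℕ} (h : VV z) : UU (Φ (σ 0) z) := by
  rcases h with rfl | ⟨y, rfl, hy⟩ | ⟨v, rfl, hv⟩
  · exact ⟨(X 0)⁻¹, by rw [Φ_σ0_X0, mul_assoc], Sec1_X0_inv⟩
  · refine ⟨Φ (Braid.σ 0) y, ?_, hy.act_σ⟩
    rw [map_mul, map_mul, Φ_σ0_X0, Φ_σ0_X1]
    group
  · refine ⟨(X 0)⁻¹ * Φ (Braid.σ 0) v, ?_, hv.X_inv_mul⟩
    rw [map_mul, Φ_σ0_X0]
    group

theorem Φ_σ1_inv_X0 : Φ (σ 1)⁻¹ (X 0) = X 0 := Φ_inv_eq (Φ_σ_X_of_lt (by omega))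

theorem Φ_σ1_inv_X1 : Φ (σ 1)⁻¹ (X 1) = X 2 := Φ_inv_eq Φ_σ1_X2

theorem VV.σ1_inv {z : FreeGroup ℕ} (h : VV z) : VV (Φ (σ 1)⁻¹ z) := by
  rcases h with rfl | ⟨y, rfl, hy⟩ | ⟨v, rfl, hv⟩
  · left
    exact Φ_σ1_inv_X0
  · right; right
    refine ⟨X 2 * Φ (σ 1)⁻¹ y, ?_, hy.act_σ1_inv.X_mul⟩
    rw [map_mul, map_mul, Φ_σ1_inv_X0, Φ_σ1_inv_X1]
  · right; right
    refine ⟨Φ (σ 1)⁻¹ v, ?_, hv.act_σ1_inv⟩
    rw [map_mul, Φ_σ1_inv_X0]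

/-- the monoid generated by `σ_0` and `σ_1⁻¹` -/
def Np : Submonoid Binf := Submonoid.closure {σ 0, (σ 1)⁻¹}

theorem σ0_mem : σ 0 ∈ Np := Submonoid.subset_closure (by simp)
theorem σ1_inv_mem : (σ 1)⁻¹ ∈ Np := Submonoid.subset_closure (by simp)

theorem Np_induction {P : Binf → Prop} (h1 : P 1) (h2 : ∀ M, M ∈ Np → P M → P (σ 0 * M))
    (h3 : ∀ M, M ∈ Np → P M → P ((σ 1)⁻¹ * M)) {M : Binf} (hM : M ∈ Np) : P M := by
  refine Submonoid.closure_induction_left (motive := fun M _ => P M) h1 ?_ hM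
  rintro x hx y hy hP
  rcases hx with rfl | hx
  · exact h2 y hy hP
  · rw [Set.mem_singleton_iff] at hx
    subst hx
    exact h3 y hy hP

theorem VV_of_mem {M : Binf} (hM : M ∈ Np) : VV (Φ M (X 0)) := by
  refine Np_induction (P := fun M => VV (Φ M (X 0))) ?_ ?_ ?_ hM
  · left; simp
  · intro M _ h
    rw [Φ_mul]
    exact Or.inr (Or.inl h.σ0)
  · intro M _ h
    rw [Φ_mul]
    exact h.σ1_inv

theorem UU_of_mem {M : Binf} (hM : M ∈ Np) : UU (Φ (σ 0 * M) (X 0)) := by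
  rw [Φ_mul]
  exact (VV_of_mem hM).σ0

theorem U_pos {g : ℕ → T} {l p r : ℕ → ℝ} (hg : Valid g l p r) {M : Binf} (hM : M ∈ Np) :
    ∃ τ, l 0 - 1 ≤ τ ∧ τ ≤ r 0 - 1 ∧ pos g (Φ (σ 0 * M) (X 0)) = g 0 (g 1 τ) := by
  have hl := pos_loop hg (σ 0 * M) 0
  obtain ⟨y, hy, hs⟩ := UU_of_mem hM
  rw [hy, pos_X_mul, pos_X_mul] at hl ⊢
  obtain ⟨k, h1, h2⟩ := hs g l p r hg
  have h3 := hg.r_lt_l 0
  have h4 := hg.l_lt_p (0 + 1)
  have h5 := hg.r_lt_one 1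
  have h6 := hg.l_pos 0
  have h7 := hg.p_lt_one 1
  norm_num at h3 h4
  have h8 := hg.push_of (i := 1) (t := pos g y) (k := k) (by linarith) (by linarith)
  have h9 : g 0 (r 0 + k) ≤ g 0 (g 1 (pos g y)) := (g 0).monotone (by linarith [h8.1])
  have h10 : g 0 (g 1 (pos g y)) < g 0 (0 + ((1 + k : ℤ) : ℝ)) :=
    (g 0).strictMono (by push_cast; linarith [h8.2])
  rw [hg.per_int] at h9 h10
  have h11 := hg.push 0
  have h12 : g 0 0 < p 0 := by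
    have := hg.push_of (i := 0) (t := 0) (k := 0)
      (by have := hg.r_lt_one 0; push_cast; linarith)
      (by have := hg.p_pos 0; push_cast; linarith)
    have h := this.2
    push_cast at h
    linarith
  have h13 := hg.p_lt_one 0
  push_cast at h10
  have hk1 : (k : ℝ) < 0 := by linarith [hl.2]
  have hk2 : (-2 : ℝ) < k := by linarith [hl.1]
  have hk1' : k < 0 := by exact_mod_cast hk1
  have hk2' : -2 < k := by exact_mod_cast hk2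
  have hk : k = -1 := by omega
  subst hk
  push_cast at h1 h2
  exact ⟨pos g y, by linarith, by linarith, rfl⟩

/-- positions of `sh(h) σ_0 M x_0` -/
theorem W_pos {g : ℕ → T} {l p r : ℕ → ℝ} (hg : Valid g l p r) (h : Binf) {M : Binf}
    (hM : M ∈ Np) :
    ∃ γ : T, γ = ρ g (S (Φ h (X 0))) ∧ (∀ t, γ (t - 1) = γ t - 1) ∧
      (∃ t, r 0 < t ∧ t < 1 ∧ γ t = t) ∧
      ∃ τ, l 0 - 1 ≤ τ ∧ τ ≤ r 0 - 1 ∧
        pos g (Φ (sh h * (σ 0 * M)) (X 0)) = g 0 (γ τ) := by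
  obtain ⟨l', p', r', h', e1, e2, e3⟩ := valid_act_sh hg h
  have hγ : act g (sh h) 1 = ρ g (S (Φ h (X 0))) := by
    show ρ g (Φ (sh h) (X 1)) = _
    rw [← Φ_sh_S, S_X]
  refine ⟨act g (sh h) 1, hγ, fun t => h'.per_sub 1 t, ⟨p' 1, ?_, h'.p_lt_one 1, h'.fix 1⟩, ?_⟩
  · rw [← e3]
    have h1 := h'.r_lt_l 0
    have h2 := h'.l_lt_p (0 + 1)
    norm_num at h1 h2
    linarith
  · obtain ⟨τ, h1, h2, h3⟩ := U_pos h' hM
    rw [e1] at h1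
    rw [e3] at h2
    rw [act_sh_zero] at h3
    refine ⟨τ, h1, h2, ?_⟩
    rw [← h3, pos_act, Φ_mul]

theorem word_lt_X0 (h : Binf) {M : Binf} (hM : M ∈ Np) :
    Lt (Φ (sh h * (σ 0 * M)) (X 0)) (X 0) := by
  intro g l p r hg
  obtain ⟨γ, -, h1, ⟨t, h2, h3, h4⟩, τ, h5, h6, h7⟩ := W_pos hg h hM
  rw [h7, pos_X, T_lt_iff]
  have h8 : γ τ < γ (t - 1) := γ.strictMono (by linarith)
  rw [h1, h4] at h8
  linarith

/-- a quantitative form of `σ_0 x_0 ≺ y` -/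
def Qp (y : FreeGroup ℕ) : Prop := ∀ g l p r, Valid g l p r → g 0 (r 1 - 1) < pos g y

theorem Qp.mono {y z : FreeGroup ℕ} (h : Qp y) (h2 : Le y z) : Qp z :=
  fun g l p r hg => (h g l p r hg).trans_le (h2 g l p r hg)

theorem Qp.lt {y : FreeGroup ℕ} (h : Qp y) : Lt (Φ (σ 0) (X 0)) y := by
  intro g l p r hg
  refine lt_trans ?_ (h g l p r hg)
  have h1 : pos g (X 0 * X 1 * (X 0)⁻¹) = g 0 (g 1 ((g 0)⁻¹ 0)) := by simp [pos, mul_apply_T]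
  rw [Φ_σ0_X0, h1, T_lt_iff]
  have h2 := (inv0_zero hg).2
  have h3 := hg.r_lt_l 0
  have h4 := hg.l_lt_p (0 + 1)
  have h5 := hg.p_lt_r (0 + 1)
  norm_num at h3 h4 h5
  have h6 : g 1 ((g 0)⁻¹ 0) < g 1 (p 1 - 1) := (g 1).strictMono (by linarith)
  rw [hg.per_sub, hg.fix] at h6
  linarith

theorem syl {h : Binf} (hh : PS (Φ h (X 0))) {M : Binf} (hM : M ∈ Np) :
    Qp (Φ (sh h * (σ 0 * M)) (X 0)) := by
  intro g l p r hg
  obtain ⟨γ, h0, h1, -, τ, h5, h6, h7⟩ := W_pos hg h hM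
  rw [h7, T_lt_iff]
  have h8 : γ (0 - 1) < γ τ := γ.strictMono (by have := hg.l_pos 0; linarith)
  rw [h1] at h8
  have h9 : γ 0 = pos g (S (Φ h (X 0))) := by rw [h0]; rfl
  have h10 := hh.shift g l p r hg
  linarith

theorem sylA {h : Binf} (hh : Qp (Φ h (X 0))) {M : Binf} (hM : M ∈ Np) :
    Lt (Φ (σ 1 * σ 0) (X 0)) (Φ (sh h * (σ 0 * M)) (X 0)) := by
  intro g l p r hg
  obtain ⟨γ, h0, h1, -, τ, h5, h6, h7⟩ := W_pos hg h hM
  rw [h7, Φ_mul, Φ_σ0_X0]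
  have e : Φ (σ 1) (X 0 * X 1 * (X 0)⁻¹) = X 0 * (X 1 * X 2 * (X 1)⁻¹) * (X 0)⁻¹ := by
    rw [map_mul, map_mul, map_inv, Φ_σ_X_of_lt (by omega), Φ_σ1_X1]
  have h2 : pos g (X 0 * (X 1 * X 2 * (X 1)⁻¹) * (X 0)⁻¹) =
    g 0 (g 1 (g 2 ((g 1)⁻¹ ((g 0)⁻¹ 0)))) := by simp [pos, mul_apply_T]
  rw [e, h2, T_lt_iff]
  have h8 : γ (0 - 1) < γ τ := γ.strictMono (by have := hg.l_pos 0; linarith)
  rw [h1] at h8
  have h9 : γ 0 = pos (fun i => g (i + 1)) (Φ h (X 0)) := by rw [h0, ← pos_S]; rfl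
  have h10 := hh _ _ _ _ hg.shift
  norm_num at h10
  rw [← h9] at h10
  have h11 : g 1 (r 2 - 1 - 1) < γ τ := by
    rw [hg.per_sub]
    linarith
  refine lt_trans ?_ h11
  rw [T_lt_iff]
  have h2 := (inv0_zero hg).2
  have h3 := hg.r_lt_l 0
  norm_num at h3
  have h5 : (g 1)⁻¹ ((g 0)⁻¹ 0) < r 1 - 1 - 1 := by
    rw [T_inv_lt, hg.per_sub, hg.per_sub]
    have := hg.push 1
    linarith
  have h6 : g 2 ((g 1)⁻¹ ((g 0)⁻¹ 0)) < g 2 (p 2 - 1 - 1) := by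
    rw [T_lt_iff]
    have := hg.r_lt_l 1
    have := hg.l_lt_p (1 + 1)
    norm_num at *
    linarith
  rw [hg.per_sub, hg.per_sub, hg.fix] at h6
  have := hg.p_lt_r 2
  linarith

/-- `y` has a fixed point before `z` -/
def FB (y z : FreeGroup ℕ) : Prop :=
  ∀ g l p r, Valid g l p r → ∃ t, 0 < t ∧ ρ g y t = t ∧ t < pos g z

theorem FB.act {y z : FreeGroup ℕ} (h : FB y z) (β : Binf) : FB (Φ β y) (Φ β z) := by
  intro g l p r hg
  obtain ⟨l', p', r', h'⟩ := valid_act hg β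
  rw [← pos_act, ← ρ_act]
  exact h _ _ _ _ h'

theorem FB.lt {y z : FreeGroup ℕ} (h : FB y z) : Lt y z := by
  intro g l p r hg
  obtain ⟨t, h1, h2, h3⟩ := h g l p r hg
  have h4 : ρ g y 0 < ρ g y t := (ρ g y).strictMono h1
  rw [h2] at h4
  exact h4.trans h3

theorem valid_σ0_inv_pow {g : ℕ → T} {l p r : ℕ → ℝ} (hg : Valid g l p r) (n : ℕ) :
    ∃ l' p' r', Valid (act g (σ 0 ^ (n + 1))⁻¹) l' p' r' ∧ p' 0 < r 1 ∧ r' 1 = r 1 := by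
  induction n with
  | zero =>
    obtain ⟨l', p', r', h', -, -, e1, e2⟩ := valid_σ_inv hg 0
    refine ⟨l', p', r', by simpa using h', ?_, e2⟩
    rw [e1]
    exact hg.p_lt_r 1
  | succ n ih =>
    obtain ⟨l', p', r', h', e1, e2⟩ := ih
    obtain ⟨l2, p2, r2, h2, -, -, f1, f2⟩ := valid_σ_inv h' 0
    refine ⟨l2, p2, r2, ?_, ?_, f2.trans e2⟩
    · rw [pow_succ', mul_inv_rev, act_mul]
      exact h2
    · rw [f1, ← e2]
      exact h'.p_lt_r 1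

theorem PSS.fb {y : FreeGroup ℕ} (h : PSS y) (n : ℕ) : FB (Φ (σ 0 ^ (n + 1))⁻¹ (X 0)) y := by
  intro g l p r hg
  obtain ⟨l', p', r', h', e1, -⟩ := valid_σ0_inv_pow hg n
  refine ⟨p' 0, h'.p_pos 0, ?_, e1.trans (h g l p r hg)⟩
  rw [← ρ_act, ρ_X]
  exact h'.fix 0

theorem pow_mem_Np (j : ℕ) : σ 0 ^ j ∈ Np := pow_mem σ0_mem j

theorem word_lt_pow {h : Binf} (hh : FB (Φ h (X 0)) (X 0)) {M : Binf} (hM : M ∈ Np) (j : ℕ) :
    Lt (Φ (sh h * (σ 0 * M)) (X 0)) (Φ (σ 0 ^ j) (X 0)) := by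
  cases j with
  | zero =>
    rw [pow_zero, map_one, MulAut.one_apply]
    exact word_lt_X0 h hM
  | succ j =>
    intro g l p r hg
    obtain ⟨γ, h0, h1, -, τ, h5, h6, h7⟩ := W_pos hg h hM
    obtain ⟨τ', k1, k2, k3⟩ := U_pos hg (pow_mem_Np j)
    rw [pow_succ', h7, k3, T_lt_iff]
    obtain ⟨t, f1, f2, f3⟩ := hh _ _ _ _ hg.shift
    have e1 : ρ (fun i => g (i + 1)) (Φ h (X 0)) = γ := by rw [h0, ρ_S]
    rw [e1] at f2
    rw [pos_X] at f3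
    have e2 : r 0 < γ 0 := by
      have := (ps_X1.act_sh h) g l p r hg
      rw [← S_X, Φ_sh_S] at this
      rw [h0]
      exact this
    have e3 : γ 0 < γ t := γ.strictMono f1
    have e4 : γ (r 0) < γ t := γ.strictMono (by linarith)
    have e5 : γ τ ≤ γ (r 0 - 1) := γ.monotone h6
    rw [h1] at e5
    have e6 : g 1 (0 - 1) < g 1 τ' := (g 1).strictMono (by have := hg.l_pos 0; linarith)
    rw [hg.per_sub] at e6
    have f3' : t < g 1 0 := f3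
    linarith

end Pool.Agent.Helper59.Braid
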