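import Pool.Agent.Helper73.EK.Defs

/-!
# Euler–Kronecker constants for `h = 2` in terms of `L'/L(1, χ)`
-/

set_option autoImplicit false

namespace Pool.Agent.Helper59.EKLimit

open Filter Topology Pool.Agent.Helper73.EK
open scoped ArithmeticFunction.sigma

section Arith

variable {q : ℕ}

lemma mem_iff {k n : ℕ} : n ∈ sigmaSet k q ↔ n ≠ 0 ∧ ((σ k n : ℕ) : ZMod q) ≠ 0 := by
  change 1 ≤ n ∧ _ ↔ _
  rw [Nat.one_le_iff_ne_zero, ← ArithmeticFunction.sigma_apply, ne_eq, ne_eq,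
    ZMod.natCast_eq_zero_iff]

lemma mul_mem_iff (hq : q.Prime) {k m n : ℕ} (hmn : m.Coprime n) :
    m * n ∈ sigmaSet k q ↔ m ∈ sigmaSet k q ∧ n ∈ sigmaSet k q := by
  have := Fact.mk hq
  rw [mem_iff, mem_iff, mem_iff, ArithmeticFunction.isMultiplicative_sigma.map_mul_of_coprime hmn]
  push_cast
  simp only [ne_eq, mul_eq_zero, not_or]
  tauto

lemma sigma_prime_pow (hq : q.Prime) (hq5 : 5 ≤ q) {p a : ℕ} (hp : p.Prime) :
    ((σ ((q - 1) / 2) (p ^ a) : ℕ) : ZMod q)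
      = ∑ i ∈ Finset.range (a + 1), ((jacobiSym (p : ℤ) q : ℤ) : ZMod q) ^ i := by
  have := Fact.mk hq
  have hodd : q % 2 = 1 := by
    rcases hq.eq_two_or_odd with h | h
    · omega
    · exact h
  have hk : (q - 1) / 2 = q / 2 := by omega
  rw [ArithmeticFunction.sigma_apply_prime_pow hp, hk]
  push_cast
  refine Finset.sum_congr rfl fun i _ => ?_
  rw [← jacobiSym.legendreSym.to_jacobiSym, legendreSym.eq_pow]
  push_cast
  rw [← pow_mul, mul_comm, pow_mul]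

lemma mem_one (hq : q.Prime) (hq5 : 5 ≤ q) {p a : ℕ} (hp : p.Prime)
    (hJ : jacobiSym (p : ℤ) q = 1) : p ^ a ∈ sigmaSet ((q - 1) / 2) q ↔ ¬ q ∣ a + 1 := by
  have := Fact.mk hq
  rw [mem_iff, sigma_prime_pow hq hq5 hp, hJ]
  simp only [Int.cast_one, one_pow, Finset.sum_const, Finset.card_range, nsmul_eq_mul, mul_one]
  rw [ne_eq, ne_eq, ZMod.natCast_eq_zero_iff]
  constructor
  · exact fun h => h.2
  · exact fun h => ⟨pow_ne_zero _ hp.ne_zero, h⟩

lemma mem_zero (hq : q.Prime) (hq5 : 5 ≤ q) {p a : ℕ} (hp : p.Prime)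
    (hJ : jacobiSym (p : ℤ) q = 0) : p ^ a ∈ sigmaSet ((q - 1) / 2) q := by
  have := Fact.mk hq
  rw [mem_iff, sigma_prime_pow hq hq5 hp, hJ]
  refine ⟨pow_ne_zero _ hp.ne_zero, ?_⟩
  rw [Finset.sum_range_succ']
  simp

lemma mem_neg (hq : q.Prime) (hq5 : 5 ≤ q) {p a : ℕ} (hp : p.Prime)
    (hJ : jacobiSym (p : ℤ) q = -1) : p ^ a ∈ sigmaSet ((q - 1) / 2) q ↔ Even a := by
  have := Fact.mk hq
  rw [mem_iff, sigma_prime_pow hq hq5 hp, hJ]
  push_cast
  rw [neg_one_geom_sum]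
  constructor
  · rintro ⟨-, h⟩
    by_contra h'
    apply h
    rw [if_pos (by simpa [Nat.even_add_one] using h')]
  · intro h
    refine ⟨pow_ne_zero _ hp.ne_zero, ?_⟩
    rw [if_neg (by simpa [Nat.even_add_one] using h)]
    exact one_ne_zero

end Arith

section Local

/-- geometric series along an arithmetic progression -/
lemma hasSum_ap {x : ℝ} (hx0 : 0 ≤ x) (hx1 : x < 1) {N : ℕ} (hN : N ≠ 0) (c : ℕ)
    (P : ℕ → Prop) [DecidablePred P] (hP : ∀ a, P a ↔ ∃ m, N * m + c = a) :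
    HasSum (fun a => if P a then x ^ a else 0) (x ^ c * (1 - x ^ N)⁻¹) := by
  have hinj : Function.Injective (fun m : ℕ => N * m + c) := by
    intro a b h
    simp only [add_left_inj] at h
    exact Nat.eq_of_mul_eq_mul_left (Nat.pos_of_ne_zero hN) h
  rw [← hinj.hasSum_iff]
  · have h1 : HasSum (fun m : ℕ => x ^ c * (x ^ N) ^ m) (x ^ c * (1 - x ^ N)⁻¹) :=
      (hasSum_geometric_of_lt_one (pow_nonneg hx0 N) (pow_lt_one₀ hx0 hx1 hN)).mul_left _
    convert h1 using 1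
    funext m
    simp only [Function.comp_apply]
    rw [if_pos ((hP _).2 ⟨m, rfl⟩), ← pow_mul, pow_add, mul_comm]
  · intro a ha
    rw [if_neg]
    intro h
    exact ha ((hP a).1 h)

open Classical in
/-- The local factor of the indicator function of `S`. -/
noncomputable def locF (k q p : ℕ) (x : ℝ) : ℝ := ∑' a : ℕ, if p ^ a ∈ sigmaSet k q then x ^ a else 0

/-- logarithm of the correction factor -/
noncomputable def hL (q p : ℕ) (x : ℝ) : ℝ :=
  if jacobiSym (p : ℤ) q = -1 then - Real.log (1 - x ^ 2)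
  else if jacobiSym (p : ℤ) q = 0 then - Real.log (1 - x ^ 1)
  else 2 * Real.log (1 - x ^ (q - 1)) - 2 * Real.log (1 - x ^ q)

lemma one_sub_pos {x : ℝ} (hx0 : 0 ≤ x) (hx1 : x < 1) {N : ℕ} (hN : N ≠ 0) : 0 < 1 - x ^ N :=
  sub_pos.2 (pow_lt_one₀ hx0 hx1 hN)

lemma loc_sq {q : ℕ} (hq : q.Prime) (hq5 : 5 ≤ q) {p : ℕ} (hp : p.Prime) {x : ℝ} (hx0 : 0 ≤ x)
    (hx1 : x < 1) :
    (locF ((q - 1) / 2) q p x) ^ 2
      = (1 - x)⁻¹ * (1 - (jacobiSym (p : ℤ) q : ℝ) * x)⁻¹ * Real.exp (hL q p x) := by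
  classical
  have h1 : 0 < 1 - x := sub_pos.2 hx1
  rcases jacobiSym.trichotomy (p : ℤ) q with hJ | hJ | hJ
  · -- J = 0
    have hs : locF ((q - 1) / 2) q p x = (1 - x)⁻¹ := by
      rw [locF]
      simp only [mem_zero hq hq5 hp hJ, if_true]
      exact tsum_geometric_of_lt_one hx0 hx1
    rw [hs, hL, if_neg (by rw [hJ]; decide), if_pos hJ, hJ, pow_one, Real.exp_neg, Real.exp_log h1]
    simp only [Int.cast_zero, zero_mul, sub_zero, inv_one, mul_one]
    rw [sq]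
  · -- J = 1
    have hs : locF ((q - 1) / 2) q p x = (1 - x)⁻¹ - x ^ (q - 1) * (1 - x ^ q)⁻¹ := by
      have e1 := hasSum_geometric_of_lt_one hx0 hx1
      have e2 := hasSum_ap hx0 hx1 (N := q) (by omega) (q - 1) (fun a => q ∣ a + 1) (by
        intro a
        constructor
        · rintro ⟨m, hm⟩
          rcases m with _ | m
          · simp at hm
          · refine ⟨m, ?_⟩
            rw [mul_add, mul_one] at hm
            omega
        · rintro ⟨m, hm⟩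
          refine ⟨m + 1, ?_⟩
          rw [← hm, mul_add, mul_one]
          omega)
      have e3 := (e1.sub e2).tsum_eq
      rw [← e3, locF]
      refine tsum_congr fun a => ?_
      rw [if_congr (mem_one hq hq5 hp hJ) rfl rfl]
      by_cases h : q ∣ a + 1
      · rw [if_neg (not_not.2 h), if_pos h, sub_self]
      · rw [if_pos h, if_neg h, sub_zero]
    have h2 : 0 < 1 - x ^ (q - 1) := one_sub_pos hx0 hx1 (by omega)
    have h3 : 0 < 1 - x ^ q := one_sub_pos hx0 hx1 (by omega)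
    have hs' : locF ((q - 1) / 2) q p x = (1 - x ^ (q - 1)) * ((1 - x)⁻¹ * (1 - x ^ q)⁻¹) := by
      rw [hs]
      have : x ^ q = x ^ (q - 1) * x := by
        rw [← pow_succ]
        congr 1
        omega
      rw [this] at h3 ⊢
      generalize x ^ (q - 1) = w at h3 ⊢
      have hb : 1 - w = (1 - w * x) - w * (1 - x) := by ring
      rw [hb]
      generalize 1 - w * x = b at h3 ⊢
      generalize 1 - x = a at h1 ⊢
      have h1' := h1.ne'
      have h3' := h3.ne'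
      field_simp
    rw [hs', hL, if_neg (by rw [hJ]; decide), if_neg (by rw [hJ]; decide), hJ, Real.exp_sub,
      two_mul, two_mul, Real.exp_add, Real.exp_add, Real.exp_log h2, Real.exp_log h3]
    push_cast
    rw [one_mul]
    field_simp
  · -- J = -1
    have hs : locF ((q - 1) / 2) q p x = (1 - x ^ 2)⁻¹ := by
      have e2 := hasSum_ap hx0 hx1 (N := 2) (by omega) 0 (fun a => Even a) (by
        intro a
        constructor
        · rintro ⟨m, hm⟩
          exact ⟨m, by omega⟩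
        · rintro ⟨m, hm⟩
          exact ⟨m, by omega⟩)
      rw [pow_zero, one_mul] at e2
      rw [← e2.tsum_eq, locF]
      refine tsum_congr fun a => ?_
      rw [if_congr (mem_neg hq hq5 hp hJ) rfl rfl]
    have h2 : 0 < 1 - x ^ 2 := one_sub_pos hx0 hx1 (by omega)
    rw [hs, hL, if_pos hJ, hJ, Real.exp_neg, Real.exp_log h2]
    push_cast
    have h3 : 0 < 1 + x := by linarith
    have h4 : (1 - x ^ 2) = (1 - x) * (1 + x) := by ring
    rw [h4]
    have h5 : (1 - (-1) * x) = 1 + x := by ring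
    rw [h5]
    field_simp

end Local

section Euler

lemma x_pos {p : ℕ} (hp : p.Prime) (s : ℝ) : 0 < (p : ℝ) ^ (-s) :=
  Real.rpow_pos_of_pos (by exact_mod_cast hp.pos) _

lemma x_lt_one {p : ℕ} (hp : p.Prime) {s : ℝ} (hs : 0 < s) : (p : ℝ) ^ (-s) < 1 :=
  Real.rpow_lt_one_of_one_lt_of_neg (by exact_mod_cast hp.one_lt) (by linarith)

open Classical in
/-- Euler product of the Dirichlet series. -/
lemma dirSeries_hasProd {q k : ℕ} (hq : q.Prime) {s : ℝ} (hs : 1 < s) :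
    HasProd (fun p : Nat.Primes => locF k q p ((p : ℝ) ^ (-s))) (dirSeries k q s) := by
  have h1 := EulerProduct.eulerProduct_hasProd
    (f := fun n : ℕ => if n ∈ sigmaSet k q then (n : ℝ) ^ (-s) else 0) ?_ ?_ ?_ ?_
  · rw [dirSeries]
    have h2 : (fun p : Nat.Primes => locF k q p ((p : ℝ) ^ (-s))) = (fun p : Nat.Primes =>
        ∑' e : ℕ, if (p : ℕ) ^ e ∈ sigmaSet k q then (((p : ℕ) ^ e : ℕ) : ℝ) ^ (-s) else 0) := by
      funext p
      rw [locF]
      refine tsum_congr fun a => ?_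
      split_ifs
      · push_cast
        rw [← Real.rpow_natCast, ← Real.rpow_natCast, ← Real.rpow_mul (by positivity),
          ← Real.rpow_mul (by positivity), mul_comm]
      · rfl
    rw [h2]
    exact h1
  · -- f 1 = 1
    rw [if_pos]
    · simp
    · rw [mem_iff]
      have := Fact.mk hq
      simp
  · -- coprime multiplicative
    intro m n hmn
    rw [if_congr (mul_mem_iff hq hmn) rfl rfl]
    by_cases hm : m ∈ sigmaSet k q <;> by_cases hn : n ∈ sigmaSet k q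
    · rw [if_pos ⟨hm, hn⟩, if_pos hm, if_pos hn]
      push_cast
      rw [Real.mul_rpow (by positivity) (by positivity)]
    · rw [if_neg (fun h => hn h.2), if_neg hn, mul_zero]
    · rw [if_neg (fun h => hm h.1), if_neg hm, zero_mul]
    · rw [if_neg (fun h => hm h.1), if_neg hm, zero_mul]
  · -- summable
    have h0 : Summable (fun n : ℕ => (n : ℝ) ^ (-s)) := Real.summable_nat_rpow.2 (by linarith)
    refine Summable.of_nonneg_of_le (fun n => norm_nonneg _) (fun n => ?_) h0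
    split_ifs
    · rw [Real.norm_of_nonneg (by positivity)]
    · rw [norm_zero]
      positivity
  · rw [if_neg]
    rw [mem_iff]
    simp

/-- Values of the quadratic character. -/
lemma key_complex {q : ℕ} [NeZero q] (hq : q.Prime) (hq5 : 5 ≤ q) (χ : DirichletCharacter ℂ q)
    (hχ : ∀ n : ℕ, χ (n : ZMod q) = ((jacobiSym (n : ℤ) q : ℤ) : ℂ)) {s : ℝ} (hs : 1 < s)
    (hsum : Summable (fun p : Nat.Primes => hL q p ((p : ℝ) ^ (-s)))) :
    (((dirSeries ((q - 1) / 2) q s) ^ 2 : ℝ) : ℂ)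
      = riemannZeta s * χ.LFunction s
        * ((Real.exp (∑' p : Nat.Primes, hL q p ((p : ℝ) ^ (-s))) : ℝ) : ℂ) := by
  have hs' : 1 < (s : ℂ).re := by simpa using hs
  have h1 := riemannZeta_eulerProduct_hasProd hs'
  have h2 := DirichletCharacter.LSeries_eulerProduct_hasProd χ hs'
  rw [← DirichletCharacter.LFunction_eq_LSeries χ hs'] at h2
  have h3 : HasProd (fun p : Nat.Primes => ((Real.exp (hL q p ((p : ℝ) ^ (-s))) : ℝ) : ℂ))
      ((Real.exp (∑' p : Nat.Primes, hL q p ((p : ℝ) ^ (-s))) : ℝ) : ℂ) := by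
    have := (hsum.hasSum.rexp).map Complex.ofRealHom Complex.continuous_ofReal
    exact this
  have h4 := (h1.mul h2).mul h3
  have h5 : HasProd (fun p : Nat.Primes =>
      (((locF ((q - 1) / 2) q p ((p : ℝ) ^ (-s))) ^ 2 : ℝ) : ℂ))
      (((dirSeries ((q - 1) / 2) q s) ^ 2 : ℝ) : ℂ) := by
    have e := (dirSeries_hasProd (k := (q - 1) / 2) hq hs).mul
      (dirSeries_hasProd (k := (q - 1) / 2) hq hs)
    simp only [← sq] at e
    exact e.map Complex.ofRealHom Complex.continuous_ofReal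
  refine h5.unique ?_
  convert h4 using 1
  funext p
  rw [loc_sq hq hq5 p.2 (x_pos p.2 s).le (x_lt_one p.2 (by linarith))]
  have hc : ((p : ℂ)) ^ (-(s : ℂ)) = (((p : ℝ) ^ (-s) : ℝ) : ℂ) := by
    rw [Complex.ofReal_cpow (by positivity)]
    push_cast
    rfl
  have hχp : χ ((p : ℕ) : ZMod q) = ((jacobiSym ((p : ℕ) : ℤ) q : ℤ) : ℂ) := hχ p
  rw [hc, hχp]
  push_cast
  rfl

end Euler

section Deriv

/-- basic derivative term -/
noncomputable def tD (p m : ℕ) (s : ℝ) : ℝ :=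
  m * Real.log p * ((p : ℝ) ^ (-s)) ^ m / (1 - ((p : ℝ) ^ (-s)) ^ m)

lemma hasDerivAt_term {p : ℕ} (hp : p.Prime) {m : ℕ} (hm : m ≠ 0) {s : ℝ} (hs : 0 < s) :
    HasDerivAt (fun s : ℝ => Real.log (1 - ((p : ℝ) ^ (-s)) ^ m)) (tD p m s) s := by
  have hp0 : (0 : ℝ) < p := by exact_mod_cast hp.pos
  have h1 : HasDerivAt (fun s : ℝ => (p : ℝ) ^ (-s)) (-(Real.log p * (p : ℝ) ^ (-s))) s := by
    have := (hasDerivAt_neg s).const_rpow (a := (p : ℝ)) hp0
    convert this using 1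
    ring
  have h1p : HasDerivAt (fun s : ℝ => ((p : ℝ) ^ (-s)) ^ m)
    (m * ((p : ℝ) ^ (-s)) ^ (m - 1) * (-(Real.log p * (p : ℝ) ^ (-s)))) s := h1.pow m
  have h2 := (h1p.const_sub 1).log
    (one_sub_pos (x_pos hp s).le (x_lt_one hp hs) hm).ne'
  convert h2 using 1
  rw [tD]
  congr 1
  obtain ⟨n, rfl⟩ := Nat.exists_eq_succ_of_ne_zero hm
  simp only [Nat.succ_eq_add_one, Nat.add_sub_cancel]
  rw [pow_succ]
  ring

lemma tD_nonneg {p : ℕ} (hp : p.Prime) {m : ℕ} (hm : m ≠ 0) {s : ℝ} (hs : 0 < s) :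
    0 ≤ tD p m s := by
  have h1 := one_sub_pos (x_pos hp s).le (x_lt_one hp hs) hm
  have h2 := (x_pos hp s).le
  have h3 : 0 ≤ Real.log p := Real.log_natCast_nonneg p
  rw [tD]
  positivity

lemma continuousOn_tD {p : ℕ} (hp : p.Prime) {m : ℕ} (hm : m ≠ 0) :
    ContinuousOn (tD p m) (Set.Ioi 0) := by
  have hp0 : (0 : ℝ) < p := by exact_mod_cast hp.pos
  have h1 : Continuous (fun s : ℝ => (p : ℝ) ^ (-s)) :=
    continuous_const.rpow continuous_neg (fun s => Or.inl hp0.ne')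
  unfold tD
  refine ContinuousOn.div ?_ ?_ ?_
  · exact (continuous_const.mul (h1.pow m)).continuousOn
  · exact (continuous_const.sub (h1.pow m)).continuousOn
  · intro s hs
    exact (one_sub_pos (x_pos hp s).le (x_lt_one hp hs) hm).ne'

/-- If `y := x^m ≤ b ≤ 1/2` then `tD ≤ 2 m log p b`. -/
lemma tD_le {p : ℕ} (hp : p.Prime) {m : ℕ} {s b : ℝ}
    (hb : ((p : ℝ) ^ (-s)) ^ m ≤ b) (hb2 : b ≤ 1 / 2) : tD p m s ≤ 2 * m * Real.log p * b := by
  have h3 : 0 ≤ Real.log p := Real.log_natCast_nonneg p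
  rw [tD, div_le_iff₀ (by linarith)]
  have h0 : 0 ≤ ((p : ℝ) ^ (-s)) ^ m := by have := x_pos hp s; positivity
  generalize ((p : ℝ) ^ (-s)) ^ m = y at *
  have h4 : y ≤ 2 * b * (1 - y) := by nlinarith
  have h5 : 0 ≤ (m : ℝ) * Real.log p := by positivity
  nlinarith

lemma log_le_four (p : ℕ) : Real.log p ≤ 4 * (p : ℝ) ^ (1 / 4 : ℝ) := by
  have := Real.log_le_rpow_div (x := (p : ℝ)) (by positivity) (ε := 1 / 4) (by norm_num)
  linarith

lemma jac_zero {q : ℕ} (hq : q.Prime) {p : ℕ} (hp : p.Prime) (h : jacobiSym (p : ℤ) q = 0) :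
    p = q := by
  have := Fact.mk hq
  by_contra hne
  have h1 : (p : ℤ).gcd q = 1 := by
    rw [Int.gcd_natCast_natCast]
    exact (Nat.coprime_primes hp hq).2 hne
  exact (jacobiSym.ne_zero h1) h

/-- derivative of `hL` -/
noncomputable def hD (q p : ℕ) (s : ℝ) : ℝ :=
  if jacobiSym (p : ℤ) q = -1 then - tD p 2 s
  else if jacobiSym (p : ℤ) q = 0 then - tD p 1 s
  else 2 * tD p (q - 1) s - 2 * tD p q s

lemma hasDerivAt_hL {q : ℕ} (hq5 : 5 ≤ q) {p : ℕ} (hp : p.Prime) {s : ℝ} (hs : 0 < s) :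
    HasDerivAt (fun s : ℝ => hL q p ((p : ℝ) ^ (-s))) (hD q p s) s := by
  unfold hL hD
  split_ifs
  · exact (hasDerivAt_term hp (by norm_num) hs).neg
  · exact (hasDerivAt_term hp (by norm_num) hs).neg
  · exact ((hasDerivAt_term hp (m := q - 1) (by omega) hs).const_mul 2).sub
      ((hasDerivAt_term hp (m := q) (by omega) hs).const_mul 2)

lemma continuousOn_hD {q : ℕ} (hq5 : 5 ≤ q) {p : ℕ} (hp : p.Prime) :
    ContinuousOn (hD q p) (Set.Ioi 0) := by
  unfold hD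
  split_ifs
  · exact (continuousOn_tD hp (by norm_num)).neg
  · exact (continuousOn_tD hp (by norm_num)).neg
  · exact (continuousOn_const.mul (continuousOn_tD hp (m := q - 1) (by omega))).sub
      (continuousOn_const.mul (continuousOn_tD hp (m := q) (by omega)))

lemma b_half {p : ℕ} (hp : p.Prime) : (p : ℝ) ^ (-(3 / 2) : ℝ) ≤ 1 / 2 := by
  have h2 : (2 : ℝ) ≤ p := by exact_mod_cast hp.two_le
  calc (p : ℝ) ^ (-(3 / 2) : ℝ) ≤ (p : ℝ) ^ (-1 : ℝ) :=
        Real.rpow_le_rpow_of_exponent_le (by linarith) (by norm_num)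
    _ ≤ 1 / 2 := by
        rw [Real.rpow_neg_one, one_div]
        exact inv_anti₀ (by norm_num) h2

lemma x_pow_le {p : ℕ} (hp : p.Prime) {m : ℕ} (hm : 2 ≤ m) {s : ℝ} (hs : 3 / 4 < s) :
    ((p : ℝ) ^ (-s)) ^ m ≤ (p : ℝ) ^ (-(3 / 2) : ℝ) := by
  have h2 : (2 : ℝ) ≤ p := by exact_mod_cast hp.two_le
  calc ((p : ℝ) ^ (-s)) ^ m ≤ ((p : ℝ) ^ (-s)) ^ 2 :=
        pow_le_pow_of_le_one (x_pos hp s).le (x_lt_one hp (by linarith)).le hm
    _ = (p : ℝ) ^ (-s * 2) := by rw [← Real.rpow_natCast, ← Real.rpow_mul (by positivity)]; norm_num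
    _ ≤ (p : ℝ) ^ (-(3 / 2) : ℝ) :=
        Real.rpow_le_rpow_of_exponent_le (by linarith) (by linarith)

lemma tD_le' {p : ℕ} (hp : p.Prime) {m : ℕ} (hm : 2 ≤ m) {s : ℝ} (hs : 3 / 4 < s) :
    tD p m s ≤ 8 * m * (p : ℝ) ^ (-(5 / 4) : ℝ) := by
  have hp0 : (0 : ℝ) < p := by exact_mod_cast hp.pos
  have h1 := tD_le hp (x_pow_le hp hm hs) (b_half hp)
  have h2 := log_le_four p
  have h3 : (p : ℝ) ^ (1 / 4 : ℝ) * (p : ℝ) ^ (-(3 / 2) : ℝ) = (p : ℝ) ^ (-(5 / 4) : ℝ) := by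
    rw [← Real.rpow_add hp0]
    norm_num
  have h4 : 0 ≤ (p : ℝ) ^ (-(3 / 2) : ℝ) := by positivity
  calc tD p m s ≤ 2 * m * Real.log p * (p : ℝ) ^ (-(3 / 2) : ℝ) := h1
    _ ≤ 2 * m * (4 * (p : ℝ) ^ (1 / 4 : ℝ)) * (p : ℝ) ^ (-(3 / 2) : ℝ) := by gcongr
    _ = 8 * m * (p : ℝ) ^ (-(5 / 4) : ℝ) := by rw [← h3]; ring

lemma tD_le_q {p : ℕ} (hp : p.Prime) (hp5 : 5 ≤ p) {s : ℝ} (hs : 3 / 4 < s) :
    tD p 1 s ≤ 8 * p * (p : ℝ) ^ (-(5 / 4) : ℝ) := by
  have hp0 : (0 : ℝ) < p := by exact_mod_cast hp.pos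
  have hp5' : (5 : ℝ) ≤ p := by exact_mod_cast hp5
  have h0 : ((p : ℝ) ^ (-s)) ^ 1 ≤ (p : ℝ) ^ (-(3 / 4) : ℝ) := by
    rw [pow_one]
    exact Real.rpow_le_rpow_of_exponent_le (by linarith) (by linarith)
  have h0' : (p : ℝ) ^ (-(3 / 4) : ℝ) ≤ 1 / 2 := by
    calc (p : ℝ) ^ (-(3 / 4) : ℝ) ≤ (p : ℝ) ^ (-(1 / 2) : ℝ) :=
          Real.rpow_le_rpow_of_exponent_le (by linarith) (by norm_num)
      _ = (Real.sqrt p)⁻¹ := by rw [Real.rpow_neg hp0.le, ← Real.sqrt_eq_rpow]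
      _ ≤ (2 : ℝ)⁻¹ := by
          apply inv_anti₀ (by norm_num)
          apply Real.le_sqrt_of_sq_le
          linarith
      _ = 1 / 2 := by norm_num
  have h1 := tD_le hp h0 h0'
  have h2 := log_le_four p
  have h3 : (p : ℝ) ^ (1 / 4 : ℝ) * (p : ℝ) ^ (-(3 / 4) : ℝ) ≤ p * (p : ℝ) ^ (-(5 / 4) : ℝ) := by
    rw [← Real.rpow_add hp0]
    nth_rewrite 2 [← Real.rpow_one (p : ℝ)]
    rw [← Real.rpow_add hp0]
    exact Real.rpow_le_rpow_of_exponent_le (by linarith) (by norm_num)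
  have h4 : 0 ≤ (p : ℝ) ^ (-(3 / 4) : ℝ) := by positivity
  calc tD p 1 s ≤ 2 * (1 : ℕ) * Real.log p * (p : ℝ) ^ (-(3 / 4) : ℝ) := h1
    _ ≤ 2 * (1 : ℕ) * (4 * (p : ℝ) ^ (1 / 4 : ℝ)) * (p : ℝ) ^ (-(3 / 4) : ℝ) := by gcongr
    _ = 8 * ((p : ℝ) ^ (1 / 4 : ℝ) * (p : ℝ) ^ (-(3 / 4) : ℝ)) := by push_cast; ring
    _ ≤ 8 * (p * (p : ℝ) ^ (-(5 / 4) : ℝ)) := by gcongr
    _ = _ := by ring

lemma norm_hD_le {q : ℕ} (hq : q.Prime) (hq5 : 5 ≤ q) {p : ℕ} (hp : p.Prime) {s : ℝ}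
    (hs : 3 / 4 < s) : ‖hD q p s‖ ≤ 32 * q * (p : ℝ) ^ (-(5 / 4) : ℝ) := by
  have hq5' : (5 : ℝ) ≤ q := by exact_mod_cast hq5
  have hw : 0 ≤ (p : ℝ) ^ (-(5 / 4) : ℝ) := by positivity
  have hs0 : 0 < s := by linarith
  unfold hD
  split_ifs with h1 h2
  · rw [norm_neg, Real.norm_of_nonneg (tD_nonneg hp (by norm_num) hs0)]
    refine (tD_le' hp le_rfl hs).trans ?_
    push_cast
    nlinarith
  · obtain rfl := jac_zero hq hp h2
    rw [norm_neg, Real.norm_of_nonneg (tD_nonneg hp (by norm_num) hs0)]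
    refine (tD_le_q hp hq5 hs).trans ?_
    nlinarith
  · have e1 := tD_le' hp (m := q - 1) (by omega) hs
    have e2 := tD_le' hp (m := q) (by omega) hs
    have e3 := tD_nonneg hp (m := q - 1) (by omega) hs0
    have e4 := tD_nonneg hp (m := q) (by omega) hs0
    have e5 : ((q - 1 : ℕ) : ℝ) ≤ q := by exact_mod_cast Nat.sub_le q 1
    have e6 : ((q - 1 : ℕ) : ℝ) * (p : ℝ) ^ (-(5 / 4) : ℝ) ≤ q * (p : ℝ) ^ (-(5 / 4) : ℝ) := by
      gcongr
    rw [Real.norm_eq_abs, abs_le]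
    constructor <;> nlinarith

/-- the logarithm of the correction factor `H(s)` -/
noncomputable def logH (q : ℕ) (s : ℝ) : ℝ := ∑' p : Nat.Primes, hL q p ((p : ℝ) ^ (-s))

/-- its derivative -/
noncomputable def logHD (q : ℕ) (s : ℝ) : ℝ := ∑' p : Nat.Primes, hD q p s

lemma summable_u (c : ℝ) : Summable (fun p : Nat.Primes => c * (p : ℝ) ^ (-(5 / 4) : ℝ)) :=
  (Nat.Primes.summable_rpow.2 (by norm_num)).mul_left c

lemma neg_log_le {y : ℝ} (h0 : 0 ≤ y) (h1 : y ≤ 1 / 2) : |Real.log (1 - y)| ≤ 2 * y := by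
  have hp : 0 < 1 - y := by linarith
  have h2 : Real.log (1 - y) ≤ 0 := Real.log_nonpos hp.le (by linarith)
  rw [abs_of_nonpos h2]
  have h3 := Real.one_sub_inv_le_log_of_pos hp
  have h4 : (1 - y)⁻¹ ≤ 1 + 2 * y := by
    rw [inv_le_iff_one_le_mul₀ hp]
    nlinarith
  linarith

lemma summable_hL_one {q : ℕ} (hq : q.Prime) (hq5 : 5 ≤ q) :
    Summable (fun p : Nat.Primes => hL q p ((p : ℝ) ^ (-(1 : ℝ)))) := by
  have hq5' : (5 : ℝ) ≤ q := by exact_mod_cast hq5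
  have h0 : Summable (fun p : Nat.Primes => (8 * q : ℝ) * (p : ℝ) ^ (-2 : ℝ)) :=
    (Nat.Primes.summable_rpow.2 (by norm_num)).mul_left _
  refine Summable.of_norm_bounded h0 fun p => ?_
  have hp := p.2
  generalize (p : ℕ) = p at *
  have h2 : (2 : ℝ) ≤ p := by exact_mod_cast hp.two_le
  have hx : (p : ℝ) ^ (-(1 : ℝ)) = (p : ℝ)⁻¹ := Real.rpow_neg_one _
  have hx2 : (p : ℝ) ^ (-2 : ℝ) = ((p : ℝ)⁻¹) ^ 2 := by
    rw [Real.rpow_neg (by positivity), inv_pow]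
    norm_cast
  rw [hx, hx2]
  have hi0 : 0 < (p : ℝ)⁻¹ := by positivity
  have hi2 : (p : ℝ)⁻¹ ≤ 1 / 2 := by
    rw [one_div]
    exact inv_anti₀ (by norm_num) h2
  have key : ∀ m : ℕ, 2 ≤ m → |Real.log (1 - ((p : ℝ)⁻¹) ^ m)| ≤ 2 * ((p : ℝ)⁻¹) ^ 2 := by
    intro m hm
    have e1 : ((p : ℝ)⁻¹) ^ m ≤ ((p : ℝ)⁻¹) ^ 2 :=
      pow_le_pow_of_le_one hi0.le (by linarith) hm
    have e2 : ((p : ℝ)⁻¹) ^ 2 ≤ 1 / 2 := by nlinarith
    refine (neg_log_le (by positivity) (by linarith)).trans ?_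
    linarith
  have hsq : 0 ≤ ((p : ℝ)⁻¹) ^ 2 := by positivity
  rw [Real.norm_eq_abs]
  unfold hL
  split_ifs with h1 h2
  · rw [abs_neg]
    refine (key 2 le_rfl).trans ?_
    nlinarith
  · obtain rfl := jac_zero hq hp h2
    rw [abs_neg]
    have e1 : ((p : ℝ)⁻¹) ^ 1 ≤ 1 / 2 := by rwa [pow_one]
    refine (neg_log_le (by positivity) e1).trans ?_
    have e2 : (p : ℝ) * ((p : ℝ)⁻¹) ^ 2 = (p : ℝ)⁻¹ := by
      field_simp
    nlinarith
  · have e1 := key (q - 1) (by omega)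
    have e2 := key q (by omega)
    rw [abs_le] at e1 e2 ⊢
    constructor <;> nlinarith

lemma isPreconn : IsPreconnected (Set.Ioi (3 / 4 : ℝ)) := (convex_Ioi _).isPreconnected

lemma hasDerivAt_logH {q : ℕ} (hq : q.Prime) (hq5 : 5 ≤ q) {s : ℝ} (hs : 3 / 4 < s) :
    HasDerivAt (logH q) (logHD q s) s := by
  have := hasDerivAt_tsum_of_isPreconnected (summable_u (32 * q)) (isOpen_Ioi) isPreconn
    (g := fun (p : Nat.Primes) (s : ℝ) => hL q p ((p : ℝ) ^ (-s)))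
    (g' := fun (p : Nat.Primes) (s : ℝ) => hD q p s) (y₀ := 1) (y := s)
    (fun p y hy => hasDerivAt_hL hq5 p.2 (by linarith [Set.mem_Ioi.1 hy]))
    (fun p y hy => norm_hD_le hq hq5 p.2 hy) (by norm_num) (summable_hL_one hq hq5) hs
  exact this

lemma summable_hL {q : ℕ} (hq : q.Prime) (hq5 : 5 ≤ q) {s : ℝ} (hs : 3 / 4 < s) :
    Summable (fun p : Nat.Primes => hL q p ((p : ℝ) ^ (-s))) := by
  have := summable_of_summable_hasDerivAt_of_isPreconnected (summable_u (32 * q)) (isOpen_Ioi)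
    isPreconn
    (g := fun (p : Nat.Primes) (s : ℝ) => hL q p ((p : ℝ) ^ (-s)))
    (g' := fun (p : Nat.Primes) (s : ℝ) => hD q p s) (y₀ := 1) (y := s)
    (fun p y hy => hasDerivAt_hL hq5 p.2 (by linarith [Set.mem_Ioi.1 hy]))
    (fun p y hy => norm_hD_le hq hq5 p.2 hy) (by norm_num) (summable_hL_one hq hq5) hs
  exact this

lemma continuousAt_logHD {q : ℕ} (hq : q.Prime) (hq5 : 5 ≤ q) : ContinuousAt (logHD q) 1 := by
  have := continuousOn_tsum (f := fun (p : Nat.Primes) (s : ℝ) => hD q p s)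
    (s := Set.Ioi (3 / 4 : ℝ))
    (fun p => (continuousOn_hD hq5 p.2).mono (Set.Ioi_subset_Ioi (by norm_num)))
    (summable_u (32 * q)) (fun p y hy => norm_hD_le hq hq5 p.2 hy)
  exact this.continuousAt (Ioi_mem_nhds (by norm_num))

end Deriv

section LogDeriv

lemma dirSeries_nonneg (k q : ℕ) (s : ℝ) : 0 ≤ dirSeries k q s := by
  classical
  rw [dirSeries]
  refine tsum_nonneg fun n => ?_
  split_ifs <;> positivity

lemma dirSeries_pos {q : ℕ} [NeZero q] (hq : q.Prime) (hq5 : 5 ≤ q) (χ : DirichletCharacter ℂ q)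
    (hχ : ∀ n : ℕ, χ (n : ZMod q) = ((jacobiSym (n : ℤ) q : ℤ) : ℂ)) {s : ℝ} (hs : 1 < s) :
    0 < dirSeries ((q - 1) / 2) q s := by
  refine lt_of_le_of_ne (dirSeries_nonneg _ _ _) fun h => ?_
  have h1 := key_complex hq hq5 χ hχ hs (summable_hL hq hq5 (by linarith))
  rw [← h] at h1
  have h2 : riemannZeta s ≠ 0 := riemannZeta_ne_zero_of_one_le_re (by simpa using hs.le)
  have h3 : χ.LFunction s ≠ 0 := by
    refine DirichletCharacter.LFunction_ne_zero_of_one_le_re χ (Or.inr ?_) (by simpa using hs.le)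
    intro h
    exact hs.ne' (by exact_mod_cast h)
  have h4 : ((Real.exp (∑' p : Nat.Primes, hL q p ((p : ℝ) ^ (-s))) : ℝ) : ℂ) ≠ 0 := by
    exact_mod_cast (Real.exp_pos _).ne'
  exact mul_ne_zero (mul_ne_zero h2 h3) h4 (by rw [← h1]; simp)

lemma logDeriv_dirSeries {q : ℕ} [NeZero q] (hq : q.Prime) (hq5 : 5 ≤ q)
    (χ : DirichletCharacter ℂ q)
    (hχ : ∀ n : ℕ, χ (n : ZMod q) = ((jacobiSym (n : ℤ) q : ℤ) : ℂ)) {s : ℝ} (hs : 1 < s) :
    deriv (dirSeries ((q - 1) / 2) q) s / dirSeries ((q - 1) / 2) q s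
      = ((deriv riemannZeta s / riemannZeta s).re
          + (deriv χ.LFunction s / χ.LFunction s).re + logHD q s) / 2 := by
  have hs1 : (s : ℂ) ≠ 1 := by
    intro h
    exact hs.ne' (by exact_mod_cast h)
  have h2 : riemannZeta s ≠ 0 := riemannZeta_ne_zero_of_one_le_re (by simpa using hs.le)
  have h3 : χ.LFunction s ≠ 0 :=
    DirichletCharacter.LFunction_ne_zero_of_one_le_re χ (Or.inr hs1) (by simpa using hs.le)
  have hpos := dirSeries_pos hq hq5 χ hχ hs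
  have e1 : HasDerivAt riemannZeta (deriv riemannZeta s) s :=
    (differentiableAt_riemannZeta hs1).hasDerivAt
  have e2 : HasDerivAt χ.LFunction (deriv χ.LFunction s) s :=
    (DirichletCharacter.differentiableAt_LFunction χ s (Or.inl hs1)).hasDerivAt
  have e3 := (e1.mul e2).comp_ofReal
  have e4 := ((hasDerivAt_logH hq hq5 (s := s) (by linarith)).exp).ofReal_comp
  have e5 := e3.mul e4
  have e5' : (fun t : ℝ => (((dirSeries ((q - 1) / 2) q t) ^ 2 : ℝ) : ℂ)) =ᶠ[𝓝 s]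
      ((fun y : ℝ => (riemannZeta * DirichletCharacter.LFunction χ) (y : ℂ)) *
        fun y : ℝ => ((Real.exp (logH q y) : ℝ) : ℂ)) := by
    filter_upwards [Ioi_mem_nhds hs] with t ht
    exact key_complex hq hq5 χ hχ ht (summable_hL hq hq5 (by linarith [Set.mem_Ioi.1 ht]))
  have e6 := e5.congr_of_eventuallyEq e5'
  have e7 := Complex.reCLM.hasFDerivAt.comp_hasDerivAt s e6
  have e8 := HasDerivAt.sqrt e7 (by
    simp only [Function.comp_apply, Complex.reCLM_apply, Complex.ofReal_re]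
    positivity)
  have e9 : (fun t : ℝ => √((⇑Complex.reCLM ∘ fun t : ℝ =>
      (((dirSeries ((q - 1) / 2) q t) ^ 2 : ℝ) : ℂ)) t)) = dirSeries ((q - 1) / 2) q := by
    funext t
    simp only [Function.comp_apply, Complex.reCLM_apply, Complex.ofReal_re]
    exact Real.sqrt_sq (dirSeries_nonneg _ _ _)
  rw [e9] at e8
  rw [e8.deriv]
  simp only [Function.comp_apply, Complex.reCLM_apply, Complex.ofReal_re]
  rw [Real.sqrt_sq hpos.le, div_div, mul_assoc, ← sq, mul_comm 2, ← div_div]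
  congr 1
  have e10 := key_complex hq hq5 χ hχ hs (summable_hL hq hq5 (by linarith))
  have e11 : ∀ w : ℂ, w.re / (dirSeries ((q - 1) / 2) q s) ^ 2
      = (w / (((dirSeries ((q - 1) / 2) q s) ^ 2 : ℝ) : ℂ)).re := by
    intro w
    rw [Complex.div_ofReal_re]
  rw [e11, e10]
  have e12 : logHD q s = ((logHD q s : ℝ) : ℂ).re := rfl
  rw [e12, ← Complex.add_re, ← Complex.add_re]
  congr 1
  have h4 : ((Real.exp (∑' p : Nat.Primes, hL q p ((p : ℝ) ^ (-s))) : ℝ) : ℂ) ≠ 0 := by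
    exact_mod_cast (Real.exp_pos _).ne'
  have h5 : logH q s = ∑' p : Nat.Primes, hL q p ((p : ℝ) ^ (-s)) := rfl
  rw [h5]
  simp only [Pi.mul_apply, Complex.ofReal_re]
  push_cast at h4 ⊢
  field_simp

lemma hNum_eq {q : ℕ} (hq : q.Prime) (hq5 : 5 ≤ q) : hNum ((q - 1) / 2) q = 2 := by
  have hodd : q % 2 = 1 := by
    rcases hq.eq_two_or_odd with h | h
    · omega
    · exact h
  obtain ⟨m, hm⟩ : ∃ m, q = 2 * m + 1 := ⟨q / 2, by omega⟩
  have hm0 : 0 < m := by omega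
  have h1 : (q - 1) / 2 = m := by omega
  have h2 : q - 1 = 2 * m := by omega
  rw [hNum, h1, h2, Nat.gcd_mul_left_right]
  exact Nat.mul_div_cancel _ hm0

lemma chi_ne_one {q : ℕ} (hq : q.Prime) (hq5 : 5 ≤ q) (χ : DirichletCharacter ℂ q)
    (hχ : ∀ n : ℕ, χ (n : ZMod q) = ((jacobiSym (n : ℤ) q : ℤ) : ℂ)) : χ ≠ 1 := by
  have := Fact.mk hq
  rintro rfl
  obtain ⟨a, ha⟩ := quadraticChar_exists_neg_one (F := ZMod q) (by
    rw [ZMod.ringChar_zmod_n]
    omega)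
  have h1 := hχ a.val
  rw [ZMod.natCast_zmod_val, ← jacobiSym.legendreSym.to_jacobiSym, legendreSym] at h1
  push_cast at h1
  rw [ZMod.natCast_zmod_val, ha] at h1
  have ha0 : a ≠ 0 := by
    rintro rfl
    simp at ha
  rw [MulChar.one_apply (Ne.isUnit ha0)] at h1
  norm_num at h1

lemma isEK {q : ℕ} [NeZero q] (hq : q.Prime) (hq5 : 5 ≤ q) (χ : DirichletCharacter ℂ q)
    (hχ : ∀ n : ℕ, χ (n : ZMod q) = ((jacobiSym (n : ℤ) q : ℤ) : ℂ)) :
    IsEKConstant ((q - 1) / 2) q ((Real.eulerMascheroniConstant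
      + (deriv χ.LFunction 1 / χ.LFunction 1).re - (- logHD q 1)) / 2) := by
  have hne := chi_ne_one hq hq5 χ hχ
  rw [IsEKConstant, hNum_eq hq hq5]
  -- the limit of zeta
  have hemb : Tendsto (fun s : ℝ => (s : ℂ)) (𝓝[>] 1) (𝓝[≠] 1) := by
    refine tendsto_nhdsWithin_iff.2 ⟨?_, ?_⟩
    · exact (Complex.continuous_ofReal.tendsto' 1 1 (by simp)).mono_left nhdsWithin_le_nhds
    · filter_upwards [self_mem_nhdsWithin] with s hs
      have : (1 : ℝ) < s := hs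
      intro h
      have h' : (s : ℂ) = 1 := h
      exact this.ne' (by exact_mod_cast h')
  have z1 : Tendsto (fun s : ℝ => ((deriv riemannZeta s) / (riemannZeta s) + ((s : ℂ) - 1)⁻¹).re)
      (𝓝[>] 1) (𝓝 Real.eulerMascheroniConstant) := by
    have h1 := (log_deriv_riemannZeta_add_inv_sub_sub_isLittleO.tendsto_div_nhds_zero)
    simp only [div_one] at h1
    have h2 := (h1.comp hemb)
    have h3 := (Complex.continuous_re.tendsto _).comp h2
    have h4 := h3.add_const Real.eulerMascheroniConstant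
    simp only [Complex.zero_re, zero_add] at h4
    refine h4.congr fun s => ?_
    simp
  have z2 : Tendsto (fun s : ℝ => (deriv χ.LFunction s / χ.LFunction s).re)
      (𝓝[>] 1) (𝓝 (deriv χ.LFunction 1 / χ.LFunction 1).re) := by
    have hd := DirichletCharacter.differentiable_LFunction hne
    have h1 : ContinuousAt (fun z : ℂ => deriv χ.LFunction z / χ.LFunction z) 1 :=
      (hd.contDiff (n := 1)).continuous_deriv le_rfl |>.continuousAt.div
        hd.continuous.continuousAt (DirichletCharacter.LFunction_apply_one_ne_zero hne)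
    have h2 : Tendsto (fun s : ℝ => (s : ℂ)) (𝓝[>] 1) (𝓝 1) :=
      hemb.mono_right nhdsWithin_le_nhds
    exact (Complex.continuous_re.tendsto _).comp (h1.tendsto.comp h2)
  have z3 : Tendsto (logHD q) (𝓝[>] 1) (𝓝 (logHD q 1)) :=
    (continuousAt_logHD hq hq5).tendsto.mono_left nhdsWithin_le_nhds
  have z4 := ((z1.add z2).add z3).div_const 2
  have z5 : (Real.eulerMascheroniConstant + (deriv χ.LFunction 1 / χ.LFunction 1).re
      - (- logHD q 1)) / 2 = (Real.eulerMascheroniConstant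
      + (deriv χ.LFunction 1 / χ.LFunction 1).re + logHD q 1) / 2 := by ring
  rw [z5]
  refine z4.congr' ?_
  filter_upwards [self_mem_nhdsWithin] with s hs
  have hs' : (1 : ℝ) < s := hs
  rw [logDeriv_dirSeries hq hq5 χ hχ hs']
  have h6 : (((s : ℂ) - 1)⁻¹).re = (s - 1)⁻¹ := by
    rw [← Complex.ofReal_one, ← Complex.ofReal_sub, ← Complex.ofReal_inv, Complex.ofReal_re]
  rw [Complex.add_re, h6]
  have h7 : s - 1 ≠ 0 := by linarith
  push_cast
  field_simp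
  ring

end LogDeriv

section Bound

/-- `n^{-3/2}` -/
noncomputable def w (n : ℕ) : ℝ := 1 / (√(n : ℝ)) ^ 3

lemma w_nonneg (n : ℕ) : 0 ≤ w n := by rw [w]; positivity

lemma w_bound {x : ℝ} (hx : 1 < x) : 1 / (√x) ^ 3 ≤ 2 / √(x - 1) - 2 / √x := by
  have ha : 0 < √(x - 1) := Real.sqrt_pos.2 (by linarith)
  have hb : 0 < √x := Real.sqrt_pos.2 (by linarith)
  have ha2 : √(x - 1) ^ 2 = x - 1 := Real.sq_sqrt (by linarith)
  have hb2 : √x ^ 2 = x := Real.sq_sqrt (by linarith)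
  have hab : √(x - 1) ≤ √x := Real.sqrt_le_sqrt (by linarith)
  generalize √(x - 1) = a at *
  generalize √x = b at *
  have h1 : (b - a) * (b + a) = 1 := by nlinarith
  have h2 : a ≤ 2 * b ^ 2 * (b - a) := by
    have h3 : a * (b + a) ≤ 2 * b ^ 2 * (b - a) * (b + a) := by
      have : 2 * b ^ 2 * (b - a) * (b + a) = 2 * b ^ 2 := by
        rw [mul_assoc, h1, mul_one]
      rw [this]
      nlinarith
    exact le_of_mul_le_mul_right h3 (by positivity)
  have h4 : 2 / a - 2 / b - 1 / b ^ 3 = (2 * b ^ 2 * (b - a) - a) / (a * b ^ 3) := by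
    field_simp
  have h5 : 0 ≤ (2 * b ^ 2 * (b - a) - a) / (a * b ^ 3) :=
    div_nonneg (by linarith) (by positivity)
  linarith

lemma w_partial {N : ℕ} (hN : 2 ≤ N) (K : ℕ) :
    ∑ i ∈ Finset.range (K + N), (if N ≤ i then w i else 0)
      ≤ 2 / √((N : ℝ) - 1) - 2 / √(((K + N : ℕ) : ℝ) - 1) := by
  induction K with
  | zero =>
    rw [Finset.sum_eq_zero]
    · simp
    · intro i hi
      rw [if_neg]
      have := Finset.mem_range.1 hi
      omega
  | succ K ih =>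
    have e : K + 1 + N = (K + N) + 1 := by ring
    rw [e, Finset.sum_range_succ, if_pos (by omega)]
    have h2 : (2 : ℝ) ≤ ((K + N : ℕ) : ℝ) := by exact_mod_cast (by omega : 2 ≤ K + N)
    have h1 := w_bound (x := ((K + N : ℕ) : ℝ)) (by linarith)
    have h3 : (((K + N + 1 : ℕ) : ℝ) - 1) = ((K + N : ℕ) : ℝ) := by push_cast; ring
    rw [h3]
    rw [w]
    linarith

lemma w_partial' {N : ℕ} (hN : 2 ≤ N) (K : ℕ) :
    ∑ i ∈ Finset.range K, (if N ≤ i then w i else 0) ≤ 2 / √((N : ℝ) - 1) := by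
  have h1 : ∑ i ∈ Finset.range K, (if N ≤ i then w i else 0)
      ≤ ∑ i ∈ Finset.range (K + N), (if N ≤ i then w i else 0) := by
    apply Finset.sum_le_sum_of_subset_of_nonneg
    · intro i hi
      rw [Finset.mem_range] at *
      omega
    · intro i _ _
      split_ifs
      · exact w_nonneg i
      · exact le_rfl
  have h2 := w_partial hN K
  have h3 : 0 ≤ 2 / √(((K + N : ℕ) : ℝ) - 1) := by positivity
  linarith

lemma w_nonneg' (N n : ℕ) : 0 ≤ (if N ≤ n then w n else 0) := by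
  split_ifs
  · exact w_nonneg n
  · exact le_rfl

lemma w_summable {N : ℕ} (hN : 2 ≤ N) : Summable (fun n : ℕ => if N ≤ n then w n else 0) :=
  summable_of_sum_range_le (w_nonneg' N) (w_partial' hN)

lemma w_tsum_le {N : ℕ} (hN : 2 ≤ N) :
    ∑' n : ℕ, (if N ≤ n then w n else 0) ≤ 2 / √((N : ℝ) - 1) :=
  Real.tsum_le_of_sum_range_le (w_nonneg' N) (w_partial' hN)

lemma tD_one {p : ℕ} (hp : p.Prime) {m : ℕ} (hm : m ≠ 0) :
    tD p m 1 = m * Real.log p / ((p : ℝ) ^ m - 1) := by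
  have hp0 : (0 : ℝ) < p := by exact_mod_cast hp.pos
  have hp1 : (1 : ℝ) < p := by exact_mod_cast hp.one_lt
  have h1 : (p : ℝ) ^ (-(1 : ℝ)) = (p : ℝ)⁻¹ := Real.rpow_neg_one _
  have h2 : (1 : ℝ) < (p : ℝ) ^ m := one_lt_pow₀ hp1 hm
  rw [tD, h1, inv_pow]
  generalize (p : ℝ) ^ m = y at *
  have h3 : y - 1 ≠ 0 := by linarith
  have h4 : y ≠ 0 := by linarith
  have h5 : 1 - y⁻¹ = (y - 1) / y := by field_simp
  rw [h5]
  field_simp

lemma log_le_sqrt (p : ℕ) : Real.log p ≤ 2 * √(p : ℝ) := by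
  have := Real.log_le_rpow_div (x := (p : ℝ)) (by positivity) (ε := 1 / 2) (by norm_num)
  rw [← Real.sqrt_eq_rpow] at this
  linarith

lemma bound_neg {p : ℕ} (hp : p.Prime) : |2 * Real.log p / ((p : ℝ) ^ 2 - 1)| ≤ 16 / 3 * w p := by
  have h2 : (2 : ℝ) ≤ p := by exact_mod_cast hp.two_le
  have hb : 0 < √(p : ℝ) := Real.sqrt_pos.2 (by linarith)
  have hb2 : √(p : ℝ) ^ 2 = p := Real.sq_sqrt (by linarith)
  have hl := log_le_sqrt p
  have hl0 : 0 ≤ Real.log p := Real.log_natCast_nonneg p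
  have h3 : 3 / 4 * (p : ℝ) ^ 2 ≤ (p : ℝ) ^ 2 - 1 := by nlinarith
  have h4 : 0 < 3 / 4 * (p : ℝ) ^ 2 := by positivity
  rw [abs_of_nonneg (div_nonneg (by positivity) (by linarith)), w]
  calc 2 * Real.log p / ((p : ℝ) ^ 2 - 1) ≤ 2 * (2 * √(p : ℝ)) / (3 / 4 * (p : ℝ) ^ 2) := by
        gcongr
    _ = 16 / 3 * (1 / √(p : ℝ) ^ 3) := by
        rw [← hb2]
        rw [Real.sqrt_sq hb.le]
        field_simp
        ring

lemma bound_zero {q : ℕ} (hq5 : 5 ≤ q) {y : ℕ} (hy : y < q) :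
    |Real.log q / ((q : ℝ) - 1)| ≤ 5 / 2 / √((y : ℝ) + 1) := by
  have h5 : (5 : ℝ) ≤ q := by exact_mod_cast hq5
  have hy' : (y : ℝ) + 1 ≤ q := by exact_mod_cast hy
  have hb : 0 < √(q : ℝ) := Real.sqrt_pos.2 (by linarith)
  have hb2 : √(q : ℝ) ^ 2 = q := Real.sq_sqrt (by linarith)
  have hl := log_le_sqrt q
  have hl0 : 0 ≤ Real.log q := Real.log_natCast_nonneg q
  have h3 : 4 / 5 * (q : ℝ) ≤ (q : ℝ) - 1 := by linarith
  have hy0 : 0 < √((y : ℝ) + 1) := Real.sqrt_pos.2 (by positivity)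
  have hyq : √((y : ℝ) + 1) ≤ √(q : ℝ) := Real.sqrt_le_sqrt hy'
  rw [abs_of_nonneg (div_nonneg (by positivity) (by linarith))]
  calc Real.log q / ((q : ℝ) - 1) ≤ (2 * √(q : ℝ)) / (4 / 5 * (q : ℝ)) := by
        gcongr
    _ = 5 / 2 / √(q : ℝ) := by
        rw [← hb2]
        rw [Real.sqrt_sq hb.le]
        field_simp
        ring
    _ ≤ 5 / 2 / √((y : ℝ) + 1) := by gcongr

lemma bound_one {q : ℕ} (hq5 : 5 ≤ q) {p : ℕ} (hp : p.Prime) :
    |2 * tD p (q - 1) 1 - 2 * tD p q 1| ≤ 96 * q * ((2 : ℝ) ^ q)⁻¹ * w p := by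
  have h2 : (2 : ℝ) ≤ p := by exact_mod_cast hp.two_le
  have hb : 0 < √(p : ℝ) := Real.sqrt_pos.2 (by linarith)
  have hb2 : √(p : ℝ) ^ 2 = p := Real.sq_sqrt (by linarith)
  have hl := log_le_sqrt p
  have hl0 : 0 ≤ Real.log p := Real.log_natCast_nonneg p
  have h1 : (p : ℝ) ^ (-(1 : ℝ)) = (p : ℝ)⁻¹ := Real.rpow_neg_one _
  have hi : (p : ℝ)⁻¹ ≤ 1 / 2 := by
    rw [one_div]
    exact inv_anti₀ (by norm_num) h2
  have hi0 : 0 < (p : ℝ)⁻¹ := by positivity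
  have hpw : ∀ m : ℕ, m ≠ 0 → ((p : ℝ)⁻¹) ^ m ≤ 1 / 2 := by
    intro m hm
    calc ((p : ℝ)⁻¹) ^ m ≤ ((p : ℝ)⁻¹) ^ 1 :=
          pow_le_pow_of_le_one hi0.le (by linarith) (by omega)
      _ ≤ 1 / 2 := by rwa [pow_one]
  have e1 := tD_le hp (m := q - 1) (s := 1) (b := ((p : ℝ)⁻¹) ^ (q - 1)) (by rw [h1])
    (hpw _ (by omega))
  have e2 := tD_le hp (m := q) (s := 1) (b := ((p : ℝ)⁻¹) ^ q) (by rw [h1]) (hpw _ (by omega))
  have e3 := tD_nonneg hp (m := q - 1) (by omega) (s := 1) one_pos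
  have e4 := tD_nonneg hp (m := q) (by omega) (s := 1) one_pos
  have e5 : ((q - 1 : ℕ) : ℝ) ≤ q := by exact_mod_cast Nat.sub_le q 1
  have e6 : ((p : ℝ)⁻¹) ^ q ≤ 1 / 2 * ((p : ℝ)⁻¹) ^ (q - 1) := by
    have : q = (q - 1) + 1 := by omega
    conv_lhs => rw [this, pow_succ, mul_comm]
    gcongr
  have e7 : ((p : ℝ)⁻¹) ^ (q - 1) ≤ ((p : ℝ)⁻¹) ^ 2 * (8 * ((2 : ℝ) ^ q)⁻¹) := by
    have : q - 1 = 2 + (q - 3) := by omega
    rw [this, pow_add]
    have h8 : 8 * ((2 : ℝ) ^ q)⁻¹ = (1 / 2) ^ (q - 3) := by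
      have : q = (q - 3) + 3 := by omega
      conv_lhs => rw [this, pow_add]
      rw [one_div, inv_pow]
      field_simp
      norm_num
    rw [h8]
    gcongr
  set W := ((p : ℝ)⁻¹) ^ (q - 1) with hW
  have hW0 : 0 < W := by positivity
  have e8 : 2 * tD p (q - 1) 1 + 2 * tD p q 1 ≤ 6 * q * Real.log p * W := by
    have a1 : 2 * ((q - 1 : ℕ) : ℝ) * Real.log p * W ≤ 2 * q * Real.log p * W := by gcongr
    have a2 : 2 * (q : ℝ) * Real.log p * ((p : ℝ)⁻¹) ^ q ≤ 2 * q * Real.log p * (1 / 2 * W) := by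
      gcongr
    linarith
  have e9 : 6 * q * Real.log p * W
      ≤ 6 * q * (2 * √(p : ℝ)) * (((p : ℝ)⁻¹) ^ 2 * (8 * ((2 : ℝ) ^ q)⁻¹)) := by
    gcongr
  have e10 : 6 * q * (2 * √(p : ℝ)) * (((p : ℝ)⁻¹) ^ 2 * (8 * ((2 : ℝ) ^ q)⁻¹))
      = 96 * q * ((2 : ℝ) ^ q)⁻¹ * w p := by
    rw [w]
    nth_rewrite 2 [← hb2]
    field_simp
    ring
  rw [abs_le]
  constructor <;> linarith

lemma two_pow_ge {q : ℕ} (hq5 : 5 ≤ q) : 32 * q ^ 2 ≤ 25 * 2 ^ q := by
  induction q, hq5 using Nat.le_induction with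
  | base => norm_num
  | succ n hn ih =>
    rw [pow_succ 2 n]
    nlinarith

lemma bound_q {q : ℕ} (hq5 : 5 ≤ q) {y : ℕ} (hy : y < q) :
    192 * q * ((2 : ℝ) ^ q)⁻¹ ≤ 70 / √((y : ℝ) + 1) := by
  have h5 : (5 : ℝ) ≤ q := by exact_mod_cast hq5
  have hy' : (y : ℝ) + 1 ≤ q := by exact_mod_cast hy
  have hb : 11 / 5 ≤ √(q : ℝ) := Real.le_sqrt_of_sq_le (by norm_num; linarith)
  have hb2 : √(q : ℝ) ^ 2 = q := Real.sq_sqrt (by linarith)
  have hy0 : 0 < √((y : ℝ) + 1) := Real.sqrt_pos.2 (by positivity)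
  have hyq : √((y : ℝ) + 1) ≤ √(q : ℝ) := Real.sqrt_le_sqrt hy'
  have h1 : 32 * (q : ℝ) ^ 2 ≤ 25 * 2 ^ q := by exact_mod_cast two_pow_ge hq5
  have h2 : 192 * q * ((2 : ℝ) ^ q)⁻¹ ≤ 150 / q := by
    rw [← div_eq_mul_inv, div_le_div_iff₀ (by positivity) (by positivity)]
    nlinarith
  have h3 : 150 / (q : ℝ) ≤ 70 / √(q : ℝ) := by
    rw [div_le_div_iff₀ (by positivity) (by positivity)]
    nlinarith
  have h4 : 70 / √(q : ℝ) ≤ 70 / √((y : ℝ) + 1) := by gcongr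
  linarith

end Bound

section Final

lemma hD_one_neg {q p : ℕ} (hp : p.Prime) (h : jacobiSym (p : ℤ) q = -1) :
    - hD q p 1 = 2 * Real.log p / ((p : ℝ) ^ 2 - 1) := by
  rw [hD, if_pos h, neg_neg, tD_one hp (by norm_num)]
  norm_num

lemma summable_ind {q : ℕ} (hq : q.Prime) (hq5 : 5 ≤ q) :
    Summable (Set.indicator {p : ℕ | p.Prime} (fun n => - hD q n 1)) := by
  rw [← summable_subtype_iff_indicator]
  refine Summable.of_norm_bounded (summable_u (32 * q)) fun p => ?_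
  simp only [Function.comp_apply, norm_neg]
  exact norm_hD_le hq hq5 p.2 (by norm_num)

lemma tsum_ind (q : ℕ) :
    - logHD q 1 = ∑' n, Set.indicator {p : ℕ | p.Prime} (fun n => - hD q n 1) n := by
  rw [← tsum_subtype, logHD, ← tsum_neg]
  rfl

lemma term_bound {q : ℕ} (hq : q.Prime) (hq5 : 5 ≤ q) {y : ℕ} (hy : y < q) {n : ℕ}
    (hn : n.Prime) (hJ : ¬ (n ≤ y ∧ jacobiSym (n : ℤ) q = -1)) :
    |- hD q n 1| ≤ 16 / 3 * (if max 2 (y + 1) ≤ n then w n else 0)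
      + (if n = q then 5 / 2 / √((y : ℝ) + 1) else 0)
      + 96 * q * ((2 : ℝ) ^ q)⁻¹ * (if 2 ≤ n then w n else 0) := by
  have p1 : 0 ≤ 16 / 3 * (if max 2 (y + 1) ≤ n then w n else 0) :=
    mul_nonneg (by norm_num) (w_nonneg' _ _)
  have p2 : 0 ≤ (if n = q then 5 / 2 / √((y : ℝ) + 1) else 0) := by
    split_ifs <;> positivity
  have p3 : 0 ≤ 96 * q * ((2 : ℝ) ^ q)⁻¹ * (if 2 ≤ n then w n else 0) :=
    mul_nonneg (by positivity) (w_nonneg' _ _)
  rcases jacobiSym.trichotomy (n : ℤ) q with h | h | h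
  · obtain rfl := jac_zero hq hn h
    have e : - hD n n 1 = Real.log n / ((n : ℝ) - 1) := by
      rw [hD, if_neg (by rw [h]; decide), if_pos h, neg_neg, tD_one hn (by norm_num)]
      norm_num
    rw [e]
    have := bound_zero hq5 hy
    rw [if_pos rfl] at p2 ⊢
    linarith
  · have e : |- hD q n 1| = |2 * tD n (q - 1) 1 - 2 * tD n q 1| := by
      rw [hD, if_neg (by rw [h]; decide), if_neg (by rw [h]; decide), abs_neg]
    rw [e]
    have := bound_one hq5 hn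
    rw [if_pos hn.two_le] at p3 ⊢
    linarith
  · have hny : y + 1 ≤ n := by
      by_contra hlt
      exact hJ ⟨by omega, h⟩
    rw [hD_one_neg hn h]
    have := bound_neg hn
    rw [if_pos (max_le hn.two_le hny)] at p1 ⊢
    linarith

/-- The Euler–Kronecker constant for `h = 2` in terms of `L'/L(1, χ)`. -/
theorem isEK_of_char {q : ℕ} [NeZero q] (hq : q.Prime) (hq5 : 5 ≤ q) (χ : DirichletCharacter ℂ q)
    (hχ : ∀ n : ℕ, χ (n : ZMod q) = ((jacobiSym (n : ℤ) q : ℤ) : ℂ)) :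
    ∃ E : ℝ, IsEKConstant ((q - 1) / 2) q ((Real.eulerMascheroniConstant
        + (deriv χ.LFunction 1 / χ.LFunction 1).re - E) / 2) ∧
      ∀ y : ℕ, y < q →
        |E - ∑ p ∈ (Finset.range (y + 1)).filter (fun p : ℕ => p.Prime ∧ jacobiSym (p : ℤ) q = -1),
          2 * Real.log p / ((p : ℝ) ^ 2 - 1)| ≤ 100 / Real.sqrt (y + 1) := by
  refine ⟨- logHD q 1, isEK hq hq5 χ hχ, fun y hy => ?_⟩
  set F := (Finset.range (y + 1)).filter (fun p : ℕ => p.Prime ∧ jacobiSym (p : ℤ) q = -1) with hF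
  have hsumF : ∑ p ∈ F, 2 * Real.log p / ((p : ℝ) ^ 2 - 1)
      = ∑' n, (if n ∈ F then - hD q n 1 else 0) := by
    rw [tsum_eq_sum (s := F) (fun n hn => if_neg hn)]
    refine Finset.sum_congr rfl fun p hp => ?_
    rw [if_pos hp]
    have h := (Finset.mem_filter.1 hp).2
    exact (hD_one_neg h.1 h.2).symm
  have hsF : Summable (fun n => if n ∈ F then - hD q n 1 else 0) :=
    summable_of_ne_finset_zero (s := F) (fun n hn => if_neg hn)
  rw [hsumF, tsum_ind, ← (summable_ind hq hq5).tsum_sub hsF]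
  have hv : HasSum (fun n : ℕ => 16 / 3 * (if max 2 (y + 1) ≤ n then w n else 0)
      + (if n = q then 5 / 2 / √((y : ℝ) + 1) else 0)
      + 96 * q * ((2 : ℝ) ^ q)⁻¹ * (if 2 ≤ n then w n else 0))
      (16 / 3 * (∑' n : ℕ, if max 2 (y + 1) ≤ n then w n else 0) + 5 / 2 / √((y : ℝ) + 1)
        + 96 * q * ((2 : ℝ) ^ q)⁻¹ * (∑' n : ℕ, if 2 ≤ n then w n else 0)) :=
    (((w_summable (le_max_left _ _)).hasSum.mul_left _).add (hasSum_ite_eq q _)).add
      ((w_summable le_rfl).hasSum.mul_left _)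
  have hbd := tsum_of_norm_bounded hv (f := fun n =>
    Set.indicator {p : ℕ | p.Prime} (fun n => - hD q n 1) n - (if n ∈ F then - hD q n 1 else 0)) (by
    intro n
    rw [Real.norm_eq_abs]
    have hnonneg : 0 ≤ 16 / 3 * (if max 2 (y + 1) ≤ n then w n else 0)
      + (if n = q then 5 / 2 / √((y : ℝ) + 1) else 0)
      + 96 * q * ((2 : ℝ) ^ q)⁻¹ * (if 2 ≤ n then w n else 0) := by
      have p1 : 0 ≤ 16 / 3 * (if max 2 (y + 1) ≤ n then w n else 0) :=
        mul_nonneg (by norm_num) (w_nonneg' _ _)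
      have p2 : 0 ≤ (if n = q then 5 / 2 / √((y : ℝ) + 1) else 0) := by
        split_ifs <;> positivity
      have p3 : 0 ≤ 96 * q * ((2 : ℝ) ^ q)⁻¹ * (if 2 ≤ n then w n else 0) :=
        mul_nonneg (by positivity) (w_nonneg' _ _)
      linarith
    by_cases hn : n.Prime
    · have hmem : n ∈ {p : ℕ | p.Prime} := hn
      rw [Set.indicator_of_mem hmem]
      by_cases hnF : n ∈ F
      · rw [if_pos hnF, sub_self, abs_zero]
        exact hnonneg
      · rw [if_neg hnF, sub_zero]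
        refine term_bound hq hq5 hy hn fun h => hnF ?_
        rw [hF, Finset.mem_filter, Finset.mem_range]
        exact ⟨by omega, hn, h.2⟩
    · have hmem : n ∉ {p : ℕ | p.Prime} := hn
      have hnF : n ∉ F := fun h => hn (Finset.mem_filter.1 h).2.1
      rw [Set.indicator_of_notMem hmem, if_neg hnF, sub_zero, abs_zero]
      exact hnonneg)
  rw [Real.norm_eq_abs] at hbd
  refine hbd.trans ?_
  have t1 := w_tsum_le (N := max 2 (y + 1)) (le_max_left _ _)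
  have t2 := w_tsum_le (N := 2) le_rfl
  have t3 := bound_q hq5 hy
  have hy0 : 0 < √((y : ℝ) + 1) := Real.sqrt_pos.2 (by positivity)
  have t4 : 2 / √(((max 2 (y + 1) : ℕ) : ℝ) - 1) ≤ 3 / √((y : ℝ) + 1) := by
    have hN1 : (y : ℝ) + 1 ≤ 2 * (((max 2 (y + 1) : ℕ) : ℝ) - 1) := by
      have a1 : y + 1 + 2 ≤ 2 * max 2 (y + 1) := by omega
      have a2 : ((y + 1 + 2 : ℕ) : ℝ) ≤ ((2 * max 2 (y + 1) : ℕ) : ℝ) := by exact_mod_cast a1
      push_cast at a2 ⊢
      linarith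
    have hN0 : 0 < ((max 2 (y + 1) : ℕ) : ℝ) - 1 := by
      have : (0 : ℝ) ≤ y := by positivity
      linarith
    have hs : 0 < √(((max 2 (y + 1) : ℕ) : ℝ) - 1) := Real.sqrt_pos.2 hN0
    have hle : √((y : ℝ) + 1) ≤ 3 / 2 * √(((max 2 (y + 1) : ℕ) : ℝ) - 1) := by
      rw [Real.sqrt_le_left (by positivity), mul_pow, Real.sq_sqrt hN0.le]
      linarith
    rw [div_le_div_iff₀ hs hy0]
    linarith
  have t5 : 2 / √(((2 : ℕ) : ℝ) - 1) = 2 := by norm_num
  rw [t5] at t2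
  have t6 : 96 * q * ((2 : ℝ) ^ q)⁻¹ * (∑' n : ℕ, if 2 ≤ n then w n else 0)
      ≤ 96 * q * ((2 : ℝ) ^ q)⁻¹ * 2 := by gcongr
  have t7 : 96 * q * ((2 : ℝ) ^ q)⁻¹ * 2 = 192 * q * ((2 : ℝ) ^ q)⁻¹ := by ring
  have t8 : 16 / 3 * (3 / √((y : ℝ) + 1)) + 5 / 2 / √((y : ℝ) + 1) + 70 / √((y : ℝ) + 1)
      ≤ 100 / √((y : ℝ) + 1) := by
    have : 16 / 3 * (3 / √((y : ℝ) + 1)) + 5 / 2 / √((y : ℝ) + 1) + 70 / √((y : ℝ) + 1)
      = (88 + 1 / 2) / √((y : ℝ) + 1) := by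
      field_simp
      norm_num
    rw [this]
    gcongr
    norm_num
  linarith

end Final

end Pool.Agent.Helper59.EKLimit
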