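import Mathlib

/-!
# Hilbert function of a quotient of a localisation
-/

set_option autoImplicit false

namespace Pool.Agent.Helper59.EbbaG

open IsLocalRing

section

variable {S : Type} [CommRing S] [Algebra ℂ S] (p : Ideal S) [p.IsPrime]

omit [p.IsPrime] in
/-- Elements outside `p` are nonzero constants modulo `p`. -/
lemma const_of_notMem (hres : ∀ s : S, ∃ c : ℂ, s - algebraMap ℂ S c ∈ p) {s : S} (hs : s ∉ p) :
    ∃ c : ℂ, c ≠ 0 ∧ s - algebraMap ℂ S c ∈ p := by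
  obtain ⟨c, hc⟩ := hres s
  refine ⟨c, ?_, hc⟩
  rintro rfl
  apply hs
  simpa using hc

lemma mem_of_algebraMap_mem (hres : ∀ s : S, ∃ c : ℂ, s - algebraMap ℂ S c ∈ p) (I : Ideal S)
    (i : ℕ) {f : S} (hf : f ∈ p ^ i)
    (h : algebraMap S (Localization.AtPrime p) f
      ∈ (I ⊔ p ^ (i + 1)).map (algebraMap S (Localization.AtPrime p))) : f ∈ I ⊔ p ^ (i + 1) := by
  obtain ⟨s, hs, hsf⟩ :=
    (IsLocalization.algebraMap_mem_map_algebraMap_iff p.primeCompl _ _ _).1 h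
  obtain ⟨c, hc0, hc⟩ := const_of_notMem p hres (s := s) hs
  have h1 : algebraMap ℂ S c * f ∈ I ⊔ p ^ (i + 1) := by
    have h2 : algebraMap ℂ S c * f = s * f - (s - algebraMap ℂ S c) * f := by ring
    rw [h2]
    refine Ideal.sub_mem _ hsf (Ideal.mem_sup_right ?_)
    rw [pow_succ']
    exact Ideal.mul_mem_mul hc hf
  have h3 : f = algebraMap ℂ S c⁻¹ * (algebraMap ℂ S c * f) := by
    rw [← mul_assoc, ← map_mul, inv_mul_cancel₀ hc0, map_one, one_mul]
  rw [h3]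
  exact Ideal.mul_mem_left _ _ h1

lemma exists_approx (hres : ∀ s : S, ∃ c : ℂ, s - algebraMap ℂ S c ∈ p)
    (i : ℕ) {y : Localization.AtPrime p} (hy : y ∈ (maximalIdeal (Localization.AtPrime p)) ^ i) :
    ∃ a ∈ p ^ i, y - algebraMap S (Localization.AtPrime p) a
      ∈ (maximalIdeal (Localization.AtPrime p)) ^ (i + 1) := by
  have hm : p.map (algebraMap S (Localization.AtPrime p))
    = maximalIdeal (Localization.AtPrime p) := Localization.AtPrime.map_eq_maximalIdeal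
  have hy' := hy
  rw [← hm, ← Ideal.map_pow, IsLocalization.mem_map_algebraMap_iff p.primeCompl] at hy'
  obtain ⟨⟨a, s⟩, has⟩ := hy'
  obtain ⟨c, hc0, hc⟩ := const_of_notMem p hres (s := s) s.2
  simp only at has
  refine ⟨algebraMap ℂ S c⁻¹ * a, Ideal.mul_mem_left _ _ a.2, ?_⟩
  have h1 : y - algebraMap S (Localization.AtPrime p) (algebraMap ℂ S c⁻¹ * a)
      = - (algebraMap S (Localization.AtPrime p) (algebraMap ℂ S c⁻¹)
        * (y * algebraMap S (Localization.AtPrime p) ((s : S) - algebraMap ℂ S c))) := by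
    have h2 : algebraMap S (Localization.AtPrime p) (algebraMap ℂ S c⁻¹)
      * algebraMap S (Localization.AtPrime p) (algebraMap ℂ S c) = 1 := by
      rw [← map_mul, ← map_mul, inv_mul_cancel₀ hc0, map_one, map_one]
    rw [map_mul, ← has, map_sub]
    linear_combination (-y) * h2
  rw [h1]
  refine neg_mem (Ideal.mul_mem_left _ _ ?_)
  rw [pow_succ]
  refine Ideal.mul_mem_mul hy ?_
  rw [← hm]
  exact Ideal.mem_map_of_mem _ hc

end

/-- The abstract version. -/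
lemma core {S R : Type} [CommRing S] [CommRing R] [Algebra ℂ S] [Algebra ℂ R] (φ : S →ₐ[ℂ] R)
    (p I : Ideal S) (m : Ideal R) (i : ℕ) {ι : Type} [Fintype ι] (B : ι → S)
    (hB : ∀ b, B b ∈ p ^ i)
    (hind : ∀ c : ι → ℂ, ∑ b, c b • B b ∈ I ⊔ p ^ (i + 1) → c = 0)
    (hspan : ∀ f ∈ p ^ i, ∃ c : ι → ℂ, f - ∑ b, c b • B b ∈ I ⊔ p ^ (i + 1))
    (h1 : ∀ f ∈ p ^ i, φ f ∈ m ^ i)
    (h2 : ∀ f ∈ p ^ i, φ f ∈ m ^ (i + 1) → f ∈ I ⊔ p ^ (i + 1))
    (h2' : ∀ f ∈ I ⊔ p ^ (i + 1), φ f ∈ m ^ (i + 1))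
    (h3 : ∀ x ∈ m ^ i, ∃ a ∈ p ^ i, x - φ a ∈ m ^ (i + 1)) :
    Module.finrank ℂ (↥(m ^ i) ⧸
      Submodule.comap (Submodule.subtype (m ^ i)) (m ^ (i + 1))) = Fintype.card ι := by
  classical
  set N : Submodule R ↥(m ^ i) := Submodule.comap (Submodule.subtype (m ^ i)) (m ^ (i + 1)) with hN
  let v : ι → ↥(m ^ i) := fun b => ⟨φ (B b), h1 _ (hB b)⟩
  let ψ₀ : (ι → ℂ) →ₗ[ℂ] ↥(m ^ i) := Fintype.linearCombination ℂ v
  let ψ : (ι → ℂ) →ₗ[ℂ] (↥(m ^ i) ⧸ N) := (N.mkQ.restrictScalars ℂ).comp ψ₀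
  have hcoe : ∀ c : ι → ℂ, ((ψ₀ c : ↥(m ^ i)) : R) = φ (∑ b, c b • B b) := by
    intro c
    change ((Fintype.linearCombination ℂ v c : ↥(m ^ i)) : R) = _
    rw [Fintype.linearCombination_apply, map_sum]
    have e : ∀ (t : Finset ι) (g : ι → ↥(m ^ i)), ((∑ b ∈ t, g b : ↥(m ^ i)) : R)
        = ∑ b ∈ t, (g b : R) := by
      intro t g
      exact map_sum (Submodule.subtype (m ^ i)) g t
    rw [e]
    refine Finset.sum_congr rfl fun b _ => ?_
    rw [map_smul]
    rfl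
  have hmem : ∀ c : ι → ℂ, ∑ b, c b • B b ∈ p ^ i := by
    intro c
    refine Ideal.sum_mem _ fun b _ => ?_
    rw [Algebra.smul_def]
    exact Ideal.mul_mem_left _ _ (hB b)
  have hinj : Function.Injective ψ := by
    rw [← LinearMap.ker_eq_bot, LinearMap.ker_eq_bot']
    intro c hc
    apply hind
    apply h2 _ (hmem c)
    have h4 : N.mkQ (ψ₀ c) = 0 := hc
    rw [Submodule.mkQ_apply, Submodule.Quotient.mk_eq_zero, hN, Submodule.mem_comap] at h4
    rw [← hcoe]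
    exact h4
  have hsur : Function.Surjective ψ := by
    intro z
    obtain ⟨x, rfl⟩ := Submodule.Quotient.mk_surjective N z
    obtain ⟨a, ha, hxa⟩ := h3 x.1 x.2
    obtain ⟨c, hc⟩ := hspan a ha
    refine ⟨c, ?_⟩
    change N.mkQ (ψ₀ c) = _
    rw [Submodule.mkQ_apply, Submodule.Quotient.eq, hN, Submodule.mem_comap]
    have h5 : (Submodule.subtype (m ^ i)) (ψ₀ c - x)
        = -((x.1 - φ a) + φ (a - ∑ b, c b • B b)) := by
      rw [map_sub, map_sub]
      change ((ψ₀ c : ↥(m ^ i)) : R) - x.1 = _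
      rw [hcoe]
      ring
    rw [h5]
    exact neg_mem (add_mem hxa (h2' _ hc))
  have e := (LinearEquiv.ofBijective ψ ⟨hinj, hsur⟩).finrank_eq
  rw [← e, Module.finrank_fintype_fun_eq_card]

/-- Module G (general algebra). -/
theorem finrank_gr {S : Type} [CommRing S] [Algebra ℂ S] (p : Ideal S) [p.IsPrime]
    (hres : ∀ s : S, ∃ c : ℂ, s - algebraMap ℂ S c ∈ p) (I : Ideal S) (i : ℕ)
    {ι : Type} [Fintype ι] (B : ι → S) (hB : ∀ b, B b ∈ p ^ i)
    (hind : ∀ c : ι → ℂ, ∑ b, c b • B b ∈ I ⊔ p ^ (i + 1) → c = 0)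
    (hspan : ∀ f ∈ p ^ i, ∃ c : ι → ℂ, f - ∑ b, c b • B b ∈ I ⊔ p ^ (i + 1))
    (m : Ideal (Localization.AtPrime p ⧸ I.map (algebraMap S (Localization.AtPrime p))))
    (hm : m = (IsLocalRing.maximalIdeal (Localization.AtPrime p)).map (Ideal.Quotient.mk _)) :
    Module.finrank ℂ (↥(m ^ i) ⧸
      Submodule.comap (Submodule.subtype (m ^ i)) (m ^ (i + 1))) = Fintype.card ι := by
  have hmax : p.map (algebraMap S (Localization.AtPrime p))
    = maximalIdeal (Localization.AtPrime p) := Localization.AtPrime.map_eq_maximalIdeal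
  have hsurj : Function.Surjective
    (Ideal.Quotient.mk (I.map (algebraMap S (Localization.AtPrime p)))) :=
    Ideal.Quotient.mk_surjective
  have hmpow : ∀ j, m ^ j = ((maximalIdeal (Localization.AtPrime p)) ^ j).map
      (Ideal.Quotient.mk (I.map (algebraMap S (Localization.AtPrime p)))) := by
    intro j
    rw [hm, Ideal.map_pow]
  -- membership criterion
  have hcrit : ∀ y : Localization.AtPrime p, ∀ j, Ideal.Quotient.mk _ y ∈ m ^ j ↔
      y ∈ (I ⊔ p ^ j).map (algebraMap S (Localization.AtPrime p)) := by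
    intro y j
    rw [hmpow, Ideal.mem_quotient_iff_mem_sup, Ideal.map_sup, Ideal.map_pow, hmax, sup_comm]
  let φ : S →ₐ[ℂ] (Localization.AtPrime p ⧸ I.map (algebraMap S (Localization.AtPrime p))) :=
    (Ideal.Quotient.mkₐ ℂ _).comp (IsScalarTower.toAlgHom ℂ S (Localization.AtPrime p))
  have hφ : ∀ f, φ f = Ideal.Quotient.mk _ (algebraMap S (Localization.AtPrime p) f) :=
    fun f => rfl
  refine core φ p I m i B hB hind hspan ?_ ?_ ?_ ?_
  · intro f hf
    rw [hφ, hcrit]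
    exact Ideal.mem_map_of_mem _ (Ideal.mem_sup_right hf)
  · intro f hf h
    rw [hφ, hcrit] at h
    exact mem_of_algebraMap_mem p hres I i hf h
  · intro f hf
    rw [hφ, hcrit]
    exact Ideal.mem_map_of_mem _ hf
  · intro x hx
    rw [hmpow, Ideal.mem_map_iff_of_surjective _ hsurj] at hx
    obtain ⟨y, hy, rfl⟩ := hx
    obtain ⟨a, ha, hya⟩ := exists_approx p hres i hy
    refine ⟨a, ha, ?_⟩
    rw [hφ, ← map_sub, hmpow]
    exact Ideal.mem_map_of_mem _ hya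

end Pool.Agent.Helper59.EbbaG
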